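import Pool.Agent.ZX.Defs

set_option linter.style.longLine false

/-! The germs of the sheets; the relations between the sheets. -/

namespace ZX

open MvPowerSeries H9.Zar

universe v

theorem constantCoeff_germ {k : Type v} [Field k] {r : ℕ} (Q : Fin (r + 1) → k)
    (p : MvPolynomial (Fin (r + 1)) k) :
    constantCoeff (germ Q p) = MvPolynomial.eval Q p := by
  have h : ((constantCoeff (σ := Fin (r + 1)) (R := k)).comp (germ Q).toRingHom) =
      MvPolynomial.eval Q := by
    apply MvPolynomial.ringHom_ext
    · intro a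
      simp [germ, MvPowerSeries.algebraMap_apply]
    · intro i
      simp [germ]
  exact RingHom.congr_fun h p

theorem germ_Fpol {k : Type v} [Field k] (Q : Fin (6 + 1) → k) :
    germ Q (Fpol k) = ∏ i, germ Q (FF k i) := by
  rw [Fpol, map_prod]

theorem germ_FF_B {k : Type v} [Field k] (Q : Fin (6 + 1) → k) (h0 : Q 0 = 0) (h1 : Q 1 = 0)
    (h2 : Q 2 = 0) (h3 : Q 3 = 0) (i : Fin 8) :
    germ Q (FF k i) = ff (fun j => Q (yi j)) i := by
  have hX : ∀ j : Fin (6 + 1), germ Q (MvPolynomial.X j) = X j + C (Q j) := fun j => by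
    simp [germ]
  have hif : ∀ a : MvPolynomial (Fin (6 + 1)) k, germ Q (if i = 0 then a else 0) =
      if i = 0 then germ Q a else 0 := fun a => by
    split_ifs
    · rfl
    · exact map_zero _
  simp only [FF, ff, bv, cv, xx, map_sub, map_mul, map_add, map_intCast, hif, hX, h0, h1, h2, h3,
    map_zero, add_zero, sg, tg]
  simp only [yi, Matrix.cons_val_zero, Matrix.cons_val_one, Matrix.cons_val]

/-- `(a_i - a_j) F_m = (a_m - a_j) F_i + (a_i - a_m) F_j - e (beta r + gamma e)` -/
theorem FF_rel (k : Type v) [Field k] (i j m : Fin 8) :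
    ((aa i : MvPolynomial (Fin (6 + 1)) k) - aa j) * FF k m =
      ((aa m : MvPolynomial (Fin (6 + 1)) k) - aa j) * FF k i +
      ((aa i : MvPolynomial (Fin (6 + 1)) k) - aa m) * FF k j -
      xx k 3 * (oo (bv (xx k 4)) i j m * xx k 2 + oo (cv (xx k 5 * xx k 6)) i j m * xx k 3) := by
  simp only [FF, oo]
  ring

/-- the slope of the triple of sheets -/
theorem dd_tri {R : Type*} [CommRing R] (z t : R) (x : Fin 8 → R) (i j m : Fin 8) :
    dd z t x ((i, j), (i, m)) = (z - (aa i : R) * t) * oo x i j m := by
  simp only [dd, nn, oo]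
  ring

private theorem aa_inj : Function.Injective aa := by decide

/-- the substitution `X_0 -> X_0 + g` -/
private noncomputable def shift (k : Type v) [Field k] (g : MvPolynomial (Fin (6 + 1)) k) :
    MvPolynomial (Fin (6 + 1)) k →ₐ[k] MvPolynomial (Fin (6 + 1)) k :=
  MvPolynomial.aeval fun j => if j = 0 then MvPolynomial.X 0 + g else MvPolynomial.X j

private theorem shift_FF (k : Type v) [Field k] (g : MvPolynomial (Fin (6 + 1)) k)
    (i : Fin 8) : shift k g (FF k i) = FF k i + g := by
  have hX : ∀ j : Fin (6 + 1), j ≠ 0 → shift k g (MvPolynomial.X j) = MvPolynomial.X j :=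
    fun j hj => by simp [shift, hj]
  have h0 : shift k g (MvPolynomial.X 0) = MvPolynomial.X 0 + g := by simp [shift]
  have hif : ∀ a : MvPolynomial (Fin (6 + 1)) k, shift k g (if i = 0 then a else 0) =
      if i = 0 then shift k g a else 0 := fun a => by
    split_ifs
    · rfl
    · exact map_zero _
  simp only [FF, bv, cv, xx, map_sub, map_mul, map_add, map_intCast, hif, h0, hX 1 (by decide),
    hX 2 (by decide), hX 3 (by decide), hX 4 (by decide), hX 5 (by decide), hX 6 (by decide)]
  ring

private theorem FF_prime (k : Type v) [Field k] (i : Fin 8) : Prime (FF k i) := by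
  set g : MvPolynomial (Fin (6 + 1)) k := xx k 0 - FF k i with hg
  have hF : FF k i = xx k 0 - g := by rw [hg]; ring
  have h0 : ∀ g, shift k g (MvPolynomial.X 0) = MvPolynomial.X 0 + g := fun g => by simp [shift]
  have hs : ∀ c, shift k c g = g := fun c => by
    rw [hg, map_sub, shift_FF]
    simp only [xx, h0]
    ring
  have hcomp : ∀ c, shift k c c = c → (shift k c).comp (shift k (-c)) = AlgHom.id k _ := by
    intro c hc
    apply MvPolynomial.algHom_ext
    intro j
    by_cases hj : j = 0
    · subst hj
      simp only [AlgHom.comp_apply, h0, map_add, map_neg, hc, AlgHom.id_apply]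
      ring
    · simp [shift, hj]
  have hcomp2 : (shift k (-g)).comp (shift k g) = AlgHom.id k _ := by
    have := hcomp (-g) (by rw [map_neg, hs])
    rwa [neg_neg] at this
  let e : MvPolynomial (Fin (6 + 1)) k ≃ₐ[k] MvPolynomial (Fin (6 + 1)) k :=
    AlgEquiv.ofAlgHom (shift k (-g)) (shift k g) hcomp2 (hcomp g (hs g))
  have he : e (MvPolynomial.X 0) = FF k i := by
    change shift k (-g) (MvPolynomial.X 0) = _
    rw [h0, hF]
    ring
  rw [← he, MulEquiv.prime_iff e]
  exact MvPolynomial.X_prime

theorem squarefree_Fpol (k : Type v) [Field k] [CharZero k] : Squarefree (Fpol k) := by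
  have hne : ∀ i j : Fin 8, i ≠ j → IsRelPrime (FF k i) (FF k j) := by
    intro i j hij
    rw [(FF_prime k i).irreducible.isRelPrime_iff_not_dvd]
    intro hd
    let Q : Fin (6 + 1) → k := ![(aa i : k), 1, 0, 0, 0, 0, 0]
    have hQ : ∀ m, MvPolynomial.eval Q (FF k m) = (aa i : k) - aa m := by
      intro m
      simp [FF, xx, Q]
    have := map_dvd (MvPolynomial.eval Q) hd
    rw [hQ, hQ, sub_self, zero_dvd_iff, sub_eq_zero, Int.cast_inj] at this
    exact hij (aa_inj this)
  have key : ∀ s : Finset (Fin 8), Squarefree (∏ i ∈ s, FF k i) := by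
    intro s
    induction s using Finset.induction_on with
    | empty => simp
    | insert a s ha ih =>
      rw [Finset.prod_insert ha, squarefree_mul_iff]
      refine ⟨IsRelPrime.prod_right fun i hi => hne a i ?_, (FF_prime k a).irreducible.squarefree,
        ih⟩
      rintro rfl
      exact ha hi
  exact key Finset.univ

end ZX
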