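import Pool.Agent.ZX.Defs
import Pool.Agent.H85.Zar.Discr

set_option autoImplicit false
set_option linter.style.longLine false

/-!
The reduced discriminant of a product of monic linear polynomials.
-/

namespace ZX

open MvPowerSeries H9.Zar

universe v

/-- the prime ideals that contain the discriminant of a product of linear polynomials -/
theorem rd_mem_iff {R : Type*} [CommRing R] {ι : Type*} [Fintype ι] (g : ι → R) (p : Ideal R)
    (hp : p.IsPrime) :
    (∏ i, (Polynomial.X - Polynomial.C (g i))).discr ∈ p ↔ ∃ i j, i ≠ j ∧ g i - g j ∈ p := by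
  let φ : R →+* FractionRing (R ⧸ p) :=
    (algebraMap (R ⧸ p) (FractionRing (R ⧸ p))).comp (Ideal.Quotient.mk p)
  have hφ : ∀ x, φ x = 0 ↔ x ∈ p := by
    intro x
    rw [RingHom.comp_apply, ← Ideal.Quotient.eq_zero_iff_mem]
    exact (map_eq_zero_iff _ (IsFractionRing.injective (R ⧸ p) (FractionRing (R ⧸ p))))
  have hG : (∏ i, (Polynomial.X - Polynomial.C (g i))).Monic :=
    Polynomial.monic_prod_X_sub_C g Finset.univ
  rw [← hφ, ← H85.Zar.discr_map φ hG, H85.Zar.discr_eq_zero_iff (hG.map φ), Polynomial.map_prod]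
  have h1 : ∏ i, Polynomial.map φ (Polynomial.X - Polynomial.C (g i)) =
      ∏ i, (Polynomial.X - Polynomial.C (φ (g i))) := by
    refine Finset.prod_congr rfl fun i _ => ?_
    rw [Polynomial.map_sub, Polynomial.map_X, Polynomial.map_C]
  rw [h1, Polynomial.separable_prod_X_sub_C_iff]
  constructor
  · intro h
    by_contra hne
    apply h
    intro i j hij
    by_contra hij'
    apply hne
    refine ⟨i, j, hij', ?_⟩
    rw [← hφ, map_sub, sub_eq_zero]
    exact hij
  · rintro ⟨i, j, hij, hm⟩ hinj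
    rw [← hφ, map_sub, sub_eq_zero] at hm
    exact hij (hinj hm)

/-- a divisor of a product of primes, none of which divides it, is a unit -/
theorem rd_isUnit {R : Type*} [CommRing R] [IsDomain R] (x : R) (s : Multiset R)
    (hs : ∀ q ∈ s, Prime q) (hx : ∀ q ∈ s, ¬ q ∣ x) (h : x ∣ s.prod) : IsUnit x := by
  induction s using Multiset.induction with
  | empty => exact isUnit_of_dvd_one (by simpa using h)
  | cons q s ih =>
    apply ih (fun c hc => hs c (Multiset.mem_cons_of_mem hc))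
      (fun c hc => hx c (Multiset.mem_cons_of_mem hc))
    rw [Multiset.prod_cons] at h
    obtain ⟨y, hy⟩ := h
    have hq := hs q (Multiset.mem_cons_self q s)
    have h1 : q ∣ x * y := ⟨s.prod, hy.symm⟩
    rcases hq.dvd_or_dvd h1 with h2 | h2
    · exact absurd h2 (hx q (Multiset.mem_cons_self q s))
    · obtain ⟨y', rfl⟩ := h2
      refine ⟨y', mul_left_cancel₀ hq.ne_zero ?_⟩
      rw [hy]
      ring

theorem rd_isUnit_pow {R : Type*} [CommRing R] [IsDomain R] {κ : Type*} [Fintype κ] (q : κ → R)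
    (hq : ∀ c, Prime (q c)) (x : R) (hx : ∀ c, ¬ q c ∣ x) (N : ℕ) (h : x ∣ (∏ c, q c) ^ N) :
    IsUnit x := by
  refine rd_isUnit x (N • (Finset.univ.val.map q)) ?_ ?_ ?_
  · intro c hc
    obtain ⟨d, -, rfl⟩ := Multiset.mem_map.1 (Multiset.mem_of_mem_nsmul hc)
    exact hq d
  · intro c hc
    obtain ⟨d, -, rfl⟩ := Multiset.mem_map.1 (Multiset.mem_of_mem_nsmul hc)
    exact hx d
  · rw [Multiset.prod_nsmul]
    exact h

/-- pairwise nonassociated primes: the product divides what all of them divide -/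
theorem rd_prod_dvd {R : Type*} [CommRing R] [IsDomain R] {κ : Type*} (q : κ → R)
    (hq : ∀ c, Prime (q c)) (hqq : ∀ c c', c ≠ c' → ¬ Associated (q c) (q c')) (x : R)
    (hx : ∀ c, q c ∣ x) (s : Finset κ) : ∏ c ∈ s, q c ∣ x := by
  classical
  induction s using Finset.induction with
  | empty =>
    rw [Finset.prod_empty]
    exact one_dvd x
  | insert c s hc ih =>
    rw [Finset.prod_insert hc]
    obtain ⟨y, hy⟩ := ih
    have h1 : q c ∣ (∏ c ∈ s, q c) * y := by
      rw [← hy]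
      exact hx c
    rcases (hq c).dvd_or_dvd h1 with h2 | ⟨y', rfl⟩
    · exfalso
      obtain ⟨d, hd, h3⟩ := (Prime.dvd_finsetProd_iff (hq c) q).1 h2
      refine hqq c d ?_ (((hq c).dvd_prime_iff_associated (hq d)).1 h3)
      rintro rfl
      exact hc hd
    · exact ⟨y', by rw [hy]; ring⟩

theorem rd_not_sq_dvd {R : Type*} [CommRing R] [IsDomain R] {κ : Type*} [Fintype κ] (q : κ → R)
    (hq : ∀ c, Prime (q c)) (hqq : ∀ c c', c ≠ c' → ¬ Associated (q c) (q c')) (c : κ) :
    ¬ q c * q c ∣ ∏ c, q c := by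
  classical
  rintro ⟨y, hy⟩
  rw [← Finset.mul_prod_erase _ _ (Finset.mem_univ c), mul_assoc] at hy
  have h1 := mul_left_cancel₀ (hq c).ne_zero hy
  obtain ⟨d, hd, h3⟩ := (Prime.dvd_finsetProd_iff (hq c) q).1 ⟨y, h1⟩
  refine hqq c d ?_ (((hq c).dvd_prime_iff_associated (hq d)).1 h3)
  rintro rfl
  exact Finset.ne_of_mem_erase hd rfl

theorem redDiscr_prod {R : Type v} [CommRing R] [IsDomain R] {ι κ : Type*} [Fintype ι] [Fintype κ]
    (g : ι → R) (q : κ → R) (hq : ∀ c, Prime (q c))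
    (hqq : ∀ c c', c ≠ c' → ¬ Associated (q c) (q c'))
    (h1 : ∀ i j, i ≠ j → ∃ e : κ → ℕ, Associated (g i - g j) (∏ c, q c ^ e c))
    (h2 : ∀ c, ∃ i j, i ≠ j ∧ q c ∣ g i - g j) :
    IsRedDiscr (∏ i, (Polynomial.X - Polynomial.C (g i))) (∏ c, q c) ∧
      ∀ D, IsRedDiscr (∏ i, (Polynomial.X - Polynomial.C (g i))) D → Associated D (∏ c, q c) := by
  classical
  set Δ := (∏ i, (Polynomial.X - Polynomial.C (g i))).discr with hΔ
  have hqΔ : ∀ c, q c ∣ Δ := by
    intro c
    have hp : (Ideal.span {q c}).IsPrime :=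
      (Ideal.span_singleton_prime (hq c).ne_zero).2 (hq c)
    rw [← Ideal.mem_span_singleton, hΔ, rd_mem_iff g _ hp]
    obtain ⟨i, j, hij, h⟩ := h2 c
    exact ⟨i, j, hij, Ideal.mem_span_singleton.2 h⟩
  have hdvd : ∃ b, Δ ∣ (∏ c, q c) ^ b := by
    have hrad : (∏ c, q c) ∈ (Ideal.span {Δ}).radical := by
      rw [Ideal.radical_eq_sInf, Submodule.mem_sInf]
      rintro (p : Ideal R) ⟨hle, hp⟩
      have hp' : p.IsPrime := hp
      have hΔp : Δ ∈ p := hle (Ideal.subset_span rfl)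
      rw [hΔ, rd_mem_iff g p hp'] at hΔp
      obtain ⟨i, j, hij, h⟩ := hΔp
      obtain ⟨e, he⟩ := h1 i j hij
      have h3 : ∏ c, q c ^ e c ∈ p := by
        obtain ⟨u, hu⟩ := he
        rw [← hu]
        exact Ideal.mul_mem_right _ _ h
      obtain ⟨c, -, hc⟩ := (hp'.prod_mem_iff).1 h3
      have h4 : q c ∈ p := hp'.mem_of_pow_mem _ hc
      rw [← Finset.mul_prod_erase _ _ (Finset.mem_univ c)]
      exact Ideal.mul_mem_right _ _ h4
    obtain ⟨N, hN⟩ := hrad
    exact ⟨N, Ideal.mem_span_singleton.1 hN⟩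
  have hprod : (∏ c, q c) ∣ Δ := rd_prod_dvd q hq hqq Δ hqΔ Finset.univ
  refine ⟨⟨?_, ⟨1, by rw [pow_one]; exact hprod⟩, hdvd⟩, ?_⟩
  · intro x hx
    refine rd_isUnit_pow q hq x (fun c hc => ?_) 1 (by
      rw [pow_one]
      exact (dvd_mul_right x x).trans hx)
    exact rd_not_sq_dvd q hq hqq c ((mul_dvd_mul hc hc).trans hx)
  · rintro D ⟨hD, ⟨a, ha⟩, ⟨b, hb⟩⟩
    obtain ⟨b', hb'⟩ := hdvd
    have h3 : ∀ c, q c ∣ D := fun c => (hq c).dvd_of_dvd_pow ((hqΔ c).trans hb)
    obtain ⟨x, hx⟩ := rd_prod_dvd q hq hqq D h3 Finset.univ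
    have h4 : IsUnit x := by
      refine rd_isUnit_pow q hq x (fun c hc => ?_) (b' * a) ?_
      · have h5 : q c * q c ∣ D := by
          rw [hx]
          exact mul_dvd_mul (Finset.dvd_prod_of_mem q (Finset.mem_univ c)) hc
        exact (hq c).not_isUnit (hD _ h5)
      · have h5 : x ∣ D := by
          rw [hx]
          exact dvd_mul_left x _
        refine h5.trans (ha.trans ?_)
        rw [pow_mul]
        exact pow_dvd_pow_of_dvd hb' a
    obtain ⟨u, rfl⟩ := h4
    exact ⟨u⁻¹, by rw [hx, mul_assoc, Units.mul_inv, mul_one]⟩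

end ZX
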