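import Pool.Agent.ZX.Defs
import Pool.Agent.H9.Zar.Step
import Pool.Agent.ZX.RedDiscr

set_option linter.style.longLine false

/-! The discriminant of a product of smooth germs transversal to the projection. -/

namespace ZX

open MvPowerSeries H9.Zar

universe v

/-- A product of linear factors with roots in the ideal is distinguished. -/
private theorem distinguished_prod {R : Type*} [CommRing R] [Nontrivial R] (I : Ideal R)
    {ι : Type*} (s : Finset ι) (g : ι → R) (hg : ∀ i ∈ s, g i ∈ I) :
    (∏ i ∈ s, (Polynomial.X - Polynomial.C (g i))).IsDistinguishedAt I := by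
  classical
  induction s using Finset.induction_on with
  | empty =>
    rw [Finset.prod_empty]
    refine ⟨⟨fun {m} hm => ?_⟩, Polynomial.monic_one⟩
    rw [Polynomial.natDegree_one] at hm
    exact absurd hm (Nat.not_lt_zero _)
  | insert a s ha ih =>
    rw [Finset.prod_insert ha]
    refine Polynomial.IsDistinguishedAt.mul ?_ (ih fun i hi => hg i (Finset.mem_insert_of_mem hi))
    refine ⟨⟨fun {m} hm => ?_⟩, Polynomial.monic_X_sub_C _⟩
    rw [Polynomial.natDegree_X_sub_C] at hm
    obtain rfl : m = 0 := by omega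
    rw [Polynomial.coeff_sub, Polynomial.coeff_X_zero, Polynomial.coeff_C_zero, zero_sub]
    exact I.neg_mem (hg a (Finset.mem_insert_self _ _))

/-- Uniqueness of the equation of a germ. -/
private theorem isEq_unique {n : ℕ} {K : Type v} [Field K] (Θ : ProjIso n K)
    (f : MvPowerSeries (Fin (n + 1)) K) (G G0 : Polynomial (MvPowerSeries (Fin n) K))
    (h : IsEq Θ f G) (h0 : IsEq Θ f G0) : G = G0 := by
  have hAC : IsAdicComplete (IsLocalRing.maximalIdeal (MvPowerSeries (Fin n) K))
    (MvPowerSeries (Fin n) K) := adicComplete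
  have h1 : Associated (Θ (G : PowerSeries (MvPowerSeries (Fin n) K)))
      (Θ (G0 : PowerSeries (MvPowerSeries (Fin n) K))) := h.2.symm.trans h0.2
  have h2 : Associated (G : PowerSeries (MvPowerSeries (Fin n) K))
      (G0 : PowerSeries (MvPowerSeries (Fin n) K)) := by
    have := h1.map Θ.symm
    rwa [AlgEquiv.symm_apply_apply, AlgEquiv.symm_apply_apply] at this
  obtain ⟨u, hu⟩ := h2
  have f1 : PowerSeries.IsWeierstrassFactorization
      (G0 : PowerSeries (MvPowerSeries (Fin n) K)) G (u : PowerSeries (MvPowerSeries (Fin n) K)) :=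
    ⟨h.1, u.isUnit, hu.symm⟩
  have f2 : PowerSeries.IsWeierstrassFactorization
      (G0 : PowerSeries (MvPowerSeries (Fin n) K)) G0 1 :=
    ⟨h0.1, isUnit_one, (mul_one _).symm⟩
  exact (f1.elim f2).1

/-- The restriction of one sheet to another. -/
private theorem sheet_assoc {n : ℕ} {K : Type v} [Field K] {Θ : ProjIso n K}
    {P P' : MvPowerSeries (Fin (n + 1)) K} (S : Sheet Θ P) (S' : Sheet Θ P') :
    Associated (S.g - S'.g) (S.π P') := by
  have h : S.π P' = S.π S'.U * (S.g - S'.g) := by
    have h2 := congrArg S.π S'.eq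
    rwa [map_mul, map_sub, S.πX, S.πC] at h2
  rw [h, mul_comm]
  exact associated_mul_unit_right _ _ (S'.hU.map S.π)

theorem core_discr {n : ℕ} {k : Type v} [Field k] {ι κ : Type*} [Fintype ι] [Fintype κ]
    (f : MvPowerSeries (Fin (n + 1)) k) (p : ι → MvPowerSeries (Fin (n + 1)) k)
    (hf : Associated f (∏ i, p i)) (Θ : ProjIso n (GenField n k))
    (S : ∀ i, Sheet Θ (ext n k (p i))) (q : κ → MvPowerSeries (Fin n) (GenField n k))
    (hq : ∀ c, Prime (q c)) (hqq : ∀ c c', c ≠ c' → ¬ Associated (q c) (q c'))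
    (h1 : ∀ i j, i ≠ j → ∃ e : κ → ℕ, Associated ((S i).π (ext n k (p j))) (∏ c, q c ^ e c))
    (h2 : ∀ c, ∃ i j, i ≠ j ∧ q c ∣ (S i).π (ext n k (p j))) :
    DiscrIs f Θ (∏ c, q c) := by
  have hdist : (∏ i, (Polynomial.X - Polynomial.C (S i).g)).IsDistinguishedAt
      (IsLocalRing.maximalIdeal (MvPowerSeries (Fin n) (GenField n k))) := by
    refine distinguished_prod _ _ _ fun i _ => ?_
    rw [IsLocalRing.mem_maximalIdeal, mem_nonunits_iff, MvPowerSeries.isUnit_iff_constantCoeff,
      (S i).g0]
    exact not_isUnit_zero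
  have hcoe : ((∏ i, (Polynomial.X - Polynomial.C (S i).g) :
      Polynomial (MvPowerSeries (Fin n) (GenField n k))) :
        PowerSeries (MvPowerSeries (Fin n) (GenField n k))) =
      ∏ i, (PowerSeries.X - PowerSeries.C (S i).g) := by
    rw [← Polynomial.coeToPowerSeries.ringHom_apply, map_prod]
    refine Finset.prod_congr rfl fun i _ => ?_
    rw [Polynomial.coeToPowerSeries.ringHom_apply, Polynomial.coe_sub, Polynomial.coe_X,
      Polynomial.coe_C]
  have hass : Associated (ext n k f) (Θ ((∏ i, (Polynomial.X - Polynomial.C (S i).g) :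
      Polynomial (MvPowerSeries (Fin n) (GenField n k))) :
        PowerSeries (MvPowerSeries (Fin n) (GenField n k)))) := by
    have e1 : Associated (ext n k f) (∏ i, ext n k (p i)) := by
      have := hf.map (ext n k)
      rwa [map_prod] at this
    have e2 : ∏ i, ext n k (p i) = (∏ i, (S i).U) *
        Θ ((∏ i, (Polynomial.X - Polynomial.C (S i).g) :
          Polynomial (MvPowerSeries (Fin n) (GenField n k))) :
          PowerSeries (MvPowerSeries (Fin n) (GenField n k))) := by
      rw [hcoe, map_prod, ← Finset.prod_mul_distrib]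
      refine Finset.prod_congr rfl fun i _ => ?_
      rw [map_sub]
      exact (S i).eq
    have e3 : IsUnit (∏ i, (S i).U) :=
      Finset.prod_induction _ IsUnit (fun _ _ h h' => h.mul h') isUnit_one fun i _ => (S i).hU
    refine e1.trans ?_
    rw [e2, mul_comm]
    exact (associated_mul_unit_right _ _ e3).symm
  have hEq : IsEq Θ (ext n k f) (∏ i, (Polynomial.X - Polynomial.C (S i).g)) := ⟨hdist, hass⟩
  have hdom : IsDomain (MvPowerSeries (Fin n) (GenField n k)) := NoZeroDivisors.to_isDomain _
  obtain ⟨hr1, hr2⟩ := redDiscr_prod (fun i => (S i).g) q hq hqq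
    (fun i j hij => by
      obtain ⟨e, he⟩ := h1 i j hij
      exact ⟨e, (sheet_assoc (S i) (S j)).trans he⟩)
    (fun c => by
      obtain ⟨i, j, hij, hd⟩ := h2 c
      exact ⟨i, j, hij, (sheet_assoc (S i) (S j)).dvd_iff_dvd_right.2 hd⟩)
  refine ⟨⟨_, hEq, hr1⟩, fun G D hG hD => ?_⟩
  have := isEq_unique Θ (ext n k f) G _ hG hEq
  rw [this] at hD
  exact hr2 D hD

end ZX
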