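import Pool.Agent.ZX.Defs
import Pool.Agent.H85.Zar.Coord

set_option linter.style.longLine false

/-! A simple germ is transversal to the generic direction. -/

namespace ZX

open MvPowerSeries H9.Zar

universe v

/-- the rows `u_i` and one constant row -/
noncomputable def genMat (n : ℕ) (k : Type v) [Field k] (c : Fin (n + 1) → k) :
    Matrix (Fin (n + 1)) (Fin (n + 1)) (MvPolynomial (Fin n × Fin (n + 1)) k) :=
  Matrix.of fun i j => Fin.lastCases (motive := fun _ => MvPolynomial (Fin n × Fin (n + 1)) k)
    (MvPolynomial.C (c j)) (fun i => MvPolynomial.X (i, j)) i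

theorem det_genMat (n : ℕ) (k : Type v) [Field k] (c : Fin (n + 1) → k) (j0 : Fin (n + 1))
    (hc : c j0 ≠ 0) : (genMat n k c).det ≠ 0 := by
  classical
  intro h
  let e : MvPolynomial (Fin n × Fin (n + 1)) k →+* k :=
    MvPolynomial.eval (fun p => if p.2 = j0.succAbove p.1 then 1 else 0)
  have h2 := congrArg e h
  rw [RingHom.map_det, map_zero, ← Matrix.exists_mulVec_eq_zero_iff] at h2
  obtain ⟨w, hw, h3⟩ := h2
  apply hw
  have hcast : ∀ i : Fin n, w (j0.succAbove i) = 0 := by
    intro i
    have h4 := congrFun h3 i.castSucc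
    rw [Matrix.mulVec, dotProduct] at h4
    simp only [RingHom.mapMatrix_apply, Matrix.map_apply, genMat, Matrix.of_apply,
      Fin.lastCases_castSucc] at h4
    have h5 : ∀ j, e (MvPolynomial.X (i, j)) = if j = j0.succAbove i then 1 else 0 := by
      intro j
      exact MvPolynomial.eval_X _
    simp only [h5, ite_mul, one_mul, zero_mul, Finset.sum_ite_eq', Finset.mem_univ, if_true,
      Pi.zero_apply] at h4
    exact h4
  have hlast : w j0 = 0 := by
    have h4 := congrFun h3 (Fin.last n)
    rw [Matrix.mulVec, dotProduct] at h4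
    simp only [RingHom.mapMatrix_apply, Matrix.map_apply, genMat, Matrix.of_apply,
      Fin.lastCases_last] at h4
    have h5 : ∀ j, e (MvPolynomial.C (c j)) = c j := fun j => MvPolynomial.eval_C _
    simp only [h5, Pi.zero_apply] at h4
    rw [Fin.sum_univ_succAbove _ j0] at h4
    simp only [hcast, mul_zero, Finset.sum_const_zero, add_zero] at h4
    exact (mul_eq_zero.1 h4).resolve_left hc
  funext j
  rcases eq_or_ne j j0 with h | h
  · rw [h, hlast]; rfl
  · obtain ⟨i, rfl⟩ := Fin.exists_succAbove_eq h
    rw [hcast]; rfl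

theorem constantCoeff_algEquiv {n : ℕ} {k : Type v} [Field k] (φ : SerAut n k)
    (f : MvPowerSeries (Fin n) k) (h : constantCoeff f = 0) : constantCoeff (φ f) = 0 := by
  by_contra h1
  have h2 : IsUnit (φ f) := MvPowerSeries.isUnit_iff_constantCoeff.mpr (isUnit_iff_ne_zero.mpr h1)
  have h3 : IsUnit f := by
    have h4 := h2.map φ.symm
    rwa [AlgEquiv.symm_apply_apply] at h4
  have h5 := MvPowerSeries.isUnit_iff_constantCoeff.mp h3
  rw [h] at h5
  exact not_isUnit_zero h5

theorem gen_ne {n : ℕ} {k : Type v} [Field k] (φ : SerAut (n + 1) k)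
    (Θ : ProjIso n (GenField n k)) (hΘ : IsProj (gen k) (coord φ) Θ)
    (f : MvPowerSeries (Fin (n + 1)) k) (hf : IsSimple f) :
    constantCoeff (dTh Θ (ext n k f)) ≠ 0 := by
  classical
  intro h0
  -- the values of the derivation at the coordinates
  set v : Fin (n + 1) → GenField n k := fun j => constantCoeff (dTh Θ (coord φ j)) with hv
  have hd : ∀ y, dTh Θ (Θ y) = Θ (DP (GenField n k) n 0 y) := by
    intro y
    rw [dTh, conj_apply, AlgEquiv.symm_apply_apply]
  have hlast : v (Fin.last n) = 1 := by
    rw [hv]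
    simp only
    rw [← hΘ.2, hd, DP_zero_X, map_one, map_one]
  have hrow : ∀ i : Fin n, ∑ j, gen k i j * v j = 0 := by
    intro i
    have h1 := hd (PowerSeries.C (X i))
    rw [DP_zero_C, map_zero, hΘ.1 i, map_sum] at h1
    have h2 := congrArg constantCoeff h1
    rw [map_sum, map_zero] at h2
    rw [← h2]
    refine Finset.sum_congr rfl fun j _ => ?_
    have h3 : dTh Θ (C (gen k i j) : MvPowerSeries (Fin (n + 1)) (GenField n k)) = 0 :=
      Derivation.map_algebraMap _ _
    rw [Derivation.leibniz, h3, smul_zero, add_zero, smul_eq_mul, map_mul, constantCoeff_C]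
  -- `f` in the coordinates
  have hsym : constantCoeff (φ.symm f) = 0 := constantCoeff_algEquiv φ.symm f hf.1
  obtain ⟨g, hg⟩ := H85.Zar.Coord.exists_sum (φ.symm f) hsym
  have hfφ : f = ∑ j, φ (X j) * φ (g j) := by
    have h1 := congrArg φ hg
    rw [AlgEquiv.apply_symm_apply, map_sum] at h1
    rw [h1]
    exact Finset.sum_congr rfl fun j _ => map_mul _ _ _
  have hX0 : ∀ j, constantCoeff (φ (X j)) = 0 :=
    fun j => constantCoeff_algEquiv φ (X j) (constantCoeff_X j)
  set c : Fin (n + 1) → k := fun j => constantCoeff (φ (g j)) with hc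
  have hex : ∃ j0, c j0 ≠ 0 := by
    by_contra hne
    push Not at hne
    obtain ⟨i, hi⟩ := hf.2
    apply hi
    rw [hfφ, map_sum, map_sum]
    refine Finset.sum_eq_zero fun j _ => ?_
    have h2 : constantCoeff (φ (g j)) = 0 := hne j
    rw [Derivation.leibniz, smul_eq_mul, smul_eq_mul, map_add, map_mul, map_mul, hX0, h2,
      zero_mul, zero_mul, add_zero]
  obtain ⟨j0, hj0⟩ := hex
  have hsum : ∑ j, incl n k (c j) * v j = 0 := by
    rw [← h0, hfφ, map_sum, map_sum, map_sum]
    refine Finset.sum_congr rfl fun j _ => ?_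
    have h2 : constantCoeff (ext n k (φ (X j))) = 0 := by
      rw [H9.Zar.ext.eq_1, constantCoeff_map, hX0, map_zero]
    have h3 : constantCoeff (ext n k (φ (g j))) = incl n k (c j) := by
      rw [H9.Zar.ext.eq_1, constantCoeff_map]
    rw [map_mul (ext n k), Derivation.leibniz, smul_eq_mul, smul_eq_mul, map_add, map_mul,
      map_mul, h2, h3, zero_mul, zero_add]
    rfl
  -- the determinant
  have hdet : ((H85.Zar.Coord.emb n k).mapMatrix (genMat n k c)).det = 0 := by
    rw [← Matrix.exists_mulVec_eq_zero_iff]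
    refine ⟨v, ?_, ?_⟩
    · intro hv0
      rw [hv0] at hlast
      exact zero_ne_one hlast
    · funext i
      rw [Matrix.mulVec, dotProduct]
      induction i using Fin.lastCases with
      | last =>
        simp only [RingHom.mapMatrix_apply, Matrix.map_apply, genMat, Matrix.of_apply,
          Fin.lastCases_last, Pi.zero_apply]
        exact hsum
      | cast i =>
        simp only [RingHom.mapMatrix_apply, Matrix.map_apply, genMat, Matrix.of_apply,
          Fin.lastCases_castSucc, Pi.zero_apply]
        exact hrow i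
  rw [← RingHom.map_det, map_eq_zero_iff _ (H85.Zar.Coord.emb_injective n k)] at hdet
  exact det_genMat n k c j0 hj0 hdet

end ZX
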