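import Pool.Agent.ZX.Defs

set_option linter.style.longLine false

namespace ZX

open MvPowerSeries H9.Zar

universe v

/-! ## ZX13: the numbers -/

theorem det_star {R : Type*} [CommRing R] (z t σ τ : R) :
    Det z t (bv σ) (cv τ) Pa Pb = -12 * (z - 2 * t) * (t * σ - z * τ) := by
  have ha0 : ((aa 0 : ℤ) : R) = 6 := by change ((6 : ℤ) : R) = 6; norm_num
  have ha1 : ((aa 1 : ℤ) : R) = 2 := by change ((2 : ℤ) : R) = 2; norm_num
  have ha2 : ((aa 2 : ℤ) : R) = -7 := by change ((-7 : ℤ) : R) = -7; norm_num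
  have ha3 : ((aa 3 : ℤ) : R) = -4 := by change ((-4 : ℤ) : R) = -4; norm_num
  have ha4 : ((aa 4 : ℤ) : R) = -5 := by change ((-5 : ℤ) : R) = -5; norm_num
  have ha5 : ((aa 5 : ℤ) : R) = -3 := by change ((-3 : ℤ) : R) = -3; norm_num
  have ha6 : ((aa 6 : ℤ) : R) = 3 := by change ((3 : ℤ) : R) = 3; norm_num
  have ha7 : ((aa 7 : ℤ) : R) = 4 := by change ((4 : ℤ) : R) = 4; norm_num
  have hb0 : bv σ 0 = 6 + σ := by change ((6 : ℤ) : R) + σ = _; norm_num
  have hb1 : bv σ 1 = 2 := by change ((2 : ℤ) : R) + 0 = _; norm_num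
  have hb2 : bv σ 2 = 0 := by change ((0 : ℤ) : R) + 0 = _; norm_num
  have hb3 : bv σ 3 = 0 := by change ((0 : ℤ) : R) + 0 = _; norm_num
  have hb4 : bv σ 4 = 4 := by change ((4 : ℤ) : R) + 0 = _; norm_num
  have hb5 : bv σ 5 = 2 := by change ((2 : ℤ) : R) + 0 = _; norm_num
  have hb6 : bv σ 6 = -10 := by change ((-10 : ℤ) : R) + 0 = _; norm_num
  have hb7 : bv σ 7 = -13 := by change ((-13 : ℤ) : R) + 0 = _; norm_num
  have hc0 : cv τ 0 = 1 + τ := by change ((1 : ℤ) : R) + τ = _; norm_num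
  have hc1 : cv τ 1 = 1 := by change ((1 : ℤ) : R) + 0 = _; norm_num
  have hc2 : cv τ 2 = 0 := by change ((0 : ℤ) : R) + 0 = _; norm_num
  have hc3 : cv τ 3 = 0 := by change ((0 : ℤ) : R) + 0 = _; norm_num
  have hc4 : cv τ 4 = -5 := by change ((-5 : ℤ) : R) + 0 = _; norm_num
  have hc5 : cv τ 5 = -5 := by change ((-5 : ℤ) : R) + 0 = _; norm_num
  have hc6 : cv τ 6 = -7 := by change ((-7 : ℤ) : R) + 0 = _; norm_num
  have hc7 : cv τ 7 = -7 := by change ((-7 : ℤ) : R) + 0 = _; norm_num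
  simp only [Det, dd, nn, Pa, Pb, ha0, ha1, ha2, ha3, ha4, ha5, ha6, ha7, hb0, hb1, hb2, hb3, hb4,
    hb5, hb6, hb7, hc0, hc1, hc2, hc3, hc4, hc5, hc6, hc7]
  ring

section

variable {R R' : Type*} [CommRing R] [CommRing R']

theorem map_bv (f : R →+* R') (σ : R) (i : Fin 8) : f (bv σ i) = bv (f σ) i := by
  unfold bv
  rw [map_add, map_intCast]
  split_ifs
  · rfl
  · rw [map_zero]

theorem map_cv (f : R →+* R') (σ : R) (i : Fin 8) : f (cv σ i) = cv (f σ) i := by
  unfold cv
  rw [map_add, map_intCast]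
  split_ifs
  · rfl
  · rw [map_zero]

theorem map_nn (f : R →+* R') (z t : R) (x : Fin 8 → R) (l : Fin 8 × Fin 8) :
    f (nn z t x l) = nn (f z) (f t) (fun i => f (x i)) l := by
  simp only [nn, map_sub, map_mul, map_intCast]

theorem map_dd (f : R →+* R') (z t : R) (x : Fin 8 → R) (P : (Fin 8 × Fin 8) × (Fin 8 × Fin 8)) :
    f (dd z t x P) = dd (f z) (f t) (fun i => f (x i)) P := by
  simp only [dd, map_sub, map_mul, map_intCast, map_nn]

theorem map_Det (f : R →+* R') (z t : R) (b c : Fin 8 → R)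
    (P P' : (Fin 8 × Fin 8) × (Fin 8 × Fin 8)) :
    f (Det z t b c P P') = Det (f z) (f t) (fun i => f (b i)) (fun i => f (c i)) P P' := by
  simp only [Det, map_sub, map_mul, map_dd]

end

theorem zx_eval_hpol {k : Type v} [Field k] (Q : Fin (6 + 1) → k) :
    MvPolynomial.eval Q (hpol k) =
      (∏ P ∈ (LL ×ˢ LL).filter (fun P => P.1 ≠ P.2), dd (-17) 1 (bv (Q 4)) P) *
      ∏ P ∈ (SS ×ˢ SS).filter
        (fun P => P.1 ≠ P.2 ∧ ¬(P.1 = Pa ∧ P.2 = Pb) ∧ ¬(P.1 = Pb ∧ P.2 = Pa)),
        Det (-17) 1 (bv (Q 4)) (cv (Q 5 * Q 6)) P.1 P.2 := by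
  have h17 : MvPolynomial.eval Q (-17) = (-17 : k) := by rw [map_neg, map_ofNat]
  have hb : (fun i => MvPolynomial.eval Q (bv (xx k 4) i)) = bv (Q 4) := by
    funext i
    rw [map_bv, MvPolynomial.eval_X]
  have hc : (fun i => MvPolynomial.eval Q (cv (xx k 5 * xx k 6) i)) = cv (Q 5 * Q 6) := by
    funext i
    rw [map_cv, map_mul, MvPolynomial.eval_X, MvPolynomial.eval_X]
  unfold hpol
  rw [map_mul, map_prod, map_prod]
  refine congrArg₂ _ (Finset.prod_congr rfl fun P _ => ?_) (Finset.prod_congr rfl fun P _ => ?_)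
  · rw [map_dd, h17, map_one, hb]
  · rw [map_Det, h17, map_one, hb, hc]

theorem zx_yi : yi 0 = 4 ∧ yi 1 = 5 ∧ yi 2 = 6 := ⟨rfl, rfl, rfl⟩

theorem numQ_of_hpol {k : Type v} [Field k] (Q : Fin (6 + 1) → k)
    (h : MvPolynomial.eval Q (hpol k) ≠ 0) : NumQ (fun i => Q (yi i)) := by
  rw [zx_eval_hpol, ← zx_yi.1, ← zx_yi.2.1, ← zx_yi.2.2] at h
  have h1 := Finset.prod_ne_zero_iff.1 (left_ne_zero_of_mul h)
  have h2 := Finset.prod_ne_zero_iff.1 (right_ne_zero_of_mul h)
  constructor
  · intro l hl m hm hlm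
    exact h1 (l, m) (Finset.mem_filter.2 ⟨Finset.mem_product.2 ⟨hl, hm⟩, hlm⟩)
  · intro P hP P' hP' hne ha hb
    have h3 := h2 (P, P')
    rw [Finset.mem_filter, Finset.mem_product] at h3
    exact h3 ⟨⟨hP, hP'⟩, hne, ha, hb⟩

theorem hpol_ne {k : Type v} [Field k] (Q : Fin (6 + 1) → k) (h : NumQ (fun i => Q (yi i))) :
    MvPolynomial.eval Q (hpol k) ≠ 0 := by
  rw [zx_eval_hpol, ← zx_yi.1, ← zx_yi.2.1, ← zx_yi.2.2]
  refine mul_ne_zero ?_ ?_
  · rw [Finset.prod_ne_zero_iff]
    simp only [Finset.mem_filter, Finset.mem_product]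
    exact fun P hP => h.ddb P.1 hP.1.1 P.2 hP.1.2 hP.2
  · rw [Finset.prod_ne_zero_iff]
    simp only [Finset.mem_filter, Finset.mem_product]
    exact fun P hP => h.det P.1 hP.1.1 P.2 hP.1.2 hP.2.1 hP.2.2.1 hP.2.2.2

/-- An element which is not in the algebraically closed field `k` is not a root. -/
theorem zx_eval_ne {k : Type v} [Field k] [IsAlgClosed k] {K : Type v} [Field K] (i : k →+* K)
    (w : K) (hw : ∀ c : k, w ≠ i c) (p : Polynomial k) (c : k) (hp : p.eval c ≠ 0) :
    p.eval₂ i w ≠ 0 := by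
  let _ : Algebra k K := i.toAlgebra
  intro h0
  have hp0 : p ≠ 0 := by
    rintro rfl
    exact hp Polynomial.eval_zero
  have halg : IsAlgebraic k w := ⟨p, hp0, h0⟩
  have hint : IsIntegral k w := halg.isIntegral
  have h1 := IsAlgClosed.degree_eq_one_of_irreducible k (minpoly.irreducible hint)
  obtain ⟨a, ha⟩ := minpoly.mem_range_of_degree_eq_one k w h1
  exact hw a ha.symm

theorem zx_dd_hom {R : Type*} [CommRing R] (w t : R) (x : Fin 8 → R)
    (P : (Fin 8 × Fin 8) × (Fin 8 × Fin 8)) : dd (w * t) t x P = t * dd w 1 x P := by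
  simp only [dd, nn]
  ring

theorem zx_Det_hom {R : Type*} [CommRing R] (w t : R) (b c : Fin 8 → R)
    (P P' : (Fin 8 × Fin 8) × (Fin 8 × Fin 8)) :
    Det (w * t) t b c P P' = t ^ 2 * Det w 1 b c P P' := by
  simp only [Det, zx_dd_hom]
  ring

/-- the slopes for a direction not in `k` -/
theorem numOK_of {k : Type v} [Field k] [IsAlgClosed k] [CharZero k] (q : Fin 3 → k)
    (hq : NumQ q) {K : Type v} [Field K] (i : k →+* K) {n : ℕ} (z t σ τ : MvPowerSeries (Fin n) K)
    (ht : constantCoeff t ≠ 0) (hz : ∀ c : k, constantCoeff z ≠ i c * constantCoeff t)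
    (hσ : constantCoeff σ = i (q 0)) (hτ : constantCoeff τ = i (q 1 * q 2)) :
    NumOK z t σ τ := by
  obtain ⟨w, hw⟩ : ∃ w : K, constantCoeff z = w * constantCoeff t :=
    ⟨constantCoeff z / constantCoeff t, (div_mul_cancel₀ _ ht).symm⟩
  have hwk : ∀ c : k, w ≠ i c := fun c hc => hz c (by rw [hw, hc])
  have hb : (fun j => constantCoeff (bv σ j)) = fun j => i (bv (q 0) j) := by
    funext j
    rw [map_bv, map_bv, hσ]
  have hc : (fun j => constantCoeff (cv τ j)) = fun j => i (cv (q 1 * q 2) j) := by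
    funext j
    rw [map_cv, map_cv, hτ]
  have hdd : ∀ P, dd (-17) 1 (bv (q 0)) P ≠ 0 → constantCoeff (dd z t (bv σ) P) ≠ 0 := by
    intro P hP
    rw [map_dd, hw, hb, zx_dd_hom]
    refine mul_ne_zero ht ?_
    have h1 := zx_eval_ne i w hwk (dd Polynomial.X 1 (fun j => Polynomial.C (bv (q 0) j)) P) (-17) (by
      rw [← Polynomial.coe_evalRingHom, map_dd]
      simpa using hP)
    rw [← Polynomial.coe_eval₂RingHom, map_dd] at h1
    simpa using h1
  have hDet : ∀ P P', Det (-17) 1 (bv (q 0)) (cv (q 1 * q 2)) P P' ≠ 0 →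
      constantCoeff (Det z t (bv σ) (cv τ) P P') ≠ 0 := by
    intro P P' hP
    rw [map_Det, hw, hb, hc, zx_Det_hom]
    refine mul_ne_zero (pow_ne_zero _ ht) ?_
    have h1 := zx_eval_ne i w hwk (Det Polynomial.X 1 (fun j => Polynomial.C (bv (q 0) j))
      (fun j => Polynomial.C (cv (q 1 * q 2) j)) P P') (-17) (by
      rw [← Polynomial.coe_evalRingHom, map_Det]
      simpa using hP)
    rw [← Polynomial.coe_eval₂RingHom, map_Det] at h1
    simpa using h1
  refine ⟨ht, ?_, ?_, ?_⟩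
  · intro j
    rw [map_sub, map_mul, map_intCast, sub_ne_zero]
    have h1 := hz (aa j : k)
    rwa [map_intCast] at h1
  · intro l hl m hm hlm
    exact hdd _ (hq.ddb l hl m hm hlm)
  · intro P hP P' hP' h1 h2 h3
    exact hDet P P' (hq.det P hP P' hP' h1 h2 h3)

theorem cas_of {k : Type v} [Field k] (q : Fin 3 → k)
    {K : Type v} [Field K] (i : k →+* K) {n : ℕ} (z t : MvPowerSeries (Fin n) K)
    (ht : constantCoeff t ≠ 0) (hz : ∀ c : k, constantCoeff z ≠ i c * constantCoeff t) :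
    Cas z t (fun j => i (q j)) := by
  unfold Cas
  by_cases h : q 1 * q 2 = 0
  · by_cases h0 : q 0 = 0
    · right
      refine ⟨(congrArg i h0).trans (map_zero i), ?_⟩
      rw [← map_mul, h, map_zero]
    · left
      rw [← map_mul, h, map_zero, mul_zero, sub_zero]
      exact mul_ne_zero ht (by rwa [ne_eq, map_eq_zero_iff _ i.injective])
  · left
    intro h1
    apply hz (q 0 / (q 1 * q 2))
    have h2 : i (q 1 * q 2) ≠ 0 := by rwa [ne_eq, map_eq_zero_iff _ i.injective]
    rw [map_div₀]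
    rw [← map_mul] at h1
    field_simp
    linear_combination -h1

theorem zx_constantCoeff_ne {K K' : Type v} [Field K] [Field K'] (i : K →+* K') {n n' : ℕ}
    (χ : MvPowerSeries (Fin n) K →+* MvPowerSeries (Fin n') K')
    (hχ : ∀ x, constantCoeff (χ x) = i (constantCoeff x)) {x : MvPowerSeries (Fin n) K}
    (h : constantCoeff x ≠ 0) : constantCoeff (χ x) ≠ 0 := by
  rw [hχ]
  rwa [ne_eq, map_eq_zero_iff _ i.injective]

/-- base change of the numerical conditions -/
theorem numOK_map {K K' : Type v} [Field K] [Field K'] (i : K →+* K') {n n' : ℕ}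
    (χ : MvPowerSeries (Fin n) K →+* MvPowerSeries (Fin n') K')
    (hχ : ∀ x, constantCoeff (χ x) = i (constantCoeff x)) {z t σ τ : MvPowerSeries (Fin n) K}
    (h : NumOK z t σ τ) : NumOK (χ z) (χ t) (χ σ) (χ τ) := by
  have hb : bv (χ σ) = fun j => χ (bv σ j) := by
    funext j
    rw [map_bv]
  have hc : cv (χ τ) = fun j => χ (cv τ j) := by
    funext j
    rw [map_cv]
  refine ⟨zx_constantCoeff_ne i χ hχ h.t0, ?_, ?_, ?_⟩
  · intro j
    have h1 := zx_constantCoeff_ne i χ hχ (h.zz j)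
    rwa [map_sub, map_mul, map_intCast] at h1
  · intro l hl m hm hlm
    have h1 := zx_constantCoeff_ne i χ hχ (h.ddb l hl m hm hlm)
    rwa [map_dd, ← hb] at h1
  · intro P hP P' hP' h1 h2 h3
    have h4 := zx_constantCoeff_ne i χ hχ (h.det P hP P' hP' h1 h2 h3)
    rwa [map_Det, ← hb, ← hc] at h4

theorem cas_map {K K' : Type v} [Field K] [Field K'] (i : K →+* K') {n n' : ℕ}
    (χ : MvPowerSeries (Fin n) K →+* MvPowerSeries (Fin n') K')
    (hχ : ∀ x, constantCoeff (χ x) = i (constantCoeff x)) {z t : MvPowerSeries (Fin n) K}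
    {q : Fin 3 → K} (h : Cas z t q) : Cas (χ z) (χ t) (fun j => i (q j)) := by
  unfold Cas at *
  rcases h with h | ⟨h0, h1⟩
  · left
    rw [hχ, hχ, ← map_mul, ← map_mul, ← map_mul, ← map_sub]
    rwa [ne_eq, map_eq_zero_iff _ i.injective]
  · right
    refine ⟨(congrArg i h0).trans (map_zero i), ?_⟩
    rw [← map_mul, h1, map_zero]

/-! ### the conditions at the point `0`, over the integers -/

/-- the values of `dd` at the pairs of `SS`: code, value for `b`, value for `c`, plus `10000` -/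
def zxTab : List (ℕ × ℕ × ℕ) :=
  [(66, 9356, 10092), (67, 9632, 10092), (68, 9172, 10552), (69, 9540, 10552), (70, 11196, 10736),
   (71, 11564, 10736), (83, 10204, 9988), (84, 9976, 10192), (85, 10192, 10184),
   (86, 11080, 10240), (87, 11268, 10236), (92, 9724, 10264), (93, 9964, 10256),
   (94, 10996, 10336), (95, 11220, 10332), (101, 10264, 9952), (102, 11344, 9904),
   (103, 11572, 9880), (110, 11128, 9968), (111, 11372, 9944), (119, 10268, 9968),
   (131, 10414, 10069), (132, 9080, 11541), (133, 9954, 11587), (134, 14370, 12323),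
   (135, 15405, 12346), (139, 9978, 10109), (140, 8904, 11321), (141, 9570, 11367),
   (142, 13050, 11999), (143, 13877, 12022), (156, 9264, 10835), (157, 9722, 10855),
   (158, 12110, 11253), (159, 12677, 11263), (165, 10536, 9890), (166, 13080, 9872),
   (167, 13660, 9817), (174, 12700, 10034), (175, 13332, 9979), (183, 10710, 9919),
   (196, 8942, 11127), (197, 9678, 11173), (198, 13266, 11771), (199, 14094, 11794),
   (202, 9498, 9983), (204, 8934, 10979), (205, 9510, 11025), (206, 12378, 11543),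
   (207, 13046, 11566), (212, 9756, 10526), (213, 10112, 10552), (214, 11780, 10830),
   (215, 12158, 10843), (229, 10476, 9926), (230, 12624, 9944), (231, 13102, 9907),
   (238, 12268, 10058), (239, 12786, 10021), (247, 10578, 9943), (261, 10598, 10276),
   (262, 13910, 11610), (263, 14715, 11748), (266, 10400, 8967), (267, 10406, 9381),
   (269, 9990, 10564), (270, 12510, 11810), (271, 13139, 11948), (275, 9940, 10381),
   (277, 9700, 11058), (278, 10900, 12040), (279, 11210, 12167), (285, 9694, 10842),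
   (286, 11290, 11890), (287, 11699, 12017), (302, 11860, 10740), (303, 12324, 10812),
   (311, 10530, 10050), (326, 13036, 11242), (327, 13749, 11380), (330, 9838, 8929),
   (331, 10006, 9343), (332, 9266, 10060), (334, 12108, 11506), (335, 12677, 11644),
   (339, 10114, 10387), (340, 9716, 10708), (342, 11280, 11920), (343, 11588, 12049),
   (348, 9494, 10456), (350, 11436, 11722), (351, 11825, 11851), (358, 12104, 10888),
   (359, 12502, 10972), (375, 10488, 10066), (391, 10575, 10184), (394, 6910, 8401),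
   (395, 7978, 8953), (396, 7394, 9054), (397, 8220, 9422), (399, 11567, 10824),
   (403, 11050, 10543), (404, 10580, 10512), (405, 11340, 10874), (407, 14240, 12201),
   (412, 9494, 10014), (413, 10272, 10376), (415, 13307, 11721), (421, 10796, 10332),
   (423, 13870, 11566), (431, 13122, 11246), (458, 6215, 8382), (459, 7502, 8934),
   (460, 6921, 8940), (461, 7855, 9308), (462, 10885, 10488), (467, 11275, 10546),
   (468, 10770, 10464), (469, 11660, 10828), (470, 14450, 11960), (476, 9471, 9948),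
   (477, 10373, 10312), (478, 13235, 11456), (485, 10914, 10344), (486, 13800, 11424),
   (494, 12910, 11088), (651, 10114, 10057), (652, 9392, 10893), (653, 9810, 10931),
   (654, 12090, 11387), (655, 12641, 11406), (668, 9512, 10575), (669, 9786, 10595),
   (670, 11310, 10889), (671, 11681, 10899), (677, 10328, 9930), (678, 11960, 9936),
   (679, 12340, 9901), (686, 11740, 10042), (687, 12156, 10007), (695, 10470, 9947),
   (716, 9506, 10551), (717, 9810, 10589), (718, 11406, 10931), (719, 11786, 10950),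
   (724, 9812, 10326), (725, 9984, 10352), (726, 10860, 10550), (727, 11066, 10563),
   (741, 10244, 9966), (742, 11408, 10008), (743, 11674, 9991), (750, 11236, 10066),
   (751, 11526, 10049), (759, 10326, 9971), (781, 10190, 10228), (782, 11558, 11178),
   (783, 11919, 11292), (787, 9844, 10321), (789, 9652, 10778), (790, 10180, 11560),
   (791, 10338, 11667), (797, 9766, 10562), (798, 10546, 11386), (799, 10767, 11493),
   (814, 10948, 10628), (815, 11204, 10700), (823, 10298, 10058), (846, 11140, 10874),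
   (847, 11425, 10988), (851, 9970, 10327), (852, 9780, 10468), (854, 10400, 11440),
   (855, 10540, 11549), (860, 9750, 10216), (862, 10580, 11218), (863, 10765, 11327),
   (870, 10920, 10792), (871, 11110, 10876), (887, 10240, 10074), (911, 10171, 10152),
   (915, 10690, 10459), (916, 10500, 10256), (917, 10940, 10562), (919, 12400, 11613),
   (924, 9822, 9782), (925, 10256, 10088), (927, 11671, 11133), (933, 10428, 10316),
   (935, 11830, 11398), (943, 11386, 11078), (979, 10867, 10462), (980, 10658, 10208),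
   (981, 11196, 10516), (982, 12690, 11400), (988, 9815, 9716), (989, 10341, 10024),
   (990, 11763, 10896), (997, 10514, 10328), (998, 11912, 11264), (1006, 11374, 10928),
   (1236, 10120, 9850), (1237, 10060, 9850), (1238, 9700, 9790), (1239, 9610, 9790),
   (1253, 9904, 10030), (1254, 9400, 10048), (1255, 9280, 10063), (1262, 9460, 10006),
   (1263, 9328, 10021), (1271, 9850, 10021), (1301, 9880, 10100), (1302, 9400, 10360),
   (1303, 9300, 10410), (1309, 10012, 9920), (1310, 9460, 10168), (1311, 9342, 10218),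
   (1326, 9400, 10304), (1327, 9272, 10364), (1335, 9860, 10064), (1366, 9400, 10220),
   (1367, 9260, 10270), (1372, 10228, 9690), (1374, 9340, 9986), (1375, 9164, 10036),
   (1382, 9040, 10464), (1383, 8860, 10534), (1399, 9780, 10078), (1431, 9800, 10070),
   (1436, 10420, 9280), (1437, 10360, 9420), (1439, 9110, 9650), (1445, 9880, 10240),
   (1447, 8500, 10840), (1455, 8460, 10560), (1500, 10442, 9215), (1501, 10416, 9355),
   (1502, 9480, 9489), (1509, 9908, 10250), (1510, 8840, 10736), (1518, 8800, 10442),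
   (1821, 9922, 10130), (1822, 9766, 10546), (1823, 9753, 10611), (1838, 9868, 10388),
   (1839, 9860, 10448), (1847, 9998, 10058), (1886, 9688, 10364), (1887, 9623, 10429),
   (1894, 9592, 10536), (1895, 9526, 10606), (1911, 9924, 10072), (1951, 9857, 10091),
   (1957, 10036, 10252), (1959, 9490, 10966), (1967, 9342, 10686), (2021, 10082, 10262),
   (2022, 9752, 10856), (2030, 9574, 10562), (2406, 9856, 9952), (2407, 9808, 9952),
   (2423, 9932, 10004), (2471, 9880, 10024), (2479, 9608, 9944), (2542, 9820, 9892),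
   (2991, 9916, 10028)]

/-- the determinant of two entries is not zero, or they are the star pair -/
def zxOK (x y : ℕ × ℕ × ℕ) : Bool :=
  !Nat.beq (x.2.1 * y.2.2 + 10000 * (y.2.1 + x.2.2)) (y.2.1 * x.2.2 + 10000 * (x.2.1 + y.2.2)) ||
    (Nat.beq x.1 83 && Nat.beq y.1 2423)

def zxAll : List (ℕ × ℕ × ℕ) → Bool
  | [] => true
  | x :: l => l.all (zxOK x) && zxAll l

theorem zxTab_all : zxAll zxTab = true := by decide +kernel

def zxIs : ℤ → ℕ → Bool
  | .ofNat x, B => Nat.beq (x + 10000) B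
  | .negSucc x, B => Nat.beq (B + (x + 1)) 10000

def zxFin (a : ℕ) : Fin 8 := ⟨a % 8, Nat.mod_lt a (by decide)⟩

def zxP (a : ℕ) : (Fin 8 × Fin 8) × (Fin 8 × Fin 8) :=
  ((zxFin (a / 512), zxFin (a / 64)), (zxFin (a / 8), zxFin a))

theorem zxTab_val : zxTab.all (fun y => zxIs (dd (-17) 1 (bv 0) (zxP y.1)) y.2.1 &&
    zxIs (dd (-17) 1 (cv 0) (zxP y.1)) y.2.2) = true := by
  decide +kernel

def zxGuard (i j l m : ℕ) : Bool :=
  Nat.blt i j && (Nat.blt l m && ((Nat.beq i l && Nat.blt j m) ||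
    (Nat.blt i l && (!Nat.beq j l && !Nat.beq j m))))

theorem zxTab_cov : ∀ i < 8, ∀ j < 8, ∀ l < 8, ∀ m < 8, zxGuard i j l m = true →
    zxTab.any (fun y => Nat.beq y.1 (512 * i + 64 * j + 8 * l + m)) = true := by
  decide +kernel

theorem zx_ddb : ∀ l ∈ LL, ∀ m ∈ LL, l ≠ m → dd (-17 : ℤ) 1 (bv 0) (l, m) ≠ 0 := by
  decide +kernel

theorem zxIs_spec (v : ℤ) (B : ℕ) (h : zxIs v B = true) : (B : ℤ) = v + 10000 := by
  cases v with
  | ofNat x =>
    have h1 : x + 10000 = B := Nat.eq_of_beq_eq_true h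
    rw [← h1, Int.ofNat_eq_natCast]
    push_cast
    ring
  | negSucc x =>
    have h1 : B + (x + 1) = 10000 := Nat.eq_of_beq_eq_true h
    rw [Int.negSucc_eq]
    omega

theorem zxP_code (i j l m : Fin 8) :
    zxP (512 * (i : ℕ) + 64 * (j : ℕ) + 8 * (l : ℕ) + (m : ℕ)) = ((i, j), (l, m)) := by
  unfold zxP zxFin
  simp only [Prod.mk.injEq, Fin.ext_iff]
  omega

/-- the entry of the table for a pair -/
theorem zxTab_mem (P : (Fin 8 × Fin 8) × (Fin 8 × Fin 8)) (hP : P ∈ SS) : ∃ y ∈ zxTab,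
    zxP y.1 = P ∧ (y.2.1 : ℤ) = dd (-17) 1 (bv 0) P + 10000 ∧
      (y.2.2 : ℤ) = dd (-17) 1 (cv 0) P + 10000 := by
  have h1 : zxGuard P.1.1 P.1.2 P.2.1 P.2.2 = true := by
    unfold SS LL at hP
    simp only [Finset.mem_filter, Finset.mem_product, Finset.mem_univ, true_and] at hP
    unfold zxGuard
    simp only [Bool.and_eq_true, Bool.or_eq_true, Nat.blt_eq, Nat.beq_eq, Bool.not_eq_true',
      ← Bool.not_eq_true]
    omega
  have h2 := zxTab_cov _ P.1.1.2 _ P.1.2.2 _ P.2.1.2 _ P.2.2.2 h1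
  rw [List.any_eq_true] at h2
  obtain ⟨y, hy, hy1⟩ := h2
  have hy2 : zxP y.1 = P := by
    rw [Nat.eq_of_beq_eq_true hy1]
    exact zxP_code P.1.1 P.1.2 P.2.1 P.2.2
  have h3 := List.all_eq_true.1 zxTab_val y hy
  rw [hy2, Bool.and_eq_true] at h3
  exact ⟨y, hy, hy2, zxIs_spec _ _ h3.1, zxIs_spec _ _ h3.2⟩

theorem zxAll_pairwise (l : List (ℕ × ℕ × ℕ)) (h : zxAll l = true) :
    l.Pairwise fun x y => zxOK x y = true := by
  induction l with
  | nil => exact List.Pairwise.nil
  | cons x l ih =>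
    unfold zxAll at h
    rw [Bool.and_eq_true, List.all_eq_true] at h
    exact List.Pairwise.cons h.1 (ih h.2)

/-- the symmetric form -/
theorem zxTab_pairwise : ∀ x ∈ zxTab, ∀ y ∈ zxTab, x ≠ y → zxOK x y = true ∨ zxOK y x = true := by
  have h := zxAll_pairwise zxTab zxTab_all
  have h2 : zxTab.Pairwise fun x y => zxOK x y = true ∨ zxOK y x = true :=
    h.imp fun {x y} hxy => Or.inl hxy
  have hs : Std.Symm (fun x y : ℕ × ℕ × ℕ => zxOK x y = true ∨ zxOK y x = true) :=
    ⟨fun x y hxy => hxy.symm⟩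
  intro x hx y hy hxy
  exact h2.forall hx hy hxy

theorem zxOK_spec {x y : ℕ × ℕ × ℕ} (h : zxOK x y = true) (b c b' c' : ℤ)
    (h1 : (x.2.1 : ℤ) = b + 10000) (h2 : (x.2.2 : ℤ) = c + 10000)
    (h3 : (y.2.1 : ℤ) = b' + 10000) (h4 : (y.2.2 : ℤ) = c' + 10000)
    (h0 : b * c' - b' * c = 0) : zxP x.1 = Pa ∧ zxP y.1 = Pb := by
  unfold zxOK at h
  rw [Bool.or_eq_true, Bool.and_eq_true] at h
  rcases h with h | h
  · exfalso
    rw [Bool.not_eq_true', ← Bool.not_eq_true, Nat.beq_eq] at h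
    apply h
    have h5 : (x.2.1 : ℤ) * y.2.2 + 10000 * (y.2.1 + x.2.2) =
        y.2.1 * x.2.2 + 10000 * (x.2.1 + y.2.2) := by
      rw [h1, h2, h3, h4]
      linear_combination h0
    exact_mod_cast h5
  · rw [Nat.eq_of_beq_eq_true h.1, Nat.eq_of_beq_eq_true h.2]
    exact ⟨rfl, rfl⟩

theorem zx_det (P : (Fin 8 × Fin 8) × (Fin 8 × Fin 8)) (hP : P ∈ SS)
    (P' : (Fin 8 × Fin 8) × (Fin 8 × Fin 8)) (hP' : P' ∈ SS) (hne : P ≠ P')
    (ha : ¬(P = Pa ∧ P' = Pb)) (hb : ¬(P = Pb ∧ P' = Pa)) :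
    Det (-17 : ℤ) 1 (bv 0) (cv 0) P P' ≠ 0 := by
  obtain ⟨x, hx, hxP, hx1, hx2⟩ := zxTab_mem P hP
  obtain ⟨y, hy, hyP, hy1, hy2⟩ := zxTab_mem P' hP'
  have hxy : x ≠ y := by
    rintro rfl
    exact hne (hxP.symm.trans hyP)
  intro h0
  rcases zxTab_pairwise x hx y hy hxy with h | h
  · have h1 := zxOK_spec h _ _ _ _ hx1 hx2 hy1 hy2 h0
    rw [hxP, hyP] at h1
    exact ha h1
  · have h1 := zxOK_spec h _ _ _ _ hy1 hy2 hx1 hx2 (by
      unfold Det at h0
      linear_combination -h0)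
    rw [hxP, hyP] at h1
    exact hb ⟨h1.2, h1.1⟩

theorem numQ_zero (k : Type v) [Field k] [CharZero k] : NumQ (fun _ => (0 : k)) := by
  have hb : (fun j => (Int.castRingHom k) (bv 0 j)) = bv (0 : k) := by
    funext j
    rw [map_bv, map_zero]
  have hc : (fun j => (Int.castRingHom k) (cv 0 j)) = cv (0 : k) := by
    funext j
    rw [map_cv, map_zero]
  have h17 : (Int.castRingHom k) (-17) = -17 := by rw [map_neg, map_ofNat]
  have hinj : Function.Injective (Int.castRingHom k) := RingHom.injective_int _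
  constructor
  · intro l hl m hm hlm h0
    apply zx_ddb l hl m hm hlm
    apply hinj
    rw [map_dd, h17, map_one, hb, map_zero]
    exact h0
  · intro P hP P' hP' hne ha hb' h0
    apply zx_det P hP P' hP' hne ha hb'
    apply hinj
    rw [map_Det, h17, map_one, hb, hc, map_zero]
    have h1 : cv ((0 : k) * 0) = cv 0 := by rw [mul_zero]
    rw [← h1]
    exact h0

end ZX
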