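import Pool.Agent.ZX.Defs
import Pool.Agent.H9.Zar.Step

set_option linter.style.longLine false

/-! Sheets: smooth germs transversal to the direction of the projection. -/

namespace ZX

open MvPowerSeries H9.Zar

universe v

/-- Weierstrass preparation in degree one, with the substitution `z = g`. -/
private theorem weier_one {A : Type*} [CommRing A] [IsDomain A] [IsLocalRing A]
    [IsAdicComplete (IsLocalRing.maximalIdeal A) A] (G : PowerSeries A)
    (h0 : PowerSeries.coeff 0 G ∈ IsLocalRing.maximalIdeal A)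
    (h1 : IsUnit (PowerSeries.coeff 1 G)) :
    ∃ (g : A) (U : PowerSeries A) (π : PowerSeries A →+* A), g ∈ IsLocalRing.maximalIdeal A ∧
      IsUnit U ∧ G = U * (PowerSeries.X - PowerSeries.C g) ∧ (∀ y, π (PowerSeries.C y) = y) ∧
      π PowerSeries.X = g ∧ ∀ x, π x = 0 ↔ PowerSeries.X - PowerSeries.C g ∣ x := by
  have hc1 : PowerSeries.coeff 1 (G.map (IsLocalRing.residue A)) ≠ 0 := by
    rw [PowerSeries.coeff_map]
    exact (h1.map _).ne_zero
  have hc0 : PowerSeries.coeff 0 (G.map (IsLocalRing.residue A)) = 0 := by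
    rw [PowerSeries.coeff_map, IsLocalRing.residue_eq_zero_iff]
    exact h0
  have hg : G.map (IsLocalRing.residue A) ≠ 0 := by
    intro h; rw [h] at hc1; simp at hc1
  have ho : (G.map (IsLocalRing.residue A)).order = 1 := by
    have := (PowerSeries.order_eq_nat (φ := G.map (IsLocalRing.residue A)) (n := 1)).mpr
      ⟨hc1, fun i hi => by
        have : i = 0 := by omega
        rw [this, hc0]⟩
    exact_mod_cast this
  obtain ⟨f, h, H⟩ := PowerSeries.exists_isWeierstrassFactorization hg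
  have hn : f.natDegree = 1 := by
    have := H.natDegree_eq_toNat_order_map_of_ne_top (Ideal.IsPrime.ne_top inferInstance)
    rw [this]
    have h2 : (G.map (Ideal.Quotient.mk (IsLocalRing.maximalIdeal A))).order = 1 := ho
    rw [h2]; rfl
  have hmon : f.Monic := H.isDistinguishedAt.monic
  obtain ⟨g, hf⟩ : ∃ g : A, f = Polynomial.X - Polynomial.C g := by
    refine ⟨-f.coeff 0, ?_⟩
    rw [map_neg, sub_neg_eq_add]
    have h2 := Polynomial.eq_X_add_C_of_natDegree_le_one (p := f) (by omega)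
    have h3 : f.coeff 1 = 1 := by
      rw [← hn]
      exact hmon.coeff_natDegree
    rw [h3, map_one, one_mul] at h2
    exact h2
  subst hf
  have hgm : g ∈ IsLocalRing.maximalIdeal A := by
    have h2 := H.isDistinguishedAt.mem (n := 0) (by rw [hn]; exact Nat.one_pos)
    rw [Polynomial.coeff_sub, Polynomial.coeff_X_zero, Polynomial.coeff_C_zero, zero_sub] at h2
    exact (Submodule.neg_mem_iff _).1 h2
  have hcoe : ((Polynomial.X - Polynomial.C g : Polynomial A) : PowerSeries A) =
      PowerSeries.X - PowerSeries.C g := by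
    rw [Polynomial.coe_sub, Polynomial.coe_X, Polynomial.coe_C]
  let e := H.isDistinguishedAt.algEquivQuotient
  let e2 := Polynomial.quotientSpanXSubCAlgEquiv g
  let π : PowerSeries A →+* A := ((e2 : (Polynomial A ⧸ Ideal.span {Polynomial.X - Polynomial.C g})
    →+* A).comp (e.symm : (PowerSeries A ⧸ Ideal.span
      {((Polynomial.X - Polynomial.C g : Polynomial A) : PowerSeries A)}) →+* _)).comp
    (Ideal.Quotient.mk _)
  have hpi : ∀ x, π x = e2 (e.symm (Ideal.Quotient.mk _ x)) := fun x => rfl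
  have hpoly : ∀ p : Polynomial A, π (p : PowerSeries A) = p.eval g := by
    intro p
    have h2 : Ideal.Quotient.mk (Ideal.span
        {((Polynomial.X - Polynomial.C g : Polynomial A) : PowerSeries A)}) (p : PowerSeries A) =
        e (Ideal.Quotient.mk _ p) := rfl
    rw [hpi, h2, AlgEquiv.symm_apply_apply]
    exact Polynomial.quotientSpanXSubCAlgEquiv_mk g p
  refine ⟨g, h, π, hgm, H.isUnit, ?_, ?_, ?_, ?_⟩
  · rw [mul_comm, ← hcoe]
    exact H.eq_mul
  · intro y
    have h2 := hpoly (Polynomial.C y)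
    rwa [Polynomial.coe_C, Polynomial.eval_C] at h2
  · have h2 := hpoly Polynomial.X
    rwa [Polynomial.coe_X, Polynomial.eval_X] at h2
  · intro x
    rw [hpi, EmbeddingLike.map_eq_zero_iff, EmbeddingLike.map_eq_zero_iff,
      Ideal.Quotient.eq_zero_iff_mem, Ideal.mem_span_singleton, hcoe]

variable {n : ℕ} {K : Type v} [Field K] {Θ : ProjIso n K}

private theorem unit_iff {m : ℕ} (f : MvPowerSeries (Fin m) K) :
    IsUnit f ↔ constantCoeff f ≠ 0 := by
  rw [MvPowerSeries.isUnit_iff_constantCoeff, isUnit_iff_ne_zero]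

private theorem mem_max {m : ℕ} (f : MvPowerSeries (Fin m) K) :
    f ∈ IsLocalRing.maximalIdeal (MvPowerSeries (Fin m) K) ↔ constantCoeff f = 0 := by
  rw [IsLocalRing.mem_maximalIdeal, mem_nonunits_iff, unit_iff, not_not]

/-- the constant coefficient of `Θ x` and of `x` -/
private theorem theta_const (Θ : ProjIso n K) (x : PowerSeries (MvPowerSeries (Fin n) K)) :
    constantCoeff (Θ x) = 0 ↔ constantCoeff (PowerSeries.coeff 0 x) = 0 := by
  rw [← not_iff_not, ← Ne, ← unit_iff, ← Ne, ← unit_iff, PowerSeries.coeff_zero_eq_constantCoeff,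
    ← PowerSeries.isUnit_iff_constantCoeff]
  exact MulEquiv.isUnit_map Θ

private theorem theta_C (Θ : ProjIso n K) (c : K) : Θ (PowerSeries.C (C c)) = C c := by
  have h := Θ.commutes c
  rw [PowerSeries.algebraMap_apply, MvPowerSeries.algebraMap_apply,
    MvPowerSeries.algebraMap_apply] at h
  exact h

theorem exists_sheet (Θ : ProjIso n K) (P : MvPowerSeries (Fin (n + 1)) K)
    (h0 : constantCoeff P = 0) (h1 : constantCoeff (dTh Θ P) ≠ 0) : Nonempty (Sheet Θ P) := by
  have hAC : IsAdicComplete (IsLocalRing.maximalIdeal (MvPowerSeries (Fin n) K))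
    (MvPowerSeries (Fin n) K) := adicComplete
  have hD : IsDomain (MvPowerSeries (Fin n) K) := NoZeroDivisors.to_isDomain _
  have hP : Θ (Θ.symm P) = P := Θ.apply_symm_apply P
  have h2 : PowerSeries.coeff 0 (Θ.symm P) ∈
      IsLocalRing.maximalIdeal (MvPowerSeries (Fin n) K) := by
    rw [mem_max, ← theta_const Θ, hP]
    exact h0
  have h3 : IsUnit (PowerSeries.coeff 1 (Θ.symm P)) := by
    rw [unit_iff]
    intro h4
    apply h1
    rw [dTh, conj_apply, theta_const, coeff_DP_zero]
    simp only [Nat.cast_zero, zero_add, mul_one]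
    exact h4
  obtain ⟨g, U, π, hg, hU, hG, hπC, hπX, hπk⟩ := weier_one (Θ.symm P) h2 h3
  have hP2 : P = Θ U * (Θ PowerSeries.X - Θ (PowerSeries.C g)) := by
    rw [← map_sub, ← map_mul, ← hG, hP]
  have hUU : IsUnit (Θ U) := hU.map Θ
  refine ⟨⟨g, Θ U, π.comp (Θ.symm : MvPowerSeries (Fin (n + 1)) K →+*
    PowerSeries (MvPowerSeries (Fin n) K)), (mem_max g).1 hg, hUU, hP2, ?_, ?_, ?_⟩⟩
  · intro y
    show π (Θ.symm (Θ (PowerSeries.C y))) = y
    rw [Θ.symm_apply_apply, hπC]
  · show π (Θ.symm (Θ PowerSeries.X)) = g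
    rw [Θ.symm_apply_apply, hπX]
  · intro x
    show π (Θ.symm x) = 0 ↔ P ∣ x
    rw [hπk]
    have h4 : P ∣ x ↔ Θ (PowerSeries.X - PowerSeries.C g) ∣ x := by
      rw [map_sub]
      constructor
      · intro h
        exact (Dvd.intro_left _ hP2.symm).trans h
      · rintro ⟨a, ha⟩
        obtain ⟨V, hV⟩ := hUU.exists_left_inv
        refine ⟨V * a, ?_⟩
        rw [hP2, ha]
        calc (Θ PowerSeries.X - Θ (PowerSeries.C g)) * a
            = (V * Θ U) * ((Θ PowerSeries.X - Θ (PowerSeries.C g)) * a) := by rw [hV, one_mul]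
          _ = Θ U * (Θ PowerSeries.X - Θ (PowerSeries.C g)) * (V * a) := by ring
    rw [h4]
    constructor
    · rintro ⟨a, ha⟩
      refine ⟨Θ a, ?_⟩
      rw [← map_mul, ← ha, Θ.apply_symm_apply]
    · rintro ⟨a, ha⟩
      refine ⟨Θ.symm a, ?_⟩
      rw [ha, map_mul, Θ.symm_apply_apply]

variable {P P' : MvPowerSeries (Fin (n + 1)) K}

theorem Sheet.surj (S : Sheet Θ P) : Function.Surjective S.π :=
  fun y => ⟨Θ (PowerSeries.C y), S.πC y⟩

private theorem Sheet.cP (S : Sheet Θ P) : constantCoeff P = 0 := by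
  have h1 : constantCoeff (Θ PowerSeries.X) = 0 := by
    rw [theta_const, PowerSeries.coeff_zero_X, map_zero]
  have h2 : constantCoeff (Θ (PowerSeries.C S.g)) = 0 := by
    rw [theta_const, PowerSeries.coeff_zero_C]
    exact S.g0
  have h3 := congrArg (constantCoeff (σ := Fin (n + 1)) (R := K)) S.eq
  rw [h3, map_mul, map_sub, h1, h2, sub_zero, mul_zero]

theorem Sheet.pi_C (S : Sheet Θ P) (c : K) : S.π (C c) = C c := by
  rw [← theta_C Θ c, S.πC]

/-- `π` maps the maximal ideal into the maximal ideal -/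
private theorem Sheet.cst0 (S : Sheet Θ P) (x : MvPowerSeries (Fin (n + 1)) K)
    (hx : constantCoeff x = 0) : constantCoeff (S.π x) = 0 := by
  by_contra hne
  have h1 : S.π (x - Θ (PowerSeries.C (S.π x))) = 0 := by
    rw [map_sub, S.πC, sub_self]
  obtain ⟨a, ha⟩ := (S.πker _).1 h1
  have h2 := congrArg (constantCoeff (σ := Fin (n + 1)) (R := K)) ha
  rw [map_mul, S.cP, zero_mul, map_sub, hx, zero_sub, neg_eq_zero, theta_const,
    PowerSeries.coeff_zero_C] at h2
  exact hne h2

theorem Sheet.const (S : Sheet Θ P) (x : MvPowerSeries (Fin (n + 1)) K) :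
    constantCoeff (S.π x) = constantCoeff x := by
  have h1 := S.cst0 (x - C (constantCoeff x)) (by rw [map_sub, constantCoeff_C, sub_self])
  rw [map_sub, S.pi_C, map_sub, constantCoeff_C, sub_eq_zero] at h1
  exact h1

theorem Sheet.pi_self (S : Sheet Θ P) : S.π P = 0 := (S.πker P).2 dvd_rfl

theorem Sheet.pi_eq (S : Sheet Θ P) (S' : Sheet Θ P') : S.π P' = S.π S'.U * (S.g - S'.g) := by
  have h1 := congrArg S.π S'.eq
  rw [h1, map_mul, map_sub, S.πX, S.πC]

/-- the difference of `x` and its restriction is a multiple of `P` -/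
private theorem Sheet.dvd_sub (S : Sheet Θ P) (x : MvPowerSeries (Fin (n + 1)) K) :
    P ∣ x - Θ (PowerSeries.C (S.π x)) := by
  rw [← S.πker, map_sub, S.πC, sub_self]

theorem Sheet.sub_dvd (S : Sheet Θ P) (S' : Sheet Θ P') (x : MvPowerSeries (Fin (n + 1)) K) :
    S.g - S'.g ∣ S.π x - S'.π x := by
  obtain ⟨a, ha⟩ := S.dvd_sub x
  have h1 := congrArg S'.π ha
  rw [map_sub, S'.πC, map_mul, S'.pi_eq S] at h1
  refine ⟨S'.π S.U * S'.π a, ?_⟩
  linear_combination -h1

theorem Sheet.assoc (S : Sheet Θ P) (S' : Sheet Θ P') : Associated (S.π P') (S.g - S'.g) := by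
  obtain ⟨u, hu⟩ := S'.hU.map S.π
  rw [S.pi_eq S', ← hu]
  exact associated_unit_mul_left _ _ u.isUnit

theorem Sheet.assoc' (S : Sheet Θ P) (S' : Sheet Θ P') : Associated (S.π P') (S'.π P) := by
  refine (S.assoc S').trans (Associated.trans ?_ (S'.assoc S).symm)
  rw [← neg_sub S'.g S.g]
  exact Associated.neg_left (Associated.refl _)

theorem Sheet.dU (S : Sheet Θ P) : P ∣ dTh Θ P - S.U := by
  have hX : dTh Θ (Θ PowerSeries.X) = 1 := by
    rw [dTh, conj_apply, Θ.symm_apply_apply, DP_zero_X, map_one]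
  have hC : dTh Θ (Θ (PowerSeries.C S.g)) = 0 := by
    rw [dTh, conj_apply, Θ.symm_apply_apply, DP_zero_C, map_zero]
  have h1 : dTh Θ P = S.U + (Θ PowerSeries.X - Θ (PowerSeries.C S.g)) * dTh Θ S.U := by
    conv_lhs => rw [S.eq]
    rw [Derivation.leibniz, map_sub, hX, hC, sub_zero, smul_eq_mul, smul_eq_mul, mul_one]
  obtain ⟨V, hV⟩ := S.hU.exists_left_inv
  refine ⟨V * dTh Θ S.U, ?_⟩
  rw [h1, add_sub_cancel_left]
  have h2 := S.eq
  calc (Θ PowerSeries.X - Θ (PowerSeries.C S.g)) * dTh Θ S.U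
      = (V * S.U) * ((Θ PowerSeries.X - Θ (PowerSeries.C S.g)) * dTh Θ S.U) := by
        rw [hV, one_mul]
    _ = (S.U * (Θ PowerSeries.X - Θ (PowerSeries.C S.g))) * (V * dTh Θ S.U) := by ring
    _ = P * (V * dTh Θ S.U) := by rw [← h2]

theorem Sheet.diff (S : Sheet Θ P) (S' : Sheet Θ P') :
    S'.U * P - S.U * P' = S.U * S'.U * Θ (PowerSeries.C (S'.g - S.g)) := by
  rw [map_sub, map_sub]
  have h1 := S.eq
  have h2 := S'.eq
  linear_combination S'.U * h1 - S.U * h2

theorem Sheet.map_max (S : Sheet Θ P) :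
    (IsLocalRing.maximalIdeal (MvPowerSeries (Fin (n + 1)) K)).map S.π =
      IsLocalRing.maximalIdeal (MvPowerSeries (Fin n) K) := by
  apply le_antisymm
  · rw [Ideal.map_le_iff_le_comap]
    intro x hx
    rw [Ideal.mem_comap, mem_max, S.const]
    exact (mem_max x).1 hx
  · intro y hy
    obtain ⟨x, rfl⟩ := S.surj y
    refine Ideal.mem_map_of_mem _ ?_
    rw [mem_max, ← S.const]
    exact (mem_max _).1 hy

theorem Sheet.proj (S : Sheet Θ P) (J : Ideal (MvPowerSeries (Fin (n + 1)) K)) (hP : P ∈ J) :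
    projIdeal Θ J = J.map S.π := by
  have key : ∀ x, x - Θ (PowerSeries.C (S.π x)) ∈ J := by
    intro x
    obtain ⟨a, ha⟩ := S.dvd_sub x
    rw [ha]
    exact Ideal.mul_mem_right _ _ hP
  apply le_antisymm
  · intro y hy
    have h1 : Θ (PowerSeries.C y) ∈ J := hy
    have h2 := Ideal.mem_map_of_mem S.π h1
    rwa [S.πC] at h2
  · intro y hy
    obtain ⟨x, hx, rfl⟩ := (Ideal.mem_map_iff_of_surjective S.π S.surj).1 hy
    show Θ (PowerSeries.C (S.π x)) ∈ J
    have h1 := J.sub_mem hx (key x)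
    rwa [sub_sub_cancel] at h1

/-- `ext` maps the maximal ideal onto the maximal ideal -/
theorem ext_map_max (n : ℕ) (k : Type v) [Field k] :
    (IsLocalRing.maximalIdeal (MvPowerSeries (Fin (n + 1)) k)).map (ext n k) =
      IsLocalRing.maximalIdeal (MvPowerSeries (Fin (n + 1)) (GenField n k)) := by
  rw [maximalIdeal_eq, maximalIdeal_eq, Ideal.map_span, ← Set.range_comp]
  congr 2
  funext i
  exact map_X _ i

end ZX
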