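import Pool.Agent.ZX.Defs
import Pool.Agent.H85.Zar.Coord
import Pool.Agent.H9.Zar.Base
import Pool.Agent.H9.Zar.Step

set_option linter.style.longLine false

/-! Facts on nonsingular germs. -/

namespace ZX

open MvPowerSeries H9.Zar

universe v

section ZX01

variable {n : ℕ} {k : Type v} [Field k]

theorem mem_max_iff (f : MvPowerSeries (Fin n) k) :
    f ∈ IsLocalRing.maximalIdeal (MvPowerSeries (Fin n) k) ↔ constantCoeff f = 0 := by
  rw [IsLocalRing.mem_maximalIdeal, mem_nonunits_iff, MvPowerSeries.isUnit_iff_constantCoeff,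
    isUnit_iff_ne_zero, not_not]

private theorem const_mul_max {f : MvPowerSeries (Fin n) k}
    (hf : f ∈ IsLocalRing.maximalIdeal (MvPowerSeries (Fin n) k) ^ 2) (i : Fin n) :
    constantCoeff (pderiv k i f) = 0 := by
  rw [← mem_max_iff]
  have h := der_pow_mem (IsLocalRing.maximalIdeal (MvPowerSeries (Fin n) k)) (pderiv k i) 1 f hf
  rwa [pow_one] at h

theorem isSimple_iff (f : MvPowerSeries (Fin n) k) : IsSimple f ↔
    f ∈ IsLocalRing.maximalIdeal (MvPowerSeries (Fin n) k) ∧
    f ∉ IsLocalRing.maximalIdeal (MvPowerSeries (Fin n) k) ^ 2 := by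
  constructor
  · rintro ⟨h0, i, hi⟩
    exact ⟨(mem_max_iff f).2 h0, fun h => hi (const_mul_max h i)⟩
  · rintro ⟨h0, h2⟩
    rw [mem_max_iff] at h0
    refine ⟨h0, ?_⟩
    by_contra hne
    push Not at hne
    apply h2
    obtain ⟨g, hg⟩ := H85.Zar.Coord.exists_sum f h0
    have hg0 : ∀ i, constantCoeff (g i) = 0 := by
      intro i
      have h1 := hne i
      rw [hg, map_sum, map_sum, Finset.sum_eq_single i] at h1
      · rw [Derivation.leibniz, pderiv_X_self] at h1
        simpa using h1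
      · intro j _ hj
        rw [Derivation.leibniz, pderiv_X_of_ne hj]
        simp
      · intro h
        exact absurd (Finset.mem_univ _) h
    rw [hg]
    refine Ideal.sum_mem _ fun i _ => ?_
    rw [pow_two]
    refine Ideal.mul_mem_mul ((mem_max_iff _).2 ?_) ((mem_max_iff _).2 (hg0 i))
    exact constantCoeff_X i

theorem isSimple_prime (f : MvPowerSeries (Fin n) k) (h : IsSimple f) : Prime f := by
  have h0 : f ≠ 0 := by
    rintro rfl
    obtain ⟨-, i, hi⟩ := h
    exact hi (by rw [map_zero, map_zero])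
  exact (Ideal.span_singleton_prime h0).1 (span_isPrime_of_isSimple f h)

theorem not_isSimple_mul (f g : MvPowerSeries (Fin n) k) (hf : constantCoeff f = 0)
    (hg : constantCoeff g = 0) : ¬ IsSimple (f * g) := by
  rintro ⟨-, i, hi⟩
  apply hi
  rw [Derivation.leibniz, map_add, smul_eq_mul, smul_eq_mul, map_mul, map_mul, hf, hg, zero_mul,
    zero_mul, add_zero]

/-- `n` generators of the maximal ideal of `k[[X_1..X_n]]` are independent modulo `m^2` -/
theorem regular_indep (x : Fin n → MvPowerSeries (Fin n) k)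
    (hx : Ideal.span (Set.range x) = IsLocalRing.maximalIdeal (MvPowerSeries (Fin n) k))
    (c : Fin n → MvPowerSeries (Fin n) k)
    (h : ∑ i, c i * x i ∈ IsLocalRing.maximalIdeal (MvPowerSeries (Fin n) k) ^ 2) (i : Fin n) :
    c i ∈ IsLocalRing.maximalIdeal (MvPowerSeries (Fin n) k) := by
  classical
  have hx0 : ∀ i, constantCoeff (x i) = 0 := fun i => by
    rw [← mem_max_iff, ← hx]
    exact Ideal.subset_span ⟨i, rfl⟩
  have hX : ∀ l : Fin n, ∃ a : Fin n → MvPowerSeries (Fin n) k, ∑ j, a j * x j = X l := by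
    intro l
    have hl : (X l : MvPowerSeries (Fin n) k) ∈ Ideal.span (Set.range x) := by
      rw [hx, mem_max_iff]
      exact constantCoeff_X l
    exact (Ideal.mem_span_range_iff_exists_fun).1 hl
  choose a ha using hX
  let A : Matrix (Fin n) (Fin n) k := Matrix.of fun l j => constantCoeff (a l j)
  let B : Matrix (Fin n) (Fin n) k := Matrix.of fun j m => constantCoeff (pderiv k m (x j))
  have hAB : A * B = 1 := by
    ext l m
    rw [Matrix.mul_apply]
    have h1 : constantCoeff (pderiv k m (∑ j, a l j * x j)) = ∑ j, A l j * B j m := by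
      rw [map_sum, map_sum]
      refine Finset.sum_congr rfl fun j _ => ?_
      rw [Derivation.leibniz, map_add, smul_eq_mul, smul_eq_mul, map_mul, map_mul, hx0, zero_mul,
        add_zero]
      rfl
    rw [← h1, ha]
    by_cases hlm : l = m
    · subst hlm
      rw [pderiv_X_self, map_one, Matrix.one_apply_eq]
    · rw [pderiv_X_of_ne hlm, map_zero, Matrix.one_apply_ne hlm]
  have hBA : B * A = 1 := mul_eq_one_comm.1 hAB
  let c0 : Fin n → k := fun j => constantCoeff (c j)
  have hc : Matrix.vecMul c0 B = 0 := by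
    funext m
    have h1 := const_mul_max h m
    rw [map_sum, map_sum] at h1
    rw [Matrix.vecMul, dotProduct, Pi.zero_apply, ← h1]
    refine Finset.sum_congr rfl fun j _ => ?_
    rw [Derivation.leibniz, map_add, smul_eq_mul, smul_eq_mul, map_mul, map_mul, hx0, zero_mul,
      add_zero]
    rfl
  have hc2 : c0 = 0 := by
    have h1 : Matrix.vecMul (Matrix.vecMul c0 B) A = c0 := by
      rw [Matrix.vecMul_vecMul, hBA, Matrix.vecMul_one]
    rw [← h1, hc, Matrix.zero_vecMul]
  rw [mem_max_iff]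
  exact congrFun hc2 i

theorem regular_isSimple (x : Fin n → MvPowerSeries (Fin n) k)
    (hx : Ideal.span (Set.range x) = IsLocalRing.maximalIdeal (MvPowerSeries (Fin n) k))
    (i : Fin n) : IsSimple (x i) := by
  classical
  rw [isSimple_iff]
  refine ⟨?_, fun h => ?_⟩
  · rw [← hx]
    exact Ideal.subset_span ⟨i, rfl⟩
  · have h1 : ∑ j, (if j = i then (1 : MvPowerSeries (Fin n) k) else 0) * x j ∈
        IsLocalRing.maximalIdeal (MvPowerSeries (Fin n) k) ^ 2 := by
      rw [Finset.sum_eq_single i]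
      · rw [if_pos rfl, one_mul]
        exact h
      · intro j _ hj
        rw [if_neg hj, zero_mul]
      · intro h
        exact absurd (Finset.mem_univ _) h
    have h2 := regular_indep x hx _ h1 i
    rw [if_pos rfl, mem_max_iff, map_one] at h2
    exact one_ne_zero h2

theorem isSimple_congr {f g : MvPowerSeries (Fin n) k} (h : Associated f g) (hf : IsSimple f) :
    IsSimple g := by
  rw [isSimple_iff] at hf ⊢
  obtain ⟨u, rfl⟩ := h
  refine ⟨Ideal.mul_mem_right _ _ hf.1, fun h2 => hf.2 ?_⟩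
  have h3 := Ideal.mul_mem_right (↑u⁻¹ : MvPowerSeries (Fin n) k) _ h2
  rwa [mul_assoc, Units.mul_inv, mul_one] at h3

private theorem singIdeal_mul_le (f u : MvPowerSeries (Fin n) k) :
    singIdeal (f * u) ≤ singIdeal f := by
  have hf : f ∈ singIdeal f := Ideal.subset_span (Or.inl rfl)
  refine Ideal.span_le.2 ?_
  rintro y (rfl | ⟨i, rfl⟩)
  · exact Ideal.mul_mem_right _ _ hf
  · change pderiv k i (f * u) ∈ singIdeal f
    rw [Derivation.leibniz]
    refine Ideal.add_mem _ (Ideal.mul_mem_right _ _ hf) ?_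
    exact Ideal.mul_mem_left _ _ (Ideal.subset_span (Or.inr ⟨i, rfl⟩))

theorem singIdeal_congr {f g : MvPowerSeries (Fin n) k} (h : Associated f g) :
    singIdeal f = singIdeal g := by
  obtain ⟨u, rfl⟩ := h
  refine le_antisymm ?_ (singIdeal_mul_le f u)
  have h1 := singIdeal_mul_le (f * (u : MvPowerSeries (Fin n) k)) (↑u⁻¹ : MvPowerSeries (Fin n) k)
  rwa [mul_assoc, Units.mul_inv, mul_one] at h1

theorem equising_congr {f g : MvPowerSeries (Fin n) k} (h : Associated f g)
    (I : Ideal (MvPowerSeries (Fin n) k)) (hf : Equising n k f I) : Equising n k g I := by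
  cases n with
  | zero => exact hf.elim
  | succ n =>
    rcases hf with ⟨h1, h2⟩ | ⟨h1, φ, Θ, G, D, h2, h3, h4⟩
    · exact Or.inl ⟨by rwa [← singIdeal_congr h], isSimple_congr h h2⟩
    · refine Or.inr ⟨by rwa [← singIdeal_congr h], φ, Θ, G, D, h2, ⟨h3.1, ?_⟩, h4⟩
      exact (h.map (ext n k)).symm.trans h3.2

theorem equising_of_isSimple (f : MvPowerSeries (Fin (n + 1)) k) (hf : IsSimple f)
    (I : Ideal (MvPowerSeries (Fin (n + 1)) k)) (hI : I ≠ ⊤) : Equising (n + 1) k f I := by
  refine Or.inl ⟨fun hle => hI ?_, hf⟩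
  obtain ⟨-, i, hi⟩ := hf
  have h1 : pderiv k i f ∈ singIdeal f := Ideal.subset_span (Or.inr ⟨i, rfl⟩)
  have h2 : IsUnit (pderiv k i f) := by
    rw [MvPowerSeries.isUnit_iff_constantCoeff]
    exact isUnit_iff_ne_zero.2 hi
  rw [← Ideal.radical_eq_top]
  exact Ideal.eq_top_of_isUnit_mem _ (hle h1) h2

/-- two smooth factors, along one of them -/
theorem neg1 (ε g : MvPowerSeries (Fin (n + 1)) k) (hε : IsSimple ε) (hg : constantCoeff g = 0)
    (hg2 : ¬ ε ∣ g) : ¬ Equising (n + 1) k (ε * g) (Ideal.span {ε}) := by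
  rintro (⟨-, h⟩ | ⟨h, -⟩)
  · exact not_isSimple_mul ε g hε.1 hg h
  · have hp := span_isPrime_of_isSimple ε hε
    rw [hp.radical] at h
    obtain ⟨-, i, hi⟩ := id hε
    have h1 : pderiv k i (ε * g) ∈ Ideal.span {ε} :=
      h (Ideal.subset_span (Or.inr ⟨i, rfl⟩))
    rw [Derivation.leibniz, smul_eq_mul, smul_eq_mul] at h1
    have h2 : g * pderiv k i ε ∈ Ideal.span {ε} := by
      have h3 : ε * pderiv k i g ∈ Ideal.span {ε} :=
        Ideal.mul_mem_right _ _ (Ideal.subset_span rfl)
      exact (Ideal.add_mem_iff_right _ h3).1 h1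
    rcases hp.mem_or_mem h2 with h3 | h3
    · exact hg2 (Ideal.mem_span_singleton.1 h3)
    · apply hp.ne_top
      apply Ideal.eq_top_of_isUnit_mem _ h3
      rw [MvPowerSeries.isUnit_iff_constantCoeff]
      exact isUnit_iff_ne_zero.2 hi

theorem sing_le (f p1 p2 : MvPowerSeries (Fin n) k) (I : Ideal (MvPowerSeries (Fin n) k))
    (h1 : p1 ∈ I) (h2 : p2 ∈ I) (h : p1 * p2 ∣ f) : singIdeal f ≤ I.radical := by
  refine le_trans ?_ Ideal.le_radical
  have hf : f ∈ I ^ 2 := by
    obtain ⟨c, rfl⟩ := h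
    rw [pow_two]
    exact Ideal.mul_mem_right _ _ (Ideal.mul_mem_mul h1 h2)
  refine Ideal.span_le.2 ?_
  rintro y (rfl | ⟨i, rfl⟩)
  · exact Ideal.pow_le_self two_ne_zero hf
  · have h3 := der_pow_mem I (pderiv k i) 1 f hf
    rwa [pow_one] at h3

end ZX01

end ZX
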