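import Pool.Agent.ZX.Lev1a
import Pool.Agent.ZX.Num
import Pool.Agent.ZX.Simple
import Pool.Agent.ZX.Gen
import Pool.Agent.ZX.Sheet
import Pool.Agent.ZX.CoreD
import Pool.Agent.H9.Zar.Step

set_option linter.style.longLine false

/-! Level 1: the first projection at a point of `B`. -/

namespace ZX

open MvPowerSeries H9.Zar

universe v

section simple

variable {k : Type v} [Field k]

theorem l1_simple_X {n : ℕ} (j : Fin n) : IsSimple (X j : MvPowerSeries (Fin n) k) :=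
  ⟨constantCoeff_X j, j, by rw [pderiv_X_self, map_one]; exact one_ne_zero⟩

theorem l1_simple_comb (c : k) :
    IsSimple (X 0 - C c * X 1 : MvPowerSeries (Fin (6 + 1)) k) := by
  refine ⟨by simp, 0, ?_⟩
  rw [map_sub, pderiv_X_self, Derivation.leibniz, pderiv_C, pderiv_X_of_ne (by decide)]
  simp

theorem l1_simple_ff (q : Fin 3 → k) (i : Fin 8) : IsSimple (ff q i) := by
  refine ⟨by simp [ff], 0, ?_⟩
  rw [ff, map_sub (pderiv k 0), map_sub (pderiv k 0), pderiv_X_self, Derivation.leibniz,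
    Derivation.leibniz, Derivation.map_intCast, pderiv_X_of_ne (by decide),
    pderiv_X_of_ne (by decide)]
  simp

end simple

section level

variable {k : Type v} [Field k]

theorem l1_ext_const {n : ℕ} (x : MvPowerSeries (Fin (n + 1)) k) :
    constantCoeff (ext n k x) = incl n k (constantCoeff x) := constantCoeff_map _ _

theorem l1_ext_C {n : ℕ} (c : k) : ext n k (C c) = C (incl n k c) := map_C _ _

theorem l1_ext_X {n : ℕ} (j : Fin (n + 1)) : ext n k (X j) = X j := map_X _ _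

/-- The unit of the sheet of `ff q i`. -/
theorem l1_unit (q : Fin 3 → k) (i : Fin 8) (Θ : ProjIso 6 (GenField 6 k))
    (S : Sheet Θ (ext 6 k (ff q i))) :
    S.U - (dTh Θ (ext 6 k (X 0)) - (aa i : MvPowerSeries (Fin (6 + 1)) (GenField 6 k)) *
      dTh Θ (ext 6 k (X 1))) ∈
      Ideal.span {ext 6 k (X 0), ext 6 k (X 1), ext 6 k (X 2), ext 6 k (X 3)} := by
  set J := Ideal.span {ext 6 k (X 0), ext 6 k (X 1), ext 6 k (X 2), ext 6 k (X 3)} with hJ
  have m0 : ext 6 k (X 0) ∈ J := Ideal.subset_span (by simp)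
  have m1 : ext 6 k (X 1) ∈ J := Ideal.subset_span (by simp)
  have m2 : ext 6 k (X 2) ∈ J := Ideal.subset_span (by simp)
  have m3 : ext 6 k (X 3) ∈ J := Ideal.subset_span (by simp)
  obtain ⟨r, hr⟩ := S.dU
  have hP : ext 6 k (ff q i) ∈ J := by
    rw [ff, map_sub, map_sub, map_mul, map_mul]
    exact sub_mem (sub_mem m0 (Ideal.mul_mem_left _ _ m1)) (Ideal.mul_mem_right _ _ m3)
  have h1 : dTh Θ (ext 6 k (ff q i)) - (dTh Θ (ext 6 k (X 0)) -
      (aa i : MvPowerSeries (Fin (6 + 1)) (GenField 6 k)) * dTh Θ (ext 6 k (X 1))) ∈ J := by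
    rw [ff, map_sub (ext 6 k), map_sub (ext 6 k), map_mul (ext 6 k), map_mul (ext 6 k),
      map_intCast, map_sub (dTh Θ), map_sub (dTh Θ), Derivation.leibniz, Derivation.leibniz,
      Derivation.map_intCast, smul_zero, add_zero, smul_eq_mul, smul_eq_mul, smul_eq_mul,
      map_add (ext 6 k), map_mul (ext 6 k), map_mul (ext 6 k)]
    have h2 : ∀ a b c d : MvPowerSeries (Fin (6 + 1)) (GenField 6 k),
        a - b - (c + d) - (a - b) = -(c + d) := fun a b c d => by ring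
    rw [h2]
    exact neg_mem (add_mem (Ideal.mul_mem_right _ _ m3) (Ideal.mul_mem_right _ _
      (add_mem (Ideal.mul_mem_left _ _ m2) (Ideal.mul_mem_left _ _ m3))))
  have h3 : S.U = dTh Θ (ext 6 k (ff q i)) - ext 6 k (ff q i) * r := by rw [← hr]; ring
  rw [h3, sub_right_comm]
  exact sub_mem h1 (Ideal.mul_mem_right _ _ hP)

end level


section indep

variable {K : Type v} [Field K] {T ρ ε : MvPowerSeries (Fin 6) K}
  {y : Fin 3 → MvPowerSeries (Fin 6) K}

omit [Field K] in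
theorem l1_range : Set.range ![T, ρ, ε, y 0, y 1, y 2] = {T, ρ, ε} ∪ Set.range y := by
  ext x
  simp only [Matrix.range_cons, Matrix.range_empty, Set.union_empty, Set.mem_union,
    Set.mem_singleton_iff, Set.mem_insert_iff, Set.mem_range, Fin.exists_fin_succ,
    Fin.exists_fin_zero]
  simp only [Fin.succ_zero_eq_one, Fin.succ_one_eq_two, or_false]
  constructor
  · rintro (h | h | h | h | h | h)
    · exact Or.inl (Or.inl h)
    · exact Or.inl (Or.inr (Or.inl h))
    · exact Or.inl (Or.inr (Or.inr h))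
    · exact Or.inr (Or.inl h.symm)
    · exact Or.inr (Or.inr (Or.inl h.symm))
    · exact Or.inr (Or.inr (Or.inr h.symm))
  · rintro ((h | h | h) | (h | h | h))
    · exact Or.inl h
    · exact Or.inr (Or.inl h)
    · exact Or.inr (Or.inr (Or.inl h))
    · exact Or.inr (Or.inr (Or.inr (Or.inl h.symm)))
    · exact Or.inr (Or.inr (Or.inr (Or.inr (Or.inl h.symm))))
    · exact Or.inr (Or.inr (Or.inr (Or.inr (Or.inr h.symm))))

variable (hs : Ideal.span ({T, ρ, ε} ∪ Set.range y) =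
    IsLocalRing.maximalIdeal (MvPowerSeries (Fin 6) K))

include hs

theorem l1_indep (a b c : MvPowerSeries (Fin 6) K)
    (h : a * T + b * ρ + c * ε ∈ IsLocalRing.maximalIdeal (MvPowerSeries (Fin 6) K) ^ 2) :
    constantCoeff a = 0 ∧ constantCoeff b = 0 ∧ constantCoeff c = 0 := by
  have hx : Ideal.span (Set.range ![T, ρ, ε, y 0, y 1, y 2]) =
      IsLocalRing.maximalIdeal (MvPowerSeries (Fin 6) K) := by rw [l1_range, hs]
  have key := regular_indep ![T, ρ, ε, y 0, y 1, y 2] hx ![a, b, c, 0, 0, 0] (by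
    rw [Fin.sum_univ_six]
    simpa using h)
  exact ⟨(mem_max_iff _).1 (key 0), (mem_max_iff _).1 (key 1), (mem_max_iff _).1 (key 2)⟩

theorem l1_mem_max : T ∈ IsLocalRing.maximalIdeal (MvPowerSeries (Fin 6) K) ∧
    ρ ∈ IsLocalRing.maximalIdeal (MvPowerSeries (Fin 6) K) ∧
    ε ∈ IsLocalRing.maximalIdeal (MvPowerSeries (Fin 6) K) := by
  rw [← hs]
  exact ⟨Ideal.subset_span (by simp), Ideal.subset_span (by simp), Ideal.subset_span (by simp)⟩

theorem l1_simple_d (h : MvPowerSeries (Fin 6) K)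
    (h0 : h ∈ IsLocalRing.maximalIdeal (MvPowerSeries (Fin 6) K)) : IsSimple (T + ε * h) := by
  obtain ⟨m1, m2, m3⟩ := l1_mem_max hs
  rw [isSimple_iff]
  refine ⟨add_mem m1 (Ideal.mul_mem_right _ _ m3), fun hd => ?_⟩
  have h1 : T ∈ IsLocalRing.maximalIdeal (MvPowerSeries (Fin 6) K) ^ 2 := by
    have h2 : ε * h ∈ IsLocalRing.maximalIdeal (MvPowerSeries (Fin 6) K) ^ 2 := by
      rw [pow_two]; exact Ideal.mul_mem_mul m3 h0
    have := sub_mem hd h2
    rwa [add_sub_cancel_right] at this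
  have := (l1_indep hs 1 0 0 (by simpa using h1)).1
  rw [map_one] at this
  exact one_ne_zero this

theorem l1_prime_ε : Prime ε := by
  obtain ⟨m1, m2, m3⟩ := l1_mem_max hs
  refine isSimple_prime _ ((isSimple_iff _).2 ⟨m3, fun h => ?_⟩)
  have := (l1_indep hs 0 0 1 (by simpa using h)).2.2
  rw [map_one] at this
  exact one_ne_zero this

theorem l1_not_dvd : ¬ ε ∣ T := by
  rintro ⟨r, hr⟩
  have := (l1_indep hs 1 0 (-r) (by
    have h1 : 1 * T + 0 * ρ + -r * ε = 0 := by rw [hr]; ring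
    rw [h1]; exact Ideal.zero_mem _)).1
  rw [map_one] at this
  exact one_ne_zero this

theorem l1_sq_le : Ideal.span {ρ, ε} * Ideal.span {T, ρ, ε} ≤
    IsLocalRing.maximalIdeal (MvPowerSeries (Fin 6) K) ^ 2 := by
  obtain ⟨m1, m2, m3⟩ := l1_mem_max hs
  rw [pow_two]
  refine Ideal.mul_mono ?_ ?_
  · rw [Ideal.span_le]
    rintro x (rfl | rfl)
    · exact m2
    · exact m3
  · rw [Ideal.span_le]
    rintro x (rfl | rfl | rfl)
    · exact m1
    · exact m2
    · exact m3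

theorem l1_h_mem (A nb nc h : MvPowerSeries (Fin 6) K) (hA : IsUnit A)
    (he : A * h + (nb * ρ + nc * ε) ∈ Ideal.span {ρ, ε} * Ideal.span {T, ρ, ε}) :
    h ∈ IsLocalRing.maximalIdeal (MvPowerSeries (Fin 6) K) := by
  obtain ⟨m1, m2, m3⟩ := l1_mem_max hs
  have h1 : A * h ∈ IsLocalRing.maximalIdeal (MvPowerSeries (Fin 6) K) := by
    have h2 := Ideal.pow_le_self (two_ne_zero) (l1_sq_le hs he)
    have h3 := sub_mem h2 (add_mem (Ideal.mul_mem_left _ nb m2) (Ideal.mul_mem_left _ nc m3))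
    rwa [add_sub_cancel_right] at h3
  obtain ⟨u, rfl⟩ := hA
  have h4 := Ideal.mul_mem_left _ (↑u⁻¹ : MvPowerSeries (Fin 6) K) h1
  rwa [← mul_assoc, Units.inv_mul, one_mul] at h4

theorem l1_nonassoc (A1 A2 nb1 nc1 nb2 nc2 h1 h2 : MvPowerSeries (Fin 6) K) (hA1 : IsUnit A1)
    (e1 : A1 * h1 + (nb1 * ρ + nc1 * ε) ∈ Ideal.span {ρ, ε} * Ideal.span {T, ρ, ε})
    (e2 : A2 * h2 + (nb2 * ρ + nc2 * ε) ∈ Ideal.span {ρ, ε} * Ideal.span {T, ρ, ε})
    (hne : constantCoeff (A2 * nb1 - A1 * nb2) ≠ 0) :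
    ¬ Associated (T + ε * h1) (T + ε * h2) := by
  rintro ⟨v, hv⟩
  obtain ⟨m1, m2, m3⟩ := l1_mem_max hs
  have h10 := l1_h_mem hs A1 nb1 nc1 h1 hA1 e1
  have hε := l1_prime_ε hs
  have h3 : ε * (v * h1 - h2) = (1 - v) * T := by linear_combination hv
  obtain ⟨w, hw⟩ := (hε.2.2 _ _ (Dvd.intro _ h3)).resolve_right (l1_not_dvd hs)
  have h4 : (v : MvPowerSeries (Fin 6) K) * h1 - h2 = w * T := by
    apply mul_left_cancel₀ hε.ne_zero
    rw [h3, hw]; ring
  have h5 : h1 - h2 = w * (T + ε * h1) := by linear_combination h4 + h1 * hw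
  have h6 := sub_mem (Ideal.mul_mem_left _ A2 (l1_sq_le hs e1))
    (Ideal.mul_mem_left _ A1 (l1_sq_le hs e2))
  have h7 : A1 * A2 * w * (ε * h1) ∈ IsLocalRing.maximalIdeal (MvPowerSeries (Fin 6) K) ^ 2 := by
    refine Ideal.mul_mem_left _ _ ?_
    rw [pow_two]
    exact Ideal.mul_mem_mul m3 h10
  have h8 := sub_mem h6 h7
  have h9 : A2 * (A1 * h1 + (nb1 * ρ + nc1 * ε)) - A1 * (A2 * h2 + (nb2 * ρ + nc2 * ε)) -
      A1 * A2 * w * (ε * h1) = A1 * A2 * w * T + (A2 * nb1 - A1 * nb2) * ρ +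
        (A2 * nc1 - A1 * nc2) * ε := by linear_combination (A1 * A2) * h5
  rw [h9] at h8
  exact hne (l1_indep hs _ _ _ h8).2.1

end indep


section main

variable {R : Type v} [CommRing R]

/-- every sheet, restricted to the sheet `0` -/
theorem l1_sheet (T ρ ε z t x0 x1 n0 : R) (a b c : Fin 8 → R) (hT : T = t * x0 - z * x1)
    (h0 : x0 - a 0 * x1 - ε * (b 0 * ρ + c 0 * ε) = 0) (hn : n0 * (z - a 0 * t) = 1) :
    (x1 = -n0 * T + ε * (n0 * t * b 0 * ρ + n0 * t * c 0 * ε)) ∧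
    ∀ i, ∃ r s s', x0 - a i * x1 - ε * (b i * ρ + c i * ε) = r * T + ε * (s * ρ + s' * ε) := by
  have hx1 : x1 = -n0 * T + ε * (n0 * t * b 0 * ρ + n0 * t * c 0 * ε) := by
    rw [hT]
    linear_combination (-x1) * hn + (n0 * t) * h0
  refine ⟨hx1, fun i => ⟨(a 0 - a i) * -n0, (a 0 - a i) * (n0 * t * b 0) + (b 0 - b i),
    (a 0 - a i) * (n0 * t * c 0) + (c 0 - c i), ?_⟩⟩
  linear_combination h0 + (a 0 - a i) * hx1

end main

theorem l1_aa_ne {l : Fin 8 × Fin 8} (hl : l ∈ LL) : aa l.1 ≠ aa l.2 := by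
  revert l
  decide

theorem lev1 {k : Type v} [Field k] [IsAlgClosed k] [CharZero k] (q : Fin 3 → k) (hq : NumQ q)
    (φ : SerAut (6 + 1) k) (Θ : ProjIso 6 (GenField 6 k)) (hΘ : IsProj (gen k) (coord φ) Θ) :
    ∃ (χ : MvPowerSeries (Fin (6 + 1)) k →+* MvPowerSeries (Fin 6) (GenField 6 k))
      (T z t : MvPowerSeries (Fin 6) (GenField 6 k))
      (d u : Fin 8 × Fin 8 → MvPowerSeries (Fin 6) (GenField 6 k)),
      Lev1 T (χ (X 2)) (χ (X 3)) (fun i => χ (X (yi i))) z t (fun i => incl 6 k (q i)) d u ∧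
      (∀ x, constantCoeff (χ x) = incl 6 k (constantCoeff x)) ∧
      (∀ c, χ (C c) = C (incl 6 k c)) ∧
      Ideal.span {χ (X 0), χ (X 1), χ (X 3)} = Ideal.span {T, χ (X 3)} ∧
      DiscrIs (∏ i, ff q i) Θ (∏ l ∈ LL, d l) ∧
      ∀ I : Ideal (MvPowerSeries (Fin (6 + 1)) k), (∀ i, ff q i ∈ I) →
        projIdeal Θ (I.map (ext 6 k)) = I.map χ := by
  classical
  have hS : ∀ i, Nonempty (Sheet Θ (ext 6 k (ff q i))) := fun i => exists_sheet Θ _
    (by rw [l1_ext_const, (l1_simple_ff q i).1, map_zero])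
    (gen_ne φ Θ hΘ _ (l1_simple_ff q i))
  obtain ⟨S⟩ : Nonempty (∀ i, Sheet Θ (ext 6 k (ff q i))) := ⟨fun i => (hS i).some⟩
  obtain ⟨χ, hχ⟩ : ∃ χ : MvPowerSeries (Fin (6 + 1)) k →+* MvPowerSeries (Fin 6) (GenField 6 k),
    χ = (S 0).π.comp (ext 6 k) := ⟨_, rfl⟩
  have hχa : ∀ x, χ x = (S 0).π (ext 6 k x) := fun x => by rw [hχ]; rfl
  have hconst : ∀ x, constantCoeff (χ x) = incl 6 k (constantCoeff x) := fun x => by
    rw [hχa, Sheet.const, l1_ext_const]
  have hC : ∀ c, χ (C c) = C (incl 6 k c) := fun c => by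
    rw [hχa, l1_ext_C, Sheet.pi_C]
  -- the direction
  set Vz := dTh Θ (ext 6 k (X 0)) with hVz
  set Vt := dTh Θ (ext 6 k (X 1)) with hVt
  set z := (S 0).π Vz with hzdef
  set t := (S 0).π Vt with htdef
  have ht0 : constantCoeff t ≠ 0 := by
    rw [htdef, Sheet.const]
    exact gen_ne φ Θ hΘ _ (l1_simple_X 1)
  have hz0 : ∀ c : k, constantCoeff z ≠ incl 6 k c * constantCoeff t := by
    intro c h
    refine gen_ne φ Θ hΘ _ (l1_simple_comb c) ?_
    rw [map_sub (ext 6 k), map_mul (ext 6 k), l1_ext_C, map_sub (dTh Θ), Derivation.leibniz,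
      ← hVz, ← hVt, map_sub constantCoeff]
    have h1 : dTh Θ (C (incl 6 k c)) = 0 := (dTh Θ).map_algebraMap (incl 6 k c)
    rw [h1, smul_zero, add_zero, smul_eq_mul, map_mul, constantCoeff_C, ← Sheet.const (S 0),
      ← Sheet.const (S 0) Vt, ← hzdef, ← htdef, h, sub_self]
  -- the coordinates
  set x0 := χ (X 0) with hx0
  set x1 := χ (X 1) with hx1
  set ρ := χ (X 2) with hρ
  set ε := χ (X 3) with hε
  set y : Fin 3 → MvPowerSeries (Fin 6) (GenField 6 k) := fun i => χ (X (yi i)) with hy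
  set q' : Fin 3 → GenField 6 k := fun i => incl 6 k (q i) with hq'
  have hsg : χ (sg q fun j => X (yi j)) = sg q' y := by
    rw [sg, sg, map_add, hC]
  have htg : χ (tg q fun j => X (yi j)) = tg q' y := by
    rw [tg, tg, map_mul, map_add, map_add, hC, hC]
  set b := bv (sg q' y) with hb
  set c := cv (tg q' y) with hc
  set a : Fin 8 → MvPowerSeries (Fin 6) (GenField 6 k) := fun i => (aa i : MvPowerSeries _ _)
    with ha
  have hff : ∀ i, χ (ff q i) = x0 - a i * x1 - ε * (b i * ρ + c i * ε) := by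
    intro i
    rw [ff, map_sub, map_sub, map_mul, map_mul, map_intCast, map_add, map_mul, map_mul, map_bv,
      map_cv, hsg, htg]
  have hy0 : ∀ i, constantCoeff (y i) = 0 := fun i => by
    rw [hy, hconst, constantCoeff_X, map_zero]
  have hσ : constantCoeff (sg q' y) = incl 6 k (q 0) := by
    rw [sg, map_add, hy0, constantCoeff_C, zero_add]
  have hτ : constantCoeff (tg q' y) = incl 6 k (q 1 * q 2) := by
    rw [tg, map_mul, map_add, map_add, hy0, hy0, constantCoeff_C, constantCoeff_C, zero_add,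
      zero_add, map_mul]
  have hnum : NumOK z t (sg q' y) (tg q' y) := numOK_of q hq (incl 6 k) z t _ _ ht0 hz0 hσ hτ
  have hcas : Cas z t q' := cas_of q (incl 6 k) z t ht0 hz0
  -- the sheets in terms of `T`
  obtain ⟨T, hT⟩ : ∃ T, T = t * x0 - z * x1 := ⟨_, rfl⟩
  have hf0 : x0 - a 0 * x1 - ε * (b 0 * ρ + c 0 * ε) = 0 := by
    rw [← hff 0, hχa, Sheet.pi_self]
  obtain ⟨n0, hn0⟩ : ∃ n0, n0 * (z - a 0 * t) = 1 := by
    have : IsUnit (z - a 0 * t) := by
      rw [MvPowerSeries.isUnit_iff_constantCoeff, isUnit_iff_ne_zero]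
      exact hnum.zz 0
    obtain ⟨v, hv⟩ := this.exists_left_inv
    exact ⟨v, hv⟩
  obtain ⟨hx1e, hW⟩ := l1_sheet T ρ ε z t x0 x1 n0 a b c hT hf0 hn0
  have hx1m : x1 ∈ Ideal.span {T, ε} :=
    Ideal.mem_span_pair.2 ⟨-n0, n0 * t * b 0 * ρ + n0 * t * c 0 * ε, by rw [hx1e]; ring⟩
  have hεm : ε ∈ Ideal.span {T, ε} := Ideal.subset_span (by simp)
  have hx0m : x0 ∈ Ideal.span {T, ε} := by
    have h1 : x0 = a 0 * x1 + (b 0 * ρ + c 0 * ε) * ε := by linear_combination hf0
    rw [h1]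
    exact add_mem (Ideal.mul_mem_left _ _ hx1m) (Ideal.mul_mem_left _ _ hεm)
  have hle : Ideal.span {T, ε} ≤ Ideal.span {T, ρ, ε} := Ideal.span_mono (by
    rintro x (rfl | rfl)
    · simp
    · simp)
  have hspan2 : Ideal.span {x0, x1, ε} = Ideal.span {T, ε} := by
    apply le_antisymm
    · rw [Ideal.span_le]
      rintro x (rfl | rfl | rfl)
      · exact hx0m
      · exact hx1m
      · exact hεm
    · rw [Ideal.span_le]
      rintro x (rfl | rfl)
      · rw [hT]
        exact sub_mem (Ideal.mul_mem_left _ _ (Ideal.subset_span (by simp)))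
          (Ideal.mul_mem_left _ _ (Ideal.subset_span (by simp)))
      · exact Ideal.subset_span (by simp)
  have hmax : IsLocalRing.maximalIdeal (MvPowerSeries (Fin 6) (GenField 6 k)) =
      Ideal.span (Set.range fun i => χ (X i)) := by
    rw [← Sheet.map_max (S 0), ← ext_map_max, maximalIdeal_eq, Ideal.map_map, ← hχ,
      Ideal.map_span, ← Set.range_comp]
    rfl
  have hspan : Ideal.span ({T, ρ, ε} ∪ Set.range y) =
      IsLocalRing.maximalIdeal (MvPowerSeries (Fin 6) (GenField 6 k)) := by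
    apply le_antisymm
    · rw [Ideal.span_le]
      have hm : ∀ i, χ (X i) ∈ IsLocalRing.maximalIdeal (MvPowerSeries (Fin 6) (GenField 6 k)) :=
        fun i => by rw [hmax]; exact Ideal.subset_span ⟨i, rfl⟩
      rintro x ((rfl | rfl | rfl) | ⟨i, rfl⟩)
      · rw [hT]
        exact sub_mem (Ideal.mul_mem_left _ _ (hm 0)) (Ideal.mul_mem_left _ _ (hm 1))
      · exact hm 2
      · exact hm 3
      · exact hm _
    · rw [hmax, Ideal.span_le]
      have hle2 : Ideal.span {T, ε} ≤ Ideal.span ({T, ρ, ε} ∪ Set.range y) :=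
        hle.trans (Ideal.span_mono Set.subset_union_left)
      rintro _ ⟨i, rfl⟩
      fin_cases i
      · exact hle2 hx0m
      · exact hle2 hx1m
      · exact Ideal.subset_span (by left; simp [hρ])
      · exact Ideal.subset_span (by left; simp [hε])
      · exact Ideal.subset_span (Or.inr ⟨0, rfl⟩)
      · exact Ideal.subset_span (Or.inr ⟨1, rfl⟩)
      · exact Ideal.subset_span (Or.inr ⟨2, rfl⟩)
  -- the units of the sheets
  have hE : ∀ i, (S 0).π (S i).U - (z - a i * t) ∈ Ideal.span {T, ρ, ε} := by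
    intro i
    have h1 := Ideal.mem_map_of_mem (S 0).π (l1_unit q i Θ (S i))
    rw [Ideal.map_span, map_sub, map_sub, map_mul, map_intCast, ← hVz, ← hVt] at h1
    refine (Ideal.span_le.2 ?_) h1
    rintro _ ⟨x, (rfl | rfl | rfl | rfl), rfl⟩
    · rw [← hχa]; exact hle hx0m
    · rw [← hχa]; exact hle hx1m
    · rw [← hχa]; exact Ideal.subset_span (by simp [hρ])
    · rw [← hχa]; exact Ideal.subset_span (by simp [hε])
  have hm3 : ∀ m ∈ Ideal.span {T, ρ, ε}, constantCoeff m = 0 := by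
    intro m hm
    obtain ⟨m1, m2, m3⟩ := l1_mem_max hspan
    rw [← mem_max_iff]
    refine (Ideal.span_le.2 ?_) hm
    rintro x (rfl | rfl | rfl)
    · exact m1
    · exact m2
    · exact m3
  have hAu : ∀ l ∈ LL, ∀ m ∈ Ideal.span {T, ρ, ε}, IsUnit (a l.1 - a l.2 + m) := by
    intro l hl m hm
    have e1 : ∀ i, constantCoeff (a i) = (aa i : GenField 6 k) := fun i =>
      map_intCast constantCoeff _
    rw [MvPowerSeries.isUnit_iff_constantCoeff, isUnit_iff_ne_zero, map_add, hm3 m hm, add_zero,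
      map_sub, e1, e1, sub_ne_zero]
    have : CharZero (GenField 6 k) := charZero_of_injective_ringHom (incl 6 k).injective
    exact fun h => l1_aa_ne hl (Int.cast_injective h)
  have hUu : ∀ i, IsUnit ((S 0).π (S i).U) := fun i => (S i).hU.map _
  have hdiff : ∀ i j, (S 0).π (S j).U * χ (ff q i) - (S 0).π (S i).U * χ (ff q j) =
      (S 0).π (S i).U * (S 0).π (S j).U * ((S j).g - (S i).g) := by
    intro i j
    have h1 := congrArg (S 0).π ((S i).diff (S j))
    rw [map_sub, map_mul, map_mul, map_mul, map_mul, (S 0).πC] at h1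
    rw [hχa, hχa, h1]
  have hex : ∀ l : Fin 8 × Fin 8, ∃ d u h : MvPowerSeries (Fin 6) (GenField 6 k), l ∈ LL →
      (IsUnit u ∧ u * d = (S l.2).g - (S l.1).g ∧ d = T + ε * h ∧
        (a l.1 - a l.2) * h + (nn z t b l * ρ + nn z t c l * ε) ∈
          Ideal.span {ρ, ε} * Ideal.span {T, ρ, ε}) := by
    intro l
    by_cases hl : l ∈ LL
    swap
    · exact ⟨0, 0, 0, fun h => absurd h hl⟩
    obtain ⟨ri, si, si', hfi⟩ := hW l.1
    obtain ⟨rj, sj, sj', hfj⟩ := hW l.2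
    obtain ⟨m, hm, κ, hκ, hmain⟩ := l1_main T ρ ε z t x0 x1 (a l.1) (a l.2) (b l.1) (b l.2)
      (c l.1) (c l.2) _ _ ri si si' rj sj sj' (hE l.1) (hE l.2) hT hfi hfj
    rw [add_sub_cancel, add_sub_cancel, ← hff, ← hff, hdiff] at hmain
    obtain ⟨d, u, h, h1, h2, h3, h4⟩ := l1_norm T ρ ε (a l.1 - a l.2) m _ _ κ _ _ hm hκ
      (hAu l hl m hm) ((hUu l.1).mul (hUu l.2)) hmain
    exact ⟨d, u, h, fun _ => ⟨h1, h2, h3, h4⟩⟩
  choose d u h hdu using hex
  have hA : ∀ l ∈ LL, IsUnit (a l.1 - a l.2) := fun l hl => by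
    have := hAu l hl 0 (Ideal.zero_mem _)
    rwa [add_zero] at this
  have hdp : ∀ l ∈ LL, Prime (d l) := by
    intro l hl
    obtain ⟨-, -, h3, h4⟩ := hdu l hl
    rw [h3]
    exact isSimple_prime _ (l1_simple_d hspan _ (l1_h_mem hspan _ _ _ _ (hA l hl) h4))
  have hdn : ∀ l ∈ LL, ∀ m ∈ LL, l ≠ m → ¬ Associated (d l) (d m) := by
    intro l hl m hm hlm
    obtain ⟨-, -, h3, h4⟩ := hdu l hl
    obtain ⟨-, -, h5, h6⟩ := hdu m hm
    rw [h3, h5]
    exact l1_nonassoc hspan _ _ _ _ _ _ _ _ (hA l hl) h4 h6 (hnum.ddb l hl m hm hlm)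
  have hLL : ∀ i j : Fin 8, i ≠ j → ∃ l ∈ LL, (l = (i, j) ∨ l = (j, i)) := by decide
  have hpair : ∀ l ∈ LL, Associated ((S l.1).g - (S l.2).g) (d l) := by
    intro l hl
    obtain ⟨⟨w, hw⟩, h2, -, -⟩ := hdu l hl
    have h3 : (S l.1).g - (S l.2).g = d l * ↑(-w) := by
      rw [Units.val_neg, hw]
      linear_combination h2
    rw [h3]
    exact (associated_mul_unit_left _ _ (-w).isUnit)
  refine ⟨χ, T, z, t, d, u, ⟨hspan, hy0, hnum, hcas, fun l hl => (hdu l hl).1, ?_, ?_⟩, hconst,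
    hC, hspan2, ?_, ?_⟩
  · intro i j m hij hjm
    have mem : ∀ i j : Fin 8, i < j → (i, j) ∈ LL := fun i j h => by simp [LL, h]
    rw [(hdu _ (mem i m (hij.trans hjm))).2.1, (hdu _ (mem i j hij)).2.1,
      (hdu _ (mem j m hjm)).2.1]
    ring
  · intro l hl
    exact ⟨h l, (hdu l hl).2.2.1, (hdu l hl).2.2.2⟩
  · have key := core_discr (∏ i, ff q i) (ff q) (Associated.refl _) Θ S
      (fun c : {l // l ∈ LL} => d c.1) (fun c => hdp c.1 c.2)
      (fun c c' hcc => hdn c.1 c.2 c'.1 c'.2 fun h => hcc (Subtype.ext h)) ?_ ?_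
    · rwa [Finset.prod_coe_sort LL d] at key
    · intro i j hij
      obtain ⟨l, hl, hl2⟩ := hLL i j hij
      refine ⟨Pi.single ⟨l, hl⟩ 1, ?_⟩
      have h1 : ∏ c : {l // l ∈ LL}, d c.1 ^ (Pi.single (M := fun _ => ℕ)
          (⟨l, hl⟩ : {l // l ∈ LL}) 1 c) = d l := by
        rw [Finset.prod_eq_single ⟨l, hl⟩]
        · simp
        · intro b _ hb
          rw [Pi.single_eq_of_ne hb, pow_zero]
        · intro h
          exact absurd (Finset.mem_univ _) h
      rw [h1]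
      refine ((S i).assoc (S j)).trans ?_
      rcases hl2 with rfl | rfl
      · exact hpair _ hl
      · refine Associated.trans ?_ (hpair _ hl)
        rw [← neg_sub]
        exact (Associated.neg_left (Associated.refl _))
    · rintro ⟨l, hl⟩
      have hne : l.1 ≠ l.2 := fun h => l1_aa_ne hl (by rw [h])
      exact ⟨l.1, l.2, hne, (((S l.1).assoc (S l.2)).trans (hpair l hl)).symm.dvd⟩
  · intro I hI
    rw [Sheet.proj (S 0) _ (Ideal.mem_map_of_mem _ (hI 0)), Ideal.map_map, ← hχ]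

end ZX
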