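import Pool.Agent.ZX.Defs
import Pool.Agent.ZX.Simple
import Pool.Agent.ZX.Gen
import Pool.Agent.ZX.Sheet
import Pool.Agent.ZX.CoreD

set_option linter.style.longLine false

/-! The second projection of the counterexample. -/

namespace ZX

open MvPowerSeries H9.Zar

universe v

/-! ### algebra -/

namespace L2

/-! ### the numbers -/

lemma det_star {R : Type*} [CommRing R] (z t σ τ : R) :
    Det z t (bv σ) (cv τ) Pa Pb = -12 * (z - 2 * t) * (t * σ - z * τ) := by
  simp [Det, dd, nn, bv, cv, Pa, Pb, aa, b0, c0]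
  ring

section

variable {R R' : Type*} [CommRing R] [CommRing R']

lemma map_bv (f : R →+* R') (σ : R) (i : Fin 8) : f (bv σ i) = bv (f σ) i := by
  unfold bv
  split_ifs <;> simp

lemma map_cv (f : R →+* R') (σ : R) (i : Fin 8) : f (cv σ i) = cv (f σ) i := by
  unfold cv
  split_ifs <;> simp

lemma map_nn (f : R →+* R') (z t : R) (x : Fin 8 → R) (l : Fin 8 × Fin 8) :
    f (nn z t x l) = nn (f z) (f t) (fun i => f (x i)) l := by
  simp [nn]

lemma map_dd (f : R →+* R') (z t : R) (x : Fin 8 → R) (P : (Fin 8 × Fin 8) × (Fin 8 × Fin 8)) :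
    f (dd z t x P) = dd (f z) (f t) (fun i => f (x i)) P := by
  simp [dd, map_nn]

lemma map_Det (f : R →+* R') (z t : R) (b c : Fin 8 → R)
    (P P' : (Fin 8 × Fin 8) × (Fin 8 × Fin 8)) :
    f (Det z t b c P P') = Det (f z) (f t) (fun i => f (b i)) (fun i => f (c i)) P P' := by
  simp [Det, map_dd]
end

/-- base change of the numerical conditions -/
lemma numOK_map {K K' : Type v} [Field K] [Field K'] (i : K →+* K') {n n' : ℕ}
    (χ : MvPowerSeries (Fin n) K →+* MvPowerSeries (Fin n') K')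
    (hχ : ∀ x, constantCoeff (χ x) = i (constantCoeff x)) {z t σ τ : MvPowerSeries (Fin n) K}
    (h : NumOK z t σ τ) : NumOK (χ z) (χ t) (χ σ) (χ τ) := by
  refine ⟨?_, ?_, ?_, ?_⟩
  · rw [hχ]
    exact (map_ne_zero i).2 h.t0
  · intro j
    have : χ z - (aa j : MvPowerSeries (Fin n') K') * χ t =
        χ (z - (aa j : MvPowerSeries (Fin n) K) * t) := by
      simp
    rw [this, hχ]
    exact (map_ne_zero i).2 (h.zz j)
  · intro l hl m hm hlm
    have : dd (χ z) (χ t) (bv (χ σ)) (l, m) = χ (dd z t (bv σ) (l, m)) := by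
      rw [map_dd]
      simp only [map_bv]
    rw [this, hχ]
    exact (map_ne_zero i).2 (h.ddb l hl m hm hlm)
  · intro P hP P' hP' h1 h2 h3
    have : Det (χ z) (χ t) (bv (χ σ)) (cv (χ τ)) P P' = χ (Det z t (bv σ) (cv τ) P P') := by
      rw [map_Det]
      simp only [map_bv, map_cv]
    rw [this, hχ]
    exact (map_ne_zero i).2 (h.det P hP P' hP' h1 h2 h3)

lemma cas_map {K K' : Type v} [Field K] [Field K'] (i : K →+* K') {n n' : ℕ}
    (χ : MvPowerSeries (Fin n) K →+* MvPowerSeries (Fin n') K')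
    (hχ : ∀ x, constantCoeff (χ x) = i (constantCoeff x)) {z t : MvPowerSeries (Fin n) K}
    {q : Fin 3 → K} (h : Cas z t q) : Cas (χ z) (χ t) (fun j => i (q j)) := by
  rcases h with h | ⟨h1, h2⟩
  · left
    simp only [hχ]
    have := (map_ne_zero i).2 h
    simpa using this
  · right
    refine ⟨by simp [h1], ?_⟩
    simp only
    rw [← map_mul, h2, map_zero]

/-! ### ideals -/

section

variable {R : Type*} [CommRing R]

lemma mem_pair_mul {a b x : R} {J : Ideal R} (h : x ∈ Ideal.span {a, b} * J) :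
    ∃ p ∈ J, ∃ q ∈ J, x = p * a + q * b := by
  refine Submodule.mul_induction_on h ?_ ?_
  · intro m hm n hn
    obtain ⟨s, t, rfl⟩ := Ideal.mem_span_pair.1 hm
    exact ⟨n * s, J.mul_mem_right _ hn, n * t, J.mul_mem_right _ hn, by ring⟩
  · rintro x y ⟨p, hp, q, hq, rfl⟩ ⟨p', hp', q', hq', rfl⟩
    exact ⟨p + p', J.add_mem hp hp', q + q', J.add_mem hq hq', by ring⟩

lemma span_six (a b c : R) (y : Fin 3 → R) :
    Ideal.span (Set.range ![a, b, c, y 0, y 1, y 2]) = Ideal.span ({a, b, c} ∪ Set.range y) := by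
  congr 1
  ext x
  simp only [Set.mem_range, Set.mem_union, Set.mem_insert_iff, Set.mem_singleton_iff,
    Fin.exists_fin_succ, Matrix.cons_val_zero, Matrix.cons_val_succ]
  simp
  aesop

lemma span_five (a b : R) (y : Fin 3 → R) :
    Ideal.span (Set.range ![a, b, y 0, y 1, y 2]) = Ideal.span ({a, b} ∪ Set.range y) := by
  congr 1
  ext x
  simp only [Set.mem_range, Set.mem_union, Set.mem_insert_iff, Set.mem_singleton_iff,
    Fin.exists_fin_succ, Matrix.cons_val_zero, Matrix.cons_val_succ]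
  simp
  aesop

/-- replace the first generator -/
lemma span_change {S : Set R} {a a' c : R} (hc : c ∈ Ideal.span S) (w : R) (hw : IsUnit w)
    (h : a' = w * a + c) : Ideal.span (insert a' S) = Ideal.span (insert a S) := by
  apply le_antisymm
  · rw [Ideal.span_le]
    rintro x (rfl | hx)
    · rw [h]
      refine Ideal.add_mem _ (Ideal.mul_mem_left _ _ (Ideal.subset_span (Set.mem_insert _ _))) ?_
      exact Ideal.span_mono (Set.subset_insert _ _) hc
    · exact Ideal.subset_span (Set.mem_insert_of_mem _ hx)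
  · rw [Ideal.span_le]
    rintro x (rfl | hx)
    · obtain ⟨w', hw'⟩ := hw.exists_left_inv
      have : x = w' * (a' - c) := by rw [h]; linear_combination (-x) * hw'
      rw [SetLike.mem_coe, this]
      refine Ideal.mul_mem_left _ _ (Ideal.sub_mem _ (Ideal.subset_span (Set.mem_insert _ _)) ?_)
      exact Ideal.span_mono (Set.subset_insert _ _) hc
    · exact Ideal.subset_span (Set.mem_insert_of_mem _ hx)

/-- the form of `π D` -/
lemma form {R' : Type*} [CommRing R'] (χ π : R →+* R') {T ρ ε : R}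
    (hπ : ∀ x, ∃ j ∈ Ideal.span {χ ρ, χ ε}, π x = χ x + χ ε * j)
    (hT : ∃ j ∈ Ideal.span {χ ρ, χ ε}, χ T = χ ε * j) {D b c : R}
    (hD : D - (b * ρ + c * ε) ∈ Ideal.span {ρ, ε} * Ideal.span {T, ρ, ε}) :
    ∃ α β, π D = α * χ ρ + β * χ ε ∧ α - χ b ∈ Ideal.span {χ ρ, χ ε} ∧
      β - χ c ∈ Ideal.span {χ ρ, χ ε} := by
  set I := Ideal.span {χ ρ, χ ε} with hI
  have hρI : χ ρ ∈ I := Ideal.subset_span (by simp)
  have hεI : χ ε ∈ I := Ideal.subset_span (by simp)
  have hsp : ∀ x ∈ Ideal.span {T, ρ, ε}, π x ∈ I := by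
    intro x hx
    have : Ideal.span {T, ρ, ε} ≤ I.comap π := by
      rw [Ideal.span_le]
      rintro x (rfl | rfl | rfl)
      · obtain ⟨j, hj, e⟩ := hπ x
        obtain ⟨j', hj', e'⟩ := hT
        rw [SetLike.mem_coe, Ideal.mem_comap, e, e']
        exact I.add_mem (I.mul_mem_left _ hj') (I.mul_mem_left _ hj)
      · obtain ⟨j, hj, e⟩ := hπ x
        rw [SetLike.mem_coe, Ideal.mem_comap, e]
        exact I.add_mem hρI (I.mul_mem_left _ hj)
      · obtain ⟨j, hj, e⟩ := hπ x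
        rw [SetLike.mem_coe, Ideal.mem_comap, e]
        exact I.add_mem hεI (I.mul_mem_left _ hj)
    exact this hx
  obtain ⟨p, hp, r, hr, e⟩ := mem_pair_mul hD
  obtain ⟨j1, hj1, e1⟩ := hπ b
  obtain ⟨j2, hj2, e2⟩ := hπ ρ
  obtain ⟨j3, hj3, e3⟩ := hπ c
  obtain ⟨j4, hj4, e4⟩ := hπ ε
  have hp' := hsp p hp
  have hr' := hsp r hr
  refine ⟨χ b + χ ε * j1 + π p, (χ b + χ ε * j1) * j2 + (χ c + χ ε * j3) * (1 + j4) + π p * j2 +
    π r * (1 + j4), ?_, ?_, ?_⟩
  · have e5 : D = b * ρ + c * ε + (p * ρ + r * ε) := by rw [← e]; ring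
    rw [e5]
    simp only [map_add, map_mul, e1, e2, e3, e4]
    ring
  · have : χ b + χ ε * j1 + π p - χ b = χ ε * j1 + π p := by ring
    rw [this]
    exact I.add_mem (I.mul_mem_left _ hj1) hp'
  · have : (χ b + χ ε * j1) * j2 + (χ c + χ ε * j3) * (1 + j4) + π p * j2 + π r * (1 + j4) - χ c =
      (χ b + χ ε * j1 + π p) * j2 + χ ε * (j3 * (1 + j4)) + χ c * j4 + (1 + j4) * π r := by ring
    rw [this]
    exact I.add_mem (I.add_mem (I.add_mem (I.mul_mem_left _ hj2) (I.mul_mem_right _ hεI))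
      (I.mul_mem_left _ hj4)) (I.mul_mem_left _ hr')

end

/-! ### smooth germs -/

section

variable {K : Type v} [Field K]

lemma simple6 (a b c : MvPowerSeries (Fin 6) K) (y : Fin 3 → MvPowerSeries (Fin 6) K)
    (h : Ideal.span ({a, b, c} ∪ Set.range y) =
      IsLocalRing.maximalIdeal (MvPowerSeries (Fin 6) K)) : IsSimple a := by
  have := regular_isSimple ![a, b, c, y 0, y 1, y 2] (by rw [span_six, h]) 0
  simpa using this

lemma simple5 (a b : MvPowerSeries (Fin 5) K) (y : Fin 3 → MvPowerSeries (Fin 5) K)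
    (h : Ideal.span ({a, b} ∪ Set.range y) =
      IsLocalRing.maximalIdeal (MvPowerSeries (Fin 5) K)) : IsSimple a := by
  have := regular_isSimple ![a, b, y 0, y 1, y 2] (by rw [span_five, h]) 0
  simpa using this

lemma indep5 (a b : MvPowerSeries (Fin 5) K) (y : Fin 3 → MvPowerSeries (Fin 5) K)
    (h : Ideal.span ({a, b} ∪ Set.range y) =
      IsLocalRing.maximalIdeal (MvPowerSeries (Fin 5) K)) (c : Fin 5 → MvPowerSeries (Fin 5) K)
    (hc : c 0 * a + c 1 * b + c 2 * y 0 + c 3 * y 1 + c 4 * y 2 ∈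
      IsLocalRing.maximalIdeal (MvPowerSeries (Fin 5) K) ^ 2) (i : Fin 5) :
    constantCoeff (c i) = 0 := by
  rw [← mem_max_iff]
  refine regular_indep ![a, b, y 0, y 1, y 2] (by rw [span_five, h]) c ?_ i
  have : ∑ i, c i * (![a, b, y 0, y 1, y 2] : Fin 5 → MvPowerSeries (Fin 5) K) i =
      c 0 * a + c 1 * b + c 2 * y 0 + c 3 * y 1 + c 4 * y 2 := by
    simp [Fin.sum_univ_succ]
    ring
  rw [this]
  exact hc

end

end L2

section

open L2

variable {K : Type v} [Field K] {ρ ε : MvPowerSeries (Fin 5) K}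
  {y : Fin 3 → MvPowerSeries (Fin 5) K} {z t : MvPowerSeries (Fin 5) K} {q : Fin 3 → K}
  {G : (Fin 8 × Fin 8) × (Fin 8 × Fin 8) → MvPowerSeries (Fin 5) K}

lemma L2.SS_mem {P : (Fin 8 × Fin 8) × (Fin 8 × Fin 8)} (hP : P ∈ SS) :
    P.1 ∈ LL ∧ P.2 ∈ LL ∧ P.1 ≠ P.2 := by
  simp only [SS, Finset.mem_filter, Finset.mem_product] at hP
  refine ⟨hP.1.1, hP.1.2, fun e => ?_⟩
  rcases hP.2 with h | h
  · rw [e] at h
    exact absurd h.2 (lt_irrefl _)
  · rw [e] at h
    exact absurd h.1 (lt_irrefl _)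

lemma Lev2.const (h : Lev2 ρ ε y z t q G) {x : MvPowerSeries (Fin 5) K}
    (hx : x ∈ Ideal.span {ρ, ε}) : constantCoeff x = 0 := by
  rw [← mem_max_iff, ← h.span]
  exact Ideal.span_mono Set.subset_union_left hx

lemma Lev2.eps_simple (h : Lev2 ρ ε y z t q G) : IsSimple ε := by
  refine simple5 ε ρ y ?_
  rw [← h.span, Set.pair_comm]

lemma Lev2.alpha (h : Lev2 ρ ε y z t q G) {P : (Fin 8 × Fin 8) × (Fin 8 × Fin 8)} (hP : P ∈ SS)
    {α : MvPowerSeries (Fin 5) K} (hα : α - dd z t (bv (sg q y)) P ∈ Ideal.span {ρ, ε}) :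
    constantCoeff α ≠ 0 := by
  have h1 := h.const hα
  rw [map_sub, sub_eq_zero] at h1
  rw [h1]
  obtain ⟨h2, h3, h4⟩ := SS_mem hP
  exact h.num.ddb _ h2 _ h3 h4

lemma Lev2.G_span (h : Lev2 ρ ε y z t q G) {P : (Fin 8 × Fin 8) × (Fin 8 × Fin 8)}
    (hP : P ∈ SS) : Ideal.span ({G P, ε} ∪ Set.range y) =
      IsLocalRing.maximalIdeal (MvPowerSeries (Fin 5) K) := by
  obtain ⟨α, β, e, hα, hβ⟩ := h.eq P hP
  have h1 := h.alpha hP hα
  rw [← h.span, Set.insert_union, Set.insert_union]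
  refine span_change (c := β * ε) ?_ α ?_ e
  · exact Ideal.mul_mem_left _ _ (Ideal.subset_span (by simp))
  · rw [MvPowerSeries.isUnit_iff_constantCoeff]
    exact isUnit_iff_ne_zero.2 h1

lemma Lev2.G_simple (h : Lev2 ρ ε y z t q G) {P : (Fin 8 × Fin 8) × (Fin 8 × Fin 8)}
    (hP : P ∈ SS) : IsSimple (G P) :=
  simple5 _ _ y (h.G_span hP)

lemma Lev2.not_assoc_eps (h : Lev2 ρ ε y z t q G) {P : (Fin 8 × Fin 8) × (Fin 8 × Fin 8)}
    (hP : P ∈ SS) : ¬ Associated ε (G P) := by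
  rintro ⟨v, hv⟩
  obtain ⟨α, β, e, hα, hβ⟩ := h.eq P hP
  refine h.alpha hP hα ?_
  refine indep5 ρ ε y h.span ![α, β - v, 0, 0, 0] ?_ 0
  have : (![α, β - v, 0, 0, 0] : Fin 5 → MvPowerSeries (Fin 5) K) 0 * ρ +
      (![α, β - v, 0, 0, 0] : Fin 5 → MvPowerSeries (Fin 5) K) 1 * ε +
      (![α, β - v, 0, 0, 0] : Fin 5 → MvPowerSeries (Fin 5) K) 2 * y 0 +
      (![α, β - v, 0, 0, 0] : Fin 5 → MvPowerSeries (Fin 5) K) 3 * y 1 +
      (![α, β - v, 0, 0, 0] : Fin 5 → MvPowerSeries (Fin 5) K) 4 * y 2 = 0 := by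
    simp
    linear_combination -e - hv
  rw [this]
  exact zero_mem _

lemma Lev2.not_dvd (h : Lev2 ρ ε y z t q G) : ¬ ε ∣ ρ := by
  rintro ⟨k, hk⟩
  have := indep5 ρ ε y h.span ![1, -k, 0, 0, 0] (by
    have : (![1, -k, 0, 0, 0] : Fin 5 → MvPowerSeries (Fin 5) K) 0 * ρ +
      (![1, -k, 0, 0, 0] : Fin 5 → MvPowerSeries (Fin 5) K) 1 * ε +
      (![1, -k, 0, 0, 0] : Fin 5 → MvPowerSeries (Fin 5) K) 2 * y 0 +
      (![1, -k, 0, 0, 0] : Fin 5 → MvPowerSeries (Fin 5) K) 3 * y 1 +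
      (![1, -k, 0, 0, 0] : Fin 5 → MvPowerSeries (Fin 5) K) 4 * y 2 = 0 := by
      simp
      linear_combination hk
    rw [this]
    exact zero_mem _) 0
  simp at this

/-- a coincidence of two sheets gives a relation for the determinant -/
lemma Lev2.det_mem (h : Lev2 ρ ε y z t q G) {P P' : (Fin 8 × Fin 8) × (Fin 8 × Fin 8)}
    (hP : P ∈ SS) (hP' : P' ∈ SS) (ha : Associated (G P) (G P')) :
    Det z t (bv (sg q y)) (cv (tg q y)) P P' ∈ Ideal.span {ρ, ε} := by
  obtain ⟨v, hv⟩ := ha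
  obtain ⟨α, β, e, hα, hβ⟩ := h.eq P hP
  obtain ⟨α', β', e', hα', hβ'⟩ := h.eq P' hP'
  have hpr : Prime ε := isSimple_prime _ h.eps_simple
  have h1 : (α' - v * α) * ρ = -(β' - v * β) * ε := by
    linear_combination e' * (-1) + v * e - hv
  have h2 : ε ∣ α' - v * α := by
    rcases hpr.dvd_or_dvd (show ε ∣ (α' - v * α) * ρ from h1 ▸ Dvd.intro_left _ rfl) with h2 | h2
    · exact h2
    · exact absurd h2 h.not_dvd
  obtain ⟨k, hk⟩ := h2
  have h3 : β' - v * β = -(ρ * k) := by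
    refine mul_left_cancel₀ hpr.ne_zero ?_
    linear_combination h1 - ρ * hk
  have h4 : α * β' - α' * β = -(k * (α * ρ + β * ε)) := by
    linear_combination α * h3 - β * hk
  set I := Ideal.span {ρ, ε} with hI
  have hρI : ρ ∈ I := Ideal.subset_span (by simp)
  have hεI : ε ∈ I := Ideal.subset_span (by simp)
  have h5 : α * β' - α' * β ∈ I := by
    rw [h4]
    exact I.neg_mem (I.mul_mem_left _ (I.add_mem (I.mul_mem_left _ hρI) (I.mul_mem_left _ hεI)))
  have h6 : Det z t (bv (sg q y)) (cv (tg q y)) P P' = (α * β' - α' * β)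
      - (α - dd z t (bv (sg q y)) P) * β' - dd z t (bv (sg q y)) P * (β' - dd z t (cv (tg q y)) P')
      + (α' - dd z t (bv (sg q y)) P') * β +
      dd z t (bv (sg q y)) P' * (β - dd z t (cv (tg q y)) P) := by
    unfold Det
    ring
  rw [h6]
  exact I.add_mem (I.add_mem (I.sub_mem (I.sub_mem h5 (I.mul_mem_right _ hα))
    (I.mul_mem_left _ hβ')) (I.mul_mem_right _ hα')) (I.mul_mem_left _ hβ)

lemma Lev2.star_not_mem [CharZero K] (h : Lev2 ρ ε y z t q G) :
    Det z t (bv (sg q y)) (cv (tg q y)) Pa Pb ∉ Ideal.span {ρ, ε} := by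
  intro hd
  rw [det_star] at hd
  have hu : IsUnit (-12 * (z - 2 * t) : MvPowerSeries (Fin 5) K) := by
    rw [MvPowerSeries.isUnit_iff_constantCoeff, map_mul]
    refine isUnit_iff_ne_zero.2 (mul_ne_zero ?_ ?_)
    · rw [map_neg, neg_ne_zero, map_ofNat]
      norm_num
    · have := h.num.zz 1
      simpa [aa] using this
  have h1 : t * sg q y - z * tg q y ∈ Ideal.span {ρ, ε} := by
    obtain ⟨w, hw⟩ := hu.exists_left_inv
    have : t * sg q y - z * tg q y = w * (-12 * (z - 2 * t) * (t * sg q y - z * tg q y)) := by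
      linear_combination (-(t * sg q y - z * tg q y)) * hw
    rw [this]
    exact Ideal.mul_mem_left _ _ hd
  rcases h.cas with hA | ⟨h0, h12⟩
  · have h2 := h.const h1
    simp only [sg, tg, map_sub, map_mul, map_add, h.y0, constantCoeff_C, zero_add] at h2
    exact hA h2
  · obtain ⟨a, b, hab⟩ := Ideal.mem_span_pair.1 h1
    refine h.num.t0 ?_
    refine indep5 ρ ε y h.span ![-a, -b, t, -z * (y 2 + C (q 2)), -z * C (q 1)] ?_ 2
    have hC : (C (q 1) * C (q 2) : MvPowerSeries (Fin 5) K) = 0 := by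
      rw [← map_mul, h12, map_zero]
    have : (![-a, -b, t, -z * (y 2 + C (q 2)), -z * C (q 1)] :
        Fin 5 → MvPowerSeries (Fin 5) K) 0 * ρ +
      (![-a, -b, t, -z * (y 2 + C (q 2)), -z * C (q 1)] : Fin 5 → MvPowerSeries (Fin 5) K) 1 * ε +
      (![-a, -b, t, -z * (y 2 + C (q 2)), -z * C (q 1)] : Fin 5 → MvPowerSeries (Fin 5) K) 2 * y 0 +
      (![-a, -b, t, -z * (y 2 + C (q 2)), -z * C (q 1)] : Fin 5 → MvPowerSeries (Fin 5) K) 3 * y 1 +
      (![-a, -b, t, -z * (y 2 + C (q 2)), -z * C (q 1)] : Fin 5 → MvPowerSeries (Fin 5) K) 4 * y 2 =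
        0 := by
      simp only [sg, tg, h0, map_zero, add_zero] at hab
      simp
      linear_combination -hab + z * hC
    rw [this]
    exact zero_mem _

lemma Lev2.not_assoc [CharZero K] (h : Lev2 ρ ε y z t q G)
    {P P' : (Fin 8 × Fin 8) × (Fin 8 × Fin 8)} (hP : P ∈ SS) (hP' : P' ∈ SS) (hne : P ≠ P') :
    ¬ Associated (G P) (G P') := by
  intro ha
  have h1 := h.det_mem hP hP' ha
  by_cases h2 : P = Pa ∧ P' = Pb
  · rw [h2.1, h2.2] at h1
    exact h.star_not_mem h1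
  by_cases h3 : P = Pb ∧ P' = Pa
  · rw [h3.1, h3.2] at h1
    have h4 : Det z t (bv (sg q y)) (cv (tg q y)) Pa Pb =
      -Det z t (bv (sg q y)) (cv (tg q y)) Pb Pa := by
      unfold Det
      ring
    refine h.star_not_mem ?_
    rw [h4]
    exact Ideal.neg_mem_iff _ |>.2 h1
  exact h.num.det P hP P' hP' hne h2 h3 (h.const h1)

end

/-! ### the combinatorics -/

namespace L2

lemma LL_mem {l : Fin 8 × Fin 8} : l ∈ LL ↔ l.1 < l.2 := by simp [LL]

lemma SS_iff {P : (Fin 8 × Fin 8) × (Fin 8 × Fin 8)} : P ∈ SS ↔ (P.1 ∈ LL ∧ P.2 ∈ LL) ∧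
    ((P.1.1 = P.2.1 ∧ P.1.2 < P.2.2) ∨ (P.1.1 < P.2.1 ∧ P.1.2 ≠ P.2.1 ∧ P.1.2 ≠ P.2.2)) := by
  simp only [SS, Finset.mem_filter, Finset.mem_product]

lemma cases {a b c d : Fin 8} (hab : a < b) (hcd : c < d) (hne : (a, b) ≠ (c, d)) :
    ((a, b), (c, d)) ∈ SS ∨ ((c, d), (a, b)) ∈ SS ∨ b = c ∨ a = d ∨ (b = d ∧ a < c) ∨
      (b = d ∧ c < a) := by
  simp only [SS_iff, LL_mem]
  have : a ≠ c ∨ b ≠ d := by
    by_contra hh
    push Not at hh
    exact hne (by rw [hh.1, hh.2])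
  omega

lemma unitA {K : Type v} [Field K] [CharZero K] {n : ℕ} {l : Fin 8 × Fin 8} (hl : l ∈ LL) :
    IsUnit ((aa l.1 : MvPowerSeries (Fin n) K) - (aa l.2 : MvPowerSeries (Fin n) K)) := by
  have h1 : ∀ a b : Fin 8, a < b → aa a - aa b ≠ 0 := by decide
  rw [MvPowerSeries.isUnit_iff_constantCoeff, map_sub, map_intCast, map_intCast, isUnit_iff_ne_zero]
  have h2 := h1 l.1 l.2 (LL_mem.1 hl)
  exact_mod_cast h2

lemma assoc_of {R : Type*} [CommRing R] {a b u v : R} (hu : IsUnit u) (hv : IsUnit v)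
    (h : u * a = v * b) : Associated a b :=
  (associated_unit_mul_left a u hu).symm.trans (h ▸ associated_unit_mul_left b v hv)

/-- the second projection, in terms of the restrictions to the sheets -/
lemma core {K K' : Type v} [Field K] [CharZero K] [Field K'] (i : K →+* K')
    {T ρ ε : MvPowerSeries (Fin 6) K}
    {y : Fin 3 → MvPowerSeries (Fin 6) K} {z t : MvPowerSeries (Fin 6) K} {q : Fin 3 → K}
    {d u : Fin 8 × Fin 8 → MvPowerSeries (Fin 6) K} (h : Lev1 T ρ ε y z t q d u)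
    (pp : Fin 8 × Fin 8 → (MvPowerSeries (Fin 6) K →+* MvPowerSeries (Fin 5) K'))
    (χ : MvPowerSeries (Fin 6) K →+* MvPowerSeries (Fin 5) K') (hχ : χ = pp (0, 1))
    (hc : ∀ l ∈ LL, ∀ x, constantCoeff (pp l x) = i (constantCoeff x))
    (hC : ∀ l ∈ LL, ∀ c, pp l (C c) = C (i c))
    (hmax : (IsLocalRing.maximalIdeal (MvPowerSeries (Fin 6) K)).map χ =
      IsLocalRing.maximalIdeal (MvPowerSeries (Fin 5) K'))
    (ha : ∀ l ∈ LL, pp l (d l) = 0)
    (hb : ∀ l ∈ LL, ∀ m ∈ LL, Associated (pp l (d m)) (pp m (d l)))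
    (hv : ∀ l ∈ LL, ∀ m ∈ LL, ∀ x, pp l (d m) ∣ pp l x - pp m x) :
    ∃ G : (Fin 8 × Fin 8) × (Fin 8 × Fin 8) → MvPowerSeries (Fin 5) K',
      Lev2 (χ ρ) (χ ε) (fun j => χ (y j)) (χ z) (χ t) (fun j => i (q j)) G ∧
      χ ε ∣ χ T ∧
      (∀ P ∈ SS, Associated (pp P.1 (d P.2)) (χ ε * G P)) ∧
      ∀ l ∈ LL, ∀ m ∈ LL, l ≠ m → ∃ P ∈ SS, Associated (pp l (d m)) (χ ε * G P) := by
  have h01 : ((0, 1) : Fin 8 × Fin 8) ∈ LL := by decide
  have h0 : ∀ l, ∃ x, l ∈ LL → d l = T + ε * x ∧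
      ((aa l.1 : MvPowerSeries (Fin 6) K) - (aa l.2 : MvPowerSeries (Fin 6) K)) * x +
      (nn z t (bv (sg q y)) l * ρ + nn z t (cv (tg q y)) l * ε) ∈
      Ideal.span {ρ, ε} * Ideal.span {T, ρ, ε} := by
    intro l
    by_cases hl : l ∈ LL
    · obtain ⟨x, hx⟩ := h.eq l hl
      exact ⟨x, fun _ => hx⟩
    · exact ⟨0, fun h => absurd h hl⟩
  choose hh hhh using h0
  set I := Ideal.span {χ ρ, χ ε} with hI
  have hρI : χ ρ ∈ I := Ideal.subset_span (by simp)
  have hεI : χ ε ∈ I := Ideal.subset_span (by simp)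
  set J := Ideal.span {ρ, ε} with hJ
  have hρJ : ρ ∈ J := Ideal.subset_span (by simp)
  have hεJ : ε ∈ J := Ideal.subset_span (by simp)
  have hJI : ∀ x ∈ J, χ x ∈ I := by
    intro x hx
    have : J ≤ I.comap χ := by
      rw [hJ, Ideal.span_le]
      rintro x (rfl | rfl)
      · exact hρI
      · exact hεI
    exact this hx
  have hhJ : ∀ l ∈ LL, hh l ∈ J := by
    intro l hl
    have h1 := Ideal.mul_le_left (hhh l hl).2
    have h2 : ((aa l.1 : MvPowerSeries (Fin 6) K) - (aa l.2 : MvPowerSeries (Fin 6) K)) * hh l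
        ∈ J := by
      have h3 := J.sub_mem h1 (J.add_mem (J.mul_mem_left (nn z t (bv (sg q y)) l) hρJ)
        (J.mul_mem_left (nn z t (cv (tg q y)) l) hεJ))
      rwa [add_sub_cancel_right] at h3
    exact (Ideal.unit_mul_mem_iff_mem J (unitA hl)).1 h2
  -- `χ T`
  have hT : ∃ j ∈ I, χ T = χ ε * j := by
    refine ⟨-χ (hh (0, 1)), I.neg_mem (hJI _ (hhJ _ h01)), ?_⟩
    have h1 := ha _ h01
    rw [← hχ, (hhh _ h01).1, map_add, map_mul] at h1
    linear_combination h1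
  -- `π_l x - χ x`
  have hπ : ∀ l ∈ LL, ∀ x, ∃ j ∈ I, pp l x = χ x + χ ε * j := by
    intro l hl x
    obtain ⟨c, hcx⟩ := hv _ h01 l hl x
    rw [← hχ, (hhh _ hl).1, map_add, map_mul] at hcx
    obtain ⟨j, hj, e⟩ := hT
    refine ⟨-((j + χ (hh l)) * c), I.neg_mem (I.mul_mem_right _ (I.add_mem hj
      (hJI _ (hhJ _ hl)))), ?_⟩
    rw [e] at hcx
    linear_combination -hcx
  have hcχ : ∀ x, constantCoeff (χ x) = i (constantCoeff x) := by
    intro x
    rw [hχ]
    exact hc _ h01 x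
  have hCχ : ∀ c, χ (C c) = C (i c) := by
    intro c
    rw [hχ]
    exact hC _ h01 c
  have hsg : χ (sg q y) = sg (fun j => i (q j)) (fun j => χ (y j)) := by
    simp only [sg, map_add, hCχ]
  have htg : χ (tg q y) = tg (fun j => i (q j)) (fun j => χ (y j)) := by
    simp only [tg, map_mul, map_add, hCχ]
  have hρ0 : constantCoeff ρ = 0 := by
    rw [← mem_max_iff, ← h.span]
    exact Ideal.subset_span (by simp)
  have hε0 : constantCoeff ε = 0 := by
    rw [← mem_max_iff, ← h.span]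
    exact Ideal.subset_span (by simp)
  have hI0 : ∀ x ∈ I, constantCoeff x = 0 := by
    intro x hx
    rw [← mem_max_iff]
    have : I ≤ IsLocalRing.maximalIdeal (MvPowerSeries (Fin 5) K') := by
      rw [hI, Ideal.span_le]
      rintro x (rfl | rfl)
      · rw [SetLike.mem_coe, mem_max_iff, hcχ, hρ0, map_zero]
      · rw [SetLike.mem_coe, mem_max_iff, hcχ, hε0, map_zero]
    exact this hx
  set D : (Fin 8 × Fin 8) × (Fin 8 × Fin 8) → MvPowerSeries (Fin 6) K :=
    fun P => (((aa P.1.1 : MvPowerSeries (Fin 6) K) - (aa P.1.2 : MvPowerSeries (Fin 6) K)) *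
      ((aa P.2.1 : MvPowerSeries (Fin 6) K) - (aa P.2.2 : MvPowerSeries (Fin 6) K))) *
      (hh P.2 - hh P.1) with hD
  have key : ∀ l ∈ LL, ∀ m ∈ LL, Associated (pp l (d m)) (χ ε * pp l (D (l, m))) := by
    intro l hl m hm
    obtain ⟨j, hj, e⟩ := hπ l hl ε
    have h1 : pp l (d m) = χ ε * ((1 + j) * (pp l (hh m) - pp l (hh l))) := by
      have h2 := ha l hl
      rw [(hhh l hl).1, map_add, map_mul, e] at h2
      rw [(hhh m hm).1, map_add, map_mul, e]
      linear_combination h2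
    have h3 : pp l (D (l, m)) = pp l (((aa l.1 : MvPowerSeries (Fin 6) K) -
        (aa l.2 : MvPowerSeries (Fin 6) K)) * ((aa m.1 : MvPowerSeries (Fin 6) K) -
        (aa m.2 : MvPowerSeries (Fin 6) K))) * (pp l (hh m) - pp l (hh l)) := by
      rw [hD]
      simp only
      rw [map_mul, map_sub (pp l) (hh m) (hh l)]
    rw [h1, h3]
    have hu1 : IsUnit (1 + j) := by
      rw [MvPowerSeries.isUnit_iff_constantCoeff, map_add, hI0 j hj, map_one, add_zero]
      exact isUnit_one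
    have hu2 := ((unitA (K := K) (n := 6) hl).mul (unitA (K := K) (n := 6) hm)).map (pp l)
    exact ((associated_unit_mul_left _ _ hu1).trans
      (associated_unit_mul_left _ _ hu2).symm).mul_left _
  refine ⟨fun P => pp P.1 (D P), ⟨?_, ?_, ?_, ?_, ?_⟩, ?_, ?_, ?_⟩
  · apply le_antisymm
    · rw [Ideal.span_le]
      rintro x ((rfl | rfl) | ⟨j, rfl⟩)
      · exact (mem_max_iff _).2 (hI0 _ hρI)
      · exact (mem_max_iff _).2 (hI0 _ hεI)
      · rw [SetLike.mem_coe, mem_max_iff, hcχ, h.y0, map_zero]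
    · rw [← hmax, ← h.span, Ideal.map_span, Ideal.span_le]
      rintro _ ⟨x, ((rfl | rfl | rfl) | ⟨j, rfl⟩), rfl⟩
      · obtain ⟨j, hj, e⟩ := hT
        rw [e]
        exact Ideal.mul_mem_right _ _ (Ideal.subset_span (by simp))
      · exact Ideal.subset_span (by simp)
      · exact Ideal.subset_span (by simp)
      · exact Ideal.subset_span (Or.inr ⟨j, rfl⟩)
  · intro j
    rw [hcχ, h.y0, map_zero]
  · have := numOK_map i χ hcχ h.num
    rwa [hsg, htg] at this
  · exact cas_map i χ hcχ h.cas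
  · intro P hP
    obtain ⟨h1, h2, h3⟩ := SS_mem hP
    have hDP : D P - (dd z t (bv (sg q y)) P * ρ + dd z t (cv (tg q y)) P * ε) ∈
        Ideal.span {ρ, ε} * Ideal.span {T, ρ, ε} := by
      have e : D P - (dd z t (bv (sg q y)) P * ρ + dd z t (cv (tg q y)) P * ε) =
        ((aa P.1.1 : MvPowerSeries (Fin 6) K) - (aa P.1.2 : MvPowerSeries (Fin 6) K)) *
          (((aa P.2.1 : MvPowerSeries (Fin 6) K) - (aa P.2.2 : MvPowerSeries (Fin 6) K)) *
            hh P.2 + (nn z t (bv (sg q y)) P.2 * ρ + nn z t (cv (tg q y)) P.2 * ε)) -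
        ((aa P.2.1 : MvPowerSeries (Fin 6) K) - (aa P.2.2 : MvPowerSeries (Fin 6) K)) *
          (((aa P.1.1 : MvPowerSeries (Fin 6) K) - (aa P.1.2 : MvPowerSeries (Fin 6) K)) *
            hh P.1 + (nn z t (bv (sg q y)) P.1 * ρ + nn z t (cv (tg q y)) P.1 * ε)) := by
        simp only [hD, dd]
        ring
      rw [e]
      exact Ideal.sub_mem _ (Ideal.mul_mem_left _ _ (hhh _ h2).2)
        (Ideal.mul_mem_left _ _ (hhh _ h1).2)
    obtain ⟨α, β, e1, e2, e3⟩ := form χ (pp P.1) (hπ _ h1) hT hDP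
    refine ⟨α, β, e1, ?_, ?_⟩
    · rw [map_dd] at e2
      simp only [map_bv, hsg] at e2
      exact e2
    · rw [map_dd] at e3
      simp only [map_cv, htg] at e3
      exact e3
  · obtain ⟨j, hj, e⟩ := hT
    exact ⟨j, e⟩
  · intro P hP
    obtain ⟨h1, h2, h3⟩ := SS_mem hP
    exact key _ h1 _ h2
  · -- the triangles
    have tri1 : ∀ a b c : Fin 8, a < b → b < c →
        Associated (pp (a, b) (d (b, c))) (pp (a, b) (d (a, c))) := by
      intro a b c hab hbc
      have l1 : ((a, b) : Fin 8 × Fin 8) ∈ LL := LL_mem.2 hab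
      have l2 : ((b, c) : Fin 8 × Fin 8) ∈ LL := LL_mem.2 hbc
      have l3 : ((a, c) : Fin 8 × Fin 8) ∈ LL := LL_mem.2 (hab.trans hbc)
      refine assoc_of ((h.unit _ l2).map (pp (a, b))) ((h.unit _ l3).map (pp (a, b))) ?_
      rw [← map_mul, ← map_mul, h.tri a b c hab hbc, map_add, map_mul (pp (a, b)) (u (a, b)),
        ha _ l1, mul_zero, zero_add]
    have tri2 : ∀ a b c : Fin 8, a < b → b < c →
        Associated (pp (a, c) (d (b, c))) (pp (a, c) (d (a, b))) := by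
      intro a b c hab hbc
      have l1 : ((a, b) : Fin 8 × Fin 8) ∈ LL := LL_mem.2 hab
      have l2 : ((b, c) : Fin 8 × Fin 8) ∈ LL := LL_mem.2 hbc
      have l3 : ((a, c) : Fin 8 × Fin 8) ∈ LL := LL_mem.2 (hab.trans hbc)
      refine assoc_of ((h.unit _ l2).map (pp (a, c))) ((h.unit _ l1).neg.map (pp (a, c))) ?_
      have h1 := congrArg (pp (a, c)) (h.tri a b c hab hbc)
      rw [map_add, map_mul, map_mul, map_mul, ha _ l3, mul_zero] at h1
      rw [map_neg]
      linear_combination -h1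
    have hSS : ∀ P ∈ SS, ∃ P' ∈ SS, Associated (pp P.1 (d P.2)) (χ ε * pp P'.1 (D P')) := by
      intro P hP
      obtain ⟨h1, h2, h3⟩ := SS_mem hP
      exact ⟨P, hP, key _ h1 _ h2⟩
    have hT1 : ∀ a b c : Fin 8, a < b → b < c →
        ∃ P' ∈ SS, Associated (pp (a, b) (d (a, c))) (χ ε * pp P'.1 (D P')) := by
      intro a b c hab hbc
      exact hSS ((a, b), (a, c)) (SS_iff.2 ⟨⟨LL_mem.2 hab, LL_mem.2 (hab.trans hbc)⟩,
        Or.inl ⟨rfl, hbc⟩⟩)
    intro l hl m hm hlm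
    obtain ⟨a, b⟩ := l
    obtain ⟨c, e⟩ := m
    have hab : a < b := LL_mem.1 hl
    have hce : c < e := LL_mem.1 hm
    rcases cases hab hce hlm with h1 | h1 | h1 | h1 | ⟨h1, h2⟩ | ⟨h1, h2⟩
    · exact hSS _ h1
    · obtain ⟨P', hP', h3⟩ := hSS _ h1
      exact ⟨P', hP', (hb _ hl _ hm).trans h3⟩
    · subst h1
      obtain ⟨P', hP', h3⟩ := hT1 a b e hab hce
      exact ⟨P', hP', (tri1 a b e hab hce).trans h3⟩
    · subst h1
      obtain ⟨P', hP', h3⟩ := hT1 c a b hce hab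
      exact ⟨P', hP', ((hb _ hl _ hm).trans (tri1 c a b hce hab)).trans h3⟩
    · subst h1
      obtain ⟨P', hP', h3⟩ := hT1 a c b h2 hce
      refine ⟨P', hP', ((tri2 a c b h2 hce).trans (hb _ hl _ (LL_mem.2 h2))).trans h3⟩
    · subst h1
      obtain ⟨P', hP', h3⟩ := hT1 c a b h2 hab
      refine ⟨P', hP', ((hb _ hl _ hm).trans ((tri2 c a b h2 hab).trans
        (hb _ hm _ (LL_mem.2 h2)))).trans h3⟩

end L2

lemma Lev1.d_simple {K : Type v} [Field K] {T ρ ε : MvPowerSeries (Fin 6) K}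
    {y : Fin 3 → MvPowerSeries (Fin 6) K} {z t : MvPowerSeries (Fin 6) K} {q : Fin 3 → K}
    {d u : Fin 8 × Fin 8 → MvPowerSeries (Fin 6) K} (h : Lev1 T ρ ε y z t q d u)
    {l : Fin 8 × Fin 8} (hl : l ∈ LL) : IsSimple (d l) := by
  obtain ⟨x, e, -⟩ := h.eq l hl
  have e1 : d l = 1 * T + ε * x := by rw [e, one_mul]
  have e2 : ε * x ∈ Ideal.span ({ρ, ε} ∪ Set.range y) :=
    Ideal.mul_mem_right _ _ (Ideal.subset_span (by simp))
  have e3 : Ideal.span ({d l, ρ, ε} ∪ Set.range y) =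
      IsLocalRing.maximalIdeal (MvPowerSeries (Fin 6) K) := by
    have hs : ∀ v : MvPowerSeries (Fin 6) K,
        ({v, ρ, ε} ∪ Set.range y : Set (MvPowerSeries (Fin 6) K)) =
          insert v ({ρ, ε} ∪ Set.range y) := fun v => Set.insert_union
    rw [← h.span, hs, hs]
    exact L2.span_change e2 1 isUnit_one e1
  exact L2.simple6 (d l) ρ ε y e3

theorem lev2 {K : Type v} [Field K] [CharZero K] {T ρ ε : MvPowerSeries (Fin 6) K}
    {y : Fin 3 → MvPowerSeries (Fin 6) K} {z t : MvPowerSeries (Fin 6) K} {q : Fin 3 → K}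
    {d u : Fin 8 × Fin 8 → MvPowerSeries (Fin 6) K} (h : Lev1 T ρ ε y z t q d u)
    (φ : SerAut (5 + 1) K) (Θ : ProjIso 5 (GenField 5 K)) (hΘ : IsProj (gen K) (coord φ) Θ) :
    ∃ (χ : MvPowerSeries (Fin (5 + 1)) K →+* MvPowerSeries (Fin 5) (GenField 5 K))
      (G : (Fin 8 × Fin 8) × (Fin 8 × Fin 8) → MvPowerSeries (Fin 5) (GenField 5 K)),
      Lev2 (χ ρ) (χ ε) (fun i => χ (y i)) (χ z) (χ t) (fun i => incl 5 K (q i)) G ∧
      (∀ x, constantCoeff (χ x) = incl 5 K (constantCoeff x)) ∧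
      (∀ c, χ (C c) = C (incl 5 K c)) ∧
      χ ε ∣ χ T ∧
      DiscrIs (∏ l ∈ LL, d l) Θ (χ ε * ∏ P ∈ SS, G P) ∧
      ∀ I : Ideal (MvPowerSeries (Fin (5 + 1)) K), (∀ l ∈ LL, d l ∈ I) →
        projIdeal Θ (I.map (ext 5 K)) = I.map χ := by
  classical
  have : CharZero (GenField 5 K) := charZero_of_injective_ringHom (incl 5 K).injective
  have h01 : ((0, 1) : Fin 8 × Fin 8) ∈ LL := by decide
  have h02 : ((0, 2) : Fin 8 × Fin 8) ∈ LL := by decide
  have hcext : ∀ x, constantCoeff (ext 5 K x) = incl 5 K (constantCoeff x) := fun x => rfl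
  have hSS : ∀ l : {l // l ∈ LL}, Nonempty (Sheet Θ (ext 5 K (d l.1))) := by
    intro l
    have h1 := h.d_simple l.2
    refine exists_sheet Θ _ ?_ (gen_ne φ Θ hΘ _ h1)
    rw [hcext, h1.1, map_zero]
  let S : ∀ l : {l // l ∈ LL}, Sheet Θ (ext 5 K (d l.1)) := fun l => Classical.choice (hSS l)
  let χ : MvPowerSeries (Fin (5 + 1)) K →+* MvPowerSeries (Fin 5) (GenField 5 K) :=
    (S ⟨(0, 1), h01⟩).π.comp (ext 5 K)
  let pp : Fin 8 × Fin 8 → (MvPowerSeries (Fin (5 + 1)) K →+*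
      MvPowerSeries (Fin 5) (GenField 5 K)) :=
    fun l => if hl : l ∈ LL then (S ⟨l, hl⟩).π.comp (ext 5 K) else χ
  have hpp : ∀ l (hl : l ∈ LL), pp l = (S ⟨l, hl⟩).π.comp (ext 5 K) := fun l hl => dif_pos hl
  have hpx : ∀ l (hl : l ∈ LL) x, pp l x = (S ⟨l, hl⟩).π (ext 5 K x) := by
    intro l hl x
    rw [hpp l hl]
    rfl
  have hcpp : ∀ l ∈ LL, ∀ x, constantCoeff (pp l x) = incl 5 K (constantCoeff x) := by
    intro l hl x
    rw [hpx l hl, Sheet.const, hcext]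
  have hCpp : ∀ l ∈ LL, ∀ c, pp l (C c) = C (incl 5 K c) := by
    intro l hl c
    rw [hpx l hl]
    have : ext 5 K (C c) = C (incl 5 K c) := map_C _ _
    rw [this, Sheet.pi_C]
  have hχ : χ = pp (0, 1) := (hpp _ h01).symm
  obtain ⟨G, hG, hT, hG1, hG2⟩ := L2.core (incl 5 K) h pp χ hχ hcpp hCpp
    (by
      change Ideal.map ((S ⟨(0, 1), h01⟩).π.comp (ext 5 K)) _ = _
      rw [← Ideal.map_map, ext_map_max, Sheet.map_max])
    (fun l hl => by rw [hpx l hl, Sheet.pi_self])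
    (fun l hl m hm => by
      rw [hpx l hl, hpx m hm]
      exact Sheet.assoc' _ _)
    (fun l hl m hm x => by
      rw [hpx l hl, hpx l hl, hpx m hm]
      exact (Sheet.assoc _ _).dvd.trans (Sheet.sub_dvd _ _ _))
  refine ⟨χ, G, hG, fun x => by rw [hχ, hcpp _ h01], fun c => by rw [hχ, hCpp _ h01], hT, ?_, ?_⟩
  · -- the discriminant
    have hq : ∀ c : Option {P // P ∈ SS}, Prime (Option.elim c (χ ε) fun P => G P.1) := by
      rintro (_ | P)
      · exact isSimple_prime _ hG.eps_simple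
      · exact isSimple_prime _ (hG.G_simple P.2)
    have hqq : ∀ c c' : Option {P // P ∈ SS}, c ≠ c' →
        ¬ Associated (Option.elim c (χ ε) fun P => G P.1)
          (Option.elim c' (χ ε) fun P => G P.1) := by
      rintro (_ | P) (_ | P') hne
      · exact absurd rfl hne
      · exact hG.not_assoc_eps P'.2
      · exact fun ha => hG.not_assoc_eps P.2 ha.symm
      · refine hG.not_assoc P.2 P'.2 fun e => hne ?_
        rw [Subtype.ext e]
    have h1 : ∀ i j : {l // l ∈ LL}, i ≠ j → ∃ e : Option {P // P ∈ SS} → ℕ,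
        Associated ((S i).π (ext 5 K (d j.1)))
          (∏ c, (Option.elim c (χ ε) fun P => G P.1) ^ e c) := by
      intro i j hij
      obtain ⟨P, hP, hass⟩ := hG2 i.1 i.2 j.1 j.2 fun e => hij (Subtype.ext e)
      refine ⟨fun c => Option.elim c 1 fun P' => if P' = ⟨P, hP⟩ then 1 else 0, ?_⟩
      rw [Fintype.prod_option]
      simp only [Option.elim_none, Option.elim_some, pow_one, pow_ite, pow_zero]
      rw [Finset.prod_ite_eq' Finset.univ (⟨P, hP⟩ : {P // P ∈ SS}) fun P => G P.1,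
        if_pos (Finset.mem_univ _)]
      rwa [hpx i.1 i.2] at hass
    have h2 : ∀ c : Option {P // P ∈ SS}, ∃ i j : {l // l ∈ LL}, i ≠ j ∧
        (Option.elim c (χ ε) fun P => G P.1) ∣ (S i).π (ext 5 K (d j.1)) := by
      rintro (_ | P)
      · refine ⟨⟨(0, 1), h01⟩, ⟨(0, 2), h02⟩, ?_, ?_⟩
        · intro e
          exact absurd (show (1 : Fin 8) = 2 from congrArg (fun l : {l // l ∈ LL} => l.1.2) e)
            (by decide)
        · obtain ⟨P, hP, hass⟩ := hG2 (0, 1) h01 (0, 2) h02 (by decide)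
          rw [hpx _ h01] at hass
          exact (Dvd.intro _ rfl).trans hass.symm.dvd
      · obtain ⟨h3, h4, h5⟩ := L2.SS_mem P.2
        refine ⟨⟨P.1.1, h3⟩, ⟨P.1.2, h4⟩, fun e => h5 (congrArg Subtype.val e), ?_⟩
        have hass := hG1 P.1 P.2
        rw [hpx _ h3] at hass
        exact (Dvd.intro_left _ rfl).trans hass.symm.dvd
    have h3 := core_discr (∏ l ∈ LL, d l) (fun l : {l // l ∈ LL} => d l.1)
      (by rw [Finset.prod_coe_sort]) Θ S _ hq hqq h1 h2
    rw [Fintype.prod_option] at h3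
    simp only [Option.elim_none, Option.elim_some] at h3
    rwa [Finset.prod_coe_sort SS G] at h3
  · intro I hI
    rw [Sheet.proj (S ⟨(0, 1), h01⟩) _ (Ideal.mem_map_of_mem _ (hI _ h01)), Ideal.map_map]

end ZX
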