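import Pool.Agent.ZX.Defs
import Pool.Agent.ZX.Simple
import Pool.Agent.ZX.Gen
import Pool.Agent.ZX.Sheet
import Pool.Agent.ZX.CoreD

set_option linter.style.longLine false

/-! Level 3, outside of `s_1 = s_2 s_3 = 0`. -/

namespace ZX

open MvPowerSeries H9.Zar

universe v

private theorem det_star_A {R : Type*} [CommRing R] (z t σ τ : R) :
    Det z t (bv σ) (cv τ) Pa Pb = -12 * (z - 2 * t) * (t * σ - z * τ) := by
  simp [Det, dd, nn, bv, cv, aa, b0, c0, Pa, Pb]
  ring

private theorem const_eq_of_mem {n : ℕ} {K : Type v} [Field K] {ρ ε a b : MvPowerSeries (Fin n) K}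
    (hρ : constantCoeff ρ = 0) (hε : constantCoeff ε = 0) (h : a - b ∈ Ideal.span {ρ, ε}) :
    constantCoeff a = constantCoeff b := by
  have h1 : Ideal.span {ρ, ε} ≤ IsLocalRing.maximalIdeal (MvPowerSeries (Fin n) K) := by
    rw [Ideal.span_le]
    rintro x (rfl | rfl)
    · exact (mem_max_iff _).2 hρ
    · exact (mem_max_iff _).2 hε
  have h2 := (mem_max_iff _).1 (h1 h)
  rwa [map_sub, sub_eq_zero] at h2

private theorem SS_mem {P : (Fin 8 × Fin 8) × (Fin 8 × Fin 8)} (hP : P ∈ SS) :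
    P.1 ∈ LL ∧ P.2 ∈ LL ∧ P.1 ≠ P.2 := by
  rw [SS, Finset.mem_filter, Finset.mem_product] at hP
  refine ⟨hP.1.1, hP.1.2, ?_⟩
  rintro h
  rcases hP.2 with ⟨h1, h2⟩ | ⟨h1, h2, h3⟩
  · rw [h] at h2
    exact absurd h2 (lt_irrefl _)
  · rw [h] at h1
    exact absurd h1 (lt_irrefl _)

private theorem isUnit_const {n : ℕ} {K : Type v} [Field K] {a : MvPowerSeries (Fin n) K}
    (h : constantCoeff a ≠ 0) : IsUnit a := by
  rw [MvPowerSeries.isUnit_iff_constantCoeff]
  exact isUnit_iff_ne_zero.2 h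

theorem lev3A {K : Type v} [Field K] [CharZero K] {ρ ε : MvPowerSeries (Fin 5) K}
    {y : Fin 3 → MvPowerSeries (Fin 5) K} {z t : MvPowerSeries (Fin 5) K} {q : Fin 3 → K}
    {G : (Fin 8 × Fin 8) × (Fin 8 × Fin 8) → MvPowerSeries (Fin 5) K} (h : Lev2 ρ ε y z t q G)
    (hA : constantCoeff t * q 0 - constantCoeff z * (q 1 * q 2) ≠ 0)
    (φ : SerAut (4 + 1) K) (Θ : ProjIso 4 (GenField 4 K)) (hΘ : IsProj (gen K) (coord φ) Θ) :
    ∃ χ : MvPowerSeries (Fin (4 + 1)) K →+* MvPowerSeries (Fin 4) (GenField 4 K),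
      (∀ x, constantCoeff (χ x) = incl 4 K (constantCoeff x)) ∧ χ ε = 0 ∧ IsSimple (χ ρ) ∧
      DiscrIs (ε * ∏ P ∈ SS, G P) Θ (χ ρ) ∧
      ∀ I : Ideal (MvPowerSeries (Fin (4 + 1)) K), ε ∈ I →
        projIdeal Θ (I.map (ext 4 K)) = I.map χ := by
  classical
  obtain ⟨hspan, hy0, hnum, hcas, heq⟩ := h
  -- the coordinates
  have hρ0 : constantCoeff ρ = 0 := by
    rw [← mem_max_iff, ← hspan]
    exact Ideal.subset_span (Or.inl (Or.inl rfl))
  have hε0 : constantCoeff ε = 0 := by
    rw [← mem_max_iff, ← hspan]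
    exact Ideal.subset_span (Or.inl (Or.inr rfl))
  let x : Fin 5 → MvPowerSeries (Fin 5) K := ![ρ, ε, y 0, y 1, y 2]
  have hx : Ideal.span (Set.range x) = IsLocalRing.maximalIdeal (MvPowerSeries (Fin 5) K) := by
    rw [← hspan]
    congr 1
    ext a
    simp only [x, Set.mem_range, Set.mem_union, Set.mem_insert_iff, Set.mem_singleton_iff,
      Fin.exists_fin_succ]
    simp [eq_comm]
    tauto
  have hεs : IsSimple ε := regular_isSimple x hx 1
  choose α β hG hα hβ using heq
  have hα0 : ∀ P (hP : P ∈ SS), constantCoeff (α P hP) = constantCoeff (dd z t (bv (sg q y)) P) :=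
    fun P hP => const_eq_of_mem hρ0 hε0 (hα P hP)
  have hβ0 : ∀ P (hP : P ∈ SS), constantCoeff (β P hP) = constantCoeff (dd z t (cv (tg q y)) P) :=
    fun P hP => const_eq_of_mem hρ0 hε0 (hβ P hP)
  have hαne : ∀ P (hP : P ∈ SS), constantCoeff (α P hP) ≠ 0 := by
    intro P hP
    rw [hα0 P hP]
    obtain ⟨h1, h2, h3⟩ := SS_mem hP
    exact hnum.ddb P.1 h1 P.2 h2 h3
  have hGs : ∀ P ∈ SS, IsSimple (G P) := by
    intro P hP
    rw [isSimple_iff]
    constructor
    · rw [hG P hP]
      exact Ideal.add_mem _ (Ideal.mul_mem_left _ _ ((mem_max_iff _).2 hρ0))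
        (Ideal.mul_mem_left _ _ ((mem_max_iff _).2 hε0))
    · intro h2
      have h3 : ∑ i, (![α P hP, β P hP, 0, 0, 0] : Fin 5 → MvPowerSeries (Fin 5) K) i * x i ∈
          IsLocalRing.maximalIdeal (MvPowerSeries (Fin 5) K) ^ 2 := by
        have h4 : ∑ i, (![α P hP, β P hP, 0, 0, 0] : Fin 5 → MvPowerSeries (Fin 5) K) i * x i =
            G P := by
          rw [hG P hP]
          simp [x, Fin.sum_univ_succ]
        rw [h4]
        exact h2
      have h5 := regular_indep x hx _ h3 0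
      exact hαne P hP ((mem_max_iff _).1 h5)
  -- the determinants
  have hdet : ∀ P (hP : P ∈ SS) P' (hP' : P' ∈ SS), P ≠ P' →
      IsUnit (α P hP * β P' hP' - α P' hP' * β P hP) := by
    intro P hP P' hP' hne
    apply isUnit_const
    have h1 : constantCoeff (α P hP * β P' hP' - α P' hP' * β P hP) =
        constantCoeff (Det z t (bv (sg q y)) (cv (tg q y)) P P') := by
      rw [Det, map_sub, map_sub, map_mul, map_mul, map_mul, map_mul, hα0, hα0, hβ0, hβ0]
    rw [h1]
    have hstar : constantCoeff (Det z t (bv (sg q y)) (cv (tg q y)) Pa Pb) ≠ 0 := by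
      rw [det_star_A]
      have h2 : constantCoeff (z - 2 * t) ≠ 0 := by
        have h3 := hnum.zz 1
        have h4 : ((aa 1 : ℤ) : MvPowerSeries (Fin 5) K) = 2 := by
          simp [aa]
        rwa [h4] at h3
      have h5 : constantCoeff (t * sg q y - z * tg q y) ≠ 0 := by
        rw [sg, tg]
        simp only [map_sub, map_mul, map_add, hy0, constantCoeff_C, zero_add]
        exact hA
      rw [map_mul, map_mul]
      refine mul_ne_zero (mul_ne_zero ?_ h2) h5
      have h6 : constantCoeff (-12 : MvPowerSeries (Fin 5) K) = (-12 : K) := by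
        rw [map_neg, map_ofNat]
      rw [h6]
      norm_num
    by_cases hc1 : P = Pa ∧ P' = Pb
    · rw [hc1.1, hc1.2]
      exact hstar
    by_cases hc2 : P = Pb ∧ P' = Pa
    · rw [hc2.1, hc2.2]
      have h7 : Det z t (bv (sg q y)) (cv (tg q y)) Pb Pa =
          - Det z t (bv (sg q y)) (cv (tg q y)) Pa Pb := by
        rw [Det, Det]
        ring
      rw [h7, map_neg]
      exact neg_ne_zero.2 hstar
    exact hnum.det P hP P' hP' hne hc1 hc2
  -- the sheets
  let p : Option {P // P ∈ SS} → MvPowerSeries (Fin (4 + 1)) K := fun o =>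
    o.elim ε (fun P => G P.1)
  have hps : ∀ o, IsSimple (p o) := by
    rintro (_ | P)
    · exact hεs
    · exact hGs P.1 P.2
  have hext : ∀ x : MvPowerSeries (Fin (4 + 1)) K,
      constantCoeff (ext 4 K x) = incl 4 K (constantCoeff x) := fun x => constantCoeff_map _ x
  have hS : ∀ o, Nonempty (Sheet Θ (ext 4 K (p o))) := by
    intro o
    apply exists_sheet
    · rw [hext, (hps o).1, map_zero]
    · exact gen_ne φ Θ hΘ (p o) (hps o)
  obtain ⟨S⟩ : Nonempty (∀ o, Sheet Θ (ext 4 K (p o))) := Classical.nonempty_pi.2 hS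
  let χ : MvPowerSeries (Fin (4 + 1)) K →+* MvPowerSeries (Fin 4) (GenField 4 K) :=
    (S none).π.comp (ext 4 K)
  have hπc : ∀ o x, constantCoeff ((S o).π (ext 4 K x)) = incl 4 K (constantCoeff x) := by
    intro o x
    rw [Sheet.const, hext]
  have hχc : ∀ x, constantCoeff (χ x) = incl 4 K (constantCoeff x) := fun x => hπc none x
  have hu : ∀ o x, constantCoeff x ≠ 0 → IsUnit ((S o).π (ext 4 K x)) := by
    intro o x hx
    apply isUnit_const
    rw [hπc]
    exact fun h => hx ((_root_.map_eq_zero _).1 h)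
  have hχε : χ ε = 0 := (S none).pi_self
  -- the maximal ideal
  have hmax : Ideal.span (Set.range (![χ ρ, χ (y 0), χ (y 1), χ (y 2)] :
      Fin 4 → MvPowerSeries (Fin 4) (GenField 4 K))) =
      IsLocalRing.maximalIdeal (MvPowerSeries (Fin 4) (GenField 4 K)) := by
    have h1 : (IsLocalRing.maximalIdeal (MvPowerSeries (Fin (4 + 1)) K)).map χ =
        IsLocalRing.maximalIdeal (MvPowerSeries (Fin 4) (GenField 4 K)) := by
      rw [← Ideal.map_map, ext_map_max, Sheet.map_max]
    rw [← h1, ← hspan, Ideal.map_span]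
    apply le_antisymm
    · rw [Ideal.span_le]
      rintro _ ⟨i, rfl⟩
      fin_cases i
      · exact Ideal.subset_span ⟨ρ, Or.inl (Or.inl rfl), rfl⟩
      · exact Ideal.subset_span ⟨y 0, Or.inr ⟨0, rfl⟩, rfl⟩
      · exact Ideal.subset_span ⟨y 1, Or.inr ⟨1, rfl⟩, rfl⟩
      · exact Ideal.subset_span ⟨y 2, Or.inr ⟨2, rfl⟩, rfl⟩
    · rw [Ideal.span_le]
      rintro _ ⟨a, (rfl | rfl) | ⟨i, rfl⟩, rfl⟩
      · exact Ideal.subset_span ⟨0, rfl⟩
      · rw [hχε]
        exact Ideal.zero_mem _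
      · fin_cases i
        · exact Ideal.subset_span ⟨1, rfl⟩
        · exact Ideal.subset_span ⟨2, rfl⟩
        · exact Ideal.subset_span ⟨3, rfl⟩
  have hρs : IsSimple (χ ρ) := regular_isSimple _ hmax 0
  -- the differences
  have hd0 : ∀ P : {P // P ∈ SS}, Associated ((S none).π (ext 4 K (p (some P)))) (χ ρ) := by
    intro P
    have h1 : (S none).π (ext 4 K (p (some P))) = χ (α P.1 P.2) * χ ρ := by
      change χ (G P.1) = _
      rw [hG P.1 P.2, map_add, map_mul, map_mul, hχε, mul_zero, add_zero]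
    rw [h1]
    exact associated_unit_mul_left _ _ (hu none _ (hαne P.1 P.2))
  have hd1 : ∀ P : {P // P ∈ SS}, Associated ((S (some P)).π (ext 4 K ε)) (χ ρ) :=
    fun P => ((S (some P)).assoc' (S none)).trans (hd0 P)
  have hd : ∀ i j, i ≠ j → Associated ((S i).π (ext 4 K (p j))) (χ ρ) := by
    rintro (_ | P) (_ | P') hne
    · exact absurd rfl hne
    · exact hd0 P'
    · exact hd1 P
    · have hPP : P.1 ≠ P'.1 := fun h => hne (by rw [Subtype.ext h])
      have h1 : (S (some P)).π (ext 4 K (α P.1 P.2)) *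
          (S (some P)).π (ext 4 K (G P'.1)) =
          (S (some P)).π (ext 4 K (α P.1 P.2 * β P'.1 P'.2 - α P'.1 P'.2 * β P.1 P.2)) *
            (S (some P)).π (ext 4 K ε) := by
        have h2 : (S (some P)).π (ext 4 K (G P.1)) = 0 := (S (some P)).pi_self
        have h3 : α P.1 P.2 * G P'.1 = α P'.1 P'.2 * G P.1 +
            (α P.1 P.2 * β P'.1 P'.2 - α P'.1 P'.2 * β P.1 P.2) * ε := by
          rw [hG P.1 P.2, hG P'.1 P'.2]
          ring
        have h4 := congrArg (fun x => (S (some P)).π (ext 4 K x)) h3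
        simp only [map_add, map_mul, h2, mul_zero, zero_add] at h4 ⊢
        exact h4
      have h5 : Associated ((S (some P)).π (ext 4 K (G P'.1))) ((S (some P)).π (ext 4 K ε)) := by
        have h6 := associated_unit_mul_left ((S (some P)).π (ext 4 K (G P'.1))) _
          (hu (some P) _ (hαne P.1 P.2))
        have h7 := associated_unit_mul_left ((S (some P)).π (ext 4 K ε)) _
          ((hdet P.1 P.2 P'.1 P'.2 hPP).map ((S (some P)).π.comp (ext 4 K)))
        rw [h1] at h6
        exact h6.symm.trans h7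
      exact h5.trans (hd1 P)
  refine ⟨χ, hχc, hχε, hρs, ?_, ?_⟩
  · have hPa : Pa ∈ SS := by decide
    have h1 := core_discr (ε * ∏ P ∈ SS, G P) p (by
      rw [Fintype.prod_option]
      change Associated _ (ε * ∏ P : {P // P ∈ SS}, G P.1)
      rw [Finset.prod_coe_sort SS G]) Θ S (fun _ : Unit => χ ρ)
      (fun _ => isSimple_prime _ hρs) (fun c c' hcc => absurd (Subsingleton.elim c c') hcc)
      (fun i j hij => ⟨fun _ => 1, by simpa using hd i j hij⟩)
      (fun _ => ⟨none, some ⟨Pa, hPa⟩, by simp, (hd0 ⟨Pa, hPa⟩).symm.dvd⟩)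
    simpa using h1
  · intro I hI
    rw [(S none).proj _ (Ideal.mem_map_of_mem _ hI), Ideal.map_map]

end ZX
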