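import Pool.Agent.ZX.Defs
import Pool.Agent.ZX.Simple
import Pool.Agent.ZX.Gen
import Pool.Agent.ZX.Sheet
import Pool.Agent.ZX.CoreD

set_option linter.style.longLine false

namespace ZX

open MvPowerSeries H9.Zar

universe v

/-! Level 3 of the counterexample, case B (`q_0 = q_1 q_2 = 0`). -/

/-- the determinant of the star pair -/
private theorem det_star' {R : Type*} [CommRing R] (z t σ τ : R) :
    Det z t (bv σ) (cv τ) Pa Pb = -12 * (z - 2 * t) * (t * σ - z * τ) := by
  simp only [Det, dd, nn, bv, cv, Pa, Pb, aa, b0, c0, Matrix.cons_val, Fin.isValue, Fin.reduceEq,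
    ite_true, ite_false]
  push_cast
  ring

/-! ### common part of level 3 -/

section

theorem range_cons5 {A : Type*} (a b : A) (y : Fin 3 → A) :
    Set.range ![a, b, y 0, y 1, y 2] = {a, b} ∪ Set.range y := by
  ext x
  simp only [Set.mem_range, Set.mem_union, Set.mem_insert_iff, Set.mem_singleton_iff]
  constructor
  · rintro ⟨i, rfl⟩
    fin_cases i
    · exact Or.inl (Or.inl rfl)
    · exact Or.inl (Or.inr rfl)
    · exact Or.inr ⟨0, rfl⟩
    · exact Or.inr ⟨1, rfl⟩
    · exact Or.inr ⟨2, rfl⟩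
  · rintro ((rfl | rfl) | ⟨i, rfl⟩)
    · exact ⟨0, rfl⟩
    · exact ⟨1, rfl⟩
    · fin_cases i
      · exact ⟨2, rfl⟩
      · exact ⟨3, rfl⟩
      · exact ⟨4, rfl⟩

theorem Pa_mem : Pa ∈ SS := by
  simp only [SS, LL, Pa, Finset.mem_filter, Finset.mem_product, Finset.mem_univ, true_and]
  decide

theorem Pb_mem : Pb ∈ SS := by
  simp only [SS, LL, Pb, Finset.mem_filter, Finset.mem_product, Finset.mem_univ, true_and]
  decide

theorem Pa_ne_Pb : Pa ≠ Pb := by
  simp [Pa, Pb]

theorem ne_of_mem_SS {P : (Fin 8 × Fin 8) × (Fin 8 × Fin 8)} (h : P ∈ SS) :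
    P.1 ∈ LL ∧ P.2 ∈ LL ∧ P.1 ≠ P.2 := by
  simp only [SS, Finset.mem_filter, Finset.mem_product] at h
  obtain ⟨⟨h1, h2⟩, h3⟩ := h
  refine ⟨h1, h2, fun e => ?_⟩
  rcases h3 with ⟨-, h3⟩ | ⟨h3, -⟩
  · rw [e] at h3
    exact lt_irrefl _ h3
  · rw [e] at h3
    exact lt_irrefl _ h3

theorem const_ext {n : ℕ} {k : Type v} [Field k] (x : MvPowerSeries (Fin (n + 1)) k) :
    constantCoeff (ext n k x) = incl n k (constantCoeff x) :=
  MvPowerSeries.constantCoeff_map _ _

theorem pi_mul {R R' : Type*} [CommRing R] [CommRing R'] (π : R →+* R') (a b a' b' ρ ε : R)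
    (h : π (a * ρ + b * ε) = 0) :
    π a * π (a' * ρ + b' * ε) = π ε * π (a * b' - a' * b) := by
  simp only [map_add, map_mul, map_sub] at h ⊢
  linear_combination (π a') * h

variable {K : Type v} [Field K] {ρ ε : MvPowerSeries (Fin 5) K}
    {y : Fin 3 → MvPowerSeries (Fin 5) K} {z t : MvPowerSeries (Fin 5) K} {q : Fin 3 → K}
    {G : (Fin 8 × Fin 8) × (Fin 8 × Fin 8) → MvPowerSeries (Fin 5) K}

theorem Lev2.const_span (h : Lev2 ρ ε y z t q G) {x : MvPowerSeries (Fin 5) K}
    (hx : x ∈ Ideal.span {ρ, ε}) : constantCoeff x = 0 := by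
  rw [← mem_max_iff, ← h.span]
  exact Ideal.span_mono Set.subset_union_left hx

theorem Lev2.simple_eps (h : Lev2 ρ ε y z t q G) : IsSimple ε := by
  have h1 : Ideal.span (Set.range ![ρ, ε, y 0, y 1, y 2]) =
      IsLocalRing.maximalIdeal (MvPowerSeries (Fin 5) K) := by
    rw [range_cons5, h.span]
  exact regular_isSimple _ h1 1

theorem Lev2.simple_G (h : Lev2 ρ ε y z t q G) (α β G' : MvPowerSeries (Fin 5) K)
    (hG : G' = α * ρ + β * ε) (hα : constantCoeff α ≠ 0) : IsSimple G' := by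
  have h1 : Ideal.span (Set.range ![G', ε, y 0, y 1, y 2]) =
      IsLocalRing.maximalIdeal (MvPowerSeries (Fin 5) K) := by
    rw [range_cons5, ← h.span]
    obtain ⟨u, hu⟩ := MvPowerSeries.isUnit_iff_constantCoeff.2 (isUnit_iff_ne_zero.2 hα)
    apply le_antisymm
    · rw [Ideal.span_le]
      rintro x ((rfl | rfl) | hx)
      · rw [hG]
        refine Ideal.add_mem _ (Ideal.mul_mem_left _ _ (Ideal.subset_span ?_))
          (Ideal.mul_mem_left _ _ (Ideal.subset_span ?_)) <;> simp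
      · exact Ideal.subset_span (by simp)
      · exact Ideal.subset_span (Or.inr hx)
    · rw [Ideal.span_le]
      rintro x ((rfl | rfl) | hx)
      · have e : x = (↑u⁻¹ : MvPowerSeries (Fin 5) K) * (G' - β * ε) := by
          rw [hG, ← hu]
          have := u.inv_mul
          linear_combination (-x) * this
        rw [SetLike.mem_coe, e]
        refine Ideal.mul_mem_left _ _ (Ideal.sub_mem _ (Ideal.subset_span ?_)
          (Ideal.mul_mem_left _ _ (Ideal.subset_span ?_))) <;> simp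
      · exact Ideal.subset_span (by simp)
      · exact Ideal.subset_span (Or.inr hx)
  exact regular_isSimple _ h1 0

/-- the factors: `ε` and the `G P` -/
def pp (ε : MvPowerSeries (Fin 5) K)
    (G : (Fin 8 × Fin 8) × (Fin 8 × Fin 8) → MvPowerSeries (Fin 5) K) :
    Option {P // P ∈ SS} → MvPowerSeries (Fin 5) K
  | none => ε
  | some P => G P.1

theorem prod_opt {A R : Type*} [CommMonoid R] (s : Finset A) (G : A → R)
    (f : Option {P // P ∈ s} → R) (h1 : ∀ P, f (some P) = G P.1) :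
    ∏ o, f o = f none * ∏ P ∈ s, G P := by
  rw [Fintype.prod_option, ← Finset.prod_coe_sort s G]
  congr 1
  exact Finset.prod_congr rfl fun P _ => h1 P

theorem prod_pp : ∏ o, pp ε G o = ε * ∏ P ∈ SS, G P :=
  prod_opt SS G (pp ε G) fun _ => rfl

theorem Lev2.sheets (h : Lev2 ρ ε y z t q G)
    {α β : (Fin 8 × Fin 8) × (Fin 8 × Fin 8) → MvPowerSeries (Fin 5) K}
    (hG : ∀ P ∈ SS, G P = α P * ρ + β P * ε) (hα : ∀ P ∈ SS, constantCoeff (α P) ≠ 0)
    (φ : SerAut (4 + 1) K) (Θ : ProjIso 4 (GenField 4 K)) (hΘ : IsProj (gen K) (coord φ) Θ) :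
    Nonempty (∀ o, Sheet Θ (ext 4 K (pp ε G o))) := by
  have hp : ∀ o, IsSimple (pp ε G o) := by
    rintro (_ | P)
    · exact h.simple_eps
    · exact h.simple_G _ _ _ (hG P.1 P.2) (hα P.1 P.2)
  have hS : ∀ o, Nonempty (Sheet Θ (ext 4 K (pp ε G o))) := fun o =>
    exists_sheet Θ _ (by rw [const_ext, (hp o).1, map_zero]) (gen_ne φ Θ hΘ _ (hp o))
  exact ⟨fun o => (hS o).some⟩

variable {α β : (Fin 8 × Fin 8) × (Fin 8 × Fin 8) → MvPowerSeries (Fin 5) K}
    (hG : ∀ P ∈ SS, G P = α P * ρ + β P * ε) (hα : ∀ P ∈ SS, constantCoeff (α P) ≠ 0)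
    {Θ : ProjIso 4 (GenField 4 K)} (S : ∀ o, Sheet Θ (ext 4 K (pp ε G o)))

theorem isUnit_pi {P : MvPowerSeries (Fin 5) K} (S : Sheet Θ (ext 4 K P))
    (x : MvPowerSeries (Fin 5) K) (hx : constantCoeff x ≠ 0) : IsUnit (S.π (ext 4 K x)) := by
  rw [MvPowerSeries.isUnit_iff_constantCoeff, S.const, const_ext, isUnit_iff_ne_zero]
  exact (map_ne_zero _).2 hx

include hG hα

theorem assoc_none (P : {P // P ∈ SS}) :
    Associated ((S none).π (ext 4 K (G P.1))) ((S none).π (ext 4 K ρ)) := by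
  obtain ⟨u, hu⟩ := isUnit_pi (S none) _ (hα P.1 P.2)
  refine Associated.symm ⟨u, ?_⟩
  have h0 : (S none).π (ext 4 K ε) = 0 := (S none).pi_self
  rw [hG P.1 P.2, map_add, map_mul, map_mul, map_add, map_mul, map_mul, h0, hu]
  ring

theorem assoc_eps (P : {P // P ∈ SS}) :
    Associated ((S (some P)).π (ext 4 K ε)) ((S none).π (ext 4 K ρ)) :=
  ((S (some P)).assoc' (S none)).trans (assoc_none hG hα S P)

theorem assoc_pair (P P' : {P // P ∈ SS}) :
    Associated ((S (some P)).π (ext 4 K (G P'.1)))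
      ((S none).π (ext 4 K ρ) * (S (some P)).π (ext 4 K (α P.1 * β P'.1 - α P'.1 * β P.1))) := by
  obtain ⟨u, hu⟩ := isUnit_pi (S (some P)) _ (hα P.1 P.2)
  have h0 : (S (some P)).π (ext 4 K (G P.1)) = 0 := (S (some P)).pi_self
  have h1 := pi_mul ((S (some P)).π.comp (ext 4 K)) (α P.1) (β P.1) (α P'.1) (β P'.1) ρ ε
    (by rw [← hG P.1 P.2]; exact h0)
  rw [← hG P'.1 P'.2] at h1
  simp only [RingHom.comp_apply] at h1
  have h2 : Associated ((S (some P)).π (ext 4 K (G P'.1)))
      ((S (some P)).π (ext 4 K ε) *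
        (S (some P)).π (ext 4 K (α P.1 * β P'.1 - α P'.1 * β P.1))) := by
    refine ⟨u, ?_⟩
    rw [← h1, hu, mul_comm]
  exact h2.trans ((assoc_eps hG hα S P).mul_right _)

theorem assoc_unit (P P' : {P // P ∈ SS})
    (hd : constantCoeff (α P.1 * β P'.1 - α P'.1 * β P.1) ≠ 0) :
    Associated ((S (some P)).π (ext 4 K (G P'.1))) ((S none).π (ext 4 K ρ)) := by
  refine (assoc_pair hG hα S P P').trans ?_
  obtain ⟨u, hu⟩ := isUnit_pi (S (some P)) _ hd
  rw [← hu]
  exact Associated.symm ⟨u, rfl⟩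

/-- on the sheet `P` and on the sheet `ε` everything agrees modulo `δ = χ ρ` -/
theorem dvd_pi (P : {P // P ∈ SS}) (x : MvPowerSeries (Fin 5) K) :
    (S none).π (ext 4 K ρ) ∣ (S (some P)).π (ext 4 K x) - (S none).π (ext 4 K x) := by
  have h1 : Associated ((S none).π (ext 4 K ρ)) ((S (some P)).g - (S none).g) :=
    (assoc_eps hG hα S P).symm.trans ((S (some P)).assoc (S none))
  exact h1.dvd.trans ((S (some P)).sub_dvd (S none) _)

end

/-! ### case B -/

section

variable {K : Type v} [Field K]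

theorem range_cons4 {A : Type*} (a b c d : A) :
    Set.range ![a, b, c, d] = {a, b} ∪ Set.range ![c, d] := by
  ext x
  simp only [Set.mem_range, Set.mem_union, Set.mem_insert_iff, Set.mem_singleton_iff]
  constructor
  · rintro ⟨i, rfl⟩
    fin_cases i
    · exact Or.inl (Or.inl rfl)
    · exact Or.inl (Or.inr rfl)
    · exact Or.inr ⟨0, rfl⟩
    · exact Or.inr ⟨1, rfl⟩
  · rintro ((rfl | rfl) | ⟨i, rfl⟩)
    · exact ⟨0, rfl⟩
    · exact ⟨1, rfl⟩
    · fin_cases i
      · exact ⟨2, rfl⟩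
      · exact ⟨3, rfl⟩

theorem lev3B [CharZero K] {ρ ε : MvPowerSeries (Fin 5) K}
    {y : Fin 3 → MvPowerSeries (Fin 5) K} {z t : MvPowerSeries (Fin 5) K} {q : Fin 3 → K}
    {G : (Fin 8 × Fin 8) × (Fin 8 × Fin 8) → MvPowerSeries (Fin 5) K} (h : Lev2 ρ ε y z t q G)
    (hB : q 0 = 0 ∧ q 1 * q 2 = 0)
    (φ : SerAut (4 + 1) K) (Θ : ProjIso 4 (GenField 4 K)) (hΘ : IsProj (gen K) (coord φ) Θ) :
    ∃ (χ : MvPowerSeries (Fin (4 + 1)) K →+* MvPowerSeries (Fin 4) (GenField 4 K))
      (c u : MvPowerSeries (Fin 4) (GenField 4 K)),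
      (∀ x, constantCoeff (χ x) = incl 4 K (constantCoeff x)) ∧ χ ε = 0 ∧ IsUnit u ∧
      χ ρ ∣ c - u * χ (t * sg q y - z * tg q y) ∧
      Ideal.span ({χ ρ, c} ∪ Set.range ![χ (y 1), χ (y 2)]) =
        IsLocalRing.maximalIdeal (MvPowerSeries (Fin 4) (GenField 4 K)) ∧
      DiscrIs (ε * ∏ P ∈ SS, G P) Θ (χ ρ * c) ∧
      ∀ I : Ideal (MvPowerSeries (Fin (4 + 1)) K), ε ∈ I →
        projIdeal Θ (I.map (ext 4 K)) = I.map χ := by
  obtain ⟨hq0, hq12⟩ := hB
  choose! α β hG hα hβ using h.eq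
  have hα0 : ∀ P ∈ SS, constantCoeff (α P) = constantCoeff (dd z t (bv (sg q y)) P) := by
    intro P hP
    have := h.const_span (hα P hP)
    rwa [map_sub, sub_eq_zero] at this
  have hβ0 : ∀ P ∈ SS, constantCoeff (β P) = constantCoeff (dd z t (cv (tg q y)) P) := by
    intro P hP
    have := h.const_span (hβ P hP)
    rwa [map_sub, sub_eq_zero] at this
  have hα1 : ∀ P ∈ SS, constantCoeff (α P) ≠ 0 := by
    intro P hP
    rw [hα0 P hP]
    obtain ⟨h1, h2, h3⟩ := ne_of_mem_SS hP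
    exact h.num.ddb P.1 h1 P.2 h2 h3
  obtain ⟨S⟩ := h.sheets hG hα1 φ Θ hΘ
  have hdet : ∀ P ∈ SS, ∀ P' ∈ SS, constantCoeff (α P * β P' - α P' * β P) =
      constantCoeff (Det z t (bv (sg q y)) (cv (tg q y)) P P') := by
    intro P hP P' hP'
    simp only [Det, map_sub, map_mul, hα0 P hP, hα0 P' hP', hβ0 P hP, hβ0 P' hP']
  -- the star pair
  let pa : {P // P ∈ SS} := ⟨Pa, Pa_mem⟩
  let pb : {P // P ∈ SS} := ⟨Pb, Pb_mem⟩
  let χ : MvPowerSeries (Fin (4 + 1)) K →+* MvPowerSeries (Fin 4) (GenField 4 K) :=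
    (S none).π.comp (ext 4 K)
  let c : MvPowerSeries (Fin 4) (GenField 4 K) := (S (some pa)).π (ext 4 K (α Pa * β Pb - α Pb * β Pa))
  let u : MvPowerSeries (Fin 4) (GenField 4 K) := χ (-12 * (z - 2 * t))
  have hc1 : ∀ x, constantCoeff (χ x) = incl 4 K (constantCoeff x) := fun x => by
    show constantCoeff ((S none).π (ext 4 K x)) = _
    rw [(S none).const, const_ext]
  have hc2 : χ ε = 0 := (S none).pi_self
  have hu : IsUnit u := by
    rw [MvPowerSeries.isUnit_iff_constantCoeff, hc1, isUnit_iff_ne_zero]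
    refine (map_ne_zero _).2 ?_
    rw [map_mul]
    refine mul_ne_zero ?_ ?_
    · have : constantCoeff (-12 : MvPowerSeries (Fin 5) K) = -12 := by
        rw [map_neg, map_ofNat]
      rw [this]
      norm_num
    · have := h.num.zz 1
      simpa [aa] using this
  have hmem : α Pa * β Pb - α Pb * β Pa - Det z t (bv (sg q y)) (cv (tg q y)) Pa Pb ∈
      Ideal.span {ρ, ε} := by
    have e : α Pa * β Pb - α Pb * β Pa - Det z t (bv (sg q y)) (cv (tg q y)) Pa Pb =
        β Pb * (α Pa - dd z t (bv (sg q y)) Pa) +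
        dd z t (bv (sg q y)) Pa * (β Pb - dd z t (cv (tg q y)) Pb) -
        (β Pa * (α Pb - dd z t (bv (sg q y)) Pb) +
        dd z t (bv (sg q y)) Pb * (β Pa - dd z t (cv (tg q y)) Pa)) := by
      unfold Det
      ring
    rw [e]
    exact Ideal.sub_mem _ (Ideal.add_mem _ (Ideal.mul_mem_left _ _ (hα _ Pa_mem))
      (Ideal.mul_mem_left _ _ (hβ _ Pb_mem))) (Ideal.add_mem _
      (Ideal.mul_mem_left _ _ (hα _ Pb_mem)) (Ideal.mul_mem_left _ _ (hβ _ Pa_mem)))
  have hdvd : χ ρ ∣ c - u * χ (t * sg q y - z * tg q y) := by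
    have h1 : χ ρ ∣ c - χ (α Pa * β Pb - α Pb * β Pa) := dvd_pi hG hα1 S pa _
    have h2 : χ ρ ∣ χ (α Pa * β Pb - α Pb * β Pa - Det z t (bv (sg q y)) (cv (tg q y)) Pa Pb) := by
      obtain ⟨a, b, e⟩ := Ideal.mem_span_pair.1 hmem
      rw [← e, map_add, map_mul, map_mul, hc2, mul_zero, add_zero]
      exact Dvd.intro_left _ rfl
    have h3 := dvd_add h1 h2
    have e : c - χ (α Pa * β Pb - α Pb * β Pa) +
        χ (α Pa * β Pb - α Pb * β Pa - Det z t (bv (sg q y)) (cv (tg q y)) Pa Pb) =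
        c - u * χ (t * sg q y - z * tg q y) := by
      rw [det_star', map_sub χ (α Pa * β Pb - α Pb * β Pa), map_mul χ (-12 * (z - 2 * t))]
      ring
    rwa [e] at h3
  have hmax : Ideal.map χ (IsLocalRing.maximalIdeal (MvPowerSeries (Fin 5) K)) =
      IsLocalRing.maximalIdeal (MvPowerSeries (Fin 4) (GenField 4 K)) := by
    rw [← Ideal.map_map, ext_map_max, (S none).map_max]
  have hmem1 : ∀ x ∈ IsLocalRing.maximalIdeal (MvPowerSeries (Fin 5) K),
      χ x ∈ IsLocalRing.maximalIdeal (MvPowerSeries (Fin 4) (GenField 4 K)) := fun x hx => by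
    rw [← hmax]
    exact Ideal.mem_map_of_mem _ hx
  have hρm : ρ ∈ IsLocalRing.maximalIdeal (MvPowerSeries (Fin 5) K) := by
    rw [mem_max_iff]
    exact h.const_span (Ideal.subset_span (by simp))
  have hym : ∀ i, y i ∈ IsLocalRing.maximalIdeal (MvPowerSeries (Fin 5) K) := fun i => by
    rw [mem_max_iff]
    exact h.y0 i
  -- `τ` is in `(y 1, y 2)`
  have hτ : tg q y = (y 2 + C (q 2)) * y 1 + C (q 1) * y 2 := by
    have e : (C (q 1) * C (q 2) : MvPowerSeries (Fin 5) K) = 0 := by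
      rw [← map_mul, hq12, map_zero]
    unfold tg
    linear_combination e
  have hσ : sg q y = y 0 := by
    unfold sg
    rw [hq0, map_zero, add_zero]
  have hspan : Ideal.span ({χ ρ, c} ∪ Set.range ![χ (y 1), χ (y 2)]) =
      IsLocalRing.maximalIdeal (MvPowerSeries (Fin 4) (GenField 4 K)) := by
    obtain ⟨a, ha⟩ := hdvd
    have ht : IsUnit (χ t) := by
      rw [MvPowerSeries.isUnit_iff_constantCoeff, hc1, isUnit_iff_ne_zero]
      exact (map_ne_zero _).2 h.num.t0
    apply le_antisymm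
    · rw [Ideal.span_le]
      rintro x ((rfl | rfl) | ⟨i, rfl⟩)
      · exact hmem1 _ hρm
      · have e : c = a * χ ρ + u * χ (t * sg q y - z * tg q y) := by
          linear_combination ha
        rw [SetLike.mem_coe, e, hσ, hτ]
        refine Ideal.add_mem _ (Ideal.mul_mem_left _ _ (hmem1 _ hρm))
          (Ideal.mul_mem_left _ _ (hmem1 _ ?_))
        exact Ideal.sub_mem _ (Ideal.mul_mem_left _ _ (hym 0)) (Ideal.mul_mem_left _ _
          (Ideal.add_mem _ (Ideal.mul_mem_left _ _ (hym 1)) (Ideal.mul_mem_left _ _ (hym 2))))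
      · fin_cases i
        · exact hmem1 _ (hym 1)
        · exact hmem1 _ (hym 2)
    · rw [← hmax, ← h.span, Ideal.map_span, Ideal.span_le]
      have j1 : χ ρ ∈ Ideal.span ({χ ρ, c} ∪ Set.range ![χ (y 1), χ (y 2)]) :=
        Ideal.subset_span (Or.inl (Or.inl rfl))
      have j2 : c ∈ Ideal.span ({χ ρ, c} ∪ Set.range ![χ (y 1), χ (y 2)]) :=
        Ideal.subset_span (Or.inl (Or.inr rfl))
      have j3 : χ (y 1) ∈ Ideal.span ({χ ρ, c} ∪ Set.range ![χ (y 1), χ (y 2)]) :=
        Ideal.subset_span (Or.inr ⟨0, rfl⟩)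
      have j4 : χ (y 2) ∈ Ideal.span ({χ ρ, c} ∪ Set.range ![χ (y 1), χ (y 2)]) :=
        Ideal.subset_span (Or.inr ⟨1, rfl⟩)
      rintro _ ⟨x, ((rfl | rfl) | ⟨i, rfl⟩), rfl⟩
      · exact j1
      · rw [hc2]
        exact Ideal.zero_mem _
      · fin_cases i
        · show χ (y 0) ∈ _
          rw [SetLike.mem_coe, ← Ideal.unit_mul_mem_iff_mem _ (hu.mul ht)]
          have e : u * χ t * χ (y 0) = c - a * χ ρ + u * χ z * (χ (y 2 + C (q 2)) * χ (y 1) +
              χ (C (q 1)) * χ (y 2)) := by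
            have e1 : χ (t * sg q y - z * tg q y) = χ t * χ (y 0) -
                χ z * (χ (y 2 + C (q 2)) * χ (y 1) + χ (C (q 1)) * χ (y 2)) := by
              rw [hσ, hτ, map_sub, map_mul, map_mul, map_add, map_mul, map_mul]
            rw [e1] at ha
            linear_combination -ha
          rw [e]
          exact Ideal.add_mem _ (Ideal.sub_mem _ j2 (Ideal.mul_mem_left _ _ j1))
            (Ideal.mul_mem_left _ _ (Ideal.add_mem _ (Ideal.mul_mem_left _ _ j3)
              (Ideal.mul_mem_left _ _ j4)))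
        · exact j3
        · exact j4
  have hx : Ideal.span (Set.range ![χ ρ, c, χ (y 1), χ (y 2)]) =
      IsLocalRing.maximalIdeal (MvPowerSeries (Fin 4) (GenField 4 K)) := by
    rw [range_cons4, hspan]
  have p1 : Prime (χ ρ) := isSimple_prime _ (regular_isSimple _ hx 0)
  have p2 : Prime c := isSimple_prime _ (regular_isSimple _ hx 1)
  have hna : ¬ Associated (χ ρ) c := by
    rintro ⟨v, hv⟩
    have h0 := regular_indep _ hx ![-(v : MvPowerSeries (Fin 4) (GenField 4 K)), 1, 0, 0] (by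
      have e : ∑ i, (![-(v : MvPowerSeries (Fin 4) (GenField 4 K)), 1, 0, 0] : Fin 4 → _) i *
          (![χ ρ, c, χ (y 1), χ (y 2)] : Fin 4 → _) i = 0 := by
        simp [Fin.sum_univ_four, ← hv, mul_comm]
      rw [e]
      exact Ideal.zero_mem _) 1
    exact (Ideal.ne_top_iff_one _).1 (IsLocalRing.maximalIdeal.isMaximal _).ne_top h0
  -- the star pair
  have hstar : Associated ((S (some pa)).π (ext 4 K (G Pb))) (χ ρ * c) := assoc_pair hG hα1 S pa pb
  have hstar' : Associated ((S (some pb)).π (ext 4 K (G Pa))) (χ ρ * c) :=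
    ((S (some pb)).assoc' (S (some pa))).trans hstar
  have hf : Associated (ε * ∏ P ∈ SS, G P) (∏ o, pp ε G o) := by
    rw [prod_pp]
  have hdisc : DiscrIs (ε * ∏ P ∈ SS, G P) Θ (χ ρ * c) := by
    let Q : Bool → MvPowerSeries (Fin 4) (GenField 4 K) := fun b => if b then χ ρ else c
    have hQ : ∏ b, Q b = χ ρ * c := by
      rw [Fintype.prod_bool]
      rfl
    have hQ1 : ∏ b, Q b ^ (if b then 1 else 0) = χ ρ := by
      rw [Fintype.prod_bool]
      simp [Q]
    have hQ2 : ∏ b, Q b ^ 1 = χ ρ * c := by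
      rw [Fintype.prod_bool]
      simp [Q]
    have key : DiscrIs (ε * ∏ P ∈ SS, G P) Θ (∏ b, Q b) := by
      refine core_discr _ (pp ε G) hf Θ S Q ?_ ?_ ?_ ?_
      · rintro (_ | _)
        · exact p2
        · exact p1
      · rintro (_ | _) (_ | _) hne
        · exact absurd rfl hne
        · exact fun hh => hna hh.symm
        · exact hna
        · exact absurd rfl hne
      · rintro (_ | P) (_ | P') hne
        · exact absurd rfl hne
        · refine ⟨fun b => if b then 1 else 0, ?_⟩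
          rw [hQ1]
          exact assoc_none hG hα1 S P'
        · refine ⟨fun b => if b then 1 else 0, ?_⟩
          rw [hQ1]
          exact assoc_eps hG hα1 S P
        · have hne' : P.1 ≠ P'.1 := fun e => hne (congrArg some (Subtype.ext e))
          by_cases h1 : P.1 = Pa ∧ P'.1 = Pb
          · refine ⟨fun _ => 1, ?_⟩
            rw [hQ2]
            obtain rfl : P = pa := Subtype.ext h1.1
            obtain rfl : P' = pb := Subtype.ext h1.2
            exact hstar
          by_cases h2 : P.1 = Pb ∧ P'.1 = Pa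
          · refine ⟨fun _ => 1, ?_⟩
            rw [hQ2]
            obtain rfl : P = pb := Subtype.ext h2.1
            obtain rfl : P' = pa := Subtype.ext h2.2
            exact hstar'
          refine ⟨fun b => if b then 1 else 0, ?_⟩
          rw [hQ1]
          refine assoc_unit hG hα1 S P P' ?_
          rw [hdet P.1 P.2 P'.1 P'.2]
          exact h.num.det P.1 P.2 P'.1 P'.2 hne' h1 h2
      · rintro (_ | _)
        · refine ⟨some pa, some pb, ?_, ?_⟩
          · intro e
            exact Pa_ne_Pb (congrArg Subtype.val (Option.some.inj e))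
          · exact (Dvd.intro_left _ rfl).trans hstar.symm.dvd
        · refine ⟨none, some pa, by simp, (assoc_none hG hα1 S pa).symm.dvd⟩
    rwa [hQ] at key
  refine ⟨χ, c, u, hc1, hc2, hu, hdvd, hspan, hdisc, ?_⟩
  intro I hI
  rw [(S none).proj _ (Ideal.mem_map_of_mem _ hI), Ideal.map_map]

end

end ZX
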