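import Pool.Agent.ZX.Defs
import Pool.Agent.H85.Zar.Coord
import Pool.Agent.H85.Zar.Jacobian

set_option linter.style.longLine false

/-! One-step lemmas for the inductive definition of equisingularity. -/

namespace ZX

open MvPowerSeries H9.Zar

universe v

variable {n : ℕ} {k : Type v} [Field k]

private theorem st_singIdeal_le {f g : MvPowerSeries (Fin n) k} (h : Associated f g) :
    singIdeal g ≤ singIdeal f := by
  obtain ⟨u, rfl⟩ := h
  have hf : f ∈ singIdeal f := Ideal.subset_span (Or.inl rfl)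
  have hd : ∀ i, pderiv k i f ∈ singIdeal f := fun i => Ideal.subset_span (Or.inr ⟨i, rfl⟩)
  unfold singIdeal at hf hd ⊢
  rw [Ideal.span_le]
  rintro _ (rfl | ⟨i, rfl⟩)
  · exact Ideal.mul_mem_right _ _ hf
  · simp only [Derivation.leibniz, smul_eq_mul]
    exact Ideal.add_mem _ (Ideal.mul_mem_right _ _ hf) (Ideal.mul_mem_left _ _ (hd i))

private theorem st_singIdeal_congr {f g : MvPowerSeries (Fin n) k} (h : Associated f g) :
    singIdeal f = singIdeal g :=
  le_antisymm (st_singIdeal_le h.symm) (st_singIdeal_le h)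

private theorem st_isSimple_congr {f g : MvPowerSeries (Fin n) k} (h : Associated f g)
    (hf : IsSimple f) : IsSimple g := by
  obtain ⟨u, rfl⟩ := h
  obtain ⟨h0, i, hi⟩ := hf
  refine ⟨by rw [map_mul, h0, zero_mul], i, ?_⟩
  have hu : constantCoeff (u : MvPowerSeries (Fin n) k) ≠ 0 := by
    have h1 := (u.isUnit.map (constantCoeff : MvPowerSeries (Fin n) k →+* k))
    exact h1.ne_zero
  rw [Derivation.leibniz, map_add, smul_eq_mul, smul_eq_mul, map_mul, map_mul, h0, zero_mul,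
    zero_add]
  exact mul_ne_zero hu hi

private theorem st_isEq_congr {f g : MvPowerSeries (Fin (n + 1)) k} (h : Associated f g)
    {Θ : ProjIso n (GenField n k)} {G : Polynomial (MvPowerSeries (Fin n) (GenField n k))}
    (hG : IsEq Θ (ext n k f) G) : IsEq Θ (ext n k g) G :=
  ⟨hG.1, (h.map (ext n k)).symm.trans hG.2⟩

private theorem st_equising_congr {f g : MvPowerSeries (Fin n) k} (h : Associated f g)
    (I : Ideal (MvPowerSeries (Fin n) k)) (hf : Equising n k f I) : Equising n k g I := by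
  cases n with
  | zero => exact hf
  | succ n =>
    rcases hf with ⟨h1, h2⟩ | ⟨h1, φ, Θ, G, D, hΘ, hG, hD, hE⟩
    · exact Or.inl ⟨st_singIdeal_congr h ▸ h1, st_isSimple_congr h h2⟩
    · exact Or.inr ⟨st_singIdeal_congr h ▸ h1, φ, Θ, G, D, hΘ, st_isEq_congr h hG, hD, hE⟩

theorem exists_isProj (φ : SerAut (n + 1) k) :
    ∃ Θ : ProjIso n (GenField n k), IsProj (gen k) (coord φ) Θ := by
  have h0 : ∀ i, constantCoeff (φ (X i)) = 0 := by
    intro i
    by_contra h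
    have h1 : IsUnit (φ (X i)) := by
      rw [MvPowerSeries.isUnit_iff_constantCoeff]
      exact isUnit_iff_ne_zero.2 h
    have h2 : IsUnit (X i : MvPowerSeries (Fin (n + 1)) k) := by
      have h3 := h1.map φ.symm
      rwa [AlgEquiv.symm_apply_apply] at h3
    rw [MvPowerSeries.isUnit_iff_constantCoeff, constantCoeff_X] at h2
    exact not_isUnit_zero h2
  obtain ⟨Θ, h1, h2⟩ := H85.Zar.exists_Theta_gen (fun j => φ (X j)) h0
    (H85.Zar.det_jacobian_ne_zero φ constantCoeff)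
  exact ⟨Θ, h1, h2⟩

theorem discrIs_congr {f g : MvPowerSeries (Fin (n + 1)) k} (h : Associated f g)
    {Θ : ProjIso n (GenField n k)} {D0 : MvPowerSeries (Fin n) (GenField n k)}
    (hf : DiscrIs f Θ D0) : DiscrIs g Θ D0 := by
  obtain ⟨⟨G, hG, hD⟩, hu⟩ := hf
  exact ⟨⟨G, st_isEq_congr h hG, hD⟩,
    fun G' D' hG' hD' => hu G' D' (st_isEq_congr h.symm hG') hD'⟩

theorem eqAll_of (f : MvPowerSeries (Fin (n + 1)) k) (I : Ideal (MvPowerSeries (Fin (n + 1)) k))
    (hs : singIdeal f ≤ I.radical)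
    (h : ∀ (φ : SerAut (n + 1) k) (Θ : ProjIso n (GenField n k)), IsProj (gen k) (coord φ) Θ →
      ∃ D0, DiscrIs f Θ D0 ∧ Equising n (GenField n k) D0 (projIdeal Θ (I.map (ext n k)))) :
    EqAll f I := by
  refine ⟨hs, fun φ => ?_⟩
  obtain ⟨Θ, hΘ⟩ := exists_isProj φ
  obtain ⟨D0, ⟨⟨G, hG, hD⟩, -⟩, hE⟩ := h φ Θ hΘ
  exact ⟨Θ, G, D0, hΘ, hG, hD, hE⟩

theorem not_equising_of (f : MvPowerSeries (Fin (n + 1)) k)
    (I : Ideal (MvPowerSeries (Fin (n + 1)) k)) (hs : ¬ IsSimple f)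
    (h : ∀ (φ : SerAut (n + 1) k) (Θ : ProjIso n (GenField n k)), IsProj (gen k) (coord φ) Θ →
      ∃ D0, DiscrIs f Θ D0 ∧ ¬ Equising n (GenField n k) D0 (projIdeal Θ (I.map (ext n k)))) :
    ¬ Equising (n + 1) k f I := by
  rintro (⟨-, h1⟩ | ⟨-, φ, Θ, G, D, hΘ, hG, hD, hE⟩)
  · exact hs h1
  · obtain ⟨D0, ⟨-, hu⟩, hne⟩ := h φ Θ hΘ
    exact hne (st_equising_congr (hu G D hG hD) _ hE)

theorem EqAll.equising {f : MvPowerSeries (Fin (n + 1)) k}
    {I : Ideal (MvPowerSeries (Fin (n + 1)) k)} (h : EqAll f I) : Equising (n + 1) k f I :=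
  Or.inr ⟨h.1, AlgEquiv.refl, h.2 _⟩

theorem eqAll_congr {f g : MvPowerSeries (Fin (n + 1)) k}
    {I : Ideal (MvPowerSeries (Fin (n + 1)) k)} (h : Associated f g) (hf : EqAll f I) :
    EqAll g I := by
  refine ⟨st_singIdeal_congr h ▸ hf.1, fun φ => ?_⟩
  obtain ⟨Θ, G, D, hΘ, hG, hD, hE⟩ := hf.2 φ
  exact ⟨Θ, G, D, hΘ, st_isEq_congr h hG, hD, hE⟩

theorem EqAll.equisingAt {F : MvPolynomial (Fin (n + 1)) k} {Q : Fin (n + 1) → k}
    {p : Ideal (MvPolynomial (Fin (n + 1)) k)} (h : EqAll (germ Q F) (germIdeal Q p)) :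
    EquisingAt F Q p := by
  refine Or.inr ⟨h.1, AlgEquiv.refl, fun j => ?_, h.2 _⟩
  refine ⟨MvPolynomial.X j - MvPolynomial.C (Q j), 1, ?_, ?_⟩
  · rw [map_one]
    exact one_ne_zero
  · have h1 : germ Q (MvPolynomial.C (Q j) : MvPolynomial (Fin (n + 1)) k) = C (Q j) :=
      (germ Q).commutes (Q j)
    have h2 : germ Q (MvPolynomial.X j : MvPolynomial (Fin (n + 1)) k) = X j + C (Q j) :=
      MvPolynomial.aeval_X _ _
    rw [map_one, one_mul, map_sub, h1, h2, add_sub_cancel_right]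
    rfl

end ZX
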