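import Pool.Agent.ZX.Simple
import Pool.Agent.ZX.StepLem
import Pool.Agent.ZX.Gen
import Pool.Agent.ZX.Sheet
import Pool.Agent.ZX.CoreD

set_option linter.style.longLine false

/-! ZX11: two transversal smooth sheets. -/

namespace ZX

open MvPowerSeries H9.Zar

universe v

/-- a regular pair of sheets: the equation of the image of the second sheet -/
theorem p2_simple {n : ℕ} {k : Type v} [Field k] (p1 p2 : MvPowerSeries (Fin (n + 2)) k)
    (y : Fin n → MvPowerSeries (Fin (n + 2)) k)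
    (hs : Ideal.span ({p1, p2} ∪ Set.range y) =
      IsLocalRing.maximalIdeal (MvPowerSeries (Fin (n + 2)) k))
    {Θ : ProjIso (n + 1) (GenField (n + 1) k)} (S : Sheet Θ (ext (n + 1) k p1)) :
    IsSimple (S.π (ext (n + 1) k p2)) := by
  have hx : Ideal.span (Set.range (Fin.cons (S.π (ext (n + 1) k p2))
      (fun i => S.π (ext (n + 1) k (y i))) : Fin (n + 1) → MvPowerSeries (Fin (n + 1)) _)) =
      IsLocalRing.maximalIdeal (MvPowerSeries (Fin (n + 1)) (GenField (n + 1) k)) := by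
    rw [← S.map_max, ← ext_map_max (n + 1) k, ← hs, Ideal.map_span, Ideal.map_span]
    apply le_antisymm
    · apply Ideal.span_mono
      rintro _ ⟨i, rfl⟩
      refine Fin.cases ?_ (fun i => ?_) i
      · exact ⟨_, ⟨p2, Or.inl (Or.inr rfl), rfl⟩, by rw [Fin.cons_zero]⟩
      · exact ⟨_, ⟨y i, Or.inr ⟨i, rfl⟩, rfl⟩, by rw [Fin.cons_succ]⟩
    · rw [Ideal.span_le]
      rintro _ ⟨_, ⟨x, (hx | hx) | hx, rfl⟩, rfl⟩
      · rw [hx, S.pi_self]
        exact zero_mem _
      · rw [Set.mem_singleton_iff.mp hx]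
        exact Ideal.subset_span ⟨0, by rw [Fin.cons_zero]⟩
      · obtain ⟨i, rfl⟩ := hx
        exact Ideal.subset_span ⟨i.succ, by rw [Fin.cons_succ]⟩
  have := regular_isSimple _ hx 0
  rwa [Fin.cons_zero] at this

theorem pencil2 {n : ℕ} {k : Type v} [Field k] [CharZero k] (p1 p2 : MvPowerSeries (Fin (n + 2)) k)
    (y : Fin n → MvPowerSeries (Fin (n + 2)) k)
    (hs : Ideal.span ({p1, p2} ∪ Set.range y) =
      IsLocalRing.maximalIdeal (MvPowerSeries (Fin (n + 2)) k))
    (f : MvPowerSeries (Fin (n + 2)) k) (hf : Associated f (p1 * p2))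
    (I : Ideal (MvPowerSeries (Fin (n + 2)) k)) (hI : I ≠ ⊤) (h1 : p1 ∈ I) (h2 : p2 ∈ I) :
    EqAll f I := by
  have hx : Ideal.span (Set.range (Fin.cons p1 (Fin.cons p2 y) :
      Fin (n + 2) → MvPowerSeries (Fin (n + 2)) k)) =
      IsLocalRing.maximalIdeal (MvPowerSeries (Fin (n + 2)) k) := by
    rw [← hs, Fin.range_cons, Fin.range_cons]
    congr 1
    ext z
    simp only [Set.mem_insert_iff, Set.mem_union, Set.mem_singleton_iff]
    tauto
  have hp1 : IsSimple p1 := by
    have := regular_isSimple _ hx 0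
    rwa [Fin.cons_zero] at this
  have hp2 : IsSimple p2 := by
    have := regular_isSimple _ hx 1
    rwa [← Fin.succ_zero_eq_one, Fin.cons_succ, Fin.cons_zero] at this
  refine eqAll_of f I (sing_le f p1 p2 I h1 h2 hf.symm.dvd) fun φ Θ hΘ => ?_
  have hc : ∀ p : MvPowerSeries (Fin (n + 2)) k, IsSimple p →
      constantCoeff (ext (n + 1) k p) = 0 := by
    intro p hp
    change constantCoeff (MvPowerSeries.map (incl (n + 1) k) p) = 0
    rw [MvPowerSeries.constantCoeff_map, hp.1, map_zero]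
  obtain ⟨S1⟩ := exists_sheet Θ (ext (n + 1) k p1) (hc p1 hp1) (gen_ne φ Θ hΘ p1 hp1)
  obtain ⟨S2⟩ := exists_sheet Θ (ext (n + 1) k p2) (hc p2 hp2) (gen_ne φ Θ hΘ p2 hp2)
  have hq : IsSimple (S1.π (ext (n + 1) k p2)) := p2_simple p1 p2 y hs S1
  let S : ∀ i : Fin 2, Sheet Θ (ext (n + 1) k (![p1, p2] i)) := fun i =>
    match i with
    | 0 => S1
    | 1 => S2
  have hd := core_discr (κ := Unit) f ![p1, p2] (by rw [Fin.prod_univ_two]; exact hf) Θ S
    (fun _ => S1.π (ext (n + 1) k p2)) (fun _ => isSimple_prime _ hq)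
    (fun c c' h => absurd (Subsingleton.elim c c') h) (fun i j hij => ⟨fun _ => 1, ?_⟩)
    (fun _ => ⟨0, 1, by decide, dvd_rfl⟩)
  · refine ⟨_, hd, ?_⟩
    rw [Finset.univ_unique, Finset.prod_singleton]
    refine equising_of_isSimple _ hq _ ?_
    rw [S1.proj _ (Ideal.mem_map_of_mem _ h1)]
    intro htop
    have hle : ((I.map (ext (n + 1) k)).map S1.π) ≤
        IsLocalRing.maximalIdeal (MvPowerSeries (Fin (n + 1)) (GenField (n + 1) k)) := by
      rw [← S1.map_max, ← ext_map_max (n + 1) k]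
      exact Ideal.map_mono (Ideal.map_mono (IsLocalRing.le_maximalIdeal hI))
    rw [htop] at hle
    exact (IsLocalRing.maximalIdeal.isMaximal _).ne_top (top_le_iff.mp hle)
  · rw [Finset.univ_unique, Finset.prod_singleton, pow_one]
    have h01 : (i = 0 ∧ j = 1) ∨ (i = 1 ∧ j = 0) := by
      revert i j
      decide
    rcases h01 with ⟨rfl, rfl⟩ | ⟨rfl, rfl⟩
    · exact Associated.refl _
    · exact S2.assoc' S1

end ZX
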