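import Pool.Agent.ZX.Simple
import Pool.Agent.ZX.StepLem
import Pool.Agent.ZX.Lev1
import Pool.Agent.ZX.Lev2
import Pool.Agent.ZX.Lev3A
import Pool.Agent.ZX.Lev3B
import Pool.Agent.ZX.Pencil2
import Pool.Agent.ZX.Germ

set_option linter.style.longLine false
set_option linter.unusedSectionVars false

/-! The points of `B`. -/

namespace ZX

open MvPowerSeries H9.Zar

universe v

section

variable {n : ℕ} {k : Type v} [Field k]

/-- the image of a proper ideal is proper -/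
theorem map_ne_top {n' : ℕ} {K : Type v} [Field K] (i : k →+* K)
    (χ : MvPowerSeries (Fin n) k →+* MvPowerSeries (Fin n') K)
    (hχ : ∀ x, constantCoeff (χ x) = i (constantCoeff x))
    (I : Ideal (MvPowerSeries (Fin n) k)) (hI : I ≠ ⊤) : I.map χ ≠ ⊤ := by
  have h1 : I ≤ RingHom.ker (constantCoeff : MvPowerSeries (Fin n) k →+* k) := by
    intro x hx
    rw [RingHom.mem_ker]
    by_contra h
    exact hI (Ideal.eq_top_of_isUnit_mem _ hx (MvPowerSeries.isUnit_iff_constantCoeff.mpr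
      (isUnit_iff_ne_zero.mpr h)))
  have h2 : I.map χ ≤ RingHom.ker (constantCoeff : MvPowerSeries (Fin n') K →+* K) := by
    rw [Ideal.map_le_iff_le_comap]
    intro x hx
    rw [Ideal.mem_comap, RingHom.mem_ker, hχ]
    have := h1 hx
    rw [RingHom.mem_ker] at this
    rw [this, map_zero]
  intro h3
  rw [h3, top_le_iff] at h2
  exact RingHom.ker_ne_top _ h2

end

section

variable {k : Type v} [Field k] [IsAlgClosed k] [CharZero k] (Q : Fin (6 + 1) → k)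
    (h0 : Q 0 = 0) (h1 : Q 1 = 0) (h2 : Q 2 = 0) (h3 : Q 3 = 0) (hq : NumQ fun i => Q (yi i))

/-- the ideal `I` contains the equations of the sheets -/
private lemma atb_ff_mem (q : Fin 3 → k) (I : Ideal (MvPowerSeries (Fin (6 + 1)) k)) (hI0 : X 0 ∈ I)
    (hI1 : X 1 ∈ I) (hI3 : X 3 ∈ I) (i : Fin 8) : ff q i ∈ I :=
  I.sub_mem (I.sub_mem hI0 (I.mul_mem_left _ hI1)) (I.mul_mem_right _ hI3)

private lemma atb_eq_prod (h0 : Q 0 = 0) (h1 : Q 1 = 0) (h2 : Q 2 = 0) (h3 : Q 3 = 0) :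
    germ Q (Fpol k) = ∏ i, ff (fun j => Q (yi j)) i := by
  rw [germ_Fpol]
  exact Finset.prod_congr rfl fun i _ => germ_FF_B Q h0 h1 h2 h3 i

private lemma atb_constantCoeff_ff (q : Fin 3 → k) (i : Fin 8) : constantCoeff (ff q i) = 0 := by
  simp [ff]

private lemma atb_not_simple (q : Fin 3 → k) : ¬ IsSimple (∏ i, ff q i) := by
  rw [Fin.prod_univ_succ, Fin.prod_univ_succ]
  refine not_isSimple_mul _ _ (atb_constantCoeff_ff q 0) ?_
  rw [map_mul, atb_constantCoeff_ff, zero_mul]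

private lemma atb_sing_ff (q : Fin 3 → k) (I : Ideal (MvPowerSeries (Fin (6 + 1)) k)) (hI0 : X 0 ∈ I)
    (hI1 : X 1 ∈ I) (hI3 : X 3 ∈ I) : singIdeal (∏ i, ff q i) ≤ I.radical := by
  refine sing_le _ (ff q 0) (ff q 1) I (atb_ff_mem q I hI0 hI1 hI3 0) (atb_ff_mem q I hI0 hI1 hI3 1) ?_
  rw [Fin.prod_univ_succ, Fin.prod_univ_succ, ← mul_assoc]
  exact Dvd.intro _ rfl

end

section Lev1

variable {K : Type v} [Field K] {T ρ ε : MvPowerSeries (Fin 6) K}
    {y : Fin 3 → MvPowerSeries (Fin 6) K} {z t : MvPowerSeries (Fin 6) K} {q : Fin 3 → K}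
    {d u : Fin 8 × Fin 8 → MvPowerSeries (Fin 6) K} (h : Lev1 T ρ ε y z t q d u)

include h

private lemma atb_d_mem (I : Ideal (MvPowerSeries (Fin 6) K)) (hT : T ∈ I) (hε : ε ∈ I)
    (l : Fin 8 × Fin 8) (hl : l ∈ LL) : d l ∈ I := by
  obtain ⟨x, hx, -⟩ := h.eq l hl
  rw [hx]
  exact I.add_mem hT (I.mul_mem_right _ hε)

private lemma atb_d_prod : ∃ c, (∏ l ∈ LL, d l) = d (0, 1) * d (0, 2) * c := by
  have h1 : ((0, 1) : Fin 8 × Fin 8) ∈ LL := by decide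
  have h2 : ((0, 2) : Fin 8 × Fin 8) ∈ LL.erase (0, 1) := by decide
  rw [← Finset.mul_prod_erase _ _ h1, ← Finset.mul_prod_erase _ _ h2, ← mul_assoc]
  exact ⟨_, rfl⟩

private lemma atb_const_T : constantCoeff T = 0 ∧ constantCoeff ρ = 0 ∧ constantCoeff ε = 0 := by
  have h1 : ∀ x ∈ ({T, ρ, ε} ∪ Set.range y : Set _), constantCoeff x = 0 := by
    intro x hx
    rw [← mem_max_iff, ← h.span]
    exact Ideal.subset_span hx
  exact ⟨h1 _ (by simp), h1 _ (by simp), h1 _ (by simp)⟩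

private lemma atb_const_d (l : Fin 8 × Fin 8) (hl : l ∈ LL) : constantCoeff (d l) = 0 := by
  obtain ⟨x, hx, -⟩ := h.eq l hl
  rw [hx, map_add, map_mul, (atb_const_T h).1, (atb_const_T h).2.2, zero_mul, add_zero]

end Lev1


section Sub

variable {n n' : ℕ} {K K' : Type v} [Field K] [Field K'] (i : K →+* K')
    (χ : MvPowerSeries (Fin n) K →+* MvPowerSeries (Fin n') K')
    (hC : ∀ c, χ (C c) = C (i c))

include hC

theorem map_sg (q : Fin 3 → K) (y : Fin 3 → MvPowerSeries (Fin n) K) :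
    χ (sg q y) = sg (fun j => i (q j)) (fun j => χ (y j)) := by
  simp only [sg, map_add, hC]

theorem map_tg (q : Fin 3 → K) (y : Fin 3 → MvPowerSeries (Fin n) K) :
    χ (tg q y) = tg (fun j => i (q j)) (fun j => χ (y j)) := by
  simp only [tg, map_add, map_mul, hC]

end Sub

section Lev2

variable {K : Type v} [Field K] {ρ ε : MvPowerSeries (Fin 5) K}
    {y : Fin 3 → MvPowerSeries (Fin 5) K} {z t : MvPowerSeries (Fin 5) K} {q : Fin 3 → K}
    {G : (Fin 8 × Fin 8) × (Fin 8 × Fin 8) → MvPowerSeries (Fin 5) K} (h : Lev2 ρ ε y z t q G)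

include h

private lemma atb_const_ρ : constantCoeff ρ = 0 ∧ constantCoeff ε = 0 := by
  have h1 : ∀ x ∈ ({ρ, ε} ∪ Set.range y : Set _), constantCoeff x = 0 := by
    intro x hx
    rw [← mem_max_iff, ← h.span]
    exact Ideal.subset_span hx
  exact ⟨h1 _ (by simp), h1 _ (by simp)⟩

private lemma atb_G_mem (I : Ideal (MvPowerSeries (Fin 5) K)) (hρ : ρ ∈ I) (hε : ε ∈ I)
    (P : (Fin 8 × Fin 8) × (Fin 8 × Fin 8)) (hP : P ∈ SS) : G P ∈ I := by
  obtain ⟨α, β, hx, -⟩ := h.eq P hP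
  rw [hx]
  exact I.add_mem (I.mul_mem_left _ hρ) (I.mul_mem_left _ hε)

omit h in
private lemma atb_Pa_mem : Pa ∈ SS := by decide

omit h in
private lemma atb_G_prod : (∏ P ∈ SS, G P) = G Pa * ∏ P ∈ SS.erase Pa, G P :=
  (Finset.mul_prod_erase _ _ atb_Pa_mem).symm

private lemma atb_const_G (P : (Fin 8 × Fin 8) × (Fin 8 × Fin 8)) (hP : P ∈ SS) :
    constantCoeff (G P) = 0 := by
  obtain ⟨α, β, hx, -⟩ := h.eq P hP
  rw [hx, map_add, map_mul, map_mul, (atb_const_ρ h).1, (atb_const_ρ h).2, mul_zero, mul_zero, add_zero]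

private lemma atb_const_prod : constantCoeff (∏ P ∈ SS, G P) = 0 := by
  rw [atb_G_prod, map_mul, atb_const_G h Pa atb_Pa_mem, zero_mul]

private lemma atb_notSimple2 : ¬ IsSimple (ε * ∏ P ∈ SS, G P) :=
  not_isSimple_mul _ _ (atb_const_ρ h).2 (atb_const_prod h)

private lemma atb_sing2 (I : Ideal (MvPowerSeries (Fin 5) K)) (hρ : ρ ∈ I) (hε : ε ∈ I) :
    singIdeal (ε * ∏ P ∈ SS, G P) ≤ I.radical := by
  refine sing_le _ ε (G Pa) I hε (atb_G_mem h I hρ hε Pa atb_Pa_mem) ?_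
  rw [atb_G_prod, ← mul_assoc]
  exact Dvd.intro _ rfl

/-- the family of the five coordinates -/
private lemma atb_reg5 : Ideal.span (Set.range ![ρ, ε, y 0, y 1, y 2]) =
    IsLocalRing.maximalIdeal (MvPowerSeries (Fin 5) K) := by
  rw [← h.span]
  congr 1
  ext x
  simp only [Set.mem_range, Fin.exists_fin_succ, Set.mem_union, Set.mem_insert_iff,
    Set.mem_singleton_iff, Matrix.cons_val_zero, Matrix.cons_val_succ, IsEmpty.exists_iff]
  simp only [eq_comm, or_false, or_assoc]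
  rfl


private lemma atb_ε_simple : IsSimple ε := regular_isSimple _ (atb_reg5 h) 1

private lemma atb_ρ_simple : IsSimple ρ := regular_isSimple _ (atb_reg5 h) 0

private lemma atb_isUnit_of_const {n : ℕ} (x : MvPowerSeries (Fin n) K) (hx : constantCoeff x ≠ 0) :
    IsUnit x :=
  MvPowerSeries.isUnit_iff_constantCoeff.mpr (isUnit_iff_ne_zero.mpr hx)

private lemma atb_not_dvd_ρ (α : MvPowerSeries (Fin 5) K) (hα : constantCoeff α ≠ 0) :
    ¬ ε ∣ α * ρ := by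
  rintro ⟨x, hx⟩
  have h1 := regular_indep _ (atb_reg5 h) ![α, -x, 0, 0, 0] (by
    have : ∑ i, (![α, -x, 0, 0, 0] : Fin 5 → MvPowerSeries (Fin 5) K) i *
        ![ρ, ε, y 0, y 1, y 2] i = 0 := by
      simp only [Fin.sum_univ_five, Matrix.cons_val_zero, Matrix.cons_val_one, Matrix.cons_val,
        zero_mul, add_zero]
      rw [hx]
      ring
    rw [this]
    exact zero_mem _) 0
  rw [mem_max_iff] at h1
  exact hα h1

omit h in
private lemma atb_SS_sub (P : (Fin 8 × Fin 8) × (Fin 8 × Fin 8)) (hP : P ∈ SS) :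
    P.1 ∈ LL ∧ P.2 ∈ LL ∧ P.1 ≠ P.2 := by
  rw [SS, Finset.mem_filter, Finset.mem_product] at hP
  refine ⟨hP.1.1, hP.1.2, fun h => ?_⟩
  rw [h] at hP
  rcases hP.2 with h1 | h1
  · exact lt_irrefl _ h1.2
  · exact lt_irrefl _ h1.1

private lemma atb_not_dvd_G (P : (Fin 8 × Fin 8) × (Fin 8 × Fin 8)) (hP : P ∈ SS) : ¬ ε ∣ G P := by
  intro h1
  obtain ⟨α, β, hx, h2, -⟩ := h.eq P hP
  have hα : constantCoeff α ≠ 0 := by
    have h3 : constantCoeff (α - dd z t (bv (sg q y)) P) = 0 := by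
      have h4 : Ideal.span {ρ, ε} ≤ RingHom.ker (constantCoeff : MvPowerSeries (Fin 5) K →+* K) := by
        rw [Ideal.span_le]
        rintro x hx
        rcases hx with rfl | rfl
        · exact (atb_const_ρ h).1
        · exact (atb_const_ρ h).2
      exact h4 h2
    rw [map_sub, sub_eq_zero] at h3
    rw [h3]
    have h5 := atb_SS_sub P hP
    exact h.num.ddb P.1 h5.1 P.2 h5.2.1 h5.2.2
  apply atb_not_dvd_ρ h α hα
  rw [hx] at h1
  exact (dvd_add_left (Dvd.intro_left β rfl)).mp h1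

private lemma atb_not_dvd_prod : ¬ ε ∣ ∏ P ∈ SS, G P := by
  intro h1
  obtain ⟨P, hP, h2⟩ := (Prime.dvd_finsetProd_iff (isSimple_prime _ (atb_ε_simple h)) G).mp h1
  exact atb_not_dvd_G h P hP h2

private lemma atb_N2 : ¬ Equising 5 K (ε * ∏ P ∈ SS, G P) (Ideal.span {ε}) :=
  neg1 ε _ (atb_ε_simple h) (atb_const_prod h) (atb_not_dvd_prod h)

variable [CharZero K]

private lemma atb_P3A (hA : constantCoeff t * q 0 - constantCoeff z * (q 1 * q 2) ≠ 0)
    (J : Ideal (MvPowerSeries (Fin 5) K)) (hJ : J ≠ ⊤) (hρ : ρ ∈ J) (hε : ε ∈ J) :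
    EqAll (n := 4) (ε * ∏ P ∈ SS, G P) J := by
  refine eqAll_of _ _ (atb_sing2 h J hρ hε) fun φ Θ hΘ => ?_
  obtain ⟨χ, h1, -, h3, h4, h5⟩ := lev3A h hA φ Θ hΘ
  refine ⟨_, h4, ?_⟩
  rw [h5 J hε]
  exact equising_of_isSimple _ h3 _ (map_ne_top _ χ h1 J hJ)

private lemma atb_P3B (hB : q 0 = 0 ∧ q 1 * q 2 = 0)
    (J : Ideal (MvPowerSeries (Fin 5) K)) (hJ : J ≠ ⊤) (hρ : ρ ∈ J) (hε : ε ∈ J)
    (hst : t * sg q y - z * tg q y ∈ J) :
    EqAll (n := 4) (ε * ∏ P ∈ SS, G P) J := by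
  refine eqAll_of _ _ (atb_sing2 h J hρ hε) fun φ Θ hΘ => ?_
  obtain ⟨χ, c, u, h1, -, h3, h4, h5, h6, h7⟩ := lev3B h hB φ Θ hΘ
  refine ⟨_, h6, ?_⟩
  rw [h7 J hε]
  have hρ' : χ ρ ∈ J.map χ := Ideal.mem_map_of_mem χ hρ
  have hc : c ∈ J.map χ := by
    obtain ⟨x, hx⟩ := h4
    have hc' : c = χ ρ * x + u * χ (t * sg q y - z * tg q y) := by rw [← hx]; ring
    rw [hc']
    exact Ideal.add_mem _ (Ideal.mul_mem_right _ _ hρ')
      (Ideal.mul_mem_left _ _ (Ideal.mem_map_of_mem χ hst))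
  have : CharZero (GenField 4 K) := charZero_of_injective_ringHom (incl 4 K).injective
  exact (pencil2 (n := 2) (χ ρ) c ![χ (y 1), χ (y 2)] h5 _ (Associated.refl _) _
    (map_ne_top _ χ h1 J hJ) hρ' hc).equising

private lemma atb_N3B (hB : q 0 = 0 ∧ q 1 * q 2 = 0) :
    ¬ Equising 5 K (ε * ∏ P ∈ SS, G P) (Ideal.span {ρ, ε}) := by
  refine not_equising_of (n := 4) _ _ (atb_notSimple2 h) fun φ Θ hΘ => ?_
  obtain ⟨χ, c, u, h1, h2, h3, h4, h5, h6, h7⟩ := lev3B h hB φ Θ hΘ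
  refine ⟨_, h6, ?_⟩
  rw [h7 _ (Ideal.subset_span (by simp))]
  have hm : Ideal.map χ (Ideal.span {ρ, ε}) = Ideal.span {χ ρ} := by
    rw [Ideal.map_span, Set.image_pair, h2]
    rw [Ideal.span_insert, Ideal.span_singleton_eq_bot.mpr rfl, sup_bot_eq]
  rw [hm]
  have hr : Ideal.span (Set.range ![χ ρ, c, χ (y 1), χ (y 2)]) =
      IsLocalRing.maximalIdeal (MvPowerSeries (Fin 4) (GenField 4 K)) := by
    rw [← h5]
    congr 1
    ext x
    simp only [Set.mem_range, Fin.exists_fin_succ, Set.mem_union, Set.mem_insert_iff,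
      Set.mem_singleton_iff, Matrix.cons_val_zero, Matrix.cons_val_succ, IsEmpty.exists_iff]
    simp only [eq_comm, or_false, or_assoc]
  refine neg1 (χ ρ) c (regular_isSimple _ hr 0) (regular_isSimple _ hr 1).1 ?_
  rintro ⟨x, hx⟩
  have h8 := regular_indep _ hr ![-x, 1, 0, 0] (by
    have : ∑ i, (![-x, 1, 0, 0] : Fin 4 → MvPowerSeries (Fin 4) (GenField 4 K)) i *
        ![χ ρ, c, χ (y 1), χ (y 2)] i = 0 := by
      simp [Fin.sum_univ_four, hx, mul_comm]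
    rw [this]
    exact zero_mem _) 1
  rw [mem_max_iff] at h8
  simp at h8

end Lev2


section Lev1

variable {K : Type v} [Field K] [CharZero K] {T ρ ε : MvPowerSeries (Fin 6) K}
    {y : Fin 3 → MvPowerSeries (Fin 6) K} {z t : MvPowerSeries (Fin 6) K} {q : Fin 3 → K}
    {d u : Fin 8 × Fin 8 → MvPowerSeries (Fin 6) K} (h : Lev1 T ρ ε y z t q d u)

include h

private lemma atb_notSimple1 : ¬ IsSimple (∏ l ∈ LL, d l) := by
  obtain ⟨c, hc⟩ := atb_d_prod h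
  rw [hc, mul_assoc]
  refine not_isSimple_mul _ _ (atb_const_d h _ (by decide)) ?_
  rw [map_mul, atb_const_d h _ (by decide), zero_mul]

private lemma atb_sing1 (I : Ideal (MvPowerSeries (Fin 6) K)) (hT : T ∈ I) (hε : ε ∈ I) :
    singIdeal (∏ l ∈ LL, d l) ≤ I.radical := by
  obtain ⟨c, hc⟩ := atb_d_prod h
  exact sing_le _ (d (0, 1)) (d (0, 2)) I (atb_d_mem h I hT hε _ (by decide))
    (atb_d_mem h I hT hε _ (by decide)) ⟨c, hc⟩

private lemma atb_P2A (hA : constantCoeff t * q 0 - constantCoeff z * (q 1 * q 2) ≠ 0)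
    (J : Ideal (MvPowerSeries (Fin 6) K)) (hJ : J ≠ ⊤) (hT : T ∈ J) (hρ : ρ ∈ J) (hε : ε ∈ J) :
    EqAll (n := 5) (∏ l ∈ LL, d l) J := by
  refine eqAll_of _ _ (atb_sing1 h J hT hε) fun φ Θ hΘ => ?_
  obtain ⟨χ, G, h1, h2, h3, h4, h5, h6⟩ := lev2 h φ Θ hΘ
  have : CharZero (GenField 5 K) := charZero_of_injective_ringHom (incl 5 K).injective
  refine ⟨_, h5, ?_⟩
  rw [h6 J (atb_d_mem h J hT hε)]
  refine (atb_P3A h1 ?_ _ (map_ne_top _ χ h2 J hJ) (Ideal.mem_map_of_mem χ hρ)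
    (Ideal.mem_map_of_mem χ hε)).equising
  rw [h2, h2, ← map_mul, ← map_mul, ← map_mul, ← map_sub]
  exact (map_ne_zero_iff _ (incl 5 K).injective).mpr hA

private lemma atb_P2B (hB : q 0 = 0 ∧ q 1 * q 2 = 0)
    (J : Ideal (MvPowerSeries (Fin 6) K)) (hJ : J ≠ ⊤) (hT : T ∈ J) (hρ : ρ ∈ J) (hε : ε ∈ J)
    (hst : t * sg q y - z * tg q y ∈ J) :
    EqAll (n := 5) (∏ l ∈ LL, d l) J := by
  refine eqAll_of _ _ (atb_sing1 h J hT hε) fun φ Θ hΘ => ?_
  obtain ⟨χ, G, h1, h2, h3, h4, h5, h6⟩ := lev2 h φ Θ hΘ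
  have : CharZero (GenField 5 K) := charZero_of_injective_ringHom (incl 5 K).injective
  refine ⟨_, h5, ?_⟩
  rw [h6 J (atb_d_mem h J hT hε)]
  refine (atb_P3B h1 ?_ _ (map_ne_top _ χ h2 J hJ) (Ideal.mem_map_of_mem χ hρ)
    (Ideal.mem_map_of_mem χ hε) ?_).equising
  · rw [hB.1, ← map_mul, hB.2, map_zero]
    exact ⟨rfl, rfl⟩
  · rw [← map_sg (incl 5 K) χ h3, ← map_tg (incl 5 K) χ h3, ← map_mul, ← map_mul, ← map_sub]
    exact Ideal.mem_map_of_mem χ hst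

private lemma atb_N2B (hB : q 0 = 0 ∧ q 1 * q 2 = 0) :
    ¬ Equising 6 K (∏ l ∈ LL, d l) (Ideal.span {T, ρ, ε}) := by
  refine not_equising_of (n := 5) _ _ (atb_notSimple1 h) fun φ Θ hΘ => ?_
  obtain ⟨χ, G, h1, h2, h3, h4, h5, h6⟩ := lev2 h φ Θ hΘ
  have : CharZero (GenField 5 K) := charZero_of_injective_ringHom (incl 5 K).injective
  refine ⟨_, h5, ?_⟩
  rw [h6 _ (atb_d_mem h _ (Ideal.subset_span (by simp)) (Ideal.subset_span (by simp)))]
  have hm : Ideal.map χ (Ideal.span {T, ρ, ε}) = Ideal.span {χ ρ, χ ε} := by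
    rw [Ideal.map_span, Set.image_insert_eq, Set.image_pair, Ideal.span_insert]
    refine sup_eq_right.mpr ?_
    rw [Ideal.span_singleton_le_iff_mem]
    exact Ideal.mem_of_dvd _ h4 (Ideal.subset_span (by simp))
  rw [hm]
  exact atb_N3B h1 (by rw [hB.1, ← map_mul, hB.2, map_zero]; exact ⟨rfl, rfl⟩)

private lemma atb_N1 : ¬ Equising 6 K (∏ l ∈ LL, d l) (Ideal.span {T, ε}) := by
  refine not_equising_of (n := 5) _ _ (atb_notSimple1 h) fun φ Θ hΘ => ?_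
  obtain ⟨χ, G, h1, h2, h3, h4, h5, h6⟩ := lev2 h φ Θ hΘ
  refine ⟨_, h5, ?_⟩
  rw [h6 _ (atb_d_mem h _ (Ideal.subset_span (by simp)) (Ideal.subset_span (by simp)))]
  have hm : Ideal.map χ (Ideal.span {T, ε}) = Ideal.span {χ ε} := by
    rw [Ideal.map_span, Set.image_pair, Ideal.span_insert]
    refine sup_eq_right.mpr ?_
    rw [Ideal.span_singleton_le_iff_mem]
    exact Ideal.mem_of_dvd _ h4 (Ideal.subset_span (by simp))
  rw [hm]
  exact atb_N2 h1

end Lev1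

section

variable {k : Type v} [Field k] [IsAlgClosed k] [CharZero k] (Q : Fin (6 + 1) → k)
    (h0 : Q 0 = 0) (h1 : Q 1 = 0) (h2 : Q 2 = 0) (h3 : Q 3 = 0) (hq : NumQ fun i => Q (yi i))

include h0 h1 h2 h3 hq

theorem posB (hn : ¬ (Q 4 = 0 ∧ Q 5 * Q 6 = 0))
    (I : Ideal (MvPowerSeries (Fin (6 + 1)) k)) (hI : I ≠ ⊤) (hI0 : X 0 ∈ I) (hI1 : X 1 ∈ I)
    (hI2 : X 2 ∈ I) (hI3 : X 3 ∈ I) : EqAll (germ Q (Fpol k)) I := by
  rw [atb_eq_prod Q h0 h1 h2 h3]
  refine eqAll_of _ _ (atb_sing_ff _ I hI0 hI1 hI3) fun φ Θ hΘ => ?_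
  obtain ⟨χ, T, z, t, d, u, h4, h5, h6, h7, h8, h9⟩ := lev1 (fun i => Q (yi i)) hq φ Θ hΘ
  have : CharZero (GenField 6 k) := charZero_of_injective_ringHom (incl 6 k).injective
  refine ⟨_, h8, ?_⟩
  rw [h9 I (atb_ff_mem _ I hI0 hI1 hI3)]
  have hT : T ∈ I.map χ := by
    have h10 : T ∈ Ideal.span {χ (X 0), χ (X 1), χ (X 3)} := by
      rw [h7]
      exact Ideal.subset_span (by simp)
    refine (Ideal.span_le.mpr ?_) h10
    rintro x (rfl | rfl | rfl)
    · exact Ideal.mem_map_of_mem χ hI0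
    · exact Ideal.mem_map_of_mem χ hI1
    · exact Ideal.mem_map_of_mem χ hI3
  refine (atb_P2A h4 ?_ _ (map_ne_top _ χ h5 I hI) hT (Ideal.mem_map_of_mem χ hI2)
    (Ideal.mem_map_of_mem χ hI3)).equising
  rcases h4.cas with h10 | h10
  · exact h10
  · exfalso
    apply hn
    rw [← map_mul, map_eq_zero_iff _ (incl 6 k).injective,
      map_eq_zero_iff _ (incl 6 k).injective] at h10
    exact h10

theorem posM (h4 : Q 4 = 0) (h56 : Q 5 * Q 6 = 0)
    (I : Ideal (MvPowerSeries (Fin (6 + 1)) k)) (hI : I ≠ ⊤) (hI0 : X 0 ∈ I) (hI1 : X 1 ∈ I)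
    (hI2 : X 2 ∈ I) (hI3 : X 3 ∈ I) (hI4 : X 4 ∈ I)
    (hI56 : (X 5 + C (Q 5)) * (X 6 + C (Q 6)) ∈ I) : EqAll (germ Q (Fpol k)) I := by
  rw [atb_eq_prod Q h0 h1 h2 h3]
  refine eqAll_of _ _ (atb_sing_ff _ I hI0 hI1 hI3) fun φ Θ hΘ => ?_
  obtain ⟨χ, T, z, t, d, u, h14, h5, h6, h7, h8, h9⟩ := lev1 (fun i => Q (yi i)) hq φ Θ hΘ
  have : CharZero (GenField 6 k) := charZero_of_injective_ringHom (incl 6 k).injective
  refine ⟨_, h8, ?_⟩
  rw [h9 I (atb_ff_mem _ I hI0 hI1 hI3)]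
  have hT : T ∈ I.map χ := by
    have h10 : T ∈ Ideal.span {χ (X 0), χ (X 1), χ (X 3)} := by
      rw [h7]
      exact Ideal.subset_span (by simp)
    refine (Ideal.span_le.mpr ?_) h10
    rintro x (rfl | rfl | rfl)
    · exact Ideal.mem_map_of_mem χ hI0
    · exact Ideal.mem_map_of_mem χ hI1
    · exact Ideal.mem_map_of_mem χ hI3
  refine (atb_P2B h14 ?_ _ (map_ne_top _ χ h5 I hI) hT (Ideal.mem_map_of_mem χ hI2)
    (Ideal.mem_map_of_mem χ hI3) ?_).equising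
  · have e4 : Q (yi 0) = 0 := h4
    have e5 : Q (yi 1) * Q (yi 2) = 0 := h56
    rw [← map_mul, e4, e5, map_zero]
    exact ⟨rfl, rfl⟩
  · rw [← map_sg (incl 6 k) χ h6, ← map_tg (incl 6 k) χ h6]
    refine Ideal.sub_mem _ (Ideal.mul_mem_left _ _ (Ideal.mem_map_of_mem χ ?_))
      (Ideal.mul_mem_left _ _ (Ideal.mem_map_of_mem χ ?_))
    · have e4 : Q (yi 0) = 0 := h4
      rw [sg, e4, map_zero, add_zero]
      exact hI4
    · exact hI56

theorem negB (h4 : Q 4 = 0) (h56 : Q 5 * Q 6 = 0) :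
    ¬ Equising (6 + 1) k (germ Q (Fpol k)) (Ideal.span {X 0, X 1, X 2, X 3}) := by
  rw [atb_eq_prod Q h0 h1 h2 h3]
  refine not_equising_of _ _ (atb_not_simple _) fun φ Θ hΘ => ?_
  obtain ⟨χ, T, z, t, d, u, h14, h5, h6, h7, h8, h9⟩ := lev1 (fun i => Q (yi i)) hq φ Θ hΘ
  have : CharZero (GenField 6 k) := charZero_of_injective_ringHom (incl 6 k).injective
  refine ⟨_, h8, ?_⟩
  rw [h9 _ (atb_ff_mem _ _ (Ideal.subset_span (by simp)) (Ideal.subset_span (by simp))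
    (Ideal.subset_span (by simp)))]
  have hm : Ideal.map χ (Ideal.span {X 0, X 1, X 2, X 3}) =
      Ideal.span {T, χ (X 2), χ (X 3)} := by
    have e1 : ({X 0, X 1, X 2, X 3} : Set (MvPowerSeries (Fin (6 + 1)) k)) =
        {X 2} ∪ {X 0, X 1, X 3} := by
      ext x
      simp only [Set.mem_insert_iff, Set.mem_singleton_iff, Set.mem_union]
      tauto
    have e2 : ({T, χ (X 2), χ (X 3)} : Set (MvPowerSeries (Fin 6) (GenField 6 k))) =
        {χ (X 2)} ∪ {T, χ (X 3)} := by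
      ext x
      simp only [Set.mem_insert_iff, Set.mem_singleton_iff, Set.mem_union]
      tauto
    rw [e1, e2, Ideal.map_span, Set.image_union, Ideal.span_union, Ideal.span_union, ← h7,
      Set.image_singleton, Set.image_insert_eq, Set.image_pair]
  rw [hm]
  refine atb_N2B h14 ?_
  have e4 : Q (yi 0) = 0 := h4
  have e5 : Q (yi 1) * Q (yi 2) = 0 := h56
  rw [← map_mul, e4, e5, map_zero]
  exact ⟨rfl, rfl⟩

theorem negBp : ¬ Equising (6 + 1) k (germ Q (Fpol k)) (Ideal.span {X 0, X 1, X 3}) := by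
  rw [atb_eq_prod Q h0 h1 h2 h3]
  refine not_equising_of _ _ (atb_not_simple _) fun φ Θ hΘ => ?_
  obtain ⟨χ, T, z, t, d, u, h14, h5, h6, h7, h8, h9⟩ := lev1 (fun i => Q (yi i)) hq φ Θ hΘ
  have : CharZero (GenField 6 k) := charZero_of_injective_ringHom (incl 6 k).injective
  refine ⟨_, h8, ?_⟩
  rw [h9 _ (atb_ff_mem _ _ (Ideal.subset_span (by simp)) (Ideal.subset_span (by simp))
    (Ideal.subset_span (by simp)))]
  have hm : Ideal.map χ (Ideal.span {X 0, X 1, X 3}) = Ideal.span {T, χ (X 3)} := by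
    rw [Ideal.map_span, ← h7, Set.image_insert_eq, Set.image_pair]
  rw [hm]
  exact atb_N1 h14

end

end ZX
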