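import Pool.Agent.ZX.Num
import Pool.Agent.H51.Zar.Table2

set_option linter.style.longLine false

/-! The closures of the strata are closed and irreducible. -/

namespace ZX

open MvPowerSeries H9.Zar

universe v

/-! ### the dictionary with the tables of `H51.Zar` -/

section

variable (k : Type v) [Field k]

/-- the numbers `a_i` in `k` -/
def av (i : Fin 8) : k := (aa i : k)

/-- the polynomials `b_i` -/
noncomputable def bvp (i : Fin 8) : MvPolynomial (Fin 7) k := bv (xx k 4) i

/-- the polynomials `c_i` -/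
noncomputable def cvp (i : Fin 8) : MvPolynomial (Fin 7) k := cv (xx k 5 * xx k 6) i

theorem FF_eq (i : Fin 8) : FF k i = H51.Zar.sheet (av k) (bvp k) (cvp k) i := by
  simp only [FF, H51.Zar.sheet, av, bvp, cvp]
  rw [show (MvPolynomial.C ((aa i : ℤ) : k) : MvPolynomial (Fin 7) k) = ((aa i : ℤ) : MvPolynomial (Fin 7) k)
    from map_intCast _ _]

theorem Fpol_eq : Fpol k = H51.Zar.arr (av k) (bvp k) (cvp k) :=
  Finset.prod_congr rfl fun i _ => FF_eq k i

private theorem dt_eq (x : Fin 8 → MvPolynomial (Fin 7) k) (i j l : Fin 8) :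
    H51.Zar.dt (av k) x i j l = oo x i j l := by
  simp only [H51.Zar.dt, oo, av]
  rw [map_sub, map_sub, map_sub, map_intCast, map_intCast, map_intCast]
  ring

private theorem eval_bv (Q : Fin (6 + 1) → k) (i : Fin 8) :
    MvPolynomial.eval Q (bv (xx k 4) i) = bv (Q 4) i := by
  unfold bv
  split_ifs with h
  · simp
  · simp

private theorem eval_cv (Q : Fin (6 + 1) → k) (i : Fin 8) :
    MvPolynomial.eval Q (cv (xx k 5 * xx k 6) i) = cv (Q 5 * Q 6) i := by
  unfold cv
  split_ifs with h
  · simp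
  · simp

private theorem eval_oo (Q : Fin (6 + 1) → k) (x : Fin 8 → MvPolynomial (Fin (6 + 1)) k) (i j l : Fin 8) :
    MvPolynomial.eval Q (oo x i j l) = oo (fun m => MvPolynomial.eval Q (x m)) i j l := by
  simp [oo]

private theorem eval_oo_b (Q : Fin (6 + 1) → k) (i j l : Fin 8) :
    MvPolynomial.eval Q (H51.Zar.dt (av k) (bvp k) i j l) = oo (bv (Q 4)) i j l := by
  rw [dt_eq]
  exact (eval_oo k Q _ i j l).trans (by simp only [bvp, eval_bv])

private theorem eval_oo_c (Q : Fin (6 + 1) → k) (i j l : Fin 8) :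
    MvPolynomial.eval Q (H51.Zar.dt (av k) (cvp k) i j l) = oo (cv (Q 5 * Q 6)) i j l := by
  rw [dt_eq]
  exact (eval_oo k Q _ i j l).trans (by simp only [cvp, eval_cv])

private theorem oo_swap1 {R : Type*} [CommRing R] (x : Fin 8 → R) (i j m : Fin 8) :
    oo x j i m = - oo x i j m := by
  simp only [oo]
  ring

private theorem oo_swap2 {R : Type*} [CommRing R] (x : Fin 8 → R) (i j m : Fin 8) :
    oo x i m j = - oo x i j m := by
  simp only [oo]
  ring

private theorem dd_tri' {R : Type*} [CommRing R] (z t : R) (x : Fin 8 → R) (i j m : Fin 8) :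
    dd z t x ((i, j), (i, m)) = (z - (aa i : R) * t) * oo x i j m := by
  simp only [dd, nn, oo]
  ring

/-- the determinants of three sheets do not vanish on the open set -/
private theorem oo_ne {q : Fin 3 → k} (hq : NumQ q) {i j m : Fin 8} (hij : i ≠ j) (hjm : j ≠ m)
    (him : i ≠ m) : oo (bv (q 0)) i j m ≠ 0 := by
  have key : ∀ i j m : Fin 8, i < j → j < m → oo (bv (q 0)) i j m ≠ 0 := by
    intro i j m hij hjm h0
    have hLL : ∀ x y : Fin 8, x < y → (x, y) ∈ LL := by
      intro x y hxy
      simp [LL, hxy]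
    have h1 := hq.ddb (i, j) (hLL i j hij) (i, m) (hLL i m (hij.trans hjm)) (by
      intro h2
      exact (ne_of_lt hjm) (Prod.ext_iff.1 h2).2)
    apply h1
    rw [dd_tri', h0, mul_zero]
  rcases lt_trichotomy i j with h1 | h1 | h1
  · rcases lt_trichotomy j m with h2 | h2 | h2
    · exact key i j m h1 h2
    · exact absurd h2 hjm
    · rcases lt_trichotomy i m with h3 | h3 | h3
      · intro h4
        apply key i m j h3 h2
        rw [oo_swap2, h4, neg_zero]
      · exact absurd h3 him
      · intro h4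
        apply key m i j h3 h1
        rw [oo_swap1, oo_swap2, h4, neg_zero, neg_zero]
  · exact absurd h1 hij
  · rcases lt_trichotomy i m with h2 | h2 | h2
    · intro h4
      apply key j i m h1 h2
      rw [oo_swap1, h4, neg_zero]
    · exact absurd h2 him
    · rcases lt_trichotomy j m with h3 | h3 | h3
      · intro h4
        apply key j m i h3 h2
        rw [oo_swap2, oo_swap1, h4, neg_zero, neg_zero]
      · exact absurd h3 hjm
      · intro h4
        apply key m j i h3 h1
        rw [oo_swap1, oo_swap2, oo_swap1, h4, neg_zero, neg_zero, neg_zero]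

private theorem minor_int : ∀ i j l m : Fin 8, i ≠ j → j ≠ l → i ≠ l → m ≠ i → m ≠ j → m ≠ l →
    oo (bv (0 : ℤ)) i j l * oo (cv (0 : ℤ)) i j m ≠ oo (bv (0 : ℤ)) i j m * oo (cv (0 : ℤ)) i j l := by
  decide +kernel

private theorem cast_oo_b [CharZero k] (i j l : Fin 8) :
    oo (bv (0 : k)) i j l = ((oo (bv (0 : ℤ)) i j l : ℤ) : k) := by
  simp [oo, bv]

private theorem cast_oo_c [CharZero k] (i j l : Fin 8) :
    oo (cv (0 : k)) i j l = ((oo (cv (0 : ℤ)) i j l : ℤ) : k) := by
  simp [oo, cv]

private theorem aa_inj : Function.Injective aa := by decide +kernel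

theorem good [CharZero k] : H51.Zar.Good (av k) (bvp k) (cvp k) (hpol k) := by
  refine ⟨by norm_num, ?_, ?_, ?_, ?_, ?_, ?_⟩
  · intro i j h
    exact aa_inj (Int.cast_injective h)
  · intro i
    unfold bvp bv
    refine add_mem ?_ ?_
    · exact (H51.Zar.sAlg k).intCast_mem _
    · split_ifs
      · exact Algebra.subset_adjoin (by simp)
      · exact zero_mem _
  · intro i
    unfold cvp cv
    refine add_mem ?_ ?_
    · exact (H51.Zar.sAlg k).intCast_mem _
    · split_ifs
      · exact mul_mem (Algebra.subset_adjoin (by simp)) (Algebra.subset_adjoin (by simp))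
      · exact zero_mem _
  · intro Q h4 h5 h6
    apply hpol_ne
    have h : (fun i => Q (yi i)) = fun _ => (0 : k) := by
      funext i
      fin_cases i
      · exact h4
      · exact h5
      · exact h6
    rw [h]
    exact numQ_zero k
  · intro Q hQ i j l hij hjl hil
    rw [eval_oo_b]
    exact oo_ne k (numQ_of_hpol Q hQ) hij hjl hil
  · intro i j l m hij hjl hil hmi hmj hml
    rw [eval_oo_b, eval_oo_c, eval_oo_b, eval_oo_c]
    have h := minor_int i j l m hij hjl hil hmi hmj hml
    simp only [Pi.zero_apply, mul_zero]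
    rw [cast_oo_b, cast_oo_c, cast_oo_b, cast_oo_c]
    exact_mod_cast h

theorem ZZ_pair (l : LT) : ZZ k (.inl l) =
    H51.Zar.zS (av k) (bvp k) (cvp k) (openSet (hpol k)) {l.1.1, l.1.2} := by
  ext Q
  rw [H51.Zar.mem_zS_pair, ← FF_eq, ← FF_eq]
  rfl

theorem ZZ_tri [CharZero k] (T : TT) : ZZ k (.inr (.inl T)) =
    H51.Zar.zS (av k) (bvp k) (cvp k) (openSet (hpol k)) {T.1.1, T.1.2.1, T.1.2.2} := by
  ext Q
  rw [H51.Zar.mem_zS_triple (good k).a_inj (ne_of_lt T.2.1), ← FF_eq, ← FF_eq, eval_oo_b, eval_oo_c]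
  rfl

theorem ZZ_lin (c : Fin 4) : ZZ k (.inr (.inr c)) =
    H51.Zar.zC (openSet (hpol k)) (H51.Zar.tC c) := by
  fin_cases c
  · ext Q
    simp [ZZ, H51.Zar.zC, H51.Zar.tC, openSet]
  · ext Q
    simp [ZZ, H51.Zar.zC, H51.Zar.tC, openSet]
    tauto
  · ext Q
    simp [ZZ, H51.Zar.zC, H51.Zar.tC, openSet]
    tauto
  · ext Q
    simp [ZZ, H51.Zar.zC, H51.Zar.tC, openSet]
    tauto

/-- the vanishing ideal of a coordinate subspace -/
theorem vanishing_zC [CharZero k] (A : Finset (Fin 7)) :
    MvPolynomial.vanishingIdeal k (H51.Zar.zC (openSet (hpol k)) A) =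
      Ideal.span ((fun i => (MvPolynomial.X i : MvPolynomial (Fin 7) k)) '' (A : Set (Fin 7))) := by
  have : Infinite k := Infinite.of_injective (fun n : ℕ => (n : k)) Nat.cast_injective
  set I : Ideal (MvPolynomial (Fin 7) k) :=
    Ideal.span ((fun i => (MvPolynomial.X i : MvPolynomial (Fin 7) k)) '' (A : Set (Fin 7))) with hI
  ext f
  rw [H51.Zar.vanishingIdeal_param (hpol k) (H51.Zar.phiC k A) (H51.Zar.phiC_ne (good k) A)
    (H51.Zar.mem_zC_iff A)]
  constructor
  · intro hf
    have h1 : Ideal.Quotient.mkₐ k I = (Ideal.Quotient.mkₐ k I).comp (H51.Zar.phiC k A) := by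
      apply MvPolynomial.algHom_ext
      intro i
      rw [AlgHom.comp_apply, H51.Zar.phiC_X]
      split_ifs with hi
      · rw [map_zero]
        exact Ideal.Quotient.eq_zero_iff_mem.2 (Ideal.subset_span ⟨i, hi, rfl⟩)
      · rfl
    have h2 := DFunLike.congr_fun h1 f
    rw [AlgHom.comp_apply, hf, map_zero] at h2
    exact Ideal.Quotient.eq_zero_iff_mem.1 h2
  · intro hf
    have h1 : I ≤ RingHom.ker (H51.Zar.phiC k A) := by
      rw [hI, Ideal.span_le]
      rintro x ⟨i, hi, rfl⟩
      show H51.Zar.phiC k A (MvPolynomial.X i) = 0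
      rw [H51.Zar.phiC_X, if_pos (by simpa using hi)]
    exact h1 hf

end

section ZX22

set_option linter.unusedSectionVars false

variable (k : Type v) [Field k] [IsAlgClosed k] [CharZero k]

private theorem inf : Infinite k := Infinite.of_injective (fun n : ℕ => (n : k)) Nat.cast_injective

theorem irr_pair (l : LT) : IrrClosedIn (openSet (hpol k)) (ZZ k (.inl l)) := by
  have := inf k
  rw [ZZ_pair]
  exact H51.Zar.irr_pair (good k) (ne_of_lt l.2)

theorem irr_tri (T : TT) : IrrClosedIn (openSet (hpol k)) (ZZ k (.inr (.inl T))) := by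
  have := inf k
  rw [ZZ_tri]
  exact H51.Zar.irr_triple (good k) (ne_of_lt T.2.1) (ne_of_lt T.2.2) (ne_of_lt (T.2.1.trans T.2.2))

theorem irr_lin (c : Fin 4) : IrrClosedIn (openSet (hpol k)) (ZZ k (.inr (.inr c))) := by
  have := inf k
  rw [ZZ_lin]
  exact H51.Zar.irr_zC (good k) _

/-- the ideal of `B+` and of `B` -/
theorem vanishing_bp : MvPolynomial.vanishingIdeal k (ZZ k (.inr (.inr 0))) =
    Ideal.span {xx k 0, xx k 1, xx k 3} := by
  rw [ZZ_lin, vanishing_zC]
  congr 1
  simp [H51.Zar.tC, Set.image_insert_eq]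

theorem vanishing_b : MvPolynomial.vanishingIdeal k (ZZ k (.inr (.inr 1))) =
    Ideal.span {xx k 0, xx k 1, xx k 2, xx k 3} := by
  rw [ZZ_lin, vanishing_zC]
  congr 1
  simp [H51.Zar.tC, Set.image_insert_eq]

end ZX22

end ZX
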