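import Pool.Agent.ZX.Defs
import Pool.Agent.H9.Zar.Star

set_option linter.style.longLine false

/-! ZX18: at a point of multiplicity larger than along the subvariety `V` is not equisingular. -/

namespace ZX

open MvPowerSeries H9.Zar

universe v

namespace NegM

section Der

variable {k R : Type*} [CommRing k] [CommRing R] [Algebra k R]

theorem der_pow (D : Derivation k R R) (J : Ideal R) (n : ℕ) :
    ∀ x ∈ J ^ (n + 1), D x ∈ J ^ n := by
  induction n with
  | zero => intro x _; simp
  | succ n ih =>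
    intro x hx
    rw [pow_succ] at hx
    refine Submodule.mul_induction_on hx ?_ ?_
    · intro a ha b hb
      rw [Derivation.leibniz, smul_eq_mul, smul_eq_mul]
      refine Ideal.add_mem _ (Ideal.mul_mem_right _ _ ha) ?_
      rw [mul_comm b, pow_succ]
      exact Ideal.mul_mem_mul (ih a ha) hb
    · intro a b ha hb
      rw [map_add]
      exact Ideal.add_mem _ ha hb

theorem iter_pow (D : Derivation k R R) (J : Ideal R) (n m : ℕ) :
    ∀ x ∈ J ^ (n + m), (D : R → R)^[n] x ∈ J ^ m := by
  induction n with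
  | zero => intro x hx; simpa using hx
  | succ n ih =>
    intro x hx
    rw [Function.iterate_succ_apply]
    refine ih _ (der_pow D J (n + m) x ?_)
    rwa [show n + m + 1 = n + 1 + m by ring]

theorem iter_add (D : Derivation k R R) (n : ℕ) (x y : R) :
    (D : R → R)^[n] (x + y) = (D : R → R)^[n] x + (D : R → R)^[n] y := by
  induction n generalizing x y with
  | zero => rfl
  | succ n ih => rw [Function.iterate_succ_apply, map_add, ih]; rfl

theorem iter_sum (D : Derivation k R R) (n : ℕ) {ι : Type*} (s : Finset ι) (f : ι → R) :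
    (D : R → R)^[n] (∑ i ∈ s, f i) = ∑ i ∈ s, (D : R → R)^[n] (f i) := by
  classical
  induction s using Finset.induction_on with
  | empty =>
    simp
  | insert a s ha ih => rw [Finset.sum_insert ha, Finset.sum_insert ha, iter_add, ih]

theorem der_prod (D : Derivation k R R) {ι : Type*} [DecidableEq ι] (f : ι → R) :
    ∀ A : Finset ι, (∀ i ∈ A, D (f i) = 1) →
    D (∏ i ∈ A, f i) = ∑ j ∈ A, ∏ i ∈ A.erase j, f i := by
  intro A
  induction A using Finset.induction_on with
  | empty => intro _; simp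
  | insert a s ha ih =>
    intro h
    rw [Finset.prod_insert ha, Derivation.leibniz, ih fun i hi => h i (Finset.mem_insert_of_mem hi),
      h a (Finset.mem_insert_self a s), smul_eq_mul, smul_eq_mul, mul_one, Finset.sum_insert ha,
      Finset.erase_insert ha, add_comm, Finset.mul_sum]
    congr 1
    refine Finset.sum_congr rfl fun j hj => ?_
    have hja : a ≠ j := fun h => ha (h ▸ hj)
    rw [Finset.erase_insert_of_ne hja, Finset.prod_insert fun h => ha (Finset.mem_of_mem_erase h)]

theorem key (D : Derivation k R R) (p : Ideal R) {ι : Type*} [DecidableEq ι] (f : ι → R) (n : ℕ) :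
    ∀ (A : Finset ι), A.card = n → (∀ i ∈ A, f i ∈ p) → (∀ i ∈ A, D (f i) = 1) → ∀ G : R,
    (D : R → R)^[n] ((∏ i ∈ A, f i) * G) - (n.factorial : R) * G ∈ p := by
  induction n with
  | zero =>
    intro A hA _ _ G
    rw [Finset.card_eq_zero] at hA
    subst hA
    simp
  | succ n ih =>
    intro A hA hf hD G
    have h1 : D ((∏ i ∈ A, f i) * G) =
        (∑ j ∈ A, (∏ i ∈ A.erase j, f i) * G) + (∏ i ∈ A, f i) * D G := by
      have h2 : D (∏ i ∈ A, f i) = ∑ j ∈ A, ∏ i ∈ A.erase j, f i := der_prod D f A hD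
      rw [Derivation.leibniz, h2, smul_eq_mul, smul_eq_mul, mul_comm G, Finset.sum_mul, add_comm]
    rw [Function.iterate_succ_apply, h1, iter_add, iter_sum]
    have h3 : (D : R → R)^[n] ((∏ i ∈ A, f i) * D G) ∈ p := by
      have h4 := iter_pow D p n 1 ((∏ i ∈ A, f i) * D G) (by
        refine Ideal.mul_mem_right _ _ ?_
        have h5 := Ideal.prod_mem_prod (ι := ι) (s := A) (I := fun _ => p) (x := f) hf
        rwa [Finset.prod_const, hA] at h5)
      simpa using h4
    have h5 : (∑ j ∈ A, (D : R → R)^[n] ((∏ i ∈ A.erase j, f i) * G)) -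
        (((n + 1).factorial : ℕ) : R) * G ∈ p := by
      have h6 : (((n + 1).factorial : ℕ) : R) * G = ∑ _j ∈ A, (n.factorial : R) * G := by
        rw [Finset.sum_const, hA, nsmul_eq_mul, Nat.factorial_succ]
        push_cast
        ring
      rw [h6, ← Finset.sum_sub_distrib]
      refine Ideal.sum_mem _ fun j hj => ?_
      refine ih (A.erase j) ?_ ?_ ?_ G
      · rw [Finset.card_erase_of_mem hj, hA]; rfl
      · intro i hi; exact hf i (Finset.mem_of_mem_erase hi)
      · intro i hi; exact hD i (Finset.mem_of_mem_erase hi)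
    have h7 : (∑ j ∈ A, (D : R → R)^[n] ((∏ i ∈ A.erase j, f i) * G)) +
        (D : R → R)^[n] ((∏ i ∈ A, f i) * D G) - (((n + 1).factorial : ℕ) : R) * G =
        ((∑ j ∈ A, (D : R → R)^[n] ((∏ i ∈ A.erase j, f i) * G)) -
        (((n + 1).factorial : ℕ) : R) * G) + (D : R → R)^[n] ((∏ i ∈ A, f i) * D G) := by ring
    rw [h7]
    exact Ideal.add_mem _ h5 h3

end Der

theorem foldr_replicate {ι R : Type*} (D : ι → R → R) (i : ι) (n : ℕ) (x : R) :
    (List.replicate n i).foldr (fun i H => D i H) x = (D i)^[n] x := by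
  induction n with
  | zero => rfl
  | succ n ih => rw [List.replicate_succ, List.foldr_cons, ih, Function.iterate_succ_apply']

theorem word_mem {k : Type v} [Field k] {r : ℕ} (J : Ideal (MvPolynomial (Fin (r + 1)) k)) (m : ℕ) :
    ∀ (w : List (Fin (r + 1))) (G : MvPolynomial (Fin (r + 1)) k), G ∈ J ^ (w.length + m) →
    w.foldr (fun i H => MvPolynomial.pderiv i H) G ∈ J ^ m := by
  intro w
  induction w generalizing m with
  | nil => intro G hG; simpa using hG
  | cons a w ih =>
    intro G hG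
    rw [List.foldr_cons]
    refine der_pow (MvPolynomial.pderiv a) J m _ (ih (m + 1) G ?_)
    rw [List.length_cons] at hG
    rwa [show w.length + (m + 1) = w.length + 1 + m by ring]

theorem pderiv_FF (k : Type v) [Field k] (i : Fin 8) :
    MvPolynomial.pderiv 0 (FF k i) = 1 := by
  have hc : ∀ z : ℤ, MvPolynomial.pderiv (0 : Fin (6 + 1)) (z : MvPolynomial (Fin (6 + 1)) k) = 0 :=
    fun z => by
      rw [← map_intCast (MvPolynomial.C : k →+* MvPolynomial (Fin (6 + 1)) k) z]
      exact MvPolynomial.pderiv_C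
  have h : ∀ j : Fin (6 + 1), j ≠ 0 →
      MvPolynomial.pderiv (0 : Fin (6 + 1)) (MvPolynomial.X j : MvPolynomial (Fin (6 + 1)) k) = 0 :=
    fun j hj => MvPolynomial.pderiv_X_of_ne hj
  have h1 := h 1 (by decide)
  have h2 := h 2 (by decide)
  have h3 := h 3 (by decide)
  have h4 := h 4 (by decide)
  have h5 := h 5 (by decide)
  have h6 := h 6 (by decide)
  unfold FF bv cv
  split_ifs <;>
  simp only [map_sub, Derivation.leibniz, map_add, MvPolynomial.pderiv_X_self, h1, h2, h3, h4, h5,
    h6, hc, smul_zero, add_zero, sub_zero]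

end NegM

open NegM in
theorem negM {k : Type v} [Field k] [CharZero k] (Q : Fin (6 + 1) → k)
    (p : Ideal (MvPolynomial (Fin (6 + 1)) k)) (hp : p.IsPrime)
    (hQ : Q ∈ MvPolynomial.zeroLocus k p) (A : Finset (Fin 8)) (hA : ∀ i, FF k i ∈ p ↔ i ∈ A)
    (h2 : 2 ≤ A.card) (l : Fin 8) (hl : l ∉ A) (hB : MvPolynomial.eval Q (FF k l) = 0) :
    ¬ EquisingAt (Fpol k) Q p := by
  intro hE
  have hQ' : ∀ x ∈ p, MvPolynomial.eval Q x = 0 := fun x hx => by
    have := hQ x hx
    simpa using this
  obtain ⟨i0, hi0⟩ : A.Nonempty := Finset.card_pos.mp (by omega)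
  have hFp : Fpol k ∈ p := by
    have h := (hA i0).mpr hi0
    have h1 : FF k i0 ∣ Fpol k := Finset.dvd_prod_of_mem _ (Finset.mem_univ i0)
    exact p.mem_of_dvd h1 h
  -- the maximal ideal of `Q`
  set J : Ideal (MvPolynomial (Fin (6 + 1)) k) := RingHom.ker (MvPolynomial.eval Q) with hJ
  have hJp : J.IsPrime := RingHom.ker_isPrime _
  have hFJ : Fpol k ∈ J ^ (A.card + 1) := by
    have h1 : Fpol k = (∏ i ∈ insert l A, FF k i) * ∏ i ∈ (insert l A)ᶜ, FF k i := by
      rw [Finset.prod_mul_prod_compl]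
      rfl
    rw [h1]
    refine Ideal.mul_mem_right _ _ ?_
    have h3 := Ideal.prod_mem_prod (ι := Fin 8) (s := insert l A) (I := fun _ => J)
      (x := fun i => FF k i) (by
        intro i hi
        rcases Finset.mem_insert.mp hi with rfl | hi
        · exact hB
        · exact hQ' _ ((hA i).mpr hi))
    rwa [Finset.prod_const, Finset.card_insert_of_notMem hl] at h3
  have hmJ : multIdeal (Fpol k) (A.card + 1) ≤ J := by
    rw [multIdeal, Ideal.span_le]
    rintro _ ⟨w, hw, rfl⟩
    have h3 := word_mem J 1 w (Fpol k) (Ideal.pow_le_pow_right (by omega) hFJ)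
    simpa using h3
  obtain ⟨q, hq, hqJ⟩ := Ideal.exists_minimalPrimes_le hmJ
  have hQq : Q ∈ MvPolynomial.zeroLocus k q := by
    intro x hx
    have := hqJ hx
    simpa [hJ] using this
  have hqp : q ≤ p := transfer (Fpol k) Q HM_iff_words p hFp hQ
    (fun a ha hpa hfa q' hq' m' hm' =>
      star (6 + 1) k (germ Q (Fpol k)) (p.map (germ Q)) hE.equising a ha hpa hfa q' hq' m' hm')
    (A.card + 1) q hq hQq
  have hD : (MvPolynomial.pderiv (0 : Fin (6 + 1)) :
      MvPolynomial (Fin (6 + 1)) k → MvPolynomial (Fin (6 + 1)) k)^[A.card] (Fpol k) ∈ p := by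
    refine hqp (hq.1.2 (Ideal.subset_span ⟨List.replicate A.card 0, ?_, ?_⟩))
    · rw [List.length_replicate]; omega
    · rw [foldr_replicate
        (fun (i : Fin (6 + 1)) (H : MvPolynomial (Fin (6 + 1)) k) => MvPolynomial.pderiv i H)]
  have hk := key (MvPolynomial.pderiv (R := k) (0 : Fin (6 + 1))) p (fun i => FF k i) A.card A rfl
    (fun i hi => (hA i).mpr hi) (fun i _ => pderiv_FF k i) (∏ i ∈ Aᶜ, FF k i)
  have hF : (∏ i ∈ A, FF k i) * (∏ i ∈ Aᶜ, FF k i) = Fpol k := by
    rw [Finset.prod_mul_prod_compl]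
    rfl
  rw [hF] at hk
  have h8 : ((A.card.factorial : ℕ) : MvPolynomial (Fin (6 + 1)) k) * (∏ i ∈ Aᶜ, FF k i) ∈ p := by
    have h9 := p.sub_mem hD hk
    rwa [sub_sub_cancel] at h9
  rcases hp.mem_or_mem h8 with h | h
  · have hu : IsUnit ((A.card.factorial : ℕ) : MvPolynomial (Fin (6 + 1)) k) := by
      have h1 : (MvPolynomial.C ((A.card.factorial : ℕ) : k) : MvPolynomial (Fin (6 + 1)) k) =
        ((A.card.factorial : ℕ) : MvPolynomial (Fin (6 + 1)) k) := map_natCast _ _
      rw [← h1]
      exact (isUnit_iff_ne_zero.mpr (Nat.cast_ne_zero.mpr (Nat.factorial_ne_zero _))).map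
        MvPolynomial.C
    exact hp.ne_top (Ideal.eq_top_of_isUnit_mem _ h hu)
  · obtain ⟨i, hi, hip⟩ := (hp.prod_mem_iff).mp h
    exact (Finset.mem_compl.mp hi) ((hA i).mp hip)

end ZX
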