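import Pool.Agent.ZX.Defs
import Pool.Agent.ZX.Simple
import Pool.Agent.ZX.StepLem
import Pool.Agent.ZX.Gen
import Pool.Agent.ZX.Sheet
import Pool.Agent.ZX.CoreD

set_option linter.style.longLine false

/-! Three or more smooth sheets through a germ of codimension three. -/

namespace ZX

open MvPowerSeries H9.Zar

universe v

namespace P3

section Basic

variable {n : ℕ} {k : Type v} [Field k]

theorem ne_top_of_le_max {I : Ideal (MvPowerSeries (Fin n) k)} (hI : I ≠ ⊤) :
    I ≤ IsLocalRing.maximalIdeal (MvPowerSeries (Fin n) k) := IsLocalRing.le_maximalIdeal hI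

theorem const_ext (f : MvPowerSeries (Fin (n + 1)) k) :
    constantCoeff (ext n k f) = incl n k (constantCoeff f) := constantCoeff_map _ _

theorem map_ext_ne_top {I : Ideal (MvPowerSeries (Fin (n + 1)) k)} (hI : I ≠ ⊤) :
    I.map (ext n k) ≠ ⊤ := by
  intro h
  have h1 : I.map (ext n k) ≤ IsLocalRing.maximalIdeal (MvPowerSeries (Fin (n + 1)) (GenField n k)) := by
    rw [← ext_map_max]
    exact Ideal.map_mono (IsLocalRing.le_maximalIdeal hI)
  rw [h, top_le_iff] at h1
  exact (Ideal.IsMaximal.ne_top (IsLocalRing.maximalIdeal.isMaximal _)) h1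

theorem projIdeal_ne_top {K : Type v} [Field K] (Θ : ProjIso n K)
    {J : Ideal (MvPowerSeries (Fin (n + 1)) K)} (hJ : J ≠ ⊤) : projIdeal Θ J ≠ ⊤ :=
  Ideal.comap_ne_top _ hJ

/-- two elements and a family generating the maximal ideal -/
theorem simple_of_gens {a b : MvPowerSeries (Fin (n + 2)) k}
    {η : Fin n → MvPowerSeries (Fin (n + 2)) k}
    (h : Ideal.span {a, b} ⊔ Ideal.span (Set.range η) =
      IsLocalRing.maximalIdeal (MvPowerSeries (Fin (n + 2)) k)) : IsSimple a := by
  have h1 : Ideal.span (Set.range (Fin.cons a (Fin.cons b η) : Fin (n + 2) → _)) =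
      IsLocalRing.maximalIdeal (MvPowerSeries (Fin (n + 2)) k) := by
    rw [Fin.range_cons, Fin.range_cons, ← h, ← Ideal.span_union]
    congr 1
    ext z
    simp only [Set.mem_insert_iff, Set.mem_union, Set.mem_singleton_iff, or_assoc]
  exact regular_isSimple _ h1 0

theorem simple_of_gens1 {a : MvPowerSeries (Fin (n + 1)) k}
    {η : Fin n → MvPowerSeries (Fin (n + 1)) k}
    (h : Ideal.span {a} ⊔ Ideal.span (Set.range η) =
      IsLocalRing.maximalIdeal (MvPowerSeries (Fin (n + 1)) k)) : IsSimple a := by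
  have h1 : Ideal.span (Set.range (Fin.cons a η : Fin (n + 1) → _)) =
      IsLocalRing.maximalIdeal (MvPowerSeries (Fin (n + 1)) k) := by
    rw [Fin.range_cons, ← h, ← Ideal.span_union]
    congr 1
  exact regular_isSimple _ h1 0

/-- two such elements are not associated -/
theorem not_assoc_of_gens {a b : MvPowerSeries (Fin (n + 2)) k}
    {η : Fin n → MvPowerSeries (Fin (n + 2)) k}
    (h : Ideal.span {a, b} ⊔ Ideal.span (Set.range η) =
      IsLocalRing.maximalIdeal (MvPowerSeries (Fin (n + 2)) k)) : ¬ Associated a b := by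
  rintro ⟨u, hu⟩
  have h1 : Ideal.span (Set.range (Fin.cons a (Fin.cons b η) : Fin (n + 2) → _)) =
      IsLocalRing.maximalIdeal (MvPowerSeries (Fin (n + 2)) k) := by
    rw [Fin.range_cons, Fin.range_cons, ← h, ← Ideal.span_union]
    congr 1
    ext z
    simp only [Set.mem_insert_iff, Set.mem_union, Set.mem_singleton_iff, or_assoc]
  have h2 := regular_indep _ h1 (Fin.cons (u : MvPowerSeries (Fin (n + 2)) k)
    (Fin.cons (-1) (fun _ => 0))) (by
      rw [Fin.sum_univ_succ, Fin.sum_univ_succ]
      simp only [Fin.cons_zero, Fin.cons_succ, zero_mul, Finset.sum_const_zero, add_zero]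
      have : (u : MvPowerSeries (Fin (n + 2)) k) * a + -1 * b = 0 := by rw [← hu]; ring
      rw [this]
      exact Ideal.zero_mem _) 0
  rw [Fin.cons_zero] at h2
  exact (IsLocalRing.mem_maximalIdeal _).1 h2 u.isUnit

end Basic

section Level2

variable {n : ℕ} {k : Type v} [Field k]

/-- sheets which pairwise generate the same regular ideal of height two -/
theorem pencil {κ : Type*} [Fintype κ] {c0 c1 : κ} (h01 : c0 ≠ c1)
    (d : κ → MvPowerSeries (Fin (n + 2)) k) (η : Fin n → MvPowerSeries (Fin (n + 2)) k)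
    (X : Ideal (MvPowerSeries (Fin (n + 2)) k))
    (hX : ∀ c c', c ≠ c' → Ideal.span {d c, d c'} = X)
    (hm : X ⊔ Ideal.span (Set.range η) =
      IsLocalRing.maximalIdeal (MvPowerSeries (Fin (n + 2)) k))
    (f : MvPowerSeries (Fin (n + 2)) k) (hf : Associated f (∏ c, d c))
    (J : Ideal (MvPowerSeries (Fin (n + 2)) k)) (hJ : J ≠ ⊤) (hXJ : X ≤ J) : EqAll f J := by
  classical
  have hdX : ∀ c, d c ∈ X := by
    intro c
    by_cases h : c = c0
    · rw [h, ← hX c0 c1 h01]
      exact Ideal.subset_span (Set.mem_insert _ _)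
    · rw [← hX c c0 h]
      exact Ideal.subset_span (Set.mem_insert _ _)
  have hsim : ∀ c, IsSimple (d c) := by
    intro c
    by_cases h : c = c0
    · exact simple_of_gens (b := d c1) (η := η) (by rw [h, hX c0 c1 h01, hm])
    · exact simple_of_gens (b := d c0) (η := η) (by rw [hX c c0 h, hm])
  refine eqAll_of (n := n + 1) f J ?_ ?_
  · refine sing_le f (d c0) (d c1) J (hXJ (hdX c0)) (hXJ (hdX c1)) ?_
    refine Dvd.dvd.trans ?_ hf.symm.dvd
    rw [← Finset.prod_pair h01]
    exact Finset.prod_dvd_prod_of_subset _ _ _ (Finset.subset_univ _)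
  · intro φ Θ hΘ
    have hS : ∀ c, Nonempty (Sheet Θ (ext (n + 1) k (d c))) := fun c =>
      exists_sheet Θ _ (by
        have h1 := (mem_max_iff (d c)).1 (by rw [← hm]; exact Ideal.mem_sup_left (hdX c))
        rw [const_ext, h1, map_zero])
        (gen_ne φ Θ hΘ _ (hsim c))
    have S : ∀ c, Sheet Θ (ext (n + 1) k (d c)) := fun c => (hS c).some
    have hspan : ∀ c c', c ≠ c' → (X.map (ext (n + 1) k)).map (S c).π =
        Ideal.span {(S c).π (ext (n + 1) k (d c'))} := by
      intro c c' h
      rw [← hX c c' h, Ideal.map_span, Ideal.map_span, Set.image_pair, Set.image_pair,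
        (S c).pi_self]
      exact Submodule.span_insert_zero
    have hsame : ∀ c c' c'', c ≠ c' → c ≠ c'' →
        Associated ((S c).π (ext (n + 1) k (d c'))) ((S c).π (ext (n + 1) k (d c''))) := by
      intro c c' c'' h h'
      have : IsDomain (MvPowerSeries (Fin (n + 1)) (GenField (n + 1) k)) :=
        NoZeroDivisors.to_isDomain _
      rw [← Ideal.span_singleton_eq_span_singleton, ← hspan c c' h, hspan c c'' h']
    set q := (S c0).π (ext (n + 1) k (d c1)) with hq
    have hall : ∀ c c', c ≠ c' → Associated ((S c).π (ext (n + 1) k (d c'))) q := by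
      intro c c' h
      by_cases h0 : c = c0
      · subst h0
        exact hsame c c' c1 h h01
      · exact (hsame c c' c0 h h0).trans (((S c).assoc' (S c0)).trans
          (hsame c0 c c1 (Ne.symm h0) h01))
    have hqs : IsSimple q := by
      refine simple_of_gens1 (η := fun t => (S c0).π (ext (n + 1) k (η t))) ?_
      rw [← (S c0).map_max, ← ext_map_max, ← hm, Ideal.map_sup, Ideal.map_sup, hspan c0 c1 h01,
        Ideal.map_span, Ideal.map_span, ← Set.range_comp, ← Set.range_comp]
      rfl
    have hD := core_discr (n := n + 1) f d hf Θ S (fun _ : Unit => q)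
      (fun _ => isSimple_prime _ hqs) (fun c c' h => absurd (Subsingleton.elim c c') h)
      (fun i j hij => ⟨fun _ => 1, by simpa using hall i j hij⟩)
      (fun _ => ⟨c0, c1, h01, dvd_rfl⟩)
    refine ⟨_, hD, equising_of_isSimple _ ?_ _ (projIdeal_ne_top _ (map_ext_ne_top hJ))⟩
    simpa using hqs

end Level2


section Algebra

/-- the determinant -/
theorem det_rows {R : Type*} [CommRing R] (m0 a b c d v : Fin 3 → R) :
    Matrix.det (Matrix.of ![m0, fun t => (∑ s, b s * v s) * a t - (∑ s, a s * v s) * b t,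
      fun t => (∑ s, d s * v s) * c t - (∑ s, c s * v s) * d t]) =
    (∑ s, m0 s * v s) * ∑ t, crossProduct (crossProduct a b) (crossProduct c d) t * v t := by
  rw [Matrix.det_fin_three]
  simp only [Fin.sum_univ_three, cross_apply, Matrix.of_apply, Matrix.cons_val_zero,
    Matrix.cons_val_one, Matrix.cons_val]
  ring

/-- an invertible linear combination -/
theorem mem_span_of_det {R : Type*} [CommRing R] {M : Matrix (Fin 3) (Fin 3) R}
    (hM : IsUnit M.det) (ξ : Fin 3 → R) (a : Fin 3) :
    ξ a ∈ Ideal.span (Set.range (M.mulVec ξ)) := by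
  have h1 : ξ = M⁻¹.mulVec (M.mulVec ξ) := by
    rw [Matrix.mulVec_mulVec, Matrix.nonsing_inv_mul _ hM, Matrix.one_mulVec]
  rw [h1]
  simp only [Matrix.mulVec, dotProduct]
  refine Ideal.sum_mem _ fun i _ => Ideal.mul_mem_left _ _ (Ideal.subset_span ?_)
  exact ⟨i, by rw [← h1]; rfl⟩

theorem prod_single {R κ : Type*} [CommRing R] [Fintype κ] [DecidableEq κ] (q : κ → R) (c0 : κ) :
    ∏ c, q c ^ (if c = c0 then 1 else 0) = q c0 := by
  rw [Finset.prod_eq_single c0]
  · rw [if_pos rfl, pow_one]
  · intro c _ h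
    rw [if_neg h, pow_zero]
  · intro h
    exact absurd (Finset.mem_univ c0) h

end Algebra


section Comb

variable {n : ℕ} {k : Type v} [Field k]

/-- a combination with a unit coefficient is simple -/
theorem simple_comb (x : Fin 3 → MvPowerSeries (Fin (n + 3)) k)
    (y : Fin n → MvPowerSeries (Fin (n + 3)) k)
    (hs : Ideal.span (Set.range x ∪ Set.range y) =
      IsLocalRing.maximalIdeal (MvPowerSeries (Fin (n + 3)) k))
    (c : Fin 3 → MvPowerSeries (Fin (n + 3)) k) (a : Fin 3) (ha : constantCoeff (c a) ≠ 0) :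
    IsSimple (∑ a, c a * x a) := by
  rw [isSimple_iff]
  refine ⟨Ideal.sum_mem _ fun b _ => Ideal.mul_mem_left _ _ ?_, fun h => ?_⟩
  · rw [← hs]
    exact Ideal.subset_span (Or.inl ⟨b, rfl⟩)
  · have h1 : Ideal.span (Set.range (Fin.cons (x 0) (Fin.cons (x 1) (Fin.cons (x 2) y)) :
        Fin (n + 3) → MvPowerSeries (Fin (n + 3)) k)) =
        IsLocalRing.maximalIdeal (MvPowerSeries (Fin (n + 3)) k) := by
      rw [← hs]
      congr 1
      rw [Fin.range_cons, Fin.range_cons, Fin.range_cons]
      ext z
      simp only [Set.mem_insert_iff, Set.mem_union, Set.mem_range, Fin.exists_fin_succ,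
        Fin.exists_fin_zero, or_false, Fin.succ_zero_eq_one, Fin.succ_one_eq_two]
      constructor
      · rintro (h | h | h | h)
        · exact Or.inl (Or.inl h.symm)
        · exact Or.inl (Or.inr (Or.inl h.symm))
        · exact Or.inl (Or.inr (Or.inr h.symm))
        · exact Or.inr h
      · rintro ((h | h | h) | h)
        · exact Or.inl h.symm
        · exact Or.inr (Or.inl h.symm)
        · exact Or.inr (Or.inr (Or.inl h.symm))
        · exact Or.inr (Or.inr (Or.inr h))
    have h2 := regular_indep _ h1 (Fin.cons (c 0) (Fin.cons (c 1) (Fin.cons (c 2) fun _ => 0))) (by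
      rw [Fin.sum_univ_succ, Fin.sum_univ_succ, Fin.sum_univ_succ]
      simp only [Fin.cons_zero, Fin.cons_succ, zero_mul, Finset.sum_const_zero, add_zero]
      rw [Fin.sum_univ_three] at h
      rw [← add_assoc]
      exact h)
    have h3 : c a ∈ IsLocalRing.maximalIdeal (MvPowerSeries (Fin (n + 3)) k) := by
      fin_cases a
      · exact h2 0
      · exact h2 1
      · exact h2 2
    exact ha ((mem_max_iff _).1 h3)

end Comb

end P3

/-- `m ≥ 3` smooth sheets through the codimension three germ `x = 0`: the hypersurface is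
equisingular along it, for all coordinates in the first step. -/
theorem pencil3 {n m : ℕ} {k : Type v} [Field k] [CharZero k]
    (x : Fin 3 → MvPowerSeries (Fin (n + 3)) k) (y : Fin n → MvPowerSeries (Fin (n + 3)) k)
    (hs : Ideal.span (Set.range x ∪ Set.range y) =
      IsLocalRing.maximalIdeal (MvPowerSeries (Fin (n + 3)) k))
    (A : Fin m → Fin 3 → MvPowerSeries (Fin (n + 3)) k) (hm : 3 ≤ m)
    (hA : ∀ i j k' l : Fin m, i < j → k' < l → (i, j) ≠ (k', l) →
      crossProduct (crossProduct (fun a => constantCoeff (A i a)) (fun a => constantCoeff (A j a)))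
        (crossProduct (fun a => constantCoeff (A k' a)) (fun a => constantCoeff (A l a))) ≠ 0)
    (f : MvPowerSeries (Fin (n + 3)) k)
    (hf : Associated f (∏ i, ∑ a, A i a * x a))
    (I : Ideal (MvPowerSeries (Fin (n + 3)) k)) (hI : I ≠ ⊤) (hx : ∀ a, x a ∈ I) :
    EqAll f I := by
  classical
  have hxm : ∀ a, constantCoeff (x a) = 0 := fun a =>
    (mem_max_iff _).1 (by rw [← hs]; exact Ideal.subset_span (Or.inl ⟨a, rfl⟩))
  set p : Fin m → MvPowerSeries (Fin (n + 3)) k := fun i => ∑ a, A i a * x a with hp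
  have hpI : ∀ i, p i ∈ I := fun i => Ideal.sum_mem _ fun a _ => Ideal.mul_mem_left _ _ (hx a)
  have hpc : ∀ i, constantCoeff (p i) = 0 := by
    intro i
    rw [hp, map_sum]
    exact Finset.sum_eq_zero fun a _ => by rw [map_mul, hxm, mul_zero]
  obtain ⟨i0, i1, i2, h01, h12⟩ : ∃ i0 i1 i2 : Fin m, i0 < i1 ∧ i1 < i2 :=
    ⟨⟨0, by omega⟩, ⟨1, by omega⟩, ⟨2, by omega⟩, by simp [Fin.lt_def], by simp [Fin.lt_def]⟩
  have h02 : i0 < i2 := h01.trans h12
  -- the rows are nonzero
  have hrow : ∀ i, ∃ a, constantCoeff (A i a) ≠ 0 := by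
    intro i
    by_contra hcon
    push Not at hcon
    have hz : (fun a => constantCoeff (A i a)) = 0 := funext hcon
    obtain ⟨j, hj⟩ : ∃ j : Fin m, j ≠ i := by
      by_cases h : i = i0
      · exact ⟨i1, by rw [h]; exact ne_of_gt h01⟩
      · exact ⟨i0, fun h' => h h'.symm⟩
    rcases lt_or_gt_of_ne hj with hlt | hlt
    · obtain ⟨k', l, hkl, hne⟩ : ∃ k' l : Fin m, k' < l ∧ (j, i) ≠ (k', l) := by
        by_cases h : (j, i) = (i0, i1)
        · exact ⟨i0, i2, h02, by rw [h]; intro h'; exact (ne_of_lt h12) (Prod.ext_iff.1 h').2⟩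
        · exact ⟨i0, i1, h01, h⟩
      refine hA j i k' l hlt hkl hne ?_
      rw [hz, map_zero, map_zero, LinearMap.zero_apply]
    · obtain ⟨k', l, hkl, hne⟩ : ∃ k' l : Fin m, k' < l ∧ (i, j) ≠ (k', l) := by
        by_cases h : (i, j) = (i0, i1)
        · exact ⟨i0, i2, h02, by rw [h]; intro h'; exact (ne_of_lt h12) (Prod.ext_iff.1 h').2⟩
        · exact ⟨i0, i1, h01, h⟩
      refine hA i j k' l hlt hkl hne ?_
      rw [hz, map_zero, LinearMap.zero_apply, map_zero, LinearMap.zero_apply]
  have hsim : ∀ i, IsSimple (p i) := by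
    intro i
    obtain ⟨a, ha⟩ := hrow i
    exact P3.simple_comb x y hs (A i) a ha
  refine eqAll_of (n := n + 2) f I ?_ ?_
  · refine sing_le f (p i0) (p i1) I (hpI i0) (hpI i1) ?_
    refine Dvd.dvd.trans ?_ hf.symm.dvd
    rw [← Finset.prod_pair (ne_of_lt h01)]
    exact Finset.prod_dvd_prod_of_subset _ _ _ (Finset.subset_univ _)
  intro φ Θ hΘ
  have hS : ∀ i, Nonempty (Sheet Θ (ext (n + 2) k (p i))) := fun i =>
    exists_sheet Θ _ (by rw [P3.const_ext, hpc, map_zero]) (gen_ne φ Θ hΘ _ (hsim i))
  have S : ∀ i, Sheet Θ (ext (n + 2) k (p i)) := fun i => (hS i).some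
  set e := ext (n + 2) k with he
  set P := (S i0).π with hP
  set ξ : Fin 3 → MvPowerSeries (Fin (n + 2)) (GenField (n + 2) k) := fun a => P (e (x a)) with hξ
  set α : Fin m → Fin 3 → MvPowerSeries (Fin (n + 2)) (GenField (n + 2) k) :=
    fun i a => P (e (A i a)) with hα
  set u : Fin m → MvPowerSeries (Fin (n + 2)) (GenField (n + 2) k) := fun i => P (S i).U with hu
  set v : Fin 3 → GenField (n + 2) k := fun a => constantCoeff (dTh Θ (e (x a))) with hv
  have huu : ∀ i, IsUnit (u i) := fun i => (S i).hU.map P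
  have hPe : ∀ i, P (e (p i)) = ∑ a, α i a * ξ a := by
    intro i
    rw [hp]
    simp only [map_sum, map_mul]
    rfl
  have hdiff : ∀ i j, u j * P (e (p i)) - u i * P (e (p j)) = u i * u j * ((S j).g - (S i).g) := by
    intro i j
    have h1 := congrArg P ((S i).diff (S j))
    rw [map_sub, map_mul, map_mul, map_mul, map_mul, hP, (S i0).πC] at h1
    exact h1
  set d : Fin m → Fin m → MvPowerSeries (Fin (n + 2)) (GenField (n + 2) k) :=
    fun i j => ∑ a, (u j * α i a - u i * α j a) * ξ a with hd
  have hdg : ∀ i j, d i j = u i * u j * ((S j).g - (S i).g) := by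
    intro i j
    rw [← hdiff, hPe, hPe, Finset.mul_sum, Finset.mul_sum, ← Finset.sum_sub_distrib]
    exact Finset.sum_congr rfl fun a _ => by ring
  -- the constant terms
  have hcα : ∀ i a, constantCoeff (α i a) = incl (n + 2) k (constantCoeff (A i a)) := by
    intro i a
    rw [hα]
    simp only [hP]
    rw [(S i0).const, he, P3.const_ext]
  have hlin : ∀ c : Fin 3 → MvPowerSeries (Fin (n + 3)) k,
      constantCoeff (dTh Θ (e (∑ a, c a * x a))) =
        ∑ a, incl (n + 2) k (constantCoeff (c a)) * v a := by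
    intro c
    rw [map_sum, map_sum, map_sum]
    refine Finset.sum_congr rfl fun a _ => ?_
    rw [map_mul, Derivation.leibniz, map_add, smul_eq_mul, smul_eq_mul, map_mul, map_mul, he,
      P3.const_ext, P3.const_ext, hxm, map_zero, zero_mul, add_zero]
  have hcu : ∀ i, constantCoeff (u i) = ∑ a, incl (n + 2) k (constantCoeff (A i a)) * v a := by
    intro i
    rw [← hlin (A i)]
    rw [hu]
    simp only [hP]
    rw [(S i0).const]
    obtain ⟨w, hw⟩ := (S i).dU
    have h1 := congrArg constantCoeff hw
    have hce : constantCoeff (e (p i)) = 0 := by rw [he, P3.const_ext, hpc, map_zero]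
    rw [map_sub, map_mul, hce, zero_mul, sub_eq_zero] at h1
    exact h1.symm
  -- the key
  have hkey : ∀ i j k' l : Fin m, i < j → k' < l → (i, j) ≠ (k', l) →
      Ideal.span {d i j, d k' l} = Ideal.span (Set.range ξ) := by
    intro i j k' l hij hkl hne
    apply le_antisymm
    · rw [Ideal.span_le]
      have hmem : ∀ i j, d i j ∈ Ideal.span (Set.range ξ) := fun i j =>
        Ideal.sum_mem _ fun a _ => Ideal.mul_mem_left _ _ (Ideal.subset_span ⟨a, rfl⟩)
      rintro z (rfl | rfl)
      · exact hmem i j
      · exact hmem k' l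
    · rw [Ideal.span_le]
      rintro z ⟨a, rfl⟩
      set M : Matrix (Fin 3) (Fin 3) (MvPowerSeries (Fin (n + 2)) (GenField (n + 2) k)) :=
        Matrix.of ![α i0, fun a => u j * α i a - u i * α j a, fun a => u l * α k' a - u k' * α l a]
        with hM
      have hMd : IsUnit M.det := by
        rw [MvPowerSeries.isUnit_iff_constantCoeff, isUnit_iff_ne_zero, RingHom.map_det]
        have h1 : constantCoeff.mapMatrix M = Matrix.of ![
            (fun a => incl (n + 2) k (constantCoeff (A i0 a))),
            fun t => (∑ s, incl (n + 2) k (constantCoeff (A j s)) * v s) *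
                incl (n + 2) k (constantCoeff (A i t)) -
              (∑ s, incl (n + 2) k (constantCoeff (A i s)) * v s) *
                incl (n + 2) k (constantCoeff (A j t)),
            fun t => (∑ s, incl (n + 2) k (constantCoeff (A l s)) * v s) *
                incl (n + 2) k (constantCoeff (A k' t)) -
              (∑ s, incl (n + 2) k (constantCoeff (A k' s)) * v s) *
                incl (n + 2) k (constantCoeff (A l t))] := by
          ext r t
          rw [RingHom.mapMatrix_apply, Matrix.map_apply, hM]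
          fin_cases r
          · simp [hcα]
          · simp [hcα, hcu]
          · simp [hcα, hcu]
        rw [h1, P3.det_rows]
        refine mul_ne_zero ?_ ?_
        · rw [← hcu]
          exact isUnit_iff_ne_zero.1 (MvPowerSeries.isUnit_iff_constantCoeff.1 (huu i0))
        · set w := crossProduct (crossProduct (fun a => constantCoeff (A i a))
            (fun a => constantCoeff (A j a))) (crossProduct (fun a => constantCoeff (A k' a))
              (fun a => constantCoeff (A l a))) with hw
          have hw0 : w ≠ 0 := hA i j k' l hij hkl hne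
          obtain ⟨b, hb⟩ := Function.ne_iff.1 hw0
          have h2 := gen_ne φ Θ hΘ (∑ a, C (w a) * x a)
            (P3.simple_comb x y hs (fun a => C (w a)) b (by rw [constantCoeff_C]; exact hb))
          rw [hlin] at h2
          simp only [constantCoeff_C] at h2
          have h3 : ∀ t, crossProduct (crossProduct
              (fun a => incl (n + 2) k (constantCoeff (A i a)))
              (fun a => incl (n + 2) k (constantCoeff (A j a)))) (crossProduct
              (fun a => incl (n + 2) k (constantCoeff (A k' a)))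
              (fun a => incl (n + 2) k (constantCoeff (A l a)))) t = incl (n + 2) k (w t) := by
            intro t
            rw [hw]
            fin_cases t <;> simp [cross_apply]
          simp only [h3]
          exact h2
      have h1 := P3.mem_span_of_det hMd ξ a
      refine Ideal.span_le.2 ?_ h1
      rintro z ⟨r, rfl⟩
      fin_cases r
      · have h2 : M.mulVec ξ 0 = 0 := by
          have h3 : M.mulVec ξ 0 = ∑ a, α i0 a * ξ a := rfl
          rw [h3, ← hPe, hP]
          exact (S i0).pi_self
        change M.mulVec ξ 0 ∈ _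
        rw [h2]
        exact Ideal.zero_mem _
      · exact Ideal.subset_span (Or.inl rfl)
      · exact Ideal.subset_span (Or.inr rfl)
  -- the maximal ideal
  set η : Fin n → MvPowerSeries (Fin (n + 2)) (GenField (n + 2) k) := fun t => P (e (y t)) with hη
  have hmax : Ideal.span (Set.range ξ) ⊔ Ideal.span (Set.range η) =
      IsLocalRing.maximalIdeal (MvPowerSeries (Fin (n + 2)) (GenField (n + 2) k)) := by
    rw [← (S i0).map_max, ← ext_map_max, ← hs, Ideal.map_span, Ideal.map_span, Set.image_union,
      Set.image_union, Ideal.span_union, ← Set.range_comp, ← Set.range_comp, ← Set.range_comp,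
      ← Set.range_comp]
    rfl
  -- the discriminant
  let κ := {c : Fin m × Fin m // c.1 < c.2}
  let q : κ → MvPowerSeries (Fin (n + 2)) (GenField (n + 2) k) := fun c => d c.1.1 c.1.2
  have hX : ∀ c c' : κ, c ≠ c' → Ideal.span {q c, q c'} = Ideal.span (Set.range ξ) :=
    fun c c' h => hkey _ _ _ _ c.2 c'.2 fun h' => h (Subtype.ext h')
  let c0 : κ := ⟨(i0, i1), h01⟩
  let c1 : κ := ⟨(i0, i2), h02⟩
  have hc01 : c0 ≠ c1 := fun h => (ne_of_lt h12) (Prod.ext_iff.1 (Subtype.ext_iff.1 h)).2
  have hother : ∀ c : κ, ∃ c', c ≠ c' := by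
    intro c
    by_cases h : c = c0
    · exact ⟨c1, by rw [h]; exact hc01⟩
    · exact ⟨c0, h⟩
  have hassoc : ∀ i j, Associated ((S i).π (e (p j))) (d i j) := by
    intro i j
    refine ((S i).assoc (S j)).trans ?_
    rw [hdg]
    have h1 : u i * u j * ((S j).g - (S i).g) = (-(u i * u j)) * ((S i).g - (S j).g) := by ring
    rw [h1]
    exact associated_unit_mul_right _ _ ((huu i).mul (huu j)).neg
  have hD := core_discr (n := n + 2) f p hf Θ S q
    (fun c => by
      obtain ⟨c', h⟩ := hother c
      exact isSimple_prime _ (P3.simple_of_gens (b := q c') (η := η) (by rw [hX c c' h, hmax])))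
    (fun c c' h => P3.not_assoc_of_gens (η := η) (by rw [hX c c' h, hmax]))
    (fun i j hij => by
      rcases lt_or_gt_of_ne hij with h | h
      · refine ⟨fun c => if c = ⟨(i, j), h⟩ then 1 else 0, ?_⟩
        rw [P3.prod_single q ⟨(i, j), h⟩]
        exact hassoc i j
      · refine ⟨fun c => if c = ⟨(j, i), h⟩ then 1 else 0, ?_⟩
        rw [P3.prod_single q ⟨(j, i), h⟩]
        exact ((S i).assoc' (S j)).trans (hassoc j i))
    (fun c => ⟨c.1.1, c.1.2, ne_of_lt c.2, (hassoc _ _).symm.dvd⟩)
  refine ⟨_, hD, ?_⟩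
  have hJ : projIdeal Θ (I.map e) = (I.map e).map P :=
    (S i0).proj _ (Ideal.mem_map_of_mem _ (hpI i0))
  refine EqAll.equising (n := n + 1) ?_
  refine P3.pencil hc01 q η _ hX hmax _ (Associated.refl _) _
    (P3.projIdeal_ne_top _ (P3.map_ext_ne_top hI)) ?_
  rw [hJ, Ideal.span_le]
  rintro z ⟨a, rfl⟩
  exact Ideal.mem_map_of_mem _ (Ideal.mem_map_of_mem _ (hx a))

end ZX
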