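import Pool.Agent.ZX.Defs
import Pool.Agent.H9.Zar.Step
import Pool.Agent.H85.Zar.Generic
import Pool.Agent.ZX.Pencil3

set_option linter.style.longLine false

/-! The hypersurface is equisingular along `X_0 = X_1 = X_3 = 0` at the points with `X_2 ≠ 0`. -/

namespace ZX

open MvPowerSeries H9.Zar

universe v

section PosBpAux

variable {k : Type v} [Field k]

theorem posBp_germ (Q : Fin (6 + 1) → k) (h0 : Q 0 = 0) (h1 : Q 1 = 0) (h3 : Q 3 = 0) (i : Fin 8) :
    germ Q (FF k i) = X 0 - (aa i : MvPowerSeries (Fin (6 + 1)) k) * X 1 -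
      X 3 * (bv (X 4 + C (Q 4)) i * (X 2 + C (Q 2)) +
        cv ((X 5 + C (Q 5)) * (X 6 + C (Q 6))) i * X 3) := by
  have hX : ∀ j, germ Q (xx k j) = X j + C (Q j) := fun j => H85.Zar.germ_X Q j
  have hb : germ Q (bv (xx k 4) i) = bv (X 4 + C (Q 4)) i := by
    unfold bv
    rw [map_add, map_intCast]
    split_ifs
    · rw [hX]
    · rw [map_zero]
  have hc : germ Q (cv (xx k 5 * xx k 6) i) = cv ((X 5 + C (Q 5)) * (X 6 + C (Q 6))) i := by
    unfold cv
    rw [map_add, map_intCast]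
    split_ifs
    · rw [map_mul, hX, hX]
    · rw [map_zero]
  unfold FF
  rw [map_sub, map_sub, map_mul, map_mul, map_add, map_mul, map_mul, hb, hc, hX, hX, hX, hX,
    map_intCast, h0, h1, h3, map_zero, add_zero, add_zero, add_zero]

/-- The lines through the points of the pencil. -/
theorem posBp_cross (z t σ c : k) (hc : c ≠ 0) (l m : Fin 8 × Fin 8)
    (h : dd z t (bv σ) (l, m) ≠ 0) (A : Fin 8 → Fin 3 → k)
    (hA : ∀ i, A i = ![1, -(aa i : k), -(bv σ i * c)]) :
    crossProduct (crossProduct (A l.1) (A l.2)) (crossProduct (A m.1) (A m.2)) ≠ 0 := by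
  intro hcr
  apply h
  rw [hA, hA, hA, hA] at hcr
  simp only [cross_apply] at hcr
  have e0 := congrFun hcr 0
  have e1 := congrFun hcr 1
  simp only [Matrix.cons_val_zero, Matrix.cons_val_one, Matrix.cons_val, Pi.zero_apply] at e0 e1
  apply mul_left_cancel₀ hc
  rw [mul_zero]
  unfold dd nn
  linear_combination (-z) * e0 - t * e1

theorem posBp_span : Ideal.span (Set.range ![(X 0 : MvPowerSeries (Fin (6 + 1)) k), X 1, X 3] ∪
      Set.range ![(X 2 : MvPowerSeries (Fin (6 + 1)) k), X 4, X 5, X 6]) =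
    IsLocalRing.maximalIdeal (MvPowerSeries (Fin (6 + 1)) k) := by
  rw [maximalIdeal_eq]
  congr 1
  ext f
  simp only [Matrix.range_cons, Matrix.range_empty, Set.union_empty, Set.singleton_union,
    Set.mem_union, Set.mem_insert_iff, Set.mem_singleton_iff, Set.mem_range]
  constructor
  · rintro ((rfl | rfl | rfl) | (rfl | rfl | rfl | rfl))
    exacts [⟨0, rfl⟩, ⟨1, rfl⟩, ⟨3, rfl⟩, ⟨2, rfl⟩, ⟨4, rfl⟩, ⟨5, rfl⟩, ⟨6, rfl⟩]
  · rintro ⟨j, rfl⟩
    fin_cases j <;> simp

end PosBpAux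

theorem posBp {k : Type v} [Field k] [CharZero k] (Q : Fin (6 + 1) → k) (h0 : Q 0 = 0)
    (h1 : Q 1 = 0) (h2 : Q 2 ≠ 0) (h3 : Q 3 = 0) (hq : NumQ fun i => Q (yi i))
    (I : Ideal (MvPowerSeries (Fin (6 + 1)) k)) (hI : I ≠ ⊤) (hI0 : X 0 ∈ I) (hI1 : X 1 ∈ I)
    (hI3 : X 3 ∈ I) : EqAll (germ Q (Fpol k)) I := by
  let A : Fin 8 → Fin 3 → MvPowerSeries (Fin (6 + 1)) k := fun i =>
    ![1, -(aa i : MvPowerSeries (Fin (6 + 1)) k), -(bv (X 4 + C (Q 4)) i * (X 2 + C (Q 2)) +
        cv ((X 5 + C (Q 5)) * (X 6 + C (Q 6))) i * X 3)]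
  have hcA : ∀ i, (fun a => constantCoeff (A i a)) =
      ![1, -(aa i : k), -(bv (Q (yi 0)) i * Q 2)] := by
    intro i
    have hb : constantCoeff (bv (X 4 + C (Q 4) : MvPowerSeries (Fin (6 + 1)) k) i) =
        bv (Q (yi 0)) i := by
      unfold bv
      rw [map_add, map_intCast]
      split_ifs
      · rw [map_add, constantCoeff_X, constantCoeff_C, zero_add]
        rfl
      · rw [map_zero]
    funext a
    fin_cases a
    · exact map_one _
    · change constantCoeff (-(aa i : MvPowerSeries (Fin (6 + 1)) k)) = -(aa i : k)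
      rw [map_neg, map_intCast]
    · change constantCoeff (-(bv (X 4 + C (Q 4)) i * (X 2 + C (Q 2)) +
        cv ((X 5 + C (Q 5)) * (X 6 + C (Q 6))) i * X 3 : MvPowerSeries (Fin (6 + 1)) k)) =
          -(bv (Q (yi 0)) i * Q 2)
      rw [map_neg, map_add, map_mul, map_mul, hb, map_add, constantCoeff_X, constantCoeff_C,
        constantCoeff_X, mul_zero, add_zero, zero_add]
  refine pencil3 (n := 4) (m := 8) ![(X 0 : MvPowerSeries (Fin (6 + 1)) k), X 1, X 3]
    ![(X 2 : MvPowerSeries (Fin (6 + 1)) k), X 4, X 5, X 6] posBp_span A (by norm_num) ?_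
    (germ Q (Fpol k)) ?_ I hI ?_
  · intro i j k' l hij hkl hne
    have hl : ((i, j) : Fin 8 × Fin 8) ∈ LL := by simp [LL, hij]
    have hm : ((k', l) : Fin 8 × Fin 8) ∈ LL := by simp [LL, hkl]
    exact posBp_cross (-17) 1 (Q (yi 0)) (Q 2) h2 (i, j) (k', l) (hq.ddb _ hl _ hm hne)
      (fun i a => constantCoeff (A i a)) hcA
  · have hf : germ Q (Fpol k) = ∏ i, ∑ a, A i a *
        (![(X 0 : MvPowerSeries (Fin (6 + 1)) k), X 1, X 3] : Fin 3 → _) a := by
      unfold Fpol
      rw [map_prod]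
      refine Finset.prod_congr rfl fun i _ => ?_
      rw [posBp_germ Q h0 h1 h3, Fin.sum_univ_three]
      simp only [A, Matrix.cons_val_zero, Matrix.cons_val_one, Matrix.cons_val]
      ring
    exact hf ▸ Associated.refl _
  · intro a
    fin_cases a
    · exact hI0
    · exact hI1
    · exact hI3

end ZX
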