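import Pool.Agent.ZX.Defs
import Pool.Agent.H85.Zar.Basic
import Pool.Agent.ZX.Pencil3

set_option linter.style.longLine false

/-! The hypersurface is equisingular along the strata of the triples of sheets. -/

namespace ZX

open MvPowerSeries H9.Zar

universe v

namespace PosTAux

/-! ### numbers -/

section

variable {R R' : Type*} [CommRing R] [CommRing R']

theorem map_bv' (f : R →+* R') (σ : R) (i : Fin 8) : f (bv σ i) = bv (f σ) i := by
  unfold bv
  split_ifs <;> simp

theorem map_cv' (f : R →+* R') (σ : R) (i : Fin 8) : f (cv σ i) = cv (f σ) i := by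
  unfold cv
  split_ifs <;> simp

theorem map_oo' (f : R →+* R') (x : Fin 8 → R) (i j m : Fin 8) :
    f (oo x i j m) = oo (fun l => f (x l)) i j m := by
  simp only [oo, map_add, map_sub, map_mul, map_intCast]

theorem dd_tri' (z t : R) (x : Fin 8 → R) (i j m : Fin 8) :
    dd z t x ((i, j), (i, m)) = (z - (aa i : R) * t) * oo x i j m := by
  simp only [dd, nn, oo]
  ring

theorem oo_cyc (x : Fin 8 → R) (i j m : Fin 8) : oo x m i j = oo x i j m := by
  simp only [oo]
  ring

theorem oo_swap (x : Fin 8 → R) (i j m : Fin 8) : oo x i m j = - oo x i j m := by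
  simp only [oo]
  ring

end

theorem aa_inj : Function.Injective aa := by decide

theorem mem_SS (i j m : Fin 8) (hij : i < j) (hjm : j < m) : ((i, j), (i, m)) ∈ SS := by
  simp [SS, LL, hij, hjm, hij.trans hjm]

section

variable {k : Type v} [Field k] {q : Fin 3 → k}

theorem oo_ne (hq : NumQ q) {i j m : Fin 8} (hij : i < j) (hjm : j < m) :
    oo (bv (q 0)) i j m ≠ 0 := by
  intro h
  refine hq.ddb (i, j) ?_ (i, m) ?_ ?_ ?_
  · simpa [LL] using hij
  · simpa [LL] using hij.trans hjm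
  · intro h'
    exact hjm.ne (Prod.ext_iff.1 h').2
  · rw [dd_tri', h, mul_zero]

theorem det_ne (hq : NumQ q) {i j m i' j' m' : Fin 8} (hij : i < j) (hjm : j < m)
    (hij' : i' < j') (hjm' : j' < m') (hne : (i, j, m) ≠ (i', j', m')) :
    oo (bv (q 0)) i j m * oo (cv (q 1 * q 2)) i' j' m' -
      oo (bv (q 0)) i' j' m' * oo (cv (q 1 * q 2)) i j m ≠ 0 := by
  intro h
  refine hq.det _ (mem_SS i j m hij hjm) _ (mem_SS i' j' m' hij' hjm') ?_ ?_ ?_ ?_
  · intro h'
    apply hne
    simp only [Prod.mk.injEq] at h' ⊢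
    exact ⟨h'.1.1, h'.1.2, h'.2.2⟩
  · rintro ⟨h1, -⟩
    simp only [Pa, Prod.mk.injEq] at h1
    have h2 : (0 : Fin 8) = 2 := h1.1.1.symm.trans h1.2.1
    exact absurd h2 (by decide)
  · rintro ⟨h1, -⟩
    simp only [Pb, Prod.mk.injEq] at h1
    have h2 : (4 : Fin 8) = 6 := h1.1.1.symm.trans h1.2.1
    exact absurd h2 (by decide)
  · simp only [Det, dd_tri']
    linear_combination ((-17 : k) - (aa i : k) * 1) * ((-17 : k) - (aa i' : k) * 1) * h

/-- the slope pairs of `{i,j,m}` and `{i,j,l}` are independent -/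
theorem det_ne_all (hq : NumQ q) {i j m l : Fin 8} (hij : i < j) (hjm : j < m) (hli : l ≠ i)
    (hlj : l ≠ j) (hlm : l ≠ m) :
    oo (bv (q 0)) i j m * oo (cv (q 1 * q 2)) i j l -
      oo (bv (q 0)) i j l * oo (cv (q 1 * q 2)) i j m ≠ 0 := by
  rcases lt_or_gt_of_ne hli with h | h
  · rw [← oo_cyc (bv (q 0)) i j l, ← oo_cyc (cv (q 1 * q 2)) i j l]
    refine det_ne hq hij hjm h hij ?_
    intro h'
    simp only [Prod.mk.injEq] at h'
    exact hli h'.1.symm
  rcases lt_or_gt_of_ne hlj with h2 | h2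
  · have h3 := det_ne hq hij hjm h h2 (by
      intro h'
      simp only [Prod.mk.injEq] at h'
      exact hlj h'.2.1.symm)
    rw [oo_swap (bv (q 0)) i j l, oo_swap (cv (q 1 * q 2)) i j l] at h3
    intro h4
    apply h3
    linear_combination -h4
  · refine det_ne hq hij hjm hij h2 ?_
    intro h'
    simp only [Prod.mk.injEq] at h'
    exact hlm h'.2.2.symm

end

/-! ### germs -/

theorem constantCoeff_germ' {k : Type v} [Field k] {r : ℕ} (Q : Fin (r + 1) → k)
    (p : MvPolynomial (Fin (r + 1)) k) :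
    constantCoeff (germ Q p) = MvPolynomial.eval Q p := by
  have h : (constantCoeff (R := k)).comp (germ Q : MvPolynomial (Fin (r + 1)) k →ₐ[k] _).toRingHom =
      MvPolynomial.eval Q := by
    apply MvPolynomial.ringHom_ext
    · intro c
      simp [germ, MvPowerSeries.algebraMap_apply]
    · intro i
      simp [germ]
  exact congrArg (fun g : MvPolynomial (Fin (r + 1)) k →+* k => g p) h

theorem eval_FF {k : Type v} [Field k] (Q : Fin (6 + 1) → k) (l : Fin 8) :
    MvPolynomial.eval Q (FF k l) = Q 0 - (aa l : k) * Q 1 -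
      Q 3 * (bv (Q 4) l * Q 2 + cv (Q 5 * Q 6) l * Q 3) := by
  simp only [FF, map_sub, map_mul, map_add, map_intCast, MvPolynomial.eval_X, map_bv', map_cv']

theorem germ_FF {k : Type v} [Field k] (Q : Fin (6 + 1) → k) (l : Fin 8) :
    germ Q (FF k l) = (X 0 + C (Q 0)) - (aa l : MvPowerSeries (Fin (6 + 1)) k) * (X 1 + C (Q 1)) -
      (X 3 + C (Q 3)) * (bv (X 4 + C (Q 4)) l * (X 2 + C (Q 2)) +
        cv ((X 5 + C (Q 5)) * (X 6 + C (Q 6))) l * (X 3 + C (Q 3))) := by
  have h : ∀ i, (germ Q : MvPolynomial (Fin (6 + 1)) k →ₐ[k] _).toRingHom (MvPolynomial.X i) =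
      X i + C (Q i) := by
    intro i
    simp [germ]
  change (germ Q : MvPolynomial (Fin (6 + 1)) k →ₐ[k] _).toRingHom (FF k l) = _
  simp only [FF, map_sub, map_mul, map_add, map_intCast, map_bv', map_cv', h]

/-- the relation of three sheets at a point -/
theorem rel_eval {k : Type v} [Field k] (Q : Fin (6 + 1) → k) (i j m : Fin 8)
    (hi : MvPolynomial.eval Q (FF k i) = 0) (hj : MvPolynomial.eval Q (FF k j) = 0)
    (hm : MvPolynomial.eval Q (FF k m) = 0) (h3 : Q 3 ≠ 0) :
    oo (bv (Q 4)) i j m * Q 2 + oo (cv (Q 5 * Q 6)) i j m * Q 3 = 0 := by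
  rw [eval_FF] at hi hj hm
  refine (mul_eq_zero.1 ?_).resolve_left h3
  simp only [oo]
  linear_combination ((aa m : k) - aa j) * hi + ((aa i : k) - aa m) * hj - ((aa i : k) - aa j) * hm

end PosTAux

open PosTAux

/-- the other sheets do not contain the point -/
theorem posT_units {k : Type v} [Field k] (Q : Fin (6 + 1) → k) (i j m : Fin 8)
    (hij : i < j) (hjm : j < m) (hi : MvPolynomial.eval Q (FF k i) = 0)
    (hj : MvPolynomial.eval Q (FF k j) = 0) (hm : MvPolynomial.eval Q (FF k m) = 0)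
    (h3 : Q 3 ≠ 0) (hq : NumQ fun i => Q (yi i)) (l : Fin 8) (hli : l ≠ i) (hlj : l ≠ j)
    (hlm : l ≠ m) : MvPolynomial.eval Q (FF k l) ≠ 0 := by
  intro hl
  have e1 := rel_eval Q i j m hi hj hm h3
  have e2 := rel_eval Q i j l hi hj hl h3
  apply det_ne_all hq hij hjm hli hlj hlm
  refine (mul_eq_zero.1 ?_).resolve_left h3
  change Q 3 * (oo (bv (Q 4)) i j m * oo (cv (Q 5 * Q 6)) i j l -
    oo (bv (Q 4)) i j l * oo (cv (Q 5 * Q 6)) i j m) = 0
  linear_combination oo (bv (Q 4)) i j m * e2 - oo (bv (Q 4)) i j l * e1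

/-- the three sheets and `X_3, ..., X_6` are regular parameters -/
theorem posT_span {k : Type v} [Field k] [CharZero k] (Q : Fin (6 + 1) → k) (i j m : Fin 8)
    (hij : i < j) (hjm : j < m) (hi : MvPolynomial.eval Q (FF k i) = 0)
    (hj : MvPolynomial.eval Q (FF k j) = 0) (hm : MvPolynomial.eval Q (FF k m) = 0)
    (h3 : Q 3 ≠ 0) (hq : NumQ fun i => Q (yi i)) :
    Ideal.span (Set.range ![germ Q (FF k i), germ Q (FF k j), germ Q (FF k m)] ∪
      Set.range (![X 3, X 4, X 5, X 6] : Fin 4 → MvPowerSeries (Fin (6 + 1)) k)) =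
      IsLocalRing.maximalIdeal (MvPowerSeries (Fin (6 + 1)) k) := by
  apply le_antisymm
  · rw [Ideal.span_le]
    rintro x (⟨a, rfl⟩ | ⟨a, rfl⟩)
    · rw [SetLike.mem_coe, H85.Zar.mem_maximalIdeal_iff]
      fin_cases a
      · exact (constantCoeff_germ' Q _).trans hi
      · exact (constantCoeff_germ' Q _).trans hj
      · exact (constantCoeff_germ' Q _).trans hm
    · rw [SetLike.mem_coe, H85.Zar.mem_maximalIdeal_iff]
      fin_cases a
      · exact constantCoeff_X 3
      · exact constantCoeff_X 4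
      · exact constantCoeff_X 5
      · exact constantCoeff_X 6
  · set J := Ideal.span (Set.range ![germ Q (FF k i), germ Q (FF k j), germ Q (FF k m)] ∪
      Set.range (![X 3, X 4, X 5, X 6] : Fin 4 → MvPowerSeries (Fin (6 + 1)) k)) with hJ
    have hy : ∀ a, (![X 3, X 4, X 5, X 6] : Fin 4 → MvPowerSeries (Fin (6 + 1)) k) a ∈ J :=
      fun a => Ideal.subset_span (Or.inr ⟨a, rfl⟩)
    have hx : ∀ a, ![germ Q (FF k i), germ Q (FF k j), germ Q (FF k m)] a ∈ J :=
      fun a => Ideal.subset_span (Or.inl ⟨a, rfl⟩)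
    have hX3 : (X 3 : MvPowerSeries (Fin (6 + 1)) k) ∈ J := hy 0
    have hX4 : (X 4 : MvPowerSeries (Fin (6 + 1)) k) ∈ J := hy 1
    have hX5 : (X 5 : MvPowerSeries (Fin (6 + 1)) k) ∈ J := hy 2
    have hX6 : (X 6 : MvPowerSeries (Fin (6 + 1)) k) ∈ J := hy 3
    -- reduction modulo `X_3, ..., X_6`
    have red : ∀ l, MvPolynomial.eval Q (FF k l) = 0 → germ Q (FF k l) ∈ J →
        (X 0 - (aa l : MvPowerSeries (Fin (6 + 1)) k) * X 1 - C (Q 3 * bv (Q 4) l) * X 2) ∈ J := by
      intro l hl hg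
      rw [← Ideal.Quotient.eq_zero_iff_mem] at hg hX3 hX4 hX5 hX6 ⊢
      have hl' := congrArg (fun c : k => Ideal.Quotient.mk J (C c)) hl
      simp only [eval_FF, map_sub, map_mul, map_add, map_intCast, map_bv', map_cv', map_zero] at hl'
      simp only [germ_FF, map_sub, map_mul, map_add, map_intCast, map_bv', map_cv', hX3, hX4, hX5,
        hX6, zero_add] at hg
      simp only [map_sub, map_mul, map_intCast, map_bv']
      linear_combination hg - hl'
    have r0 := red i hi (hx 0)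
    have r1 := red j hj (hx 1)
    have r2 := red m hm (hx 2)
    have hX2 : (X 2 : MvPowerSeries (Fin (6 + 1)) k) ∈ J := by
      have h1 : C (Q 3 * oo (bv (Q 4)) i j m) * (X 2 : MvPowerSeries (Fin (6 + 1)) k) ∈ J := by
        have h2 := J.add_mem (J.add_mem (J.mul_mem_left ((aa m : MvPowerSeries (Fin (6 + 1)) k) - (aa j : MvPowerSeries (Fin (6 + 1)) k)) r0)
          (J.mul_mem_left ((aa i : MvPowerSeries (Fin (6 + 1)) k) - (aa m : MvPowerSeries (Fin (6 + 1)) k)) r1)) (J.mul_mem_left ((aa j : MvPowerSeries (Fin (6 + 1)) k) - (aa i : MvPowerSeries (Fin (6 + 1)) k)) r2)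
        convert h2 using 1
        simp only [oo, map_mul, map_sub, map_add, map_intCast]
        ring
      have h4 : C ((Q 3 * oo (bv (Q 4)) i j m)⁻¹) * (C (Q 3 * oo (bv (Q 4)) i j m) *
          (X 2 : MvPowerSeries (Fin (6 + 1)) k)) ∈ J := J.mul_mem_left _ h1
      have hoo : oo (bv (Q 4)) i j m ≠ 0 := oo_ne hq hij hjm
      rwa [← mul_assoc, ← map_mul, inv_mul_cancel₀ (mul_ne_zero h3 hoo), map_one, one_mul] at h4
    have hX1 : (X 1 : MvPowerSeries (Fin (6 + 1)) k) ∈ J := by
      have hne : ((aa j : k) - (aa i : k)) ≠ 0 := by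
        rw [sub_ne_zero]
        intro h
        exact hij.ne' (aa_inj (by exact_mod_cast h))
      have h1 : C ((aa j : k) - (aa i : k)) * (X 1 : MvPowerSeries (Fin (6 + 1)) k) ∈ J := by
        have h2 := J.add_mem (J.sub_mem r0 r1)
          (J.mul_mem_left (C (Q 3 * bv (Q 4) i - Q 3 * bv (Q 4) j)) hX2)
        convert h2 using 1
        simp only [map_mul, map_sub, map_intCast]
        ring
      have h4 : C (((aa j : k) - (aa i : k))⁻¹) * (C ((aa j : k) - (aa i : k)) *
          (X 1 : MvPowerSeries (Fin (6 + 1)) k)) ∈ J := J.mul_mem_left _ h1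
      rwa [← mul_assoc, ← map_mul, inv_mul_cancel₀ hne, map_one, one_mul] at h4
    have hX0 : (X 0 : MvPowerSeries (Fin (6 + 1)) k) ∈ J := by
      have h2 := J.add_mem (J.add_mem r0 (J.mul_mem_left (aa i : MvPowerSeries (Fin (6 + 1)) k) hX1))
        (J.mul_mem_left (C (Q 3 * bv (Q 4) i)) hX2)
      convert h2 using 1
      ring
    intro f hf
    rw [H85.Zar.mem_maximalIdeal_iff] at hf
    obtain ⟨g, hg⟩ := H85.Zar.exists_sum f
    rw [hg, hf, map_zero, zero_add]
    refine J.sum_mem fun a _ => J.mul_mem_right _ ?_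
    fin_cases a
    · exact hX0
    · exact hX1
    · exact hX2
    · exact hX3
    · exact hX4
    · exact hX5
    · exact hX6

theorem posT {k : Type v} [Field k] [CharZero k] (Q : Fin (6 + 1) → k) (i j m : Fin 8)
    (hij : i < j) (hjm : j < m) (hi : MvPolynomial.eval Q (FF k i) = 0)
    (hj : MvPolynomial.eval Q (FF k j) = 0) (hm : MvPolynomial.eval Q (FF k m) = 0)
    (h3 : Q 3 ≠ 0) (hq : NumQ fun i => Q (yi i))
    (I : Ideal (MvPowerSeries (Fin (6 + 1)) k)) (hI : I ≠ ⊤) (hIi : germ Q (FF k i) ∈ I)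
    (hIj : germ Q (FF k j) ∈ I) (hIm : germ Q (FF k m) ∈ I) :
    (∀ l, l ≠ i → l ≠ j → l ≠ m → MvPolynomial.eval Q (FF k l) ≠ 0) ∧
      EqAll (germ Q (Fpol k)) I := by
  have hu := posT_units Q i j m hij hjm hi hj hm h3 hq
  refine ⟨hu, ?_⟩
  refine pencil3 (n := 4) (m := 3) ![germ Q (FF k i), germ Q (FF k j), germ Q (FF k m)]
    ![X 3, X 4, X 5, X 6] (posT_span Q i j m hij hjm hi hj hm h3 hq)
    (fun a b => if a = b then 1 else 0) le_rfl ?_ (germ Q (Fpol k)) ?_ I hI ?_
  · intro a b c d hab hcd hne h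
    have h0 := congrFun h 0
    have h1 := congrFun h 1
    have h2 := congrFun h 2
    fin_cases a <;> fin_cases b <;> fin_cases c <;> fin_cases d <;>
      simp [cross_apply] at hab hcd hne h0 h1 h2
  · have e1 : (∏ a : Fin 3, ∑ b, (if a = b then (1 : MvPowerSeries (Fin (4 + 3)) k) else 0) *
        (![germ Q (FF k i), germ Q (FF k j), germ Q (FF k m)] :
          Fin 3 → MvPowerSeries (Fin (6 + 1)) k) b) =
        germ Q (FF k i) * germ Q (FF k j) * germ Q (FF k m) := by
      simp only [ite_mul, one_mul, zero_mul, Finset.sum_ite_eq, Finset.mem_univ, if_true]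
      rw [Fin.prod_univ_three]
      rfl
    have e2 : germ Q (Fpol k) = germ Q (FF k i) * germ Q (FF k j) * germ Q (FF k m) *
        ∏ l ∈ ({i, j, m} : Finset (Fin 8))ᶜ, germ Q (FF k l) := by
      have hni : i ∉ ({j, m} : Finset (Fin 8)) := by
        simp only [Finset.mem_insert, Finset.mem_singleton, not_or]
        exact ⟨hij.ne, (hij.trans hjm).ne⟩
      rw [Fpol, map_prod, ← Finset.prod_mul_prod_compl ({i, j, m} : Finset (Fin 8)),
        Finset.prod_insert hni, Finset.prod_pair hjm.ne]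
      ring
    have e3 : IsUnit (∏ l ∈ ({i, j, m} : Finset (Fin 8))ᶜ, germ Q (FF k l)) := by
      rw [MvPowerSeries.isUnit_iff_constantCoeff, map_prod, isUnit_iff_ne_zero,
        Finset.prod_ne_zero_iff]
      intro l hl
      simp only [Finset.mem_compl, Finset.mem_insert, Finset.mem_singleton, not_or] at hl
      rw [constantCoeff_germ']
      exact hu l hl.1 hl.2.1 hl.2.2
    rw [e1, e2]
    exact (associated_mul_unit_left _ _ e3)
  · intro a
    fin_cases a
    · exact hIi
    · exact hIj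
    · exact hIm

end ZX
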