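import Pool.Agent.ZX.Germ
import Pool.Agent.ZX.Pencil2
import Pool.Agent.H9.Zar.Step

set_option linter.style.longLine false

/-! ZX16: two sheets meeting away from the others. -/

namespace ZX

open MvPowerSeries H9.Zar

universe v

/-- the linear part of a sheet modulo the other coordinates -/
theorem posX_germ_FF_mem {k : Type v} [Field k] (Q : Fin (6 + 1) → k) (i : Fin 8)
    (hi : MvPolynomial.eval Q (FF k i) = 0)
    (J : Ideal (MvPowerSeries (Fin (6 + 1)) k)) (h2 : X 2 ∈ J) (h3 : X 3 ∈ J) (h4 : X 4 ∈ J)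
    (h5 : X 5 ∈ J) (h6 : X 6 ∈ J) :
    germ Q (FF k i) - (X 0 - (aa i : MvPowerSeries (Fin (6 + 1)) k) * X 1) ∈ J := by
  rw [← Ideal.Quotient.eq_zero_iff_mem]
  have e2 : Ideal.Quotient.mk J (X 2) = 0 := Ideal.Quotient.eq_zero_iff_mem.mpr h2
  have e3 : Ideal.Quotient.mk J (X 3) = 0 := Ideal.Quotient.eq_zero_iff_mem.mpr h3
  have e4 : Ideal.Quotient.mk J (X 4) = 0 := Ideal.Quotient.eq_zero_iff_mem.mpr h4
  have e5 : Ideal.Quotient.mk J (X 5) = 0 := Ideal.Quotient.eq_zero_iff_mem.mpr h5
  have e6 : Ideal.Quotient.mk J (X 6) = 0 := Ideal.Quotient.eq_zero_iff_mem.mpr h6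
  have g0 : germ Q (xx k 0) = X 0 + C (Q 0) := by simp [germ, xx]
  have g1 : germ Q (xx k 1) = X 1 + C (Q 1) := by simp [germ, xx]
  have g2 : germ Q (xx k 2) = X 2 + C (Q 2) := by simp [germ, xx]
  have g3 : germ Q (xx k 3) = X 3 + C (Q 3) := by simp [germ, xx]
  have g4 : germ Q (xx k 4) = X 4 + C (Q 4) := by simp [germ, xx]
  have g5 : germ Q (xx k 5) = X 5 + C (Q 5) := by simp [germ, xx]
  have g6 : germ Q (xx k 6) = X 6 + C (Q 6) := by simp [germ, xx]
  have hi' := congrArg (fun x => Ideal.Quotient.mk J (C x)) hi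
  simp only [FF, bv, cv, map_sub, map_mul, map_add, map_intCast, MvPolynomial.eval_X, map_zero, xx] at hi' g0 g1 g2 g3 g4 g5 g6
  by_cases h : i = 0
  · simp only [h, if_true] at hi' ⊢
    simp only [FF, bv, cv, if_true, map_sub, map_mul, map_add, map_intCast, xx, g0, g1, g2, g3, g4, g5, g6,
      e2, e3, e4, e5, e6, MvPolynomial.eval_X] at hi' ⊢
    linear_combination hi'
  · simp only [h, if_false] at hi' ⊢
    simp only [FF, bv, cv, h, if_false, map_sub, map_mul, map_add, map_intCast, xx, g0, g1, g2, g3,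
      e2, e3, map_zero] at hi' ⊢
    linear_combination hi'

private theorem posX_aa_inj {i j : Fin 8} (h : aa i = aa j) : i = j := by
  revert i j
  decide

theorem posX {k : Type v} [Field k] [CharZero k] (Q : Fin (6 + 1) → k) (i j : Fin 8) (hij : i < j)
    (hi : MvPolynomial.eval Q (FF k i) = 0) (hj : MvPolynomial.eval Q (FF k j) = 0)
    (hl : ∀ l, l ≠ i → l ≠ j → MvPolynomial.eval Q (FF k l) ≠ 0)
    (I : Ideal (MvPowerSeries (Fin (6 + 1)) k)) (hI : I ≠ ⊤) (hIi : germ Q (FF k i) ∈ I)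
    (hIj : germ Q (FF k j) ∈ I) : EqAll (germ Q (Fpol k)) I := by
  classical
  refine pencil2 (n := 5) (germ Q (FF k i)) (germ Q (FF k j)) ![X 2, X 3, X 4, X 5, X 6] ?_
    (germ Q (Fpol k)) ?_ I hI hIi hIj
  · apply le_antisymm
    · rw [Ideal.span_le]
      have hX : ∀ m : Fin (6 + 1), X m ∈ IsLocalRing.maximalIdeal (MvPowerSeries (Fin (6 + 1)) k) := by
        intro m
        rw [maximalIdeal_eq]
        exact Ideal.subset_span ⟨m, rfl⟩
      have hmem : ∀ f : MvPowerSeries (Fin (6 + 1)) k, constantCoeff f = 0 →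
          f ∈ IsLocalRing.maximalIdeal (MvPowerSeries (Fin (6 + 1)) k) := by
        intro f hf
        rw [IsLocalRing.mem_maximalIdeal, mem_nonunits_iff, MvPowerSeries.isUnit_iff_constantCoeff, hf]
        exact not_isUnit_zero
      rintro x (hx | ⟨m, rfl⟩)
      · rcases hx with rfl | rfl
        · exact hmem _ (by rw [constantCoeff_germ, hi])
        · exact hmem _ (by rw [constantCoeff_germ, hj])
      · fin_cases m
        · exact hX 2
        · exact hX 3
        · exact hX 4
        · exact hX 5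
        · exact hX 6
    · set J : Ideal (MvPowerSeries (Fin (6 + 1)) k) :=
        Ideal.span ({germ Q (FF k i), germ Q (FF k j)} ∪ Set.range ![X 2, X 3, X 4, X 5, X 6]) with hJ
      have h2 : X 2 ∈ J := Ideal.subset_span (Or.inr ⟨0, rfl⟩)
      have h3 : X 3 ∈ J := Ideal.subset_span (Or.inr ⟨1, rfl⟩)
      have h4 : X 4 ∈ J := Ideal.subset_span (Or.inr ⟨2, rfl⟩)
      have h5 : X 5 ∈ J := Ideal.subset_span (Or.inr ⟨3, rfl⟩)
      have h6 : X 6 ∈ J := Ideal.subset_span (Or.inr ⟨4, rfl⟩)
      have hpi : germ Q (FF k i) ∈ J := Ideal.subset_span (Or.inl (Or.inl rfl))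
      have hpj : germ Q (FF k j) ∈ J := Ideal.subset_span (Or.inl (Or.inr rfl))
      have hmi := posX_germ_FF_mem Q i hi J h2 h3 h4 h5 h6
      have hmj := posX_germ_FF_mem Q j hj J h2 h3 h4 h5 h6
      have hi1 : X 0 - (aa i : MvPowerSeries (Fin (6 + 1)) k) * X 1 ∈ J := by
        have := J.sub_mem hpi hmi
        simpa using this
      have hj1 : X 0 - (aa j : MvPowerSeries (Fin (6 + 1)) k) * X 1 ∈ J := by
        have := J.sub_mem hpj hmj
        simpa using this
      have hd : ((aa j : ℤ) - (aa i : ℤ) : k) ≠ 0 := by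
        rw [sub_ne_zero]
        intro h
        have h' := posX_aa_inj (Int.cast_injective (α := k) h)
        exact hij.ne h'.symm
      have hX1 : (X 1 : MvPowerSeries (Fin (6 + 1)) k) ∈ J := by
        have h7 := J.sub_mem hi1 hj1
        have h8 := J.mul_mem_left (C (((aa j : ℤ) - (aa i : ℤ) : k)⁻¹)) h7
        have h9 : C (((aa j : ℤ) - (aa i : ℤ) : k)⁻¹) *
            ((X 0 - (aa i : MvPowerSeries (Fin (6 + 1)) k) * X 1) -
              (X 0 - (aa j : MvPowerSeries (Fin (6 + 1)) k) * X 1)) = X 1 := by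
          have h10 : (C (((aa j : ℤ) - (aa i : ℤ) : k)⁻¹) : MvPowerSeries (Fin (6 + 1)) k) *
              ((aa j : MvPowerSeries (Fin (6 + 1)) k) - (aa i : MvPowerSeries (Fin (6 + 1)) k)) = 1 := by
            rw [← map_intCast (C (σ := Fin (6 + 1)) (R := k)) (aa j),
              ← map_intCast (C (σ := Fin (6 + 1)) (R := k)) (aa i), ← map_sub, ← map_mul,
              inv_mul_cancel₀ hd, map_one]
          linear_combination (X 1 : MvPowerSeries (Fin (6 + 1)) k) * h10
        rw [h9] at h8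
        exact h8
      have hX0 : (X 0 : MvPowerSeries (Fin (6 + 1)) k) ∈ J := by
        have h7 := J.add_mem hi1 (J.mul_mem_left (aa i : MvPowerSeries (Fin (6 + 1)) k) hX1)
        simpa using h7
      show IsLocalRing.maximalIdeal (MvPowerSeries (Fin (6 + 1)) k) ≤ J
      rw [maximalIdeal_eq, Ideal.span_le]
      rintro _ ⟨m, rfl⟩
      fin_cases m
      · exact hX0
      · exact hX1
      · exact h2
      · exact h3
      · exact h4
      · exact h5
      · exact h6
  · show Associated (germ Q (Fpol k)) (germ Q (FF k i) * germ Q (FF k j))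
    rw [germ_Fpol, ← Finset.mul_prod_erase Finset.univ _ (Finset.mem_univ i),
      ← Finset.mul_prod_erase (Finset.univ.erase i) _ (Finset.mem_erase.mpr ⟨hij.ne', Finset.mem_univ j⟩),
      ← mul_assoc]
    have hu : IsUnit (∏ l ∈ (Finset.univ.erase i).erase j, germ Q (FF k l)) := by
      rw [MvPowerSeries.isUnit_iff_constantCoeff, map_prod, isUnit_iff_ne_zero, Finset.prod_ne_zero_iff]
      intro l hlm
      rw [constantCoeff_germ]
      rw [Finset.mem_erase, Finset.mem_erase] at hlm
      exact hl l hlm.2.1 hlm.1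
    exact associated_mul_unit_left _ _ hu

end ZX
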