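import Pool.Agent.ZX.StepLem
import Pool.Agent.ZX.Germ
import Pool.Agent.ZX.PosX
import Pool.Agent.ZX.NegM
import Pool.Agent.ZX.Num
import Pool.Agent.ZX.PosBp
import Pool.Agent.ZX.PosT
import Pool.Agent.ZX.AtB
import Pool.Agent.ZX.IrrZ

set_option linter.style.longLine false

/-! The bad loci of the closed sets `ZZ j`. -/

namespace ZX

open MvPowerSeries H9.Zar

universe v


/-! ### points -/

private theorem eval_FF {k : Type v} [Field k] (Q : Fin (6 + 1) → k) (i : Fin 8) :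
    MvPolynomial.eval Q (FF k i) = Q 0 - (aa i : k) * Q 1 -
      Q 3 * (bv (Q 4) i * Q 2 + cv (Q 5 * Q 6) i * Q 3) := by
  simp only [FF, bv, cv, xx, map_sub, map_mul, map_add, MvPolynomial.eval_X, map_intCast]
  split_ifs <;> simp

private theorem eval_rel {k : Type v} [Field k] (Q : Fin (6 + 1) → k) (i j m : Fin 8) :
    ((aa i : k) - aa j) * MvPolynomial.eval Q (FF k m) =
      ((aa m : k) - aa j) * MvPolynomial.eval Q (FF k i) +
      ((aa i : k) - aa m) * MvPolynomial.eval Q (FF k j) -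
      Q 3 * (oo (bv (Q 4)) i j m * Q 2 + oo (cv (Q 5 * Q 6)) i j m * Q 3) := by
  rw [eval_FF, eval_FF, eval_FF]
  unfold oo
  ring

private theorem aa_ne {k : Type v} [Field k] [CharZero k] {i j : Fin 8} (h : i ≠ j) :
    (aa i : k) - aa j ≠ 0 := by
  have h1 : aa i - aa j ≠ 0 := by
    revert h
    revert i j
    decide
  exact_mod_cast h1

private theorem oo_swap1 {R : Type*} [CommRing R] (x : Fin 8 → R) (i j m : Fin 8) :
    oo x j i m = - oo x i j m := by
  unfold oo; ring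

private theorem oo_swap2 {R : Type*} [CommRing R] (x : Fin 8 → R) (i j m : Fin 8) :
    oo x i m j = - oo x i j m := by
  unfold oo; ring

private theorem oo_ne0 {k : Type v} [Field k] {q : Fin 3 → k} (hq : NumQ q) {i j m : Fin 8}
    (h1 : i < j) (h2 : j < m) : oo (bv (q 0)) i j m ≠ 0 := by
  intro h
  have h3 : i < m := h1.trans h2
  refine hq.ddb (i, j) ?_ (i, m) ?_ ?_ ?_
  · simp [LL, h1]
  · simp [LL, h3]
  · intro h4
    exact h2.ne (Prod.ext_iff.1 h4).2
  · rw [dd_tri, h, mul_zero]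

private theorem oo_ne {k : Type v} [Field k] {q : Fin 3 → k} (hq : NumQ q) {i j m : Fin 8}
    (h1 : i ≠ j) (h2 : i ≠ m) (h3 : j ≠ m) : oo (bv (q 0)) i j m ≠ 0 := by
  rcases lt_or_gt_of_ne h1 with a1 | a1 <;> rcases lt_or_gt_of_ne h2 with a2 | a2 <;>
    rcases lt_or_gt_of_ne h3 with a3 | a3
  · exact oo_ne0 hq a1 a3
  · rw [oo_swap2]
    exact neg_ne_zero.2 (oo_ne0 hq a2 a3)
  · exact absurd (a1.trans a3) (lt_asymm a2)
  · rw [oo_swap2, oo_swap1, neg_neg]
    exact oo_ne0 hq a2 a1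
  · rw [oo_swap1]
    exact neg_ne_zero.2 (oo_ne0 hq a1 a2)
  · exact absurd (a3.trans a1) (lt_asymm a2)
  · rw [oo_swap1, oo_swap2, neg_neg]
    exact oo_ne0 hq a3 a2
  · rw [oo_swap2, oo_swap1, oo_swap2, neg_neg]
    exact neg_ne_zero.2 (oo_ne0 hq a3 a1)


private theorem exists_pt {k : Type v} [Field k] [CharZero k] {i j : Fin 8} (hij : i ≠ j) (r e : k) :
    ∃ Q : Fin (6 + 1) → k, Q 2 = r ∧ Q 3 = e ∧ Q 4 = 0 ∧ Q 5 * Q 6 = 0 ∧
      NumQ (fun i => Q (yi i)) ∧ MvPolynomial.eval Q (hpol k) ≠ 0 ∧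
      MvPolynomial.eval Q (FF k i) = 0 ∧ MvPolynomial.eval Q (FF k j) = 0 := by
  set t : k := -(e * ((bv (0 : k) i - bv 0 j) * r + (cv (0 : k) i - cv 0 j) * e)) /
    ((aa i : k) - aa j) with ht
  set Q : Fin (6 + 1) → k :=
    ![(aa i : k) * t + e * (bv 0 i * r + cv 0 i * e), t, r, e, 0, 0, 0] with hQ
  have e0 : Q 0 = (aa i : k) * t + e * (bv 0 i * r + cv 0 i * e) := rfl
  have e1 : Q 1 = t := rfl
  have e2 : Q 2 = r := rfl
  have e3 : Q 3 = e := rfl
  have e4 : Q 4 = 0 := rfl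
  have e5 : Q 5 = 0 := rfl
  have e6 : Q 6 = 0 := rfl
  have hy : (fun i => Q (yi i)) = fun _ => (0 : k) := by
    funext a
    fin_cases a <;> rfl
  have hn : NumQ (fun i => Q (yi i)) := by
    rw [hy]
    exact numQ_zero k
  have h1 : MvPolynomial.eval Q (FF k i) = 0 := by
    rw [eval_FF, e0, e1, e2, e3, e4, e5, zero_mul]
    ring
  refine ⟨Q, e2, e3, e4, by rw [e5, zero_mul], hn, hpol_ne Q hn, h1, ?_⟩
  have h2 : ((aa i : k) - aa j) * t =
      -(e * ((bv (0 : k) i - bv 0 j) * r + (cv (0 : k) i - cv 0 j) * e)) := by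
    rw [ht]
    field_simp [aa_ne (k := k) hij]
  rw [eval_FF, e0, e1, e2, e3, e4, e5, zero_mul]
  linear_combination h2

private theorem yi0 {k : Type v} (Q : Fin (6 + 1) → k) : Q (yi 0) = Q 4 := rfl

private theorem rel_of {k : Type v} [Field k] [CharZero k] {Q : Fin (6 + 1) → k} {i j : Fin 8}
    (m : Fin 8) (hij : i ≠ j) (hi : MvPolynomial.eval Q (FF k i) = 0)
    (hj : MvPolynomial.eval Q (FF k j) = 0) : MvPolynomial.eval Q (FF k m) = 0 ↔
      Q 3 * (oo (bv (Q 4)) i j m * Q 2 + oo (cv (Q 5 * Q 6)) i j m * Q 3) = 0 := by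
  have h := eval_rel Q i j m
  rw [hi, hj, mul_zero, mul_zero, zero_add, zero_sub] at h
  constructor
  · intro hm
    rw [hm, mul_zero] at h
    exact neg_eq_zero.1 h.symm
  · intro hm
    rw [hm, neg_zero] at h
    exact (mul_eq_zero.1 h).resolve_left (aa_ne hij)

private theorem zero_of {k : Type v} [Field k] [CharZero k] {Q : Fin (6 + 1) → k} {i j : Fin 8}
    (hij : i ≠ j) (hi : MvPolynomial.eval Q (FF k i) = 0)
    (hj : MvPolynomial.eval Q (FF k j) = 0) (h3 : Q 3 = 0) : Q 0 = 0 ∧ Q 1 = 0 := by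
  rw [eval_FF, h3, zero_mul, sub_zero] at hi hj
  have h1 : ((aa i : k) - aa j) * Q 1 = 0 := by linear_combination hj - hi
  have h2 : Q 1 = 0 := (mul_eq_zero.1 h1).resolve_left (aa_ne hij)
  refine ⟨?_, h2⟩
  rw [h2, mul_zero, sub_zero] at hi
  exact hi

private theorem eval_FF_zero {k : Type v} [Field k] {Q : Fin (6 + 1) → k} (h0 : Q 0 = 0)
    (h1 : Q 1 = 0) (h3 : Q 3 = 0) (l : Fin 8) : MvPolynomial.eval Q (FF k l) = 0 := by
  rw [eval_FF, h0, h1, h3]
  ring

private theorem exists_third : ∀ i j : Fin 8, ∃ m : Fin 8, m ≠ i ∧ m ≠ j := by decide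

/-! ### ideals -/

private theorem mem_van {k : Type v} [Field k] {V : Set (Fin (6 + 1) → k)}
    {G : MvPolynomial (Fin (6 + 1)) k} : G ∈ MvPolynomial.vanishingIdeal k V ↔
      ∀ Q ∈ V, MvPolynomial.eval Q G = 0 := by
  rw [MvPolynomial.mem_vanishingIdeal_iff]
  rfl

private theorem mem_zer {k : Type v} [Field k] {V : Set (Fin (6 + 1) → k)}
    {Q : Fin (6 + 1) → k} (h : Q ∈ V) :
    Q ∈ MvPolynomial.zeroLocus k (MvPolynomial.vanishingIdeal k V) :=
  MvPolynomial.zeroLocus_vanishingIdeal_le V h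

private theorem germIdeal_ne {k : Type v} [Field k] {V : Set (Fin (6 + 1) → k)}
    {Q : Fin (6 + 1) → k} (h : Q ∈ V) : germIdeal Q (MvPolynomial.vanishingIdeal k V) ≠ ⊤ := by
  intro htop
  have h1 : germIdeal Q (MvPolynomial.vanishingIdeal k V) ≤
      RingHom.ker (constantCoeff (σ := Fin (6 + 1)) (R := k)) := by
    refine Ideal.map_le_iff_le_comap.2 fun G hG => ?_
    rw [Ideal.mem_comap, RingHom.mem_ker, constantCoeff_germ]
    exact mem_van.1 hG Q h
  have h2 : (1 : MvPowerSeries (Fin (6 + 1)) k) ∈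
      RingHom.ker (constantCoeff (σ := Fin (6 + 1)) (R := k)) := h1 (htop ▸ Submodule.mem_top)
  rw [RingHom.mem_ker, map_one] at h2
  exact one_ne_zero h2

private theorem mem_germ {k : Type v} [Field k] {V : Set (Fin (6 + 1) → k)}
    {Q : Fin (6 + 1) → k} {G : MvPolynomial (Fin (6 + 1)) k}
    (h : ∀ Q ∈ V, MvPolynomial.eval Q G = 0) :
    germ Q G ∈ germIdeal Q (MvPolynomial.vanishingIdeal k V) :=
  Ideal.mem_map_of_mem _ (mem_van.2 h)

private theorem germ_xx {k : Type v} [Field k] (Q : Fin (6 + 1) → k) (i : Fin (6 + 1)) :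
    germ Q (xx k i) = X i + C (Q i) := by
  simp [germ]

private theorem germ_xx0 {k : Type v} [Field k] {Q : Fin (6 + 1) → k} {i : Fin (6 + 1)}
    (h : Q i = 0) : germ Q (xx k i) = X i := by
  rw [germ_xx, h, map_zero, add_zero]

/-! ### the pairs -/

section

variable (k : Type v) [Field k] [IsAlgClosed k] [CharZero k]

private theorem neg_pair (l : LT) {Q : Fin (6 + 1) → k} (hQ : Q ∈ ZZ k (.inl l)) {m : Fin 8}
    (h1 : m ≠ l.1.1) (h2 : m ≠ l.1.2) (hm : MvPolynomial.eval Q (FF k m) = 0) :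
    ¬ EquisingAt (Fpol k) Q (MvPolynomial.vanishingIdeal k (ZZ k (.inl l))) := by
  have hl : l.1.1 ≠ l.1.2 := l.2.ne
  refine negM Q _ (irr_pair k l).2 (mem_zer hQ) {l.1.1, l.1.2} (fun a => ?_) ?_ m ?_ hm
  · constructor
    · intro ha
      by_contra hcon
      simp only [Finset.mem_insert, Finset.mem_singleton, not_or] at hcon
      have hb : oo (bv (0 : k)) l.1.1 l.1.2 a ≠ 0 :=
        oo_ne (numQ_zero k) hl (Ne.symm hcon.1) (Ne.symm hcon.2)
      obtain ⟨P, e2, e3, e4, e5, -, hh, hi, hj⟩ := exists_pt (k := k) hl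
        ((1 - oo (cv (0 : k)) l.1.1 l.1.2 a) / oo (bv (0 : k)) l.1.1 l.1.2 a) 1
      have h3 := (rel_of a hl hi hj).1 (mem_van.1 ha P ⟨hh, hi, hj⟩)
      rw [e2, e3, e4, e5, mul_div_cancel₀ _ hb] at h3
      simp at h3
    · intro ha
      simp only [Finset.mem_insert, Finset.mem_singleton] at ha
      rw [mem_van]
      rintro Q' ⟨-, h3, h4⟩
      rcases ha with rfl | rfl
      · exact h3
      · exact h4
  · rw [Finset.card_pair hl]
  · simp [h1, h2]

private theorem neg_tri (T : TT) {Q : Fin (6 + 1) → k} (hQ : Q ∈ ZZ k (.inr (.inl T)))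
    (h0 : Q 0 = 0) (h1 : Q 1 = 0) (h3 : Q 3 = 0) :
    ¬ EquisingAt (Fpol k) Q (MvPolynomial.vanishingIdeal k (ZZ k (.inr (.inl T)))) := by
  obtain ⟨⟨i, j, m⟩, hij, hjm⟩ := T
  simp only at hij hjm
  have him : i < m := hij.trans hjm
  obtain ⟨l, hl⟩ : ∃ l : Fin 8, l ∉ ({i, j, m} : Finset (Fin 8)) := by
    by_contra hcon
    push Not at hcon
    have h4 : (Finset.univ : Finset (Fin 8)) ⊆ {i, j, m} := fun x _ => hcon x
    have h5 := Finset.card_le_card h4
    have h6 : ({i, j, m} : Finset (Fin 8)).card ≤ 3 := Finset.card_le_three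
    rw [Finset.card_univ, Fintype.card_fin] at h5
    omega
  refine negM Q _ (irr_tri k ⟨(i, j, m), hij, hjm⟩).2 (mem_zer hQ) {i, j, m} (fun a => ?_) ?_ l hl
    (eval_FF_zero h0 h1 h3 l)
  · constructor
    · intro ha
      by_contra hcon
      simp only [Finset.mem_insert, Finset.mem_singleton, not_or] at hcon
      have hb : oo (bv (0 : k)) i j m ≠ 0 := oo_ne0 (numQ_zero k) hij hjm
      obtain ⟨P, e2, e3, e4, e5, hn, hh, hi, hj⟩ := exists_pt (k := k) hij.ne
        (-oo (cv (0 : k)) i j m) (oo (bv (0 : k)) i j m)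
      have hrel : oo (bv (P 4)) i j m * P 2 + oo (cv (P 5 * P 6)) i j m * P 3 = 0 := by
        rw [e2, e3, e4, e5]
        ring
      have hm : MvPolynomial.eval P (FF k m) = 0 := by
        rw [rel_of m hij.ne hi hj, hrel, mul_zero]
      have hP : P ∈ ZZ k (.inr (.inl ⟨(i, j, m), hij, hjm⟩)) := ⟨hh, hi, hj, hrel⟩
      have hmem : ∀ b, MvPolynomial.eval P (FF k b) = 0 → germ P (FF k b) ∈
          RingHom.ker (constantCoeff (σ := Fin (6 + 1)) (R := k)) := by
        intro b hb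
        rw [RingHom.mem_ker, constantCoeff_germ, hb]
      have hne : RingHom.ker (constantCoeff (σ := Fin (6 + 1)) (R := k)) ≠ ⊤ :=
        RingHom.ker_ne_top _
      exact (posT P i j m hij hjm hi hj hm (by rw [e3]; exact hb) hn _ hne (hmem _ hi) (hmem _ hj)
        (hmem _ hm)).1 a hcon.1 hcon.2.1 hcon.2.2 (mem_van.1 ha P hP)
    · intro ha
      simp only [Finset.mem_insert, Finset.mem_singleton] at ha
      rw [mem_van]
      rintro Q' ⟨-, h4, h5, h6⟩
      rcases ha with rfl | rfl | rfl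
      · exact h4
      · exact h5
      · rw [rel_of a hij.ne h4 h5]
        simp only at h6
        rw [h6, mul_zero]
  · have h7 : ({i, j} : Finset (Fin 8)) ⊆ {i, j, m} := by
      intro x hx
      simp only [Finset.mem_insert, Finset.mem_singleton] at hx ⊢
      tauto
    have h8 := Finset.card_le_card h7
    rwa [Finset.card_pair hij.ne] at h8

theorem bad_pair (l : LT) : {Q ∈ ZZ k (.inl l) | ¬ EquisingAt (Fpol k) Q
    (MvPolynomial.vanishingIdeal k (ZZ k (.inl l)))} = ⋃ i, ⋃ (_ : sub (.inl l) i), ZZ k i := by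
  obtain ⟨⟨i, j⟩, hij⟩ := l
  simp only at hij
  ext Q
  simp only [Set.mem_ofPred_eq, Set.mem_iUnion, exists_prop]
  constructor
  · rintro ⟨hQ, hne⟩
    obtain ⟨hh, hi, hj⟩ := hQ
    have hQ : Q ∈ ZZ k (.inl ⟨(i, j), hij⟩) := ⟨hh, hi, hj⟩
    simp only at hi hj
    have hn := numQ_of_hpol Q hh
    by_cases h3 : Q 3 = 0
    · obtain ⟨h0, h1⟩ := zero_of hij.ne hi hj h3
      refine ⟨.inr (.inr 0), rfl, hh, h0, h1, h3, fun h => absurd rfl h, fun h => ?_, fun h => ?_⟩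
      · simp at h
      · simp at h
    · have h4 : ∃ m, m ≠ i ∧ m ≠ j ∧ MvPolynomial.eval Q (FF k m) = 0 := by
        by_contra hcon
        push Not at hcon
        apply hne
        apply EqAll.equisingAt
        exact posX Q i j hij hi hj hcon _ (germIdeal_ne hQ) (mem_germ fun Q' h => h.2.1)
          (mem_germ fun Q' h => h.2.2)
      obtain ⟨m, hmi, hmj, hm⟩ := h4
      have h5 := (mul_eq_zero.1 ((rel_of m hij.ne hi hj).1 hm)).resolve_left h3
      rcases lt_or_gt_of_ne hmi with a1 | a1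
      · refine ⟨.inr (.inl ⟨(m, i, j), a1, hij⟩), Or.inr (Or.inr ⟨rfl, rfl⟩), hh, hm, hi, ?_⟩
        have h6 : oo (bv (Q 4)) m i j * Q 2 + oo (cv (Q 5 * Q 6)) m i j * Q 3 =
            oo (bv (Q 4)) i j m * Q 2 + oo (cv (Q 5 * Q 6)) i j m * Q 3 := by
          unfold oo
          ring
        exact h6.trans h5
      · rcases lt_or_gt_of_ne hmj with a2 | a2
        · refine ⟨.inr (.inl ⟨(i, m, j), a1, a2⟩), Or.inr (Or.inl ⟨rfl, rfl⟩), hh, hi, hm, ?_⟩
          have h6 : oo (bv (Q 4)) i m j * Q 2 + oo (cv (Q 5 * Q 6)) i m j * Q 3 =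
              -(oo (bv (Q 4)) i j m * Q 2 + oo (cv (Q 5 * Q 6)) i j m * Q 3) := by
            unfold oo
            ring
          exact h6.trans (by rw [h5, neg_zero])
        · exact ⟨.inr (.inl ⟨(i, j, m), hij, a2⟩), Or.inl ⟨rfl, rfl⟩, hh, hi, hj, h5⟩
  · rintro ⟨a, ha, hQ⟩
    rcases a with b | T | c
    · exact absurd ha (by simp [sub])
    · obtain ⟨⟨i', j', m'⟩, hij', hjm'⟩ := T
      simp only at hij' hjm'
      obtain ⟨hh, hi, hj, hr⟩ := hQ
      simp only at hi hj hr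
      have hm : MvPolynomial.eval Q (FF k m') = 0 := by
        rw [rel_of m' hij'.ne hi hj, hr, mul_zero]
      rcases ha with ⟨ha1, ha2⟩ | ⟨ha1, ha2⟩ | ⟨ha1, ha2⟩
      · simp only at ha1 ha2
        subst ha1 ha2
        have hQ : Q ∈ ZZ k (.inl ⟨(i, j), hij⟩) := ⟨hh, hi, hj⟩
        exact ⟨hQ, neg_pair k _ hQ (m := m') (hij.trans hjm').ne' hjm'.ne' hm⟩
      · simp only at ha1 ha2
        subst ha1 ha2
        have hQ : Q ∈ ZZ k (.inl ⟨(i, j), hij⟩) := ⟨hh, hi, hm⟩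
        exact ⟨hQ, neg_pair k _ hQ (m := j') hij'.ne' hjm'.ne hj⟩
      · simp only at ha1 ha2
        subst ha1 ha2
        have hQ : Q ∈ ZZ k (.inl ⟨(i, j), hij⟩) := ⟨hh, hj, hm⟩
        exact ⟨hQ, neg_pair k _ hQ (m := i') hij'.ne (hij'.trans hij).ne hi⟩
    · obtain ⟨hh, h0, h1, h3, -⟩ := hQ
      have hQ : Q ∈ ZZ k (.inl ⟨(i, j), hij⟩) :=
        ⟨hh, eval_FF_zero h0 h1 h3 _, eval_FF_zero h0 h1 h3 _⟩
      obtain ⟨m, hm1, hm2⟩ := exists_third i j
      exact ⟨hQ, neg_pair k _ hQ hm1 hm2 (eval_FF_zero h0 h1 h3 _)⟩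

theorem bad_tri (T : TT) : {Q ∈ ZZ k (.inr (.inl T)) | ¬ EquisingAt (Fpol k) Q
    (MvPolynomial.vanishingIdeal k (ZZ k (.inr (.inl T))))} =
      ⋃ i, ⋃ (_ : sub (.inr (.inl T)) i), ZZ k i := by
  obtain ⟨⟨i, j, m⟩, hij, hjm⟩ := T
  simp only at hij hjm
  ext Q
  simp only [Set.mem_ofPred_eq, Set.mem_iUnion, exists_prop]
  constructor
  · rintro ⟨hQ, hne⟩
    obtain ⟨hh, hi, hj, hr⟩ := hQ
    have hQ : Q ∈ ZZ k (.inr (.inl ⟨(i, j, m), hij, hjm⟩)) := ⟨hh, hi, hj, hr⟩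
    simp only at hi hj hr
    have hn := numQ_of_hpol Q hh
    have h3 : Q 3 = 0 := by
      by_contra h3
      apply hne
      apply EqAll.equisingAt
      have hm : MvPolynomial.eval Q (FF k m) = 0 := by
        rw [rel_of m hij.ne hi hj, hr, mul_zero]
      refine (posT Q i j m hij hjm hi hj hm h3 hn _ (germIdeal_ne hQ)
        (mem_germ fun Q' h => h.2.1) (mem_germ fun Q' h => h.2.2.1) (mem_germ fun Q' h => ?_)).2
      obtain ⟨-, h4, h5, h6⟩ := h
      simp only at h4 h5 h6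
      rw [rel_of m hij.ne h4 h5, h6, mul_zero]
    obtain ⟨h0, h1⟩ := zero_of hij.ne hi hj h3
    have h2 : Q 2 = 0 := by
      rw [h3, mul_zero, add_zero] at hr
      have hb : oo (bv (Q 4)) i j m ≠ 0 := oo_ne0 hn hij hjm
      exact (mul_eq_zero.1 hr).resolve_left hb
    refine ⟨.inr (.inr 1), rfl, hh, h0, h1, h3, fun _ => h2, fun h => ?_, fun h => ?_⟩
    · simp at h
    · simp at h
  · rintro ⟨a, ha, hQ⟩
    rcases a with b | T | c
    · exact absurd ha (by simp [sub])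
    · exact absurd ha (by simp [sub])
    · have hc : c = 1 := ha
      subst hc
      obtain ⟨hh, h0, h1, h3, h2, -⟩ := hQ
      have h2 : Q 2 = 0 := h2 (by decide)
      have hQ : Q ∈ ZZ k (.inr (.inl ⟨(i, j, m), hij, hjm⟩)) :=
        ⟨hh, eval_FF_zero h0 h1 h3 _, eval_FF_zero h0 h1 h3 _, by rw [h2, h3]; ring⟩
      exact ⟨hQ, neg_tri k _ hQ h0 h1 h3⟩

private theorem bad_0 : {Q ∈ ZZ k (.inr (.inr 0)) | ¬ EquisingAt (Fpol k) Q
    (MvPolynomial.vanishingIdeal k (ZZ k (.inr (.inr 0))))} =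
      ⋃ i, ⋃ (_ : sub (.inr (.inr 0)) i), ZZ k i := by
  ext Q
  simp only [Set.mem_ofPred_eq, Set.mem_iUnion, exists_prop]
  constructor
  · rintro ⟨hQ, hne⟩
    have hQ' := hQ
    obtain ⟨hh, h0, h1, h3, -⟩ := hQ
    have hn := numQ_of_hpol Q hh
    have h2 : Q 2 = 0 := by
      by_contra h2
      apply hne
      apply EqAll.equisingAt
      refine posBp Q h0 h1 h2 h3 hn _ (germIdeal_ne hQ') ?_ ?_ ?_
      · rw [← germ_xx0 h0]
        exact mem_germ fun Q' h => by rw [MvPolynomial.eval_X]; exact h.2.1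
      · rw [← germ_xx0 h1]
        exact mem_germ fun Q' h => by rw [MvPolynomial.eval_X]; exact h.2.2.1
      · rw [← germ_xx0 h3]
        exact mem_germ fun Q' h => by rw [MvPolynomial.eval_X]; exact h.2.2.2.1
    refine ⟨.inr (.inr 1), Or.inl ⟨rfl, rfl⟩, hh, h0, h1, h3, fun _ => h2, fun h => ?_,
      fun h => ?_⟩
    · simp at h
    · simp at h
  · rintro ⟨a, ha, hQ⟩
    rcases a with b | T | c
    · exact absurd ha (by simp [sub])
    · exact absurd ha (by simp [sub])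
    · have hc : c = 1 := by simpa [sub] using ha
      subst hc
      obtain ⟨hh, h0, h1, h3, h2, -⟩ := hQ
      have h2 : Q 2 = 0 := h2 (by decide)
      have hn := numQ_of_hpol Q hh
      refine ⟨⟨hh, h0, h1, h3, fun h => absurd rfl h, fun h => ?_, fun h => ?_⟩, fun he => ?_⟩
      · simp at h
      · simp at h
      · have h4 := he.equising
        rw [vanishing_bp, Ideal.map_span, Set.image_insert_eq, Set.image_pair] at h4
        have h5 : Equising (6 + 1) k (germ Q (Fpol k))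
            (Ideal.span {germ Q (xx k 0), germ Q (xx k 1), germ Q (xx k 3)}) := h4
        rw [germ_xx0 h0, germ_xx0 h1, germ_xx0 h3] at h5
        exact negBp Q h0 h1 h2 h3 hn h5

private theorem bad_1 : {Q ∈ ZZ k (.inr (.inr 1)) | ¬ EquisingAt (Fpol k) Q
    (MvPolynomial.vanishingIdeal k (ZZ k (.inr (.inr 1))))} =
      ⋃ i, ⋃ (_ : sub (.inr (.inr 1)) i), ZZ k i := by
  ext Q
  simp only [Set.mem_ofPred_eq, Set.mem_iUnion, exists_prop]
  constructor
  · rintro ⟨hQ, hne⟩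
    have hQ' := hQ
    obtain ⟨hh, h0, h1, h3, h2, -⟩ := hQ
    have h2 : Q 2 = 0 := h2 (by decide)
    have hn := numQ_of_hpol Q hh
    have h4 : Q 4 = 0 ∧ Q 5 * Q 6 = 0 := by
      by_contra h4
      apply hne
      apply EqAll.equisingAt
      refine posB Q h0 h1 h2 h3 hn h4 _ (germIdeal_ne hQ') ?_ ?_ ?_ ?_
      · rw [← germ_xx0 h0]
        exact mem_germ fun Q' h => by rw [MvPolynomial.eval_X]; exact h.2.1
      · rw [← germ_xx0 h1]
        exact mem_germ fun Q' h => by rw [MvPolynomial.eval_X]; exact h.2.2.1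
      · rw [← germ_xx0 h2]
        exact mem_germ fun Q' h => by rw [MvPolynomial.eval_X]; exact h.2.2.2.2.1 (by decide)
      · rw [← germ_xx0 h3]
        exact mem_germ fun Q' h => by rw [MvPolynomial.eval_X]; exact h.2.2.2.1
    obtain ⟨h4, h56⟩ := h4
    rcases mul_eq_zero.1 h56 with h5 | h6
    · refine ⟨.inr (.inr 2), Or.inr ⟨rfl, Or.inl rfl⟩, hh, h0, h1, h3, fun _ => h2,
        fun _ => ⟨h4, h5⟩, fun h => ?_⟩
      simp at h
    · refine ⟨.inr (.inr 3), Or.inr ⟨rfl, Or.inr rfl⟩, hh, h0, h1, h3, fun _ => h2,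
        fun h => ?_, fun _ => ⟨h4, h6⟩⟩
      simp at h
  · rintro ⟨a, ha, hQ⟩
    rcases a with b | T | c
    · exact absurd ha (by simp [sub])
    · exact absurd ha (by simp [sub])
    · have hc : c = 2 ∨ c = 3 := by simpa [sub] using ha
      obtain ⟨hh, h0, h1, h3, h2, ha, hb⟩ := hQ
      have hc0 : c ≠ 0 := by rcases hc with rfl | rfl <;> decide
      have h2 : Q 2 = 0 := h2 hc0
      have h4 : Q 4 = 0 ∧ Q 5 * Q 6 = 0 := by
        rcases hc with rfl | rfl
        · obtain ⟨h4, h5⟩ := ha rfl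
          exact ⟨h4, by rw [h5, zero_mul]⟩
        · obtain ⟨h4, h5⟩ := hb rfl
          exact ⟨h4, by rw [h5, mul_zero]⟩
      have hn := numQ_of_hpol Q hh
      refine ⟨⟨hh, h0, h1, h3, fun _ => h2, fun h => ?_, fun h => ?_⟩, fun he => ?_⟩
      · simp at h
      · simp at h
      · have h7 := he.equising
        rw [vanishing_b, Ideal.map_span, Set.image_insert_eq, Set.image_insert_eq,
          Set.image_pair] at h7
        have h8 : Equising (6 + 1) k (germ Q (Fpol k))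
            (Ideal.span {germ Q (xx k 0), germ Q (xx k 1), germ Q (xx k 2),
              germ Q (xx k 3)}) := h7
        rw [germ_xx0 h0, germ_xx0 h1, germ_xx0 h2, germ_xx0 h3] at h8
        exact negB Q h0 h1 h2 h3 hn h4.1 h4.2 h8

private theorem bad_23 (c : Fin 4) (hc : c = 2 ∨ c = 3) :
    {Q ∈ ZZ k (.inr (.inr c)) | ¬ EquisingAt (Fpol k) Q
    (MvPolynomial.vanishingIdeal k (ZZ k (.inr (.inr c))))} =
      ⋃ i, ⋃ (_ : sub (.inr (.inr c)) i), ZZ k i := by
  have hc0 : c ≠ 0 := by rcases hc with rfl | rfl <;> decide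
  have key : ∀ Q ∈ ZZ k (.inr (.inr c)), Q 0 = 0 ∧ Q 1 = 0 ∧ Q 2 = 0 ∧ Q 3 = 0 ∧ Q 4 = 0 ∧
      Q 5 * Q 6 = 0 := by
    rintro Q ⟨hh, h0, h1, h3, h2, ha, hb⟩
    have h2 : Q 2 = 0 := h2 hc0
    have h4 : Q 4 = 0 ∧ Q 5 * Q 6 = 0 := by
      rcases hc with rfl | rfl
      · obtain ⟨h4, h5⟩ := ha rfl
        exact ⟨h4, by rw [h5, zero_mul]⟩
      · obtain ⟨h4, h5⟩ := hb rfl
        exact ⟨h4, by rw [h5, mul_zero]⟩
    exact ⟨h0, h1, h2, h3, h4⟩
  ext Q
  simp only [Set.mem_ofPred_eq, Set.mem_iUnion, exists_prop]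
  constructor
  · rintro ⟨hQ, hne⟩
    exfalso
    apply hne
    apply EqAll.equisingAt
    obtain ⟨h0, h1, h2, h3, h4, h56⟩ := key Q hQ
    have hn := numQ_of_hpol Q hQ.1
    refine posM Q h0 h1 h2 h3 hn h4 h56 _ (germIdeal_ne hQ) ?_ ?_ ?_ ?_ ?_ ?_
    · rw [← germ_xx0 h0]
      exact mem_germ fun Q' h => by rw [MvPolynomial.eval_X]; exact (key Q' h).1
    · rw [← germ_xx0 h1]
      exact mem_germ fun Q' h => by rw [MvPolynomial.eval_X]; exact (key Q' h).2.1
    · rw [← germ_xx0 h2]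
      exact mem_germ fun Q' h => by rw [MvPolynomial.eval_X]; exact (key Q' h).2.2.1
    · rw [← germ_xx0 h3]
      exact mem_germ fun Q' h => by rw [MvPolynomial.eval_X]; exact (key Q' h).2.2.2.1
    · rw [← germ_xx0 h4]
      exact mem_germ fun Q' h => by rw [MvPolynomial.eval_X]; exact (key Q' h).2.2.2.2.1
    · rw [← germ_xx, ← germ_xx, ← map_mul]
      exact mem_germ fun Q' h => by
        rw [map_mul, MvPolynomial.eval_X, MvPolynomial.eval_X]
        exact (key Q' h).2.2.2.2.2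
  · rintro ⟨a, ha, hQ⟩
    exfalso
    rcases a with b | T | c'
    · exact absurd ha (by simp [sub])
    · exact absurd ha (by simp [sub])
    · rcases ha with ⟨h, -⟩ | ⟨h, -⟩
      · exact hc0 h
      · subst h
        revert hc
        decide

theorem bad_lin (c : Fin 4) : {Q ∈ ZZ k (.inr (.inr c)) | ¬ EquisingAt (Fpol k) Q
    (MvPolynomial.vanishingIdeal k (ZZ k (.inr (.inr c))))} =
      ⋃ i, ⋃ (_ : sub (.inr (.inr c)) i), ZZ k i := by
  have h : c = 0 ∨ c = 1 ∨ (c = 2 ∨ c = 3) := by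
    revert c
    decide
  rcases h with rfl | rfl | h
  · exact bad_0 k
  · exact bad_1 k
  · exact bad_23 k c h

end

end ZX
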