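import Pool.Agent.H9.Zar.Alg
import Pool.Agent.H9.Zar.Coord
import Pool.Agent.H85.Zar.OpenDefs

set_option linter.style.longLine false

/-! Counterexample to the disjointness of Zariski's strata: auxiliary definitions. -/

namespace ZX

open MvPowerSeries H9.Zar

universe v

/-- the singular locus contains `V(I)` and the inductive step holds for ALL coordinates -/
def EqAll {n : ℕ} {k : Type v} [Field k] (f : MvPowerSeries (Fin (n + 1)) k)
    (I : Ideal (MvPowerSeries (Fin (n + 1)) k)) : Prop :=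
  singIdeal f ≤ I.radical ∧
    ∀ φ : SerAut (n + 1) k, StepWith (fun K _ D J => Equising n K D J) k φ f I

/-- `D0` is the equation of the discriminant hypersurface of the projection `Θ` of `f = 0` -/
def DiscrIs {n : ℕ} {k : Type v} [Field k] (f : MvPowerSeries (Fin (n + 1)) k)
    (Θ : ProjIso n (GenField n k)) (D0 : MvPowerSeries (Fin n) (GenField n k)) : Prop :=
  (∃ G, IsEq Θ (ext n k f) G ∧ IsRedDiscr G D0) ∧
    ∀ G D, IsEq Θ (ext n k f) G → IsRedDiscr G D → Associated D D0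

/-- the derivation `∂/∂z` of `K[[X_1, ..., X_(n+1)]] = K[[y]][[z]]` -/
noncomputable def dTh {n : ℕ} {K : Type v} [Field K] (Θ : ProjIso n K) :
    Derivation K (MvPowerSeries (Fin (n + 1)) K) (MvPowerSeries (Fin (n + 1)) K) :=
  conj Θ (DP K n 0)

/-- A smooth germ `P = 0` transversal to the direction of the projection `Θ` is a graph `z = g`;
`π` is the restriction to this graph. -/
structure Sheet {n : ℕ} {K : Type v} [Field K] (Θ : ProjIso n K)
    (P : MvPowerSeries (Fin (n + 1)) K) where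
  g : MvPowerSeries (Fin n) K
  U : MvPowerSeries (Fin (n + 1)) K
  π : MvPowerSeries (Fin (n + 1)) K →+* MvPowerSeries (Fin n) K
  g0 : constantCoeff g = 0
  hU : IsUnit U
  eq : P = U * (Θ PowerSeries.X - Θ (PowerSeries.C g))
  πC : ∀ y, π (Θ (PowerSeries.C y)) = y
  πX : π (Θ PowerSeries.X) = g
  πker : ∀ x, π x = 0 ↔ P ∣ x

/-! ### the numbers -/

def aa : Fin 8 → ℤ := ![6, 2, -7, -4, -5, -3, 3, 4]
def b0 : Fin 8 → ℤ := ![6, 2, 0, 0, 4, 2, -10, -13]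
def c0 : Fin 8 → ℤ := ![1, 1, 0, 0, -5, -5, -7, -7]

section

variable {R : Type*} [CommRing R]

/-- `b_i`, with `b_0 = 6 + σ` -/
def bv (σ : R) (i : Fin 8) : R := (b0 i : R) + if i = 0 then σ else 0

/-- `c_i`, with `c_0 = 1 + τ` -/
def cv (τ : R) (i : Fin 8) : R := (c0 i : R) + if i = 0 then τ else 0

def nn (z t : R) (x : Fin 8 → R) (l : Fin 8 × Fin 8) : R :=
  (z - (aa l.2 : R) * t) * x l.1 - (z - (aa l.1 : R) * t) * x l.2

def dd (z t : R) (x : Fin 8 → R) (P : (Fin 8 × Fin 8) × (Fin 8 × Fin 8)) : R :=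
  ((aa P.2.1 : R) - (aa P.2.2 : R)) * nn z t x P.1 -
    ((aa P.1.1 : R) - (aa P.1.2 : R)) * nn z t x P.2

/-- the determinant of the rows `(1, a_i, x_i)`, up to sign -/
def oo (x : Fin 8 → R) (i j m : Fin 8) : R :=
  ((aa j : R) - aa m) * x i - ((aa i : R) - aa m) * x j + ((aa i : R) - aa j) * x m

def Det (z t : R) (b c : Fin 8 → R) (P P' : (Fin 8 × Fin 8) × (Fin 8 × Fin 8)) : R :=
  dd z t b P * dd z t c P' - dd z t b P' * dd z t c P

end

/-- the pairs `i < j` -/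
def LL : Finset (Fin 8 × Fin 8) := Finset.univ.filter fun l => l.1 < l.2

/-- representatives `((i,j),(i,m))`, `i < j < m`, and `((i,j),(l,m))`, `i < l`, disjoint -/
def SS : Finset ((Fin 8 × Fin 8) × (Fin 8 × Fin 8)) :=
  (LL ×ˢ LL).filter fun P => (P.1.1 = P.2.1 ∧ P.1.2 < P.2.2) ∨
    (P.1.1 < P.2.1 ∧ P.1.2 ≠ P.2.1 ∧ P.1.2 ≠ P.2.2)

/-- the star pair -/
def Pa : (Fin 8 × Fin 8) × (Fin 8 × Fin 8) := ((0, 1), (2, 3))
def Pb : (Fin 8 × Fin 8) × (Fin 8 × Fin 8) := ((4, 5), (6, 7))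

/-- the nonvanishing conditions at `w = -17`, at the point `(q0, q1, q2)` -/
structure NumQ {k : Type*} [Field k] (q : Fin 3 → k) : Prop where
  ddb : ∀ l ∈ LL, ∀ m ∈ LL, l ≠ m → dd (-17) 1 (bv (q 0)) (l, m) ≠ 0
  det : ∀ P ∈ SS, ∀ P' ∈ SS, P ≠ P' → ¬(P = Pa ∧ P' = Pb) → ¬(P = Pb ∧ P' = Pa) →
    Det (-17) 1 (bv (q 0)) (cv (q 1 * q 2)) P P' ≠ 0

section

variable {K : Type*} [Field K] {n : ℕ}

/-- `s_1` at the point `q` -/
noncomputable def sg (q : Fin 3 → K) (y : Fin 3 → MvPowerSeries (Fin n) K) :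
    MvPowerSeries (Fin n) K := y 0 + C (q 0)

/-- `s_2 s_3` at the point `q` -/
noncomputable def tg (q : Fin 3 → K) (y : Fin 3 → MvPowerSeries (Fin n) K) :
    MvPowerSeries (Fin n) K := (y 1 + C (q 1)) * (y 2 + C (q 2))

/-- the nonvanishing conditions for the direction `z : t` -/
structure NumOK (z t σ τ : MvPowerSeries (Fin n) K) : Prop where
  t0 : constantCoeff t ≠ 0
  zz : ∀ i, constantCoeff (z - (aa i : MvPowerSeries (Fin n) K) * t) ≠ 0
  ddb : ∀ l ∈ LL, ∀ m ∈ LL, l ≠ m → constantCoeff (dd z t (bv σ) (l, m)) ≠ 0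
  det : ∀ P ∈ SS, ∀ P' ∈ SS, P ≠ P' → ¬(P = Pa ∧ P' = Pb) → ¬(P = Pb ∧ P' = Pa) →
    constantCoeff (Det z t (bv σ) (cv τ) P P') ≠ 0

/-- either the two slopes of the star pair differ, or `q` is on `s_1 = s_2 s_3 = 0` -/
def Cas (z t : MvPowerSeries (Fin n) K) (q : Fin 3 → K) : Prop :=
  constantCoeff t * q 0 - constantCoeff z * (q 1 * q 2) ≠ 0 ∨ (q 0 = 0 ∧ q 1 * q 2 = 0)

/-- data after one projection -/
structure Lev1 (T ρ ε : MvPowerSeries (Fin 6) K) (y : Fin 3 → MvPowerSeries (Fin 6) K)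
    (z t : MvPowerSeries (Fin 6) K) (q : Fin 3 → K)
    (d u : Fin 8 × Fin 8 → MvPowerSeries (Fin 6) K) : Prop where
  span : Ideal.span ({T, ρ, ε} ∪ Set.range y) =
    IsLocalRing.maximalIdeal (MvPowerSeries (Fin 6) K)
  y0 : ∀ i, constantCoeff (y i) = 0
  num : NumOK z t (sg q y) (tg q y)
  cas : Cas z t q
  unit : ∀ l ∈ LL, IsUnit (u l)
  tri : ∀ i j m : Fin 8, i < j → j < m →
    u (i, m) * d (i, m) = u (i, j) * d (i, j) + u (j, m) * d (j, m)
  eq : ∀ l ∈ LL, ∃ h, d l = T + ε * h ∧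
    ((aa l.1 : MvPowerSeries (Fin 6) K) - (aa l.2 : MvPowerSeries (Fin 6) K)) * h +
      (nn z t (bv (sg q y)) l * ρ + nn z t (cv (tg q y)) l * ε) ∈
      Ideal.span {ρ, ε} * Ideal.span {T, ρ, ε}

/-- data after two projections -/
structure Lev2 (ρ ε : MvPowerSeries (Fin 5) K) (y : Fin 3 → MvPowerSeries (Fin 5) K)
    (z t : MvPowerSeries (Fin 5) K) (q : Fin 3 → K)
    (G : (Fin 8 × Fin 8) × (Fin 8 × Fin 8) → MvPowerSeries (Fin 5) K) : Prop where
  span : Ideal.span ({ρ, ε} ∪ Set.range y) =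
    IsLocalRing.maximalIdeal (MvPowerSeries (Fin 5) K)
  y0 : ∀ i, constantCoeff (y i) = 0
  num : NumOK z t (sg q y) (tg q y)
  cas : Cas z t q
  eq : ∀ P ∈ SS, ∃ α β, G P = α * ρ + β * ε ∧
    α - dd z t (bv (sg q y)) P ∈ Ideal.span {ρ, ε} ∧ β - dd z t (cv (tg q y)) P ∈ Ideal.span {ρ, ε}

end

/-- the indices of the coordinates `s_1, s_2, s_3` -/
def yi : Fin 3 → Fin (6 + 1) := ![4, 5, 6]

/-- the equation of the sheet `i` at the point with `s = q` of `B` -/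
noncomputable def ff {k : Type v} [Field k] (q : Fin 3 → k) (i : Fin 8) :
    MvPowerSeries (Fin (6 + 1)) k :=
  X 0 - (aa i : MvPowerSeries (Fin (6 + 1)) k) * X 1 -
    X 3 * (bv (sg q fun j => X (yi j)) i * X 2 + cv (tg q fun j => X (yi j)) i * X 3)

/-! ### the affine hypersurface -/

section

variable (k : Type v) [Field k]

/-- the coordinate functions of affine 7-space -/
noncomputable abbrev xx (i : Fin (6 + 1)) : MvPolynomial (Fin (6 + 1)) k := MvPolynomial.X i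

/-- the sheet `F_i` -/
noncomputable def FF (i : Fin 8) : MvPolynomial (Fin (6 + 1)) k :=
  xx k 0 - (aa i : MvPolynomial (Fin (6 + 1)) k) * xx k 1 -
    xx k 3 * (bv (xx k 4) i * xx k 2 + cv (xx k 5 * xx k 6) i * xx k 3)

/-- the hypersurface -/
noncomputable def Fpol : MvPolynomial (Fin (6 + 1)) k := ∏ i, FF k i

/-- the open set is `hpol ≠ 0` -/
noncomputable def hpol : MvPolynomial (Fin (6 + 1)) k :=
  (∏ P ∈ (LL ×ˢ LL).filter (fun P => P.1 ≠ P.2), dd (-17) 1 (bv (xx k 4)) P) *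
  ∏ P ∈ (SS ×ˢ SS).filter (fun P => P.1 ≠ P.2 ∧ ¬(P.1 = Pa ∧ P.2 = Pb) ∧ ¬(P.1 = Pb ∧ P.2 = Pa)),
    Det (-17) 1 (bv (xx k 4)) (cv (xx k 5 * xx k 6)) P.1 P.2

end

/-! ### the strata -/

/-- the pairs of sheets -/
abbrev LT : Type := {l : Fin 8 × Fin 8 // l.1 < l.2}

/-- the triples of sheets -/
abbrev TT : Type := {T : Fin 8 × Fin 8 × Fin 8 // T.1 < T.2.1 ∧ T.2.1 < T.2.2}

/-- the index set of the closures of the strata contained in the singular locus: the pairs of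
sheets, the triples of sheets, and `B+`, `B`, `M_a`, `M_b` -/
abbrev JJ : Type := LT ⊕ (TT ⊕ Fin 4)

/-- the closures of the strata in the open set `hpol ≠ 0` -/
def ZZ (k : Type v) [Field k] : JJ → Set (Fin (6 + 1) → k)
  | .inl l => {Q | MvPolynomial.eval Q (hpol k) ≠ 0 ∧ MvPolynomial.eval Q (FF k l.1.1) = 0 ∧
      MvPolynomial.eval Q (FF k l.1.2) = 0}
  | .inr (.inl T) => {Q | MvPolynomial.eval Q (hpol k) ≠ 0 ∧
      MvPolynomial.eval Q (FF k T.1.1) = 0 ∧ MvPolynomial.eval Q (FF k T.1.2.1) = 0 ∧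
      oo (bv (Q 4)) T.1.1 T.1.2.1 T.1.2.2 * Q 2 +
        oo (cv (Q 5 * Q 6)) T.1.1 T.1.2.1 T.1.2.2 * Q 3 = 0}
  | .inr (.inr c) => {Q | MvPolynomial.eval Q (hpol k) ≠ 0 ∧ Q 0 = 0 ∧ Q 1 = 0 ∧ Q 3 = 0 ∧
      (c ≠ 0 → Q 2 = 0) ∧ (c = 2 → Q 4 = 0 ∧ Q 5 = 0) ∧ (c = 3 → Q 4 = 0 ∧ Q 6 = 0)}

/-- the components of the singular locus -/
def top : JJ → Prop
  | .inl _ => True
  | _ => False

/-- the components of the bad locus -/
def sub : JJ → JJ → Prop
  | .inl _, .inr (.inr c) => c = 0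
  | .inl l, .inr (.inl T) => (l.1.1 = T.1.1 ∧ l.1.2 = T.1.2.1) ∨ (l.1.1 = T.1.1 ∧ l.1.2 = T.1.2.2) ∨
      (l.1.1 = T.1.2.1 ∧ l.1.2 = T.1.2.2)
  | .inr (.inl _), .inr (.inr c) => c = 1
  | .inr (.inr b), .inr (.inr c) => (b = 0 ∧ c = 1) ∨ (b = 1 ∧ (c = 2 ∨ c = 3))
  | _, _ => False

/-- All the properties of Zariski's stratification `E_0, ..., E_N` of the hypersurface `F = 0` of
the open set `U`. -/
structure IsFullStratOn {k : Type v} [Field k] {r : ℕ} (F : MvPolynomial (Fin (r + 1)) k)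
    (U : Set (Fin (r + 1) → k)) (N : ℕ) (E : Fin (N + 1) → Set (Fin (r + 1) → k)) : Prop where
  on : IsStratOn F U N E
  sing : ∃ s : Set (Fin (N + 1)), singPts F ∩ U = ⋃ i ∈ s, E i
  bad : ∀ i, i ≠ 0 → ∃ s : Set (Fin (N + 1)), (zcl (E i) ∩ U) \ E i = ⋃ j ∈ s, E j

end ZX
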