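import Pool.Agent.ZX.Defs

set_option linter.style.longLine false

/-! ZX20: general geometry of open sets of affine space. -/

namespace ZX

open MvPowerSeries H9.Zar

universe v

section ZX20

variable {k : Type v} [Field k] {r : ℕ}

private lemma geo_mem_vanishing (A : Set (Fin (r + 1) → k)) (p : MvPolynomial (Fin (r + 1)) k) :
    p ∈ MvPolynomial.vanishingIdeal k A ↔ ∀ x ∈ A, MvPolynomial.eval x p = 0 := by
  rw [MvPolynomial.mem_vanishingIdeal_iff]
  exact forall₂_congr fun x _ => by rw [MvPolynomial.aeval_eq_eval]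

private lemma geo_mem_zcl (A : Set (Fin (r + 1) → k)) (x : Fin (r + 1) → k) :
    x ∈ zcl A ↔ ∀ p ∈ MvPolynomial.vanishingIdeal k A, MvPolynomial.eval x p = 0 := by
  unfold zcl
  rw [MvPolynomial.mem_zeroLocus_iff]
  exact forall₂_congr fun p _ => by rw [MvPolynomial.aeval_eq_eval]

private lemma geo_subset_zcl (A : Set (Fin (r + 1) → k)) : A ⊆ zcl A := by
  intro x hx
  rw [geo_mem_zcl]
  intro p hp
  exact (geo_mem_vanishing A p).1 hp x hx

private lemma geo_eval_aeval {m : ℕ} (ψ : Fin (r + 1) → MvPolynomial (Fin m) k) (s : Fin m → k)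
    (G : MvPolynomial (Fin (r + 1)) k) :
    MvPolynomial.eval s (MvPolynomial.aeval ψ G) =
      MvPolynomial.eval (fun i => MvPolynomial.eval s (ψ i)) G := by
  have h := DFunLike.congr_fun (MvPolynomial.comp_aeval ψ (MvPolynomial.aeval (R := k) s)) G
  rw [AlgHom.comp_apply] at h
  simpa only [MvPolynomial.aeval_eq_eval, RingHom.coe_coe] using h

theorem vanishing_param [Infinite k] {m : ℕ} (ψ : Fin (r + 1) → MvPolynomial (Fin m) k)
    (h : MvPolynomial (Fin (r + 1)) k) (hh : MvPolynomial.aeval ψ h ≠ 0) :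
    MvPolynomial.vanishingIdeal k
      {Q : Fin (r + 1) → k | (∃ s : Fin m → k, Q = fun i => MvPolynomial.eval s (ψ i)) ∧
        MvPolynomial.eval Q h ≠ 0} = RingHom.ker (MvPolynomial.aeval ψ) := by
  ext G
  rw [geo_mem_vanishing, RingHom.mem_ker]
  constructor
  · intro hG
    have h0 : MvPolynomial.aeval ψ G * MvPolynomial.aeval ψ h = 0 := by
      apply MvPolynomial.funext
      intro s
      rw [map_mul, map_zero]
      by_cases hs : MvPolynomial.eval s (MvPolynomial.aeval ψ h) = 0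
      · rw [hs, mul_zero]
      · rw [geo_eval_aeval, hG _ ⟨⟨s, rfl⟩, by rwa [geo_eval_aeval] at hs⟩, zero_mul]
    exact (mul_eq_zero.1 h0).resolve_right hh
  · rintro hG _ ⟨⟨s, rfl⟩, _⟩
    rw [← geo_eval_aeval, hG, map_zero]

/-- a closed subset of the open set -/
theorem closed_of {ι : Type*} (h : MvPolynomial (Fin (r + 1)) k)
    (G : ι → MvPolynomial (Fin (r + 1)) k) (Z : Set (Fin (r + 1) → k))
    (hZ : Z = {Q | MvPolynomial.eval Q h ≠ 0 ∧ ∀ i, MvPolynomial.eval Q (G i) = 0}) :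
    zcl Z ∩ openSet h = Z := by
  apply Set.Subset.antisymm
  · rintro Q ⟨hQ, hQh⟩
    rw [geo_mem_zcl] at hQ
    have hG : ∀ i, G i ∈ MvPolynomial.vanishingIdeal k Z := by
      intro i
      rw [geo_mem_vanishing]
      intro x hx
      rw [hZ] at hx
      exact hx.2 i
    have : Q ∈ {Q | MvPolynomial.eval Q h ≠ 0 ∧ ∀ i, MvPolynomial.eval Q (G i) = 0} :=
      ⟨hQh, fun i => hQ _ (hG i)⟩
    rwa [← hZ] at this
  · intro Q hQ
    refine ⟨geo_subset_zcl _ hQ, ?_⟩
    rw [hZ] at hQ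
    exact hQ.1

theorem irr_param [Infinite k] {m : ℕ} {ι : Type*} (ψ : Fin (r + 1) → MvPolynomial (Fin m) k)
    (h : MvPolynomial (Fin (r + 1)) k) (hh : MvPolynomial.aeval ψ h ≠ 0)
    (G : ι → MvPolynomial (Fin (r + 1)) k) (Z : Set (Fin (r + 1) → k))
    (hZ : Z = {Q | MvPolynomial.eval Q h ≠ 0 ∧ ∀ i, MvPolynomial.eval Q (G i) = 0})
    (hψ : Z = {Q : Fin (r + 1) → k | (∃ s : Fin m → k, Q = fun i => MvPolynomial.eval s (ψ i)) ∧
        MvPolynomial.eval Q h ≠ 0}) :
    IrrClosedIn (openSet h) Z := by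
  refine ⟨closed_of h G Z hZ, ?_⟩
  rw [hψ, vanishing_param ψ h hh]
  exact RingHom.ker_isPrime _

private lemma geo_separate (U : Set (Fin (r + 1) → k)) (Z B : Set (Fin (r + 1) → k))
    (hZ : IrrClosedIn U Z) (hB : zcl B ∩ U = B) (hne : ¬ Z ⊆ B) :
    ∃ b ∈ MvPolynomial.vanishingIdeal k B, b ∉ MvPolynomial.vanishingIdeal k Z := by
  obtain ⟨Q, hQ, hQB⟩ := Set.not_subset.1 hne
  have hQU : Q ∈ U := by
    have := hZ.1 ▸ hQ
    exact this.2
  have hQz : Q ∉ zcl B := fun h => hQB (by rw [← hB]; exact ⟨h, hQU⟩)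
  rw [geo_mem_zcl] at hQz
  push Not at hQz
  obtain ⟨b, hb, hbQ⟩ := hQz
  exact ⟨b, hb, fun h => hbQ ((geo_mem_vanishing _ _).1 h Q hQ)⟩

/-- an irreducible set contained in a finite union of closed sets is contained in one of them -/
theorem irr_union {J : Type*} [Finite J] (U : Set (Fin (r + 1) → k)) (Z : Set (Fin (r + 1) → k))
    (hZ : IrrClosedIn U Z) (P : J → Prop) (W : J → Set (Fin (r + 1) → k))
    (hW : ∀ j, zcl (W j) ∩ U = W j) (h : Z ⊆ ⋃ j, ⋃ (_ : P j), W j) : ∃ j, P j ∧ Z ⊆ W j := by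
  classical
  by_contra hcon
  push Not at hcon
  have hb : ∀ j, P j → ∃ b ∈ MvPolynomial.vanishingIdeal k (W j),
      b ∉ MvPolynomial.vanishingIdeal k Z := fun j hj =>
    geo_separate U Z (W j) hZ (hW j) (hcon j hj)
  choose! b hb1 hb2 using hb
  have := Fintype.ofFinite J
  have hprime := hZ.2
  have hprod : ∏ j ∈ Finset.univ.filter P, b j ∈ MvPolynomial.vanishingIdeal k Z := by
    rw [geo_mem_vanishing]
    intro x hx
    have hx' := h hx
    simp only [Set.mem_iUnion] at hx'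
    obtain ⟨j, hj, hxj⟩ := hx'
    rw [map_prod]
    exact Finset.prod_eq_zero (Finset.mem_filter.2 ⟨Finset.mem_univ j, hj⟩)
      ((geo_mem_vanishing _ _).1 (hb1 j hj) x hxj)
  rw [hprime.prod_mem_iff] at hprod
  obtain ⟨j, hj, hbj⟩ := hprod
  exact hb2 j (Finset.mem_filter.1 hj).2 hbj

theorem isCompIn_of_union {J : Type*} [Finite J] (U : Set (Fin (r + 1) → k)) (P : J → Prop)
    (Z : J → Set (Fin (r + 1) → k)) (hZ : ∀ j, IrrClosedIn U (Z j))
    (hne : ∀ i j, P i → P j → Z i ⊆ Z j → i = j) (j : J) (hj : P j) :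
    IsCompIn U (⋃ i, ⋃ (_ : P i), Z i) (Z j) := by
  refine ⟨hZ j, ?_, ?_⟩
  · intro x hx
    simp only [Set.mem_iUnion]
    exact ⟨j, hj, hx⟩
  · intro Z' hZ' hsub hle
    obtain ⟨i, hi, hi'⟩ := irr_union U Z' hZ' P Z (fun j => (hZ j).1) hsub
    have := hne j i hj hi (hle.trans hi')
    subst this
    exact Set.Subset.antisymm hi' hle

/-- removing a smaller closed set does not change the closure -/
theorem zcl_sdiff (U : Set (Fin (r + 1) → k)) (Z B : Set (Fin (r + 1) → k))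
    (hZ : IrrClosedIn U Z) (hB : zcl B ∩ U = B) (hBZ : B ⊆ Z) (hne : ¬ Z ⊆ B) :
    MvPolynomial.vanishingIdeal k (Z \ B) = MvPolynomial.vanishingIdeal k Z := by
  apply le_antisymm
  · intro G hG
    obtain ⟨b, hb1, hb2⟩ := geo_separate U Z B hZ hB hne
    have hprime := hZ.2
    have hmul : G * b ∈ MvPolynomial.vanishingIdeal k Z := by
      rw [geo_mem_vanishing] at hG hb1 ⊢
      intro x hx
      rw [map_mul]
      by_cases hxB : x ∈ B
      · rw [hb1 x hxB, mul_zero]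
      · rw [hG x ⟨hx, hxB⟩, zero_mul]
    exact (hprime.mem_or_mem hmul).resolve_right hb2
  · exact MvPolynomial.vanishingIdeal_anti_mono Set.sdiff_subset

end ZX20

end ZX
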