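import Pool.Agent.ZX.IrrZ

set_option linter.style.longLine false
set_option linter.unusedSectionVars false

/-! Inclusions between the closures of the strata. -/

namespace ZX

open MvPowerSeries H9.Zar

universe v

/-- the set of sheets of a pair -/
def prS (l : LT) : Finset (Fin 8) := {l.1.1, l.1.2}

/-- the set of sheets of a triple -/
def trS (T : TT) : Finset (Fin 8) := {T.1.1, T.1.2.1, T.1.2.2}

theorem card_prS (l : LT) : (prS l).card = 2 :=
  Finset.card_eq_two.2 ⟨_, _, ne_of_lt l.2, rfl⟩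

theorem card_trS (T : TT) : (trS T).card = 3 :=
  Finset.card_eq_three.2 ⟨_, _, _, ne_of_lt T.2.1, ne_of_lt (T.2.1.trans T.2.2), ne_of_lt T.2.2, rfl⟩

theorem prS_inj (l l' : LT) (h : prS l ⊆ prS l') : l = l' := by
  have key : ∀ a b c d : Fin 8, a < b → c < d → ({a, b} : Finset (Fin 8)) ⊆ {c, d} →
      a = c ∧ b = d := by decide +kernel
  obtain ⟨h1, h2⟩ := key _ _ _ _ l.2 l'.2 h
  exact Subtype.ext (Prod.ext h1 h2)

theorem trS_inj (T T' : TT) (h : trS T ⊆ trS T') : T = T' := by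
  have hm : ∀ x, x ∈ trS T → x ∈ trS T' := fun x hx => h hx
  have h1 := hm T.1.1 (by simp [trS])
  have h2 := hm T.1.2.1 (by simp [trS])
  have h3 := hm T.1.2.2 (by simp [trS])
  simp only [trS, Finset.mem_insert, Finset.mem_singleton] at h1 h2 h3
  obtain ⟨⟨a, b, c⟩, hab, hbc⟩ := T
  obtain ⟨⟨a', b', c'⟩, hab', hbc'⟩ := T'
  simp only at h1 h2 h3 hab hbc hab' hbc'
  have e1 : a = a' := by omega
  have e2 : b = b' := by omega
  have e3 : c = c' := by omega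
  subst e1 e2 e3
  rfl

section ZX23

variable (k : Type v) [Field k] [IsAlgClosed k] [CharZero k]

theorem ZZ_pair' (l : LT) : ZZ k (.inl l) =
    H51.Zar.zS (av k) (bvp k) (cvp k) (openSet (hpol k)) (prS l) := ZZ_pair k l

theorem ZZ_tri' (T : TT) : ZZ k (.inr (.inl T)) =
    H51.Zar.zS (av k) (bvp k) (cvp k) (openSet (hpol k)) (trS T) := ZZ_tri k T

private theorem inf : Infinite k := Infinite.of_injective (fun n : ℕ => (n : k)) Nat.cast_injective

/-- inclusions -/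
theorem incl_pp {l l' : LT} (h : ZZ k (.inl l) ⊆ ZZ k (.inl l')) : l = l' := by
  rw [ZZ_pair', ZZ_pair'] at h
  exact (prS_inj _ _ (H51.Zar.subset_of_zS_subset (good k) (Or.inl (card_prS l)) h)).symm

theorem incl_pt {l : LT} {T : TT} (h : ZZ k (.inl l) ⊆ ZZ k (.inr (.inl T))) : False := by
  rw [ZZ_pair', ZZ_tri'] at h
  have h1 := Finset.card_le_card (H51.Zar.subset_of_zS_subset (good k) (Or.inl (card_prS l)) h)
  rw [card_prS, card_trS] at h1
  omega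

theorem incl_tt {T T' : TT} (h : ZZ k (.inr (.inl T)) ⊆ ZZ k (.inr (.inl T'))) : T = T' := by
  rw [ZZ_tri', ZZ_tri'] at h
  exact (trS_inj _ _ (H51.Zar.subset_of_zS_subset (good k) (Or.inr (card_trS T)) h)).symm

theorem incl_pl {l : LT} {c : Fin 4} (h : ZZ k (.inl l) ⊆ ZZ k (.inr (.inr c))) : False := by
  rw [ZZ_pair', ZZ_lin] at h
  exact H51.Zar.zS_not_sub (good k) (Or.inl (card_prS l)) c h

theorem incl_tl {T : TT} {c : Fin 4} (h : ZZ k (.inr (.inl T)) ⊆ ZZ k (.inr (.inr c))) :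
    False := by
  rw [ZZ_tri', ZZ_lin] at h
  exact H51.Zar.zS_not_sub (good k) (Or.inr (card_trS T)) c h

theorem incl_0t {T : TT} (h : ZZ k (.inr (.inr 0)) ⊆ ZZ k (.inr (.inl T))) : False := by
  rw [ZZ_tri', ZZ_lin] at h
  refine H51.Zar.zBp_not_sub (good k) (card_trS T) ?_
  rw [H51.Zar.zBp_eq]
  exact h

theorem incl_ll {c c' : Fin 4} (h : ZZ k (.inr (.inr c)) ⊆ ZZ k (.inr (.inr c'))) :
    H51.Zar.tC c' ⊆ H51.Zar.tC c := by
  have := inf k
  rw [ZZ_lin, ZZ_lin] at h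
  exact H51.Zar.mem_of_zC_subset (good k) h

theorem ZZ_injective : Function.Injective (ZZ k) := by
  rintro (l | T | c) (l' | T' | c') h
  · rw [incl_pp k h.le]
  · exact (incl_pt k h.le).elim
  · exact (incl_pl k h.le).elim
  · exact (incl_pt k h.ge).elim
  · rw [incl_tt k h.le]
  · exact (incl_tl k h.le).elim
  · exact (incl_pl k h.ge).elim
  · exact (incl_tl k h.ge).elim
  · have key : ∀ x y : Fin 4, H51.Zar.tC y ⊆ H51.Zar.tC x → H51.Zar.tC x ⊆ H51.Zar.tC y → x = y := by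
      decide
    rw [key c c' (incl_ll k h.le) (incl_ll k h.ge)]

theorem mem_sing (Q : Fin (6 + 1) → k) : Q ∈ singPts (Fpol k) ↔
    ∃ i j, i ≠ j ∧ MvPolynomial.eval Q (FF k i) = 0 ∧ MvPolynomial.eval Q (FF k j) = 0 := by
  simp only [FF_eq]
  rw [Fpol_eq]
  exact H51.Zar.mem_sing_iff (good k).b_s (good k).c_s Q

theorem ZZ_sing (j : JJ) : ZZ k j ⊆ singPts (Fpol k) := by
  intro Q hQ
  rw [mem_sing]
  match j, hQ with
  | .inl l, hQ => exact ⟨l.1.1, l.1.2, ne_of_lt l.2, hQ.2.1, hQ.2.2⟩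
  | .inr (.inl T), hQ => exact ⟨T.1.1, T.1.2.1, ne_of_lt T.2.1, hQ.2.1, hQ.2.2.1⟩
  | .inr (.inr c), hQ =>
    have h0 : ∀ i, MvPolynomial.eval Q (FF k i) = 0 := by
      intro i
      obtain ⟨-, h0, h1, h3, -⟩ := hQ
      simp [FF, h0, h1, h3]
    exact ⟨0, 1, by decide, h0 0, h0 1⟩

theorem sing_eq : singPts (Fpol k) ∩ openSet (hpol k) = ⋃ j, ⋃ (_ : top j), ZZ k j := by
  ext Q
  constructor
  · rintro ⟨h, hU⟩
    obtain ⟨i, j, hij, hi, hj⟩ := (mem_sing k Q).1 h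
    rcases lt_or_gt_of_ne hij with h1 | h1
    · exact Set.mem_iUnion₂.2 ⟨.inl ⟨(i, j), h1⟩, trivial, hU, hi, hj⟩
    · exact Set.mem_iUnion₂.2 ⟨.inl ⟨(j, i), h1⟩, trivial, hU, hj, hi⟩
  · intro hQ
    obtain ⟨j, hj, hQj⟩ := Set.mem_iUnion₂.1 hQ
    refine ⟨ZZ_sing k j hQj, ?_⟩
    match j, hj, hQj with
    | .inl l, _, hQj => exact hQj.1

theorem top_inj (i j : JJ) (hi : top i) (hj : top j) (h : ZZ k i ⊆ ZZ k j) : i = j := by
  match i, j, hi, hj with
  | .inl l, .inl l', _, _ => rw [incl_pp k h]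

theorem sub_inj (l i j : JJ) (hi : sub l i) (hj : sub l j) (h : ZZ k i ⊆ ZZ k j) : i = j := by
  match l, i, j, hi, hj with
  | .inl l, .inr (.inr c), .inr (.inr c'), hi, hj =>
    have h1 : c = 0 := hi
    have h2 : c' = 0 := hj
    rw [h1, h2]
  | .inl l, .inr (.inr c), .inr (.inl T), hi, hj =>
    have h1 : c = 0 := hi
    rw [h1] at h
    exact (incl_0t k h).elim
  | .inl l, .inr (.inl T), .inr (.inr c), hi, hj => exact (incl_tl k h).elim
  | .inl l, .inr (.inl T), .inr (.inl T'), hi, hj => rw [incl_tt k h]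
  | .inr (.inl T), .inr (.inr c), .inr (.inr c'), hi, hj =>
    have h1 : c = 1 := hi
    have h2 : c' = 1 := hj
    rw [h1, h2]
  | .inr (.inr b), .inr (.inr c), .inr (.inr c'), hi, hj =>
    have key : ∀ b x y : Fin 4, ((b = 0 ∧ x = 1) ∨ (b = 1 ∧ (x = 2 ∨ x = 3))) →
        ((b = 0 ∧ y = 1) ∨ (b = 1 ∧ (y = 2 ∨ y = 3))) → H51.Zar.tC y ⊆ H51.Zar.tC x → x = y := by
      decide
    rw [key b c c' hi hj (incl_ll k h)]

theorem sub_ne (j i : JJ) (h : sub j i) : ¬ ZZ k j ⊆ ZZ k i := by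
  intro h1
  match j, i, h with
  | .inl l, .inr (.inr c), h => exact incl_pl k h1
  | .inl l, .inr (.inl T), h => exact incl_pt k h1
  | .inr (.inl T), .inr (.inr c), h => exact incl_tl k h1
  | .inr (.inr b), .inr (.inr c), h =>
    have key : ∀ b x : Fin 4, ((b = 0 ∧ x = 1) ∨ (b = 1 ∧ (x = 2 ∨ x = 3))) →
        ¬ H51.Zar.tC x ⊆ H51.Zar.tC b := by
      decide
    exact key b c h (incl_ll k h1)

end ZX23

theorem all_top (j : JJ) : top j ∨ ∃ i, sub i j := by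
  match j with
  | .inl l => exact Or.inl trivial
  | .inr (.inl T) =>
    exact Or.inr ⟨.inl ⟨(T.1.1, T.1.2.1), T.2.1⟩, Or.inl ⟨rfl, rfl⟩⟩
  | .inr (.inr c) =>
    have key : ∀ x : Fin 4, x = 0 ∨ x = 1 ∨ x = 2 ∨ x = 3 := by decide
    rcases key c with rfl | rfl | rfl | rfl
    · exact Or.inr ⟨.inl ⟨(0, 1), by decide⟩, rfl⟩
    · exact Or.inr ⟨.inr (.inr 0), Or.inl ⟨rfl, rfl⟩⟩
    · exact Or.inr ⟨.inr (.inr 1), Or.inr ⟨rfl, Or.inl rfl⟩⟩
    · exact Or.inr ⟨.inr (.inr 1), Or.inr ⟨rfl, Or.inr rfl⟩⟩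

end ZX
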