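import Mathlib

set_option linter.style.longLine false

/-! Level 1: the algebra. -/

namespace ZX

universe v

section

variable {R : Type v} [CommRing R]

theorem l1_mul_mem {T ρ ε E s s' : R} (hE : E ∈ Ideal.span {T, ρ, ε}) :
    E * (s * ρ + s' * ε) ∈ Ideal.span {ρ, ε} * Ideal.span {T, ρ, ε} := by
  rw [mul_comm (Ideal.span {ρ, ε})]
  refine Ideal.mul_mem_mul hE ?_
  exact Ideal.mem_span_pair.2 ⟨s, s', rfl⟩

theorem l1_mul_mem' {T ρ ε E h : R} (hE : E ∈ Ideal.span {T, ρ, ε})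
    (hh : h ∈ Ideal.span {ρ, ε}) : E * h ∈ Ideal.span {ρ, ε} * Ideal.span {T, ρ, ε} := by
  rw [mul_comm (Ideal.span {ρ, ε})]
  exact Ideal.mul_mem_mul hE hh

theorem l1_mul_le (T ρ ε : R) :
    Ideal.span {ρ, ε} * Ideal.span {T, ρ, ε} ≤ Ideal.span {ρ, ε} := Ideal.mul_le_left

/-- the difference of two sheets -/
theorem l1_main (T ρ ε z t x0 x1 ai aj bi bj ci cj Ei Ej ri si si' rj sj sj' : R)
    (hEi : Ei ∈ Ideal.span {T, ρ, ε}) (hEj : Ej ∈ Ideal.span {T, ρ, ε})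
    (hT : T = t * x0 - z * x1)
    (hfi : x0 - ai * x1 - ε * (bi * ρ + ci * ε) = ri * T + ε * (si * ρ + si' * ε))
    (hfj : x0 - aj * x1 - ε * (bj * ρ + cj * ε) = rj * T + ε * (sj * ρ + sj' * ε)) :
    ∃ m ∈ Ideal.span {T, ρ, ε}, ∃ κ ∈ Ideal.span {ρ, ε} * Ideal.span {T, ρ, ε},
      (z - aj * t + Ej) * (x0 - ai * x1 - ε * (bi * ρ + ci * ε)) -
        (z - ai * t + Ei) * (x0 - aj * x1 - ε * (bj * ρ + cj * ε)) =
      (ai - aj + m) * T + ε * (-(((z - aj * t) * bi - (z - ai * t) * bj) * ρ +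
        ((z - aj * t) * ci - (z - ai * t) * cj) * ε) + κ) := by
  refine ⟨Ej * ri - Ei * rj, sub_mem (Ideal.mul_mem_right _ _ hEj) (Ideal.mul_mem_right _ _ hEi),
    Ej * (si * ρ + si' * ε) - Ei * (sj * ρ + sj' * ε), sub_mem (l1_mul_mem hEj) (l1_mul_mem hEi),
    ?_⟩
  have e1 : Ej * (x0 - ai * x1 - ε * (bi * ρ + ci * ε)) =
      Ej * (ri * T + ε * (si * ρ + si' * ε)) := by rw [hfi]
  have e2 : Ei * (x0 - aj * x1 - ε * (bj * ρ + cj * ε)) =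
      Ei * (rj * T + ε * (sj * ρ + sj' * ε)) := by rw [hfj]
  rw [add_mul, add_mul, e1, e2, hT]
  ring

/-- normalisation -/
theorem l1_norm (T ρ ε A m nb nc κ w g : R) (hm : m ∈ Ideal.span {T, ρ, ε})
    (hκ : κ ∈ Ideal.span {ρ, ε} * Ideal.span {T, ρ, ε}) (hv : IsUnit (A + m)) (hw : IsUnit w)
    (hg : w * g = (A + m) * T + ε * (-(nb * ρ + nc * ε) + κ)) :
    ∃ d u h : R, IsUnit u ∧ u * d = g ∧ d = T + ε * h ∧
      A * h + (nb * ρ + nc * ε) ∈ Ideal.span {ρ, ε} * Ideal.span {T, ρ, ε} := by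
  obtain ⟨v, hv⟩ := hv
  obtain ⟨w, rfl⟩ := hw
  have hvi : (v : R) * ↑v⁻¹ = 1 := v.mul_inv
  have hwi : (w : R) * ↑w⁻¹ = 1 := w.mul_inv
  refine ⟨T + ε * (↑v⁻¹ * (-(nb * ρ + nc * ε) + κ)), v * ↑w⁻¹,
    ↑v⁻¹ * (-(nb * ρ + nc * ε) + κ), (v * w⁻¹).isUnit, ?_, rfl, ?_⟩
  · have h1 : (v : R) * (T + ε * (↑v⁻¹ * (-(nb * ρ + nc * ε) + κ))) = w * g := by
      rw [hg, ← hv]
      linear_combination (ε * (-(nb * ρ + nc * ε) + κ)) * hvi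
    calc (v : R) * ↑w⁻¹ * (T + ε * (↑v⁻¹ * (-(nb * ρ + nc * ε) + κ)))
        = ↑w⁻¹ * (v * (T + ε * (↑v⁻¹ * (-(nb * ρ + nc * ε) + κ)))) := by ring
      _ = ↑w⁻¹ * (w * g) := by rw [h1]
      _ = g := by linear_combination g * hwi
  · have h2 : A * (↑v⁻¹ * (-(nb * ρ + nc * ε) + κ)) + (nb * ρ + nc * ε) =
        κ - m * (↑v⁻¹ * (-(nb * ρ + nc * ε) + κ)) := by
      have h3 : A = v - m := by rw [hv]; ring
      rw [h3]
      linear_combination (-(nb * ρ + nc * ε) + κ) * hvi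
    rw [h2]
    refine sub_mem hκ (l1_mul_mem' hm ?_)
    refine Ideal.mul_mem_left _ _ (add_mem (neg_mem ?_) (l1_mul_le T ρ ε hκ))
    exact Ideal.mem_span_pair.2 ⟨nb, nc, rfl⟩

end

end ZX
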