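import Pool.Agent.ZX.Defs
import Pool.Agent.ZX.Geo

set_option linter.style.longLine false

/-! ZX21: stratifications from a finite family of irreducible closed sets. -/

namespace ZX

open MvPowerSeries H9.Zar

universe v

section ZX21

variable {k : Type v} [Field k] {r : ℕ}

theorem so_subset_zcl (A : Set (Fin (r + 1) → k)) : A ⊆ zcl A :=
  MvPolynomial.zeroLocus_vanishingIdeal_le A

theorem so_vI_zcl_inter {A U : Set (Fin (r + 1) → k)} (hA : A ⊆ U) :
    MvPolynomial.vanishingIdeal k (zcl A ∩ U) = MvPolynomial.vanishingIdeal k A := by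
  refine le_antisymm
    (MvPolynomial.vanishingIdeal_anti_mono fun x hx => ⟨so_subset_zcl A hx, hA hx⟩) ?_
  exact (MvPolynomial.le_vanishingIdeal_zeroLocus _).trans
    (MvPolynomial.vanishingIdeal_anti_mono fun x hx => hx.1)

theorem so_zcl_mono {A B : Set (Fin (r + 1) → k)} (h : A ⊆ B) : zcl A ⊆ zcl B :=
  MvPolynomial.zeroLocus_anti_mono (MvPolynomial.vanishingIdeal_anti_mono h)

/-- the closure in the open set is closed -/
theorem so_zcl_idem {A U : Set (Fin (r + 1) → k)} : zcl (zcl A ∩ U) ∩ U = zcl A ∩ U := by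
  apply subset_antisymm
  · rintro x ⟨hx, hxU⟩
    refine ⟨?_, hxU⟩
    have h1 : MvPolynomial.vanishingIdeal k A ≤ MvPolynomial.vanishingIdeal k (zcl A ∩ U) :=
      (MvPolynomial.le_vanishingIdeal_zeroLocus _).trans
        (MvPolynomial.vanishingIdeal_anti_mono fun x hx => hx.1)
    exact MvPolynomial.zeroLocus_anti_mono h1 hx
  · intro x hx
    exact ⟨so_subset_zcl _ hx, hx.2⟩

/-- a finite union of closed sets is closed -/
theorem so_closed_union {J : Type*} [Finite J] (U : Set (Fin (r + 1) → k)) (P : J → Prop)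
    (W : J → Set (Fin (r + 1) → k)) (hW : ∀ j, zcl (W j) ∩ U = W j) :
    zcl (⋃ j, ⋃ (_ : P j), W j) ∩ U = ⋃ j, ⋃ (_ : P j), W j := by
  classical
  have := Fintype.ofFinite J
  apply subset_antisymm
  · rintro x ⟨hx, hxU⟩
    by_contra hcon
    have h1 : ∀ j, ∃ f : MvPolynomial (Fin (r + 1)) k,
        (P j → f ∈ MvPolynomial.vanishingIdeal k (W j)) ∧ MvPolynomial.aeval x f ≠ 0 := by
      intro j
      by_cases hj : P j
      · have h2 : x ∉ zcl (W j) := by
          intro h3
          apply hcon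
          rw [Set.mem_iUnion]
          refine ⟨j, ?_⟩
          rw [Set.mem_iUnion]
          exact ⟨hj, by rw [← hW j]; exact ⟨h3, hxU⟩⟩
        unfold zcl at h2
        rw [MvPolynomial.mem_zeroLocus_iff] at h2
        push Not at h2
        obtain ⟨f, hf, hfx⟩ := h2
        exact ⟨f, fun _ => hf, hfx⟩
      · exact ⟨1, fun h => absurd h hj, by simp⟩
    choose f hf hfx using h1
    have h3 : (∏ j, f j) ∈ MvPolynomial.vanishingIdeal k (⋃ j, ⋃ (_ : P j), W j) := by
      rw [MvPolynomial.mem_vanishingIdeal_iff]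
      intro y hy
      rw [Set.mem_iUnion] at hy
      obtain ⟨j, hy⟩ := hy
      rw [Set.mem_iUnion] at hy
      obtain ⟨hj, hy⟩ := hy
      rw [map_prod]
      apply Finset.prod_eq_zero (Finset.mem_univ j)
      exact (MvPolynomial.mem_vanishingIdeal_iff.1 (hf j hj)) y hy
    have h4 := (MvPolynomial.mem_zeroLocus_iff.1 hx) _ h3
    rw [map_prod] at h4
    obtain ⟨j, -, hj⟩ := Finset.prod_eq_zero_iff.1 h4
    exact hfx j hj
  · intro x hx
    refine ⟨so_subset_zcl _ hx, ?_⟩
    rw [Set.mem_iUnion] at hx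
    obtain ⟨j, hx⟩ := hx
    rw [Set.mem_iUnion] at hx
    obtain ⟨hj, hx⟩ := hx
    rw [← hW j] at hx
    exact hx.2

theorem so_nonempty {U Z : Set (Fin (r + 1) → k)} (hZ : IrrClosedIn U Z) : Z.Nonempty := by
  rw [Set.nonempty_iff_ne_empty]
  intro h0
  have h1 := hZ.2
  rw [h0, MvPolynomial.vanishingIdeal_empty] at h1
  exact h1.ne_top rfl

theorem so_zcl_empty : zcl (∅ : Set (Fin (r + 1) → k)) = ∅ := by
  unfold zcl
  rw [MvPolynomial.vanishingIdeal_empty, Set.eq_empty_iff_forall_notMem]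
  intro x hx
  have := (MvPolynomial.mem_zeroLocus_iff.1 hx) 1 trivial
  simp at this

/-- the closure of a set of singular points consists of singular points -/
theorem so_zcl_sing (F : MvPolynomial (Fin (r + 1)) k) {A : Set (Fin (r + 1) → k)}
    (hA : A ⊆ singPts F) : zcl A ⊆ singPts F := by
  intro x hx
  have h1 := MvPolynomial.mem_zeroLocus_iff.1 hx
  refine ⟨?_, fun i => ?_⟩
  · have h2 := h1 F (MvPolynomial.mem_vanishingIdeal_iff.2 fun y hy => by
      have := (hA hy).1
      simpa using this)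
    simpa using h2
  · have h2 := h1 (MvPolynomial.pderiv i F) (MvPolynomial.mem_vanishingIdeal_iff.2 fun y hy => by
      have := (hA hy).2 i
      simpa using this)
    simpa using h2

theorem so_disj (F : MvPolynomial (Fin (r + 1)) k) {x : Fin (r + 1) → k} (h : x ∈ simplePts F)
    (h' : x ∈ singPts F) : False := by
  obtain ⟨-, i, hi⟩ := h
  exact hi (h'.2 i)

/-- the set of the good points of `Z j` -/
def Gd {J : Type} (F : MvPolynomial (Fin (r + 1)) k) (Z : J → Set (Fin (r + 1) → k)) (j : J) :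
    Set (Fin (r + 1) → k) :=
  {Q ∈ Z j | EquisingAt F Q (MvPolynomial.vanishingIdeal k (Z j))}

section facts

variable {J : Type} [Finite J] {F h : MvPolynomial (Fin (r + 1)) k}
  {Z : J → Set (Fin (r + 1) → k)} {sub : J → J → Prop}
  (hirr : ∀ j, IrrClosedIn (openSet h) (Z j))
  (hbad : ∀ j, {Q ∈ Z j | ¬ EquisingAt F Q (MvPolynomial.vanishingIdeal k (Z j))} =
    ⋃ i, ⋃ (_ : sub j i), Z i)
  (hne : ∀ j i, sub j i → ¬ Z j ⊆ Z i)

omit [Finite J] in
include hbad in
theorem so_bad_sub (j : J) : (⋃ i, ⋃ (_ : sub j i), Z i) ⊆ Z j := by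
  rw [← hbad j]
  exact fun x hx => hx.1

omit [Finite J] in
include hbad in
theorem so_gd_eq (j : J) : Gd F Z j = Z j \ ⋃ i, ⋃ (_ : sub j i), Z i := by
  rw [← hbad j]
  ext x
  simp only [Gd, Set.mem_sep_iff, Set.mem_sdiff, not_and, not_not]
  constructor
  · rintro ⟨h1, h2⟩
    exact ⟨h1, fun _ => h2⟩
  · rintro ⟨h1, h2⟩
    exact ⟨h1, h2 h1⟩

omit [Finite J] in
include hbad in
theorem so_sdiff_gd (j : J) : Z j \ Gd F Z j = ⋃ i, ⋃ (_ : sub j i), Z i := by
  rw [so_gd_eq hbad j, Set.sdiff_sdiff_right_self]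
  exact Set.inter_eq_right.2 (so_bad_sub hbad j)

include hirr hbad hne in
theorem so_vI_gd (j : J) : MvPolynomial.vanishingIdeal k (Gd F Z j) =
    MvPolynomial.vanishingIdeal k (Z j) := by
  rw [so_gd_eq hbad j]
  refine zcl_sdiff (openSet h) (Z j) _ (hirr j)
    (so_closed_union _ _ _ fun i => (hirr i).1) (so_bad_sub hbad j) ?_
  intro hcon
  obtain ⟨i, hi, hji⟩ := irr_union (openSet h) (Z j) (hirr j) (sub j) Z (fun i => (hirr i).1) hcon
  exact hne j i hi hji

include hirr hbad hne in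
theorem so_zcl_gd (j : J) : zcl (Gd F Z j) ∩ openSet h = Z j := by
  unfold zcl
  rw [so_vI_gd hirr hbad hne j]
  exact (hirr j).1

omit [Finite J] in
include hbad hne in
theorem so_ssub {j i : J} (hji : sub j i) : Z i ⊂ Z j := by
  refine ⟨fun x hx => so_bad_sub hbad j ?_, hne j i hji⟩
  rw [Set.mem_iUnion]
  refine ⟨i, ?_⟩
  rw [Set.mem_iUnion]
  exact ⟨hji, hx⟩

end facts

theorem strat_of {J : Type} [Finite J] (F h : MvPolynomial (Fin (r + 1)) k)
    (Z : J → Set (Fin (r + 1) → k)) (top : J → Prop) (sub : J → J → Prop)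
    (hirr : ∀ j, IrrClosedIn (openSet h) (Z j)) (hinj : Function.Injective Z)
    (hZs : ∀ j, Z j ⊆ singPts F)
    (hsing : singPts F ∩ openSet h = ⋃ j, ⋃ (_ : top j), Z j)
    (hbad : ∀ j, {Q ∈ Z j | ¬ EquisingAt F Q (MvPolynomial.vanishingIdeal k (Z j))} =
      ⋃ i, ⋃ (_ : sub j i), Z i)
    (htop : ∀ i j, top i → top j → Z i ⊆ Z j → i = j)
    (hsub : ∀ l i j, sub l i → sub l j → Z i ⊆ Z j → i = j)
    (hne : ∀ j i, sub j i → ¬ Z j ⊆ Z i)
    (hall : ∀ j, top j ∨ ∃ i, sub i j) :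
    ∃ (N : ℕ) (E : Fin (N + 1) → Set (Fin (r + 1) → k)), IsFullStratOn F (openSet h) N E := by
  classical
  obtain ⟨m, ⟨e⟩⟩ := Finite.exists_equiv_fin J
  let E : Fin (m + 1) → Set (Fin (r + 1) → k) :=
    Fin.cons (simplePts F ∩ openSet h) fun i => Gd F Z (e.symm i)
  have hE0 : E 0 = simplePts F ∩ openSet h := rfl
  have hEs : ∀ i : Fin m, E i.succ = Gd F Z (e.symm i) := fun i => rfl
  have hEe : ∀ j : J, E (e j).succ = Gd F Z j := fun j => by rw [hEs, e.symm_apply_apply]
  have hsucc : ∀ i : Fin (m + 1), i ≠ 0 → ∃ j : J, i = (e j).succ := by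
    intro i hi
    obtain ⟨i', rfl⟩ := Fin.exists_succ_eq.2 hi
    exact ⟨e.symm i', by rw [e.apply_symm_apply]⟩
  have hgne : ∀ j, (Gd F Z j).Nonempty := by
    intro j
    rw [Set.nonempty_iff_ne_empty]
    intro h0
    have h1 := so_zcl_gd hirr hbad hne j
    rw [h0, so_zcl_empty, Set.empty_inter] at h1
    have h2 := so_nonempty (hirr j)
    rw [← h1] at h2
    exact Set.not_nonempty_empty h2
  have hgs : ∀ j, Gd F Z j ⊆ singPts F := fun j x hx => hZs j hx.1
  -- every `Z j` is a union of strata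
  have wf : WellFounded fun i j : J => Z i ⊂ Z j := by
    have : IsTrans J fun i j : J => Z i ⊂ Z j := ⟨fun x y z hxy hyz => hxy.trans hyz⟩
    have : Std.Irrefl fun i j : J => Z i ⊂ Z j := ⟨fun x hx => (ssubset_irrefl _ hx)⟩
    exact Finite.wellFounded_of_trans_of_irrefl _
  have hun : ∀ j, ∃ s : Set (Fin (m + 1)), Z j = ⋃ i ∈ s, E i := by
    intro j
    induction j using wf.induction with
    | _ j ih =>
      have hch : ∀ i, ∃ s : Set (Fin (m + 1)), sub j i → Z i = ⋃ l ∈ s, E l := by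
        intro i
        by_cases hji : sub j i
        · obtain ⟨s, hs⟩ := ih i (so_ssub hbad hne hji)
          exact ⟨s, fun _ => hs⟩
        · exact ⟨∅, fun h => absurd h hji⟩
      choose s hs using hch
      refine ⟨{(e j).succ} ∪ {l | ∃ i, sub j i ∧ l ∈ s i}, ?_⟩
      have h1 : Z j = Gd F Z j ∪ ⋃ i, ⋃ (_ : sub j i), Z i := by
        rw [← so_sdiff_gd hbad j, Set.union_sdiff_cancel]
        exact fun x hx => hx.1
      rw [h1]
      ext x
      simp only [Set.mem_union, Set.mem_iUnion, Set.mem_singleton_iff, Set.mem_ofPred_eq]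
      constructor
      · rintro (hx | ⟨i, hi, hx⟩)
        · exact ⟨(e j).succ, Or.inl rfl, by rw [hEe]; exact hx⟩
        · rw [hs i hi] at hx
          simp only [Set.mem_iUnion] at hx
          obtain ⟨l, hl, hx⟩ := hx
          exact ⟨l, Or.inr ⟨i, hi, hl⟩, hx⟩
      · rintro ⟨l, hl | ⟨i, hi, hl⟩, hx⟩
        · left
          rw [hl, hEe] at hx
          exact hx
        · right
          refine ⟨i, hi, ?_⟩
          rw [hs i hi]
          simp only [Set.mem_iUnion]
          exact ⟨l, hl, hx⟩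
  have hunP : ∀ P : J → Prop, ∃ s : Set (Fin (m + 1)),
      (⋃ j, ⋃ (_ : P j), Z j) = ⋃ i ∈ s, E i := by
    intro P
    choose s hs using hun
    refine ⟨{l | ∃ j, P j ∧ l ∈ s j}, ?_⟩
    ext x
    simp only [Set.mem_iUnion, Set.mem_ofPred_eq]
    constructor
    · rintro ⟨j, hj, hx⟩
      rw [hs j] at hx
      simp only [Set.mem_iUnion] at hx
      obtain ⟨l, hl, hx⟩ := hx
      exact ⟨l, ⟨j, hj, hl⟩, hx⟩
    · rintro ⟨l, ⟨j, hj, hl⟩, hx⟩
      refine ⟨j, hj, ?_⟩
      rw [hs j]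
      simp only [Set.mem_iUnion]
      exact ⟨l, hl, hx⟩
  refine ⟨m, E, ⟨hE0, ?_, ?_, ?_, ?_⟩, ?_, ?_⟩
  · -- injective
    intro a b hab
    by_cases ha : a = 0
    · by_cases hb : b = 0
      · rw [ha, hb]
      · exfalso
        obtain ⟨j, rfl⟩ := hsucc b hb
        rw [ha, hE0, hEe] at hab
        obtain ⟨x, hx⟩ := hgne j
        exact so_disj F (by rw [← hab] at hx; exact hx.1) (hgs j hx)
    · by_cases hb : b = 0
      · exfalso
        obtain ⟨j, rfl⟩ := hsucc a ha
        rw [hb, hE0, hEe] at hab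
        obtain ⟨x, hx⟩ := hgne j
        exact so_disj F (by rw [hab] at hx; exact hx.1) (hgs j hx)
      · obtain ⟨i, rfl⟩ := hsucc a ha
        obtain ⟨j, rfl⟩ := hsucc b hb
        rw [hEe, hEe] at hab
        have h1 : Z i = Z j := by
          rw [← so_zcl_gd hirr hbad hne i, ← so_zcl_gd hirr hbad hne j, hab]
        rw [hinj h1]
  · intro a ha
    obtain ⟨j, rfl⟩ := hsucc a ha
    rw [hEe, so_zcl_gd hirr hbad hne j]
    exact hirr j
  · intro a ha
    obtain ⟨j, rfl⟩ := hsucc a ha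
    rw [hEe, so_zcl_gd hirr hbad hne j, so_vI_gd hirr hbad hne j]
    rfl
  · intro a ha
    obtain ⟨j, rfl⟩ := hsucc a ha
    rw [hEe, so_zcl_gd hirr hbad hne j]
    rcases hall j with hj | ⟨i, hi⟩
    · left
      rw [hsing]
      exact isCompIn_of_union (openSet h) top Z hirr htop j hj
    · right
      refine ⟨(e i).succ, Fin.succ_ne_zero _, ?_⟩
      rw [hEe, so_zcl_gd hirr hbad hne i, so_sdiff_gd hbad i]
      exact isCompIn_of_union (openSet h) (sub i) Z hirr (hsub i) j hi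
  · obtain ⟨s, hs⟩ := hunP top
    exact ⟨s, by rw [hsing, hs]⟩
  · intro a ha
    obtain ⟨j, rfl⟩ := hsucc a ha
    obtain ⟨s, hs⟩ := hunP (sub j)
    exact ⟨s, by rw [hEe, so_zcl_gd hirr hbad hne j, so_sdiff_gd hbad j, hs]⟩

/-- every `Z j` is the closure of a stratum, in every stratification -/
theorem univ_of {J : Type} [Finite J] (F h : MvPolynomial (Fin (r + 1)) k)
    (Z : J → Set (Fin (r + 1) → k)) (top : J → Prop) (sub : J → J → Prop)
    (hirr : ∀ j, IrrClosedIn (openSet h) (Z j)) (hinj : Function.Injective Z)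
    (hZs : ∀ j, Z j ⊆ singPts F)
    (hsing : singPts F ∩ openSet h = ⋃ j, ⋃ (_ : top j), Z j)
    (hbad : ∀ j, {Q ∈ Z j | ¬ EquisingAt F Q (MvPolynomial.vanishingIdeal k (Z j))} =
      ⋃ i, ⋃ (_ : sub j i), Z i)
    (htop : ∀ i j, top i → top j → Z i ⊆ Z j → i = j)
    (hsub : ∀ l i j, sub l i → sub l j → Z i ⊆ Z j → i = j)
    (hne : ∀ j i, sub j i → ¬ Z j ⊆ Z i)
    (hall : ∀ j, top j ∨ ∃ i, sub i j)
    {N : ℕ} {E : Fin (N + 1) → Set (Fin (r + 1) → k)} (hE : IsFullStratOn F (openSet h) N E)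
    (j : J) : ∃ i, i ≠ 0 ∧ zcl (E i) ∩ openSet h = Z j ∧
      E i = {Q ∈ Z j | EquisingAt F Q (MvPolynomial.vanishingIdeal k (Z j))} := by
  have hEU : ∀ i, i ≠ 0 → E i ⊆ openSet h := by
    intro i hi x hx
    rw [hE.on.char i hi] at hx
    exact hx.1.2
  -- it suffices to find a stratum with the right closure
  have hred : ∀ j i, i ≠ 0 → zcl (E i) ∩ openSet h = Z j →
      ∃ i, i ≠ 0 ∧ zcl (E i) ∩ openSet h = Z j ∧
        E i = {Q ∈ Z j | EquisingAt F Q (MvPolynomial.vanishingIdeal k (Z j))} := by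
    intro j i hi hij
    refine ⟨i, hi, hij, ?_⟩
    have h1 := hE.on.char i hi
    rw [← so_vI_zcl_inter (hEU i hi), hij] at h1
    exact h1
  -- a component of a union of singular strata is the closure of a stratum
  have hcomp : ∀ (B W : Set (Fin (r + 1) → k)) (s : Set (Fin (N + 1))), B = ⋃ i ∈ s, E i →
      B ⊆ singPts F → zcl B ∩ openSet h = B → IsCompIn (openSet h) B W →
      ∃ i, i ≠ 0 ∧ zcl (E i) ∩ openSet h = W := by
    intro B W s hs hBs hBc hW
    have h1 : W ⊆ ⋃ i, ⋃ (_ : i ∈ s), zcl (E i) ∩ openSet h := by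
      intro x hx
      have hxB := hW.2.1 hx
      have hxU : x ∈ openSet h := by
        rw [← hBc] at hxB
        exact hxB.2
      rw [hs] at hxB
      simp only [Set.mem_iUnion] at hxB ⊢
      obtain ⟨i, hi, hx⟩ := hxB
      exact ⟨i, hi, so_subset_zcl _ hx, hxU⟩
    obtain ⟨i, hi, hWi⟩ := irr_union (openSet h) W hW.1 (fun i => i ∈ s)
      (fun i => zcl (E i) ∩ openSet h) (fun i => so_zcl_idem) h1
    have hiB : E i ⊆ B := by
      intro x hx
      rw [hs]
      simp only [Set.mem_iUnion]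
      exact ⟨i, hi, hx⟩
    have hi0 : i ≠ 0 := by
      rintro rfl
      have h0 : E 0 = ∅ := by
        rw [Set.eq_empty_iff_forall_notMem]
        intro x hx
        have h2 := hBs (hiB hx)
        rw [hE.on.zero] at hx
        exact so_disj F hx.1 h2
      rw [h0, so_zcl_empty, Set.empty_inter] at hWi
      obtain ⟨x, hx⟩ := so_nonempty hW.1
      exact hWi hx
    refine ⟨i, hi0, hW.2.2 _ (hE.on.irr i hi0) ?_ hWi⟩
    rw [← hBc]
    exact Set.inter_subset_inter_left _ (so_zcl_mono hiB)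
  have wf : WellFounded fun i j : J => Z j ⊂ Z i := by
    have : IsTrans J fun i j : J => Z j ⊂ Z i := ⟨fun x y z hxy hyz => hyz.trans hxy⟩
    have : Std.Irrefl fun i j : J => Z j ⊂ Z i := ⟨fun x hx => (ssubset_irrefl _ hx)⟩
    exact Finite.wellFounded_of_trans_of_irrefl _
  induction j using wf.induction with
  | _ j ih =>
    rcases hall j with hj | ⟨l, hl⟩
    · obtain ⟨s, hs⟩ := hE.sing
      have h1 : IsCompIn (openSet h) (singPts F ∩ openSet h) (Z j) := by
        rw [hsing]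
        exact isCompIn_of_union (openSet h) top Z hirr htop j hj
      obtain ⟨i, hi, hij⟩ := hcomp _ _ s hs (fun x hx => hx.1) (by
        rw [hsing]
        exact so_closed_union _ _ _ fun i => (hirr i).1) h1
      exact hred j i hi hij
    · obtain ⟨il, hil, h2, h3⟩ := ih l (so_ssub hbad hne hl)
      obtain ⟨s, hs⟩ := hE.bad il hil
      have h4 : (zcl (E il) ∩ openSet h) \ E il = ⋃ i, ⋃ (_ : sub l i), Z i := by
        rw [h2, h3]
        exact so_sdiff_gd hbad l
      rw [h4] at hs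
      obtain ⟨i, hi, hij⟩ := hcomp _ _ s hs
        ((so_bad_sub hbad l).trans (hZs l)) (so_closed_union _ _ _ fun i => (hirr i).1)
        (isCompIn_of_union (openSet h) (sub l) Z hirr (hsub l) j hl)
      exact hred j i hi hij

end ZX21

end ZX
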