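import Pool.Agent.ZX.Incl
import Pool.Agent.ZX.Bad

set_option linter.style.longLine false
set_option linter.unusedSectionVars false

/-! The table of the strata of the example. -/

namespace ZX

open MvPowerSeries H9.Zar

universe v

section

variable (k : Type v) [Field k] [IsAlgClosed k] [CharZero k]

/-! ### the table -/

theorem dense_simple : zcl (simplePts (Fpol k) ∩ openSet (hpol k)) ∩ openSet (hpol k) =
    {Q ∈ openSet (hpol k) | MvPolynomial.eval Q (Fpol k) = 0} := by
  have : Infinite k := Infinite.of_injective (fun n : ℕ => (n : k)) Nat.cast_injective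
  rw [Fpol_eq]
  exact H51.Zar.dense_simple (good k)

theorem bad_ZZ (j : JJ) : {Q ∈ ZZ k j | ¬ EquisingAt (Fpol k) Q
    (MvPolynomial.vanishingIdeal k (ZZ k j))} = ⋃ i, ⋃ (_ : sub j i), ZZ k i := by
  rcases j with l | T | c
  · exact bad_pair k l
  · exact bad_tri k T
  · exact bad_lin k c

theorem irr_ZZ (j : JJ) : IrrClosedIn (openSet (hpol k)) (ZZ k j) := by
  rcases j with l | T | c
  · exact irr_pair k l
  · exact irr_tri k T
  · exact irr_lin k c

theorem table : H51.Zar.IsTable (Fpol k) (openSet (hpol k)) (ZZ k) {j | top j}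
    (fun j => {i | sub j i}) where
  irr := irr_ZZ k
  inj := ZZ_injective k
  dense := dense_simple k
  sing := sing_eq k
  top_inc := fun i hi j hj h => top_inj k i j hi hj h
  bad := bad_ZZ k
  J_inc := fun l i hi j hj h => sub_inj k l i j hi hj h
  J_ne := fun j hj => sub_ne k j j hj (subset_refl _)
  reach := all_top

/-- The stratification of the example exists, and every stratification of the example has two
distinct strata which contain the origin. -/
theorem main : (∃ (N : ℕ) (E : Fin (N + 1) → Set (Fin (6 + 1) → k)),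
      H51.Zar.IsZStrat (Fpol k) (openSet (hpol k)) N E) ∧
    ∀ (N : ℕ) (E : Fin (N + 1) → Set (Fin (6 + 1) → k)),
      H51.Zar.IsZStrat (Fpol k) (openSet (hpol k)) N E →
      ∃ a b, a ≠ b ∧ (0 : Fin (6 + 1) → k) ∈ E a ∧ (0 : Fin (6 + 1) → k) ∈ E b := by
  refine ⟨H51.Zar.exists_strat' (table k), fun N E hE => ?_⟩
  have hU : (0 : Fin (6 + 1) → k) ∈ openSet (hpol k) := (good k).zero_mem
  have hmem : ∀ c : Fin 4, (0 : Fin (6 + 1) → k) ∈ ZZ k (.inr (.inr c)) := by
    intro c
    exact ⟨hU, rfl, rfl, rfl, fun _ => rfl, fun _ => ⟨rfl, rfl⟩, fun _ => ⟨rfl, rfl⟩⟩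
  have hst : ∀ c : Fin 4, (∀ i, ¬ sub (.inr (.inr c)) i) →
      (0 : Fin (6 + 1) → k) ∈ H51.Zar.stratum (Fpol k) (ZZ k (.inr (.inr c))) := by
    intro c hc
    refine ⟨hmem c, ?_⟩
    by_contra hcon
    have h1 : (0 : Fin (6 + 1) → k) ∈ ⋃ i, ⋃ (_ : sub (.inr (.inr c)) i), ZZ k i := by
      rw [← bad_ZZ]
      exact ⟨hmem c, hcon⟩
    obtain ⟨i, hi, -⟩ := Set.mem_iUnion₂.1 h1
    exact hc i hi
  have key : ∀ c : Fin 4, c = 2 ∨ c = 3 → ∀ i, ¬ sub (.inr (.inr c)) i := by
    intro c hc i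
    match i with
    | .inl l => exact fun h => h
    | .inr (.inl T) => exact fun h => h
    | .inr (.inr d) =>
      have key : ∀ b x : Fin 4, (b = 2 ∨ b = 3) →
          ¬ ((b = 0 ∧ x = 1) ∨ (b = 1 ∧ (x = 2 ∨ x = 3))) := by decide
      exact key c d hc
  refine H51.Zar.not_disjoint (table k) (i := .inr (.inr 2)) (j := .inr (.inr 3)) ?_ (Q := 0)
    (hst 2 (key 2 (Or.inl rfl))) (hst 3 (key 3 (Or.inr rfl))) hE
  intro h
  have h2 : (2 : Fin 4) = 3 := Sum.inr_injective (Sum.inr_injective h)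
  exact absurd h2 (by decide)

end

/-- The strata of Zariski's stratification need not be disjoint. -/
theorem final (k : Type v) [Field k] [IsAlgClosed k] [CharZero k] :
    ∃ F h : MvPolynomial (Fin (6 + 1)) k, Squarefree F ∧
      (∃ (N : ℕ) (E : Fin (N + 1) → Set (Fin (6 + 1) → k)),
        H51.Zar.IsZStrat F (openSet h) N E) ∧
      ∀ (N : ℕ) (E : Fin (N + 1) → Set (Fin (6 + 1) → k)),
        H51.Zar.IsZStrat F (openSet h) N E → ∃ a b, a ≠ b ∧ (E a ∩ E b).Nonempty := by
  refine ⟨Fpol k, hpol k, squarefree_Fpol k, (main k).1, fun N E hE => ?_⟩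
  obtain ⟨a, b, hab, ha, hb⟩ := (main k).2 N E hE
  exact ⟨a, b, hab, 0, ha, hb⟩

end ZX
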